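import Pool.Agent.WQ.Ses

/-!
# WQ: consequences of Serre duality (module 7)

`h1_tau`: the trace pairing identifies `Ext¹(Y, τ X)` with the dual of `Hom(X, Y)` (nondegenerate on both
sides, finite dimension).  `h0_tau`: `Ext¹(X, Y) ≅ Ext¹(X, τ τ⁻¹ Y)` is dual to `Hom(τ⁻¹ Y, X) ≅ Hom(Y, τ X)`.
The statements on `h1 (τ X) (τ Y)` follow from these two (no exactness of `τ` on Ext needed).

`pair g b = tr (g b ε⁻¹)` for `g : τ⁻¹ X → Y`, `b ∈ Ext¹(Y, X)`, `ε : τ τ⁻¹ X ≅ X` the counit.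
-/

set_option autoImplicit false

open CategoryTheory CategoryTheory.Limits CategoryTheory.Abelian

namespace Pool.Agent.WQ

universe t v u w

variable {K : Type t} [Field K] {H : Type u} [Category.{v} H] [Abelian H] [Linear K H]
  [HasExt.{w} H]

namespace Serre

variable (𝒮 : Serre K H)

/-- `τ X`. -/
abbrev ta (X : H) : H := 𝒮.τ.functor.obj X

/-- `τ⁻¹ X`. -/
abbrev si (X : H) : H := 𝒮.τ.inverse.obj X

theorem ta_si (X : H) : Nonempty (𝒮.ta (𝒮.si X) ≅ X) := ⟨𝒮.τ.counitIso.app X⟩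

theorem si_ta (X : H) : Nonempty (𝒮.si (𝒮.ta X) ≅ X) := ⟨(𝒮.τ.unitIso.app X).symm⟩

/-- The pairing `Hom(τ⁻¹ X, Y) × Ext¹(Y, X) → K`. -/
noncomputable def pair {X Y : H} (g : 𝒮.si X ⟶ Y) (b : Ext Y X 1) : K :=
  𝒮.tr (𝒮.si X) ((Ext.mk₀ g).comp
    (b.comp (Ext.mk₀ (𝒮.τ.counitIso.inv.app X)) (add_zero 1)) (zero_add 1))

section pairing

variable {X X' Y Y' : H}

theorem pair_add_left (g g' : 𝒮.si X ⟶ Y) (b : Ext Y X 1) :
    𝒮.pair (g + g') b = 𝒮.pair g b + 𝒮.pair g' b := by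
  rw [pair, Ext.mk₀_add, Ext.add_comp, map_add]
  rfl

theorem pair_add_right (g : 𝒮.si X ⟶ Y) (b b' : Ext Y X 1) :
    𝒮.pair g (b + b') = 𝒮.pair g b + 𝒮.pair g b' := by
  rw [pair, Ext.add_comp, Ext.comp_add, map_add]
  rfl

theorem pair_smul_left (c : K) (g : 𝒮.si X ⟶ Y) (b : Ext Y X 1) :
    𝒮.pair (c • g) b = c * 𝒮.pair g b := by
  rw [pair, Ext.mk₀_smul, Ext.smul_comp, map_smul, smul_eq_mul]
  rfl

theorem pair_smul_right (c : K) (g : 𝒮.si X ⟶ Y) (b : Ext Y X 1) :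
    𝒮.pair g (c • b) = c * 𝒮.pair g b := by
  rw [pair, Ext.smul_comp, Ext.comp_smul, map_smul, smul_eq_mul]
  rfl

theorem pair_nondeg_left (g : 𝒮.si X ⟶ Y) (h : ∀ b : Ext Y X 1, 𝒮.pair g b = 0) : g = 0 := by
  refine 𝒮.nondegL _ _ g fun b => ?_
  have h1 := h (b.comp (Ext.mk₀ (𝒮.τ.counitIso.hom.app X)) (add_zero 1))
  rw [pair, Ext.comp_assoc_of_third_deg_zero, Ext.mk₀_comp_mk₀, Iso.hom_inv_id_app] at h1
  have h2 : b.comp (Ext.mk₀ (𝟙 ((𝒮.τ.inverse ⋙ 𝒮.τ.functor).obj X))) (add_zero 1) = b :=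
    Ext.comp_mk₀_id b
  rw [h2] at h1
  exact h1

theorem pair_nondeg_right (b : Ext Y X 1) (h : ∀ g : 𝒮.si X ⟶ Y, 𝒮.pair g b = 0) : b = 0 := by
  have h1 : b.comp (Ext.mk₀ (𝒮.τ.counitIso.inv.app X)) (add_zero 1) = 0 := 𝒮.nondegR _ _ _ h
  have h2 : b = (b.comp (Ext.mk₀ (𝒮.τ.counitIso.inv.app X)) (add_zero 1)).comp
      (Ext.mk₀ (𝒮.τ.counitIso.hom.app X)) (add_zero 1) := by
    rw [Ext.comp_assoc_of_third_deg_zero, Ext.mk₀_comp_mk₀, Iso.inv_hom_id_app]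
    exact (Ext.comp_mk₀_id b).symm
  rw [h2, h1, Ext.zero_comp]

theorem pair_comp (g : 𝒮.si X ⟶ Y) (f : Y ⟶ Y') (b : Ext Y' X 1) :
    𝒮.pair (g ≫ f) b = 𝒮.pair g ((Ext.mk₀ f).comp b (zero_add 1)) := by
  rw [pair, pair, Ext.comp_assoc_of_third_deg_zero, ← Ext.mk₀_comp_mk₀_assoc]

theorem pair_map_comp (r : X ⟶ X') (g : 𝒮.si X' ⟶ Y) (b : Ext Y X 1) :
    𝒮.pair (𝒮.τ.inverse.map r ≫ g) b = 𝒮.pair g (b.comp (Ext.mk₀ r) (add_zero 1)) := by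
  have h1 : 𝒮.τ.counitIso.inv.app X ≫ 𝒮.τ.functor.map (𝒮.τ.inverse.map r) =
      r ≫ 𝒮.τ.counitIso.inv.app X' := (𝒮.τ.counitIso.inv.naturality r).symm
  rw [pair, pair, ← Ext.mk₀_comp_mk₀_assoc, 𝒮.symm, Ext.comp_assoc_of_third_deg_zero,
    Ext.comp_assoc_of_third_deg_zero, Ext.mk₀_comp_mk₀, h1, Ext.comp_assoc_of_third_deg_zero,
    Ext.mk₀_comp_mk₀]

end pairing

section dims

namespace SerreB

/-- the trace pairing as a bilinear map -/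
noncomputable def bil (X Y : H) : (X ⟶ Y) →ₗ[K] Ext Y (𝒮.ta X) 1 →ₗ[K] K :=
  LinearMap.mk₂ K (fun f b => 𝒮.tr X ((Ext.mk₀ f).comp b (zero_add 1)))
    (fun f f' b => by rw [Ext.mk₀_add, Ext.add_comp, map_add])
    (fun c f b => by rw [Ext.mk₀_smul, Ext.smul_comp, map_smul])
    (fun f b b' => by rw [Ext.comp_add, map_add])
    (fun c f b => by rw [Ext.comp_smul, map_smul])

/-- dimensions in a nondegenerate pairing -/
theorem finrank_eq {V W : Type*} [AddCommGroup V] [AddCommGroup W] [Module K V] [Module K W]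
    [Module.Finite K V] [Module.Finite K W] (B : V →ₗ[K] W →ₗ[K] K)
    (hl : ∀ v, (∀ w, B v w = 0) → v = 0) (hr : ∀ w, (∀ v, B v w = 0) → w = 0) :
    Module.finrank K W = Module.finrank K V := by
  apply le_antisymm
  · rw [← Subspace.dual_finrank_eq (K := K) (V := V)]
    refine LinearMap.finrank_le_finrank_of_injective (f := B.flip) ?_
    rw [← LinearMap.ker_eq_bot, LinearMap.ker_eq_bot']
    intro w hw
    exact hr w fun v => by rw [← LinearMap.flip_apply, hw, LinearMap.zero_apply]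
  · rw [← Subspace.dual_finrank_eq (K := K) (V := W)]
    refine LinearMap.finrank_le_finrank_of_injective (f := B) ?_
    rw [← LinearMap.ker_eq_bot, LinearMap.ker_eq_bot']
    intro v hv
    exact hl v fun w => by rw [hv, LinearMap.zero_apply]

end SerreB

variable [Her K H] (X Y : H)

theorem h1_tau : h1 K Y (𝒮.ta X) = h0 K X Y :=
  SerreB.finrank_eq (SerreB.bil 𝒮 X Y) (fun f hf => 𝒮.nondegL X Y f hf)
    (fun b hb => 𝒮.nondegR X Y b hb)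

/-- `τ` is an equivalence -/
theorem h0_tau_tau : h0 K (𝒮.ta X) (𝒮.ta Y) = h0 K X Y := by
  have := 𝒮.add
  have := 𝒮.lin
  refine (LinearEquiv.finrank_eq (LinearEquiv.ofBijective
    (𝒮.τ.functor.mapLinearMap K (X := X) (Y := Y)) ⟨?_, ?_⟩)).symm
  · intro f g h
    exact 𝒮.τ.functor.map_injective h
  · intro f
    exact 𝒮.τ.functor.map_surjective f

theorem h0_tau : h0 K Y (𝒮.ta X) = h1 K X Y := by
  have e1 : h1 K X Y = h1 K X (𝒮.ta (𝒮.si Y)) :=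
    h1_iso K (Iso.refl X) (𝒮.τ.counitIso.app Y).symm
  have e2 : h0 K (𝒮.ta (𝒮.si Y)) (𝒮.ta X) = h0 K Y (𝒮.ta X) :=
    h0_iso K (𝒮.τ.counitIso.app Y) (Iso.refl (𝒮.ta X))
  rw [e1, 𝒮.h1_tau, ← 𝒮.h0_tau_tau (𝒮.si Y) X, e2]

theorem chi_tau : chi K Y (𝒮.ta X) = - chi K X Y := by
  rw [chi, chi, 𝒮.h1_tau, 𝒮.h0_tau]; ring

theorem Z1_tau : Z1 Y (𝒮.ta X) ↔ Z0 X Y := by
  rw [← h1_eq_zero K, ← h0_eq_zero K, 𝒮.h1_tau]

theorem Z0_tau : Z0 Y (𝒮.ta X) ↔ Z1 X Y := by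
  rw [← h1_eq_zero K, ← h0_eq_zero K, 𝒮.h0_tau]

theorem h1_tau_tau : h1 K (𝒮.ta X) (𝒮.ta Y) = h1 K X Y := by
  rw [𝒮.h1_tau, 𝒮.h0_tau]

/-- Serre duality with `τ⁻¹`. -/
theorem h1_si : h1 K (𝒮.si X) Y = h0 K Y X := by
  rw [← 𝒮.h0_tau]
  exact h0_iso K (Iso.refl Y) (𝒮.τ.counitIso.app X)

theorem h0_si : h0 K (𝒮.si X) Y = h1 K Y X := by
  rw [← 𝒮.h1_tau]
  exact h1_iso K (Iso.refl Y) (𝒮.τ.counitIso.app X)

theorem h0_si_si : h0 K (𝒮.si X) (𝒮.si Y) = h0 K X Y := by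
  rw [← 𝒮.h0_tau_tau]
  exact h0_iso K (𝒮.τ.counitIso.app X) (𝒮.τ.counitIso.app Y)

theorem h1_si_si : h1 K (𝒮.si X) (𝒮.si Y) = h1 K X Y := by
  rw [𝒮.h1_si, 𝒮.h0_si]

theorem Z1_si : Z1 (𝒮.si X) Y ↔ Z0 Y X := by
  rw [← h1_eq_zero K, ← h0_eq_zero K, 𝒮.h1_si]

theorem Z0_si : Z0 (𝒮.si X) Y ↔ Z1 Y X := by
  rw [← h1_eq_zero K, ← h0_eq_zero K, 𝒮.h0_si]

end dims

end Serre

end Pool.Agent.WQ
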