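import Pool.Agent.WQ.Top
import Pool.Agent.WQ.SerreB

/-!
# WQ: degree one arrows, dual side (module 11)

`cogen`: dual of `CT.gen`.  `Q` with `Hom(Q, T) = 0 = Ext¹(Q, T)`: `Ext¹(T, τ Q) = 0 = Hom(T, τ Q)`, so
`τ Q = 0` by `CT.orth_zero`.  For `X` with `Ext¹(X, T) = 0`: left approximation `X → ⨁T`, kernel `N`, image
`J`: `Ext¹(J, T) = 0` (subobject of `⨁T`), `Hom(J, T) → Hom(X, T)` is onto, so `Hom(X, T) → Hom(N, T)` is zero
and onto: `Hom(N, T) = 0`, `Ext¹(N, T) = 0`, `N = 0`.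

`A1 T i j`: maps `τ⁻² T j → T i` annihilated by radical maps on both sides.  Radical maps
`T k → T j` generate the kernel `R` of `π : T j → E j` (`SA`), so maps `τ⁻² T j → T i` killed by them factor
through `τ⁻² E j`; in case `SB` they are jointly epi (`SB.joint_epi`, apply `τ²`), so `A1 = 0`.
On the other side let `SB K T i E`: `F = τ⁻¹ E` has `Hom(F, T k) = K` for `k = i`, else `0`,
`Ext¹(F, T) = 0`; `κ : F → T i` nonzero is mono (`cogen`), `W = T i / F` has `Ext¹(W, T) = 0`, so `W` is cogenerated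
by `T` and `F` is the joint kernel of the radical maps out of `T i` (`SB.joint_ker`).
`SA.joint_mono`: `SA K T i E`: the radical maps out of `T i` are jointly mono.  (Let `F → T i` be their joint
kernel, `F ≠ 0`: `F ⊆ T i` so `Ext¹(F, T) = 0`; `Ext¹(T i / F, T) = 0` since `T i / F ⊆ ⨁T`, so
`Hom(T i, T k) → Hom(F, T k)` is onto: `Hom(F, T k) = 0` for `k ≠ i` and `Hom(F, T i) = K`.  Then `τ F` satisfies
`SB K T i`, contradiction to `SB.joint_epi`: the nonzero `π : T i → E` kills all radical maps into `T i`.)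
Hence `A1 T i j = 0` unless `S j = E j`, `S i = E i [1]`, and then
`A1 T i j ≅ Hom(τ⁻² E j, τ⁻¹ E i) ≅ D Ext¹(E i, E j)`, dimension `D.h 2 i j`.
-/

set_option autoImplicit false

open CategoryTheory CategoryTheory.Limits CategoryTheory.Abelian

namespace Pool.Agent.WQ

attribute [local instance] Abelian.hasFiniteBiproducts

universe t v u w x

variable {K : Type t} [Field K] {H : Type u} [Category.{v} H] [Abelian H] [Linear K H]
  [HasExt.{w} H] {I : Type x}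

/-- Maps `τ⁻² T j → T i` annihilated by the radical maps on both sides. -/
def A1 (𝒮 : Serre K H) (T : I → H) (i j : I) : Submodule K (𝒮.si (𝒮.si (T j)) ⟶ T i) where
  carrier := {g | (∀ (k : I) (f : T i ⟶ T k), (i = k → f = 0) → g ≫ f = 0) ∧
    ∀ (k : I) (r : T k ⟶ T j), (k = j → r = 0) →
      𝒮.τ.inverse.map (𝒮.τ.inverse.map r) ≫ g = 0}
  add_mem' := by
    rintro a b ⟨ha, ha'⟩ ⟨hb, hb'⟩
    refine ⟨fun k f hf => ?_, fun k r hr => ?_⟩
    · rw [Preadditive.add_comp, ha k f hf, hb k f hf, add_zero]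
    · rw [Preadditive.comp_add, ha' k r hr, hb' k r hr, add_zero]
  zero_mem' := ⟨fun _ _ _ => Limits.zero_comp, fun _ _ _ => Limits.comp_zero⟩
  smul_mem' := by
    rintro c a ⟨ha, ha'⟩
    refine ⟨fun k f hf => ?_, fun k r hr => ?_⟩
    · rw [Linear.smul_comp, ha k f hf, smul_zero]
    · rw [Linear.comp_smul, ha' k r hr, smul_zero]

variable [Her K H] [Fintype I] (𝒮 : Serre K H) {T : I → H}
include 𝒮

omit [Fintype I] [Her K H] in
theorem Ann.isZero_of_ta {Q : H} (h : IsZero (𝒮.ta Q)) : IsZero Q := by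
  have := 𝒮.add
  rw [IsZero.iff_id_eq_zero] at h ⊢
  apply 𝒮.τ.functor.map_injective
  rw [𝒮.τ.functor.map_id, 𝒮.τ.functor.map_zero]
  exact h

theorem CT.orth_zero' (hT : CT K T) {Q : H} (h : ∀ i, Z0 Q (T i)) (h' : ∀ i, Z1 Q (T i)) :
    IsZero Q := by
  apply Ann.isZero_of_ta 𝒮
  exact hT.orth_zero (fun i => (𝒮.Z0_tau Q (T i)).2 (h' i)) fun i => (𝒮.Z1_tau Q (T i)).2 (h i)

theorem CT.cogen (hT : CT K T) {X Z : H} (h : ∀ i, Z1 X (T i)) (g : Z ⟶ X)
    (hg : ∀ (i : I) (u : X ⟶ T i), g ≫ u = 0) : g = 0 := by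
  obtain ⟨n, f, p, hp, -⟩ := left_approx K T X
  obtain ⟨N, J, Q, i, π, ι, q, w₁, w₂, hS₁, hS₂, hfac⟩ := factor p
  have hP : ∀ j, Z1 (⨁ fun k => T (f k)) (T j) := fun j =>
    (Z1_sum_left _ _).2 fun k => hT.rigid _ _
  have hJ : ∀ j, Z1 J (T j) := fun j => con_Z1_1 K hS₂ (hP j)
  have hN0 : ∀ j, Z0 N (T j) := by
    intro j u
    obtain ⟨v, hv⟩ := (extend_iff hS₁ u).2 (hJ j _)
    obtain ⟨w, hw⟩ := hp j v
    have h1 : i ≫ v = u := hv
    rw [← h1, ← hw, ← hfac, ← Category.assoc, ← Category.assoc, w₁, zero_comp, zero_comp]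
  have hN1 : ∀ j, Z1 N (T j) := fun j => con_Z1_1 K hS₁ (h j)
  have hN : IsZero N := CT.orth_zero' 𝒮 hT hN0 hN1
  have hπ : Mono π := hS₁.exact.mono_g (hN.eq_of_src _ _)
  have hι : Mono ι := hS₂.mono_f
  have hp' : Mono p := by
    rw [← hfac]
    exact mono_comp π ι
  have h1 : g ≫ p = 0 := by
    apply biproduct.hom_ext
    intro k
    rw [Category.assoc, hg, zero_comp]
  exact (cancel_mono p).1 (by rw [h1, zero_comp])

omit 𝒮 [Fintype I] [Her K H] [HasExt.{w} H] in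
/-- maps in a one-dimensional space of morphisms -/
theorem Ann.smul_of_one {X Y : H} (h : h0 K X Y = 1) {u : X ⟶ Y} (hu : u ≠ 0) (v : X ⟶ Y) :
    ∃ c : K, v = c • u := by
  obtain ⟨c, hc⟩ := (finrank_eq_one_iff_of_nonzero' u hu).1 h v
  exact ⟨c, hc.symm⟩

omit 𝒮 [Fintype I] in
theorem Ann.exists_ne {X Y : H} (h : h0 K X Y = 1) : ∃ u : X ⟶ Y, u ≠ 0 := by
  by_contra hcon
  push Not at hcon
  have h1 := (h0_eq_zero K).2 (show Z0 X Y from hcon)
  rw [h] at h1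
  exact one_ne_zero h1

omit 𝒮 [Fintype I] [Her K H] [HasExt.{w} H] [Linear K H] in
/-- the short exact sequence of a monomorphism -/
theorem Ann.exists_coker {X Y : H} (κ : X ⟶ Y) [Mono κ] : ∃ (W : H) (q : Y ⟶ W) (w₀ : κ ≫ q = 0),
    (ShortComplex.mk κ q w₀).ShortExact :=
  ⟨cokernel κ, cokernel.π κ, cokernel.condition κ,
    { exact := ShortComplex.exact_cokernel κ
      mono_f := inferInstance
      epi_g := inferInstance }⟩

theorem SB.joint_ker (hT : CT K T) {i : I} {E : H} (h : SB K T i E) :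
    ∃ κ : 𝒮.si E ⟶ T i, Mono κ ∧ (∀ (k : I) (f : T i ⟶ T k), (i = k → f = 0) → κ ≫ f = 0) ∧
      ∀ (Z : H) (g : Z ⟶ T i), (∀ (k : I) (f : T i ⟶ T k), (i = k → f = 0) → g ≫ f = 0) →
        ∃ g' : Z ⟶ 𝒮.si E, g' ≫ κ = g := by
  have hF1 : ∀ k, Z1 (𝒮.si E) (T k) := fun k => (𝒮.Z1_si E (T k)).2 (h.z0 k)
  have hF0 : ∀ k, k ≠ i → Z0 (𝒮.si E) (T k) := fun k hk => (𝒮.Z0_si E (T k)).2 (h.z1 k hk)
  have hFi : h0 K (𝒮.si E) (T i) = 1 := by rw [𝒮.h0_si, h.one]
  obtain ⟨κ, hκ⟩ := Ann.exists_ne hFi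
  have hrad : ∀ (k : I) (f : T i ⟶ T k), (i = k → f = 0) → κ ≫ f = 0 := by
    intro k f hf
    by_cases hk : k = i
    · rw [hf hk.symm, comp_zero]
    · exact hF0 k hk _
  have hmono : Mono κ := by
    apply Preadditive.mono_of_cancel_zero
    intro Z g hg
    apply CT.cogen 𝒮 hT hF1
    intro k u
    by_cases hk : k = i
    · subst hk
      obtain ⟨c, rfl⟩ := Ann.smul_of_one hFi hκ u
      rw [Linear.comp_smul, hg, smul_zero]
    · rw [hF0 k hk u, comp_zero]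
  refine ⟨κ, hmono, hrad, ?_⟩
  obtain ⟨W, q, w₀, hS⟩ := Ann.exists_coker κ
  have hW : ∀ k, Z1 W (T k) := by
    intro k e
    obtain ⟨u, hu⟩ := conn_of_g_comp hS e (hT.rigid _ _ _)
    rw [← hu]
    rw [← extend_iff hS]
    by_cases hk : k = i
    · subst hk
      obtain ⟨c, rfl⟩ := Ann.smul_of_one hFi hκ u
      exact ⟨c • 𝟙 _, by simp⟩
    · exact ⟨0, by rw [comp_zero]; exact (hF0 k hk u).symm⟩
  intro Z g hg
  have h1 : g ≫ q = 0 := by
    apply CT.cogen 𝒮 hT hW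
    intro k u
    rw [Category.assoc]
    apply hg
    intro hik
    subst hik
    obtain ⟨c, hc⟩ := scalar_of_one K (hT.one i) (q ≫ u)
    have h2 : κ ≫ q ≫ u = 0 := by
      rw [← Category.assoc, w₀, zero_comp]
    rw [hc, Linear.comp_smul, Category.comp_id] at h2
    rcases smul_eq_zero.1 h2 with h3 | h3
    · rw [hc, h3, zero_smul]
    · exact absurd h3 hκ
  exact ⟨hS.exact.lift g h1, hS.exact.lift_f g h1⟩

theorem SA.joint_mono (hT : CT K T) {i : I} {E : H} (h : SA K T i E) (Z : H) (g : Z ⟶ T i)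
    (hg : ∀ (k : I) (f : T i ⟶ T k), (i = k → f = 0) → g ≫ f = 0) : g = 0 := by
  obtain ⟨n, f, p, hp, -⟩ := left_approx K (fun k : {k : I // k ≠ i} => T k.1) (T i)
  obtain ⟨F, J, Q, i₁, π, ι, q, w₁, w₂, hS₁, hS₂, hfac⟩ := factor p
  have hP : ∀ j, Z1 (⨁ fun k => T (f k).1) (T j) := fun j =>
    (Z1_sum_left _ _).2 fun k => hT.rigid _ _
  have hJ : ∀ j, Z1 J (T j) := fun j => con_Z1_1 K hS₂ (hP j)
  have hF1 : ∀ j, Z1 F (T j) := fun j => con_Z1_1 K hS₁ (hT.rigid _ _)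
  have hext : ∀ (j : I) (u : F ⟶ T j), ∃ v : T i ⟶ T j, i₁ ≫ v = u := fun j u =>
    (extend_iff hS₁ u).2 (hJ j _)
  have hF0 : ∀ j, j ≠ i → Z0 F (T j) := by
    intro j hj u
    obtain ⟨v, hv⟩ := hext j u
    obtain ⟨w, hw⟩ := hp ⟨j, hj⟩ v
    have hw' : p ≫ w = v := hw
    rw [← hv, ← hw', ← hfac, ← Category.assoc, ← Category.assoc, w₁, zero_comp, zero_comp]
  have hmono : Mono i₁ := hS₁.mono_f
  have hFz : IsZero F := by
    by_contra hF
    have hi₁ : i₁ ≠ 0 := by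
      intro h1
      apply hF
      rw [IsZero.iff_id_eq_zero]
      apply (cancel_mono i₁).1
      rw [h1, comp_zero, comp_zero]
    have hFi : h0 K F (T i) = 1 := by
      refine (finrank_eq_one_iff_of_nonzero' i₁ hi₁).2 fun u => ?_
      obtain ⟨v, hv⟩ := hext i u
      obtain ⟨c, rfl⟩ := scalar_of_one K (hT.one i) v
      exact ⟨c, by rw [← hv, Linear.comp_smul, Category.comp_id]⟩
    have hSB : SB K T i (𝒮.ta F) :=
      { one := by rw [𝒮.h1_tau, hFi]
        z1 := fun k hk => (𝒮.Z1_tau F (T k)).2 (hF0 k hk)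
        z0 := fun k => (𝒮.Z0_tau F (T k)).2 (hF1 k) }
    obtain ⟨ϖ, hϖ⟩ := Ann.exists_ne h.one
    exact hϖ (hSB.joint_epi hT ϖ fun k hk u => h.z0 k hk _)
  have hπ : Mono π := hS₁.exact.mono_g (hFz.eq_of_src _ _)
  have hι : Mono ι := hS₂.mono_f
  have hp' : Mono p := by
    rw [← hfac]
    exact mono_comp π ι
  have h1 : g ≫ p = 0 := by
    apply biproduct.hom_ext
    intro k
    rw [Category.assoc, zero_comp]
    exact hg _ _ fun hk => absurd hk.symm (f k).2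
  exact (cancel_mono p).1 (by rw [h1, zero_comp])

omit [Her K H] [Fintype I] in
/-- Morphisms out of `τ⁻² X`. -/
theorem Ann.exists_map {X Y : H} (g : 𝒮.si (𝒮.si X) ⟶ 𝒮.si Y) : ∃ g₂ : X ⟶ 𝒮.ta Y,
    g = 𝒮.τ.inverse.map (𝒮.τ.inverse.map g₂) ≫ 𝒮.τ.inverse.map (𝒮.τ.unitIso.inv.app Y) := by
  obtain ⟨a, ha⟩ := 𝒮.τ.inverse.map_surjective g
  obtain ⟨b, hb⟩ := 𝒮.τ.inverse.map_surjective (a ≫ 𝒮.τ.unitIso.hom.app Y)
  refine ⟨b, ?_⟩
  rw [hb, ← 𝒮.τ.inverse.map_comp, Category.assoc]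
  rw [show 𝒮.τ.unitIso.hom.app Y ≫ 𝒮.τ.unitIso.inv.app Y = 𝟙 _ from
    𝒮.τ.unitIso.hom_inv_id_app Y]
  rw [← ha]
  congr 1
  exact (Category.comp_id a).symm

omit [Her K H] [Fintype I] in
/-- Maps `τ⁻² T → τ⁻¹ Y` killed by `τ⁻² r`. -/
theorem Ann.map_zero {X X' Y : H} (r : X' ⟶ X) (g₂ : X ⟶ 𝒮.ta Y)
    (h : 𝒮.τ.inverse.map (𝒮.τ.inverse.map r) ≫ 𝒮.τ.inverse.map (𝒮.τ.inverse.map g₂) ≫
      𝒮.τ.inverse.map (𝒮.τ.unitIso.inv.app Y) = 0) : r ≫ g₂ = 0 := by
  apply 𝒮.τ.inverse.map_injective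
  apply 𝒮.τ.inverse.map_injective
  rw [Functor.map_comp, Functor.map_comp, Functor.map_zero, Functor.map_zero]
  rw [← Category.assoc] at h
  rw [← cancel_mono (𝒮.τ.inverse.map (𝒮.τ.unitIso.inv.app Y)), h, zero_comp]

theorem A1_dim (hT : CT K T) (D : Dual K T) {i j : I} (hij : i ≠ j) :
    Module.finrank K (A1 𝒮 T i j) = D.h 2 i j := by
  rcases D.spec i with ⟨hai, hi⟩ | ⟨hai, hi⟩
  · -- `A1 = 0`
    have h1 : A1 𝒮 T i j = ⊥ := by
      rw [eq_bot_iff]
      intro g hg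
      exact hi.joint_mono 𝒮 hT _ g hg.1
    rw [h1, finrank_bot]
    unfold Dual.h
    rcases D.spec j with ⟨haj, -⟩ | ⟨haj, -⟩ <;> rw [hai, haj] <;> norm_num
  obtain ⟨κ, hκm, hκ, hker⟩ := hi.joint_ker 𝒮 hT
  rcases D.spec j with ⟨haj, hj⟩ | ⟨haj, hj⟩
  · -- the main case
    obtain ⟨R, ρ, π, w₀, hS, hR⟩ := hj.rad hT
    have hπ : Epi π := hS.epi_g
    let L : (𝒮.si (𝒮.si (D.E j)) ⟶ 𝒮.si (D.E i)) →ₗ[K] (𝒮.si (𝒮.si (T j)) ⟶ T i) :=
      (Linear.rightComp K _ κ).comp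
        (Linear.leftComp K _ (𝒮.τ.inverse.map (𝒮.τ.inverse.map π)))
    have hLa : ∀ φ, L φ = (𝒮.τ.inverse.map (𝒮.τ.inverse.map π) ≫ φ) ≫ κ := fun φ => rfl
    have hL : Function.Injective L := by
      intro φ φ' hφ
      rw [hLa, hLa, cancel_mono, cancel_epi] at hφ
      exact hφ
    have hrange : LinearMap.range L = A1 𝒮 T i j := by
      apply le_antisymm
      · rintro _ ⟨φ, rfl⟩
        rw [hLa]
        refine ⟨fun k f hf => ?_, fun k r hr => ?_⟩
        · rw [Category.assoc, hκ k f hf, comp_zero]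
        · have h1 : r ≫ π = 0 := by
            by_cases hk : k = j
            · rw [hr hk, zero_comp]
            · exact hj.z0 k hk _
          rw [← Category.assoc, ← Category.assoc, ← Functor.map_comp, ← Functor.map_comp, h1,
            Functor.map_zero, Functor.map_zero, zero_comp, zero_comp]
      · intro g hg
        obtain ⟨g', rfl⟩ := hker _ g hg.1
        obtain ⟨g₂, rfl⟩ := Ann.exists_map 𝒮 g'
        have h1 : ∀ (k : I) (r : T k ⟶ T j), (k = j → r = 0) → r ≫ g₂ = 0 := by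
          intro k r hr
          apply Ann.map_zero 𝒮
          apply (cancel_mono κ).1
          rw [zero_comp, Category.assoc, Category.assoc]
          have := hg.2 k r hr
          rw [Category.assoc] at this
          exact this
        have h2 : ρ ≫ g₂ = 0 := by
          apply hT.gen hR.z1
          intro l u
          rw [← Category.assoc]
          apply h1
          rintro rfl
          rw [hR.z0 u, zero_comp]
        refine ⟨𝒮.τ.inverse.map (𝒮.τ.inverse.map (hS.exact.desc g₂ h2)) ≫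
          𝒮.τ.inverse.map (𝒮.τ.unitIso.inv.app _), ?_⟩
        have h3 : π ≫ hS.exact.desc g₂ h2 = g₂ := hS.exact.g_desc g₂ h2
        have h4 : 𝒮.τ.inverse.map (𝒮.τ.inverse.map π) ≫
            𝒮.τ.inverse.map (𝒮.τ.inverse.map (hS.exact.desc g₂ h2)) =
            𝒮.τ.inverse.map (𝒮.τ.inverse.map g₂) := by
          rw [← Functor.map_comp, ← Functor.map_comp, h3]
        rw [hLa, ← Category.assoc (𝒮.τ.inverse.map (𝒮.τ.inverse.map π)), h4]
    rw [← hrange, LinearMap.finrank_range_of_inj hL]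
    have h4 : h0 K (𝒮.si (𝒮.si (D.E j))) (𝒮.si (D.E i)) = h1 K (D.E i) (D.E j) := by
      rw [𝒮.h0_si, 𝒮.h1_si_si]
    unfold Dual.h
    rw [hai, haj]
    norm_num
    exact h4
  · -- `A1 = 0`
    have h1 : A1 𝒮 T i j = ⊥ := by
      rw [eq_bot_iff]
      intro g hg
      obtain ⟨g', rfl⟩ := hker _ g hg.1
      obtain ⟨g₂, rfl⟩ := Ann.exists_map 𝒮 g'
      have h2 : g₂ = 0 := by
        apply hj.joint_epi hT
        intro k hk r
        apply Ann.map_zero 𝒮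
        apply (cancel_mono κ).1
        rw [zero_comp, Category.assoc, Category.assoc]
        have := hg.2 k r fun h => absurd h hk
        rw [Category.assoc] at this
        exact this
      rw [h2, Functor.map_zero, Functor.map_zero, zero_comp, zero_comp]
      exact Submodule.zero_mem _
    rw [h1, finrank_bot]
    unfold Dual.h
    rw [hai, haj]
    norm_num

end Pool.Agent.WQ
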