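import Mathlib

/-!
# The cluster category of a hereditary category with Serre duality: definitions for the statements

`H` is an abelian `K`-linear category with Mathlib's Ext groups.  For `H = coh X`, `X` a weighted
projective line: `Hered` and `SerreDuality` are Geigle-Lenzing, `EnoughTilting` holds with the canonical
tilting bundle twisted by a sufficiently negative line bundle (Serre vanishing), the tubes are indexed by
the points of the projective line and the ranks different from one are the weights.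
-/

set_option autoImplicit false

open CategoryTheory CategoryTheory.Limits CategoryTheory.Abelian

namespace Pool.Agent.WQ.Pub

universe t v u w x

section

variable {H : Type u} [Category.{v} H] [Abelian H] [HasExt.{w} H]

/-- The product `Hom(X, Y) × Ext¹(Y, Z) → Ext¹(X, Z)`. -/
noncomputable def lmul {X Y Z : H} (f : X ⟶ Y) (b : Ext Y Z 1) : Ext X Z 1 :=
  (Ext.mk₀ f).comp b (zero_add 1)

/-- The product `Ext¹(X, Y) × Hom(Y, Z) → Ext¹(X, Z)`. -/
noncomputable def rmul {X Y Z : H} (a : Ext X Y 1) (g : Y ⟶ Z) : Ext X Z 1 :=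
  a.comp (Ext.mk₀ g) (add_zero 1)

variable (H) in
/-- Every object `X` admits a tilting object `T₀ = ⨁ T₀ i` (rigid, and `Hom(T₀, Y) = 0 =
Ext¹(T₀, Y)` only for `Y = 0`) with `Ext¹(T₀, X) = 0`. -/
def EnoughTilting : Prop :=
  ∀ X : H, ∃ (n : ℕ) (T₀ : Fin n → H), (∀ i j, ∀ e : Ext (T₀ i) (T₀ j) 1, e = 0) ∧
    (∀ Y : H, (∀ i, ∀ f : T₀ i ⟶ Y, f = 0) → (∀ i, ∀ e : Ext (T₀ i) Y 1, e = 0) → IsZero Y) ∧
    ∀ i, ∀ e : Ext (T₀ i) X 1, e = 0

end

section

variable (K : Type t) [Field K] (H : Type u) [Category.{v} H] [Abelian H] [Linear K H]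
  [HasExt.{w} H]

/-- Hom-finite, Ext-finite, hereditary, noetherian. -/
structure Hered : Prop where
  finHom : ∀ X Y : H, Module.Finite K (X ⟶ Y)
  finExt : ∀ X Y : H, Module.Finite K (Ext X Y 1)
  hered : ∀ (X Y : H) (e : Ext X Y 2), e = 0
  noeth : ∀ X : H, IsNoetherianObject X

variable {H} in
/-- Linear forms `tr X : Ext¹(X, τ X) → K`, for all `X`. -/
def TraceForms (τ : H ≌ H) : Type (max t u w) :=
  ∀ X : H, Ext X (τ.functor.obj X) 1 →ₗ[K] K

variable {K H} in
/-- The pairing `Hom(X, Y) × Ext¹(Y, τ X) → Ext¹(X, τ X) → K`, `(f, b) ↦ tr (f b)`. -/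
noncomputable def pairing {τ : H ≌ H} (tr : TraceForms K τ) {X Y : H} (f : X ⟶ Y)
    (b : Ext Y (τ.functor.obj X) 1) : K :=
  tr X (lmul f b)

/-- Serre duality: a `K`-linear autoequivalence `τ` and trace forms `tr X : Ext¹(X, τ X) → K` such
that the composition pairings `Hom(X, Y) × Ext¹(Y, τ X) → Ext¹(X, τ X) → K` are nondegenerate on
both sides and symmetric: `tr (f b) = tr (b τ(f))`.  (Equivalently: isomorphisms
`Ext¹(Y, τ X) ≅ D Hom(X, Y)`, natural in `X` and `Y`.) -/
structure SerreDuality where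
  τ : H ≌ H
  add : τ.functor.Additive
  lin : τ.functor.Linear K
  tr : TraceForms K τ
  nondegL : ∀ (X Y : H) (f : X ⟶ Y),
    (∀ b : Ext Y (τ.functor.obj X) 1, pairing tr f b = 0) → f = 0
  nondegR : ∀ (X Y : H) (b : Ext Y (τ.functor.obj X) 1),
    (∀ f : X ⟶ Y, pairing tr f b = 0) → b = 0
  symm : ∀ (X Y : H) (f : X ⟶ Y) (b : Ext Y (τ.functor.obj X) 1),
    pairing tr f b = tr Y (rmul b (τ.functor.map f))

end

/-! ### The cluster category

The cluster category is the orbit category of `D^b(H)` by `F = τ⁻¹[1]`.  `Hom_C(X, Y)` is the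
direct sum of `Hom_D(X, Fⁿ Y)`; for `X, Y` in `H` only `n = 0, 1` contribute:
`Hom_C(X, Y) = Hom(X, Y) ⊕ Ext¹(X, τ⁻¹ Y)`.  As `H` has no nonzero projectives every object of the
cluster category is isomorphic to an object of `H`.
-/

section

variable {H : Type u} [Category.{v} H] [Abelian H] [HasExt.{w} H] (τ : H ≌ H)

/-- Morphisms `X → Y` of the cluster category: `Hom(X, Y) ⊕ Ext¹(X, τ⁻¹ Y)`. -/
def CHom (X Y : H) : Type (max v w) := (X ⟶ Y) × Ext X (τ.inverse.obj Y) 1

noncomputable instance (X Y : H) : AddCommGroup (CHom τ X Y) :=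
  Prod.instAddCommGroup

noncomputable instance (K : Type t) [Field K] [Linear K H] (X Y : H) : Module K (CHom τ X Y) :=
  Prod.instModule

variable {τ}

/-- Identity of the cluster category. -/
noncomputable def cid (X : H) : CHom τ X X := (𝟙 X, 0)

/-- Composition of the cluster category: `(f, a) (g, b) = (f g, f b + a τ⁻¹(g))` (the product of
`a` and `b` lies in `Ext²(X, τ⁻² Z) = 0`). -/
noncomputable def ccomp {X Y Z : H} (φ : CHom τ X Y) (ψ : CHom τ Y Z) : CHom τ X Z :=
  (φ.1 ≫ ψ.1, lmul φ.1 ψ.2 + rmul φ.2 (τ.inverse.map ψ.1))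

/-- Isomorphisms of the cluster category. -/
def IsCIso {X Y : H} (φ : CHom τ X Y) : Prop :=
  ∃ ψ : CHom τ Y X, ccomp φ ψ = cid X ∧ ccomp ψ φ = cid Y

variable (τ)

/-- `Ext¹_C(X, Y) = Hom_C(X, Y[1])`, where `[1] = τ` in the cluster category. -/
def CExt (X Y : H) : Type (max v w) := CHom τ X (τ.functor.obj Y)

/-- `T = ⨁ T i` is a cluster-tilting object: basic, `Ext¹_C(T, T) = 0` and maximal with this
property. -/
structure IsClusterTilting {I : Type x} (T : I → H) : Prop where
  indec : ∀ i, Indecomposable (T i)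
  basic : ∀ i j, Nonempty (T i ≅ T j) → i = j
  rigid : ∀ i j, Subsingleton (CExt τ (T i) (T j))
  maximal : ∀ X : H, Indecomposable X → (∀ i, Subsingleton (CExt τ (T i) X)) →
    (∀ i, Subsingleton (CExt τ X (T i))) → Subsingleton (CExt τ X X) → ∃ i, Nonempty (X ≅ T i)

end

/-! ### The quiver of the endomorphism algebra of `T` in the cluster category -/

section

variable (K : Type t) [Field K] {H : Type u} [Category.{v} H] [Abelian H] [Linear K H]
  [HasExt.{w} H] (τ : H ≌ H) {I : Type x} (T : I → H)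

/-- Dimension of the quotient `A / B` of subspaces `B ⊆ A` of a vector space. -/
noncomputable def dimQuot {V : Type*} [AddCommGroup V] [Module K V] (A B : Submodule K V) : ℕ :=
  Module.finrank K (A ⧸ B.submoduleOf A)

/-- The radical of `Hom_C(T i, T j)` (for pairwise nonisomorphic objects with local endomorphism
rings: the non-isomorphisms). -/
noncomputable def crad (i j : I) : Submodule K (CHom τ (T i) (T j)) :=
  Submodule.span K {φ | ¬ IsCIso φ}

/-- The square of the radical of the category of the `T i`. -/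
noncomputable def crad2 (i j : I) : Submodule K (CHom τ (T i) (T j)) :=
  Submodule.span K {χ | ∃ k, ∃ φ ∈ crad K τ T i k, ∃ ψ ∈ crad K τ T k j, χ = ccomp φ ψ}

/-- Number of arrows `i → j` of the ordinary quiver of the endomorphism algebra of `T` in the
cluster category: dimension of `rad(T i, T j) / rad²(T i, T j)`. -/
noncomputable def arrows (i j : I) : ℕ := dimQuot K (crad K τ T i j) (crad2 K τ T i j)

end

/-! ### Tubes -/

section

variable {H : Type u} [Category.{v} H] [Abelian H] (τ : H ≌ H)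

/-- `τⁿ X`. -/
noncomputable def tauPow (n : ℕ) (X : H) : H := (fun Y => τ.functor.obj Y)^[n] X

/-- Simple objects of `H` are in the same tube if they are in the same `τ`-orbit. -/
def SameTube (S S' : H) : Prop := ∃ m n : ℕ, Nonempty (tauPow τ m S ≅ tauPow τ n S')

/-- The rank of the tube of `S`: least `n ≥ 1` with `τⁿ S ≅ S`. -/
noncomputable def period (S : H) : ℕ := sInf {n : ℕ | 0 < n ∧ Nonempty (tauPow τ n S ≅ S)}

lemma tauPow_add (m n : ℕ) (X : H) : tauPow τ (m + n) X = tauPow τ m (tauPow τ n X) :=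
  Function.iterate_add_apply _ m n X

lemma tauPow_iso (n : ℕ) {X Y : H} (h : Nonempty (X ≅ Y)) :
    Nonempty (tauPow τ n X ≅ tauPow τ n Y) := by
  induction n with
  | zero => exact h
  | succ n ih =>
    obtain ⟨e⟩ := ih
    refine ⟨?_⟩
    simp only [tauPow, Function.iterate_succ_apply']
    exact τ.functor.mapIso e

/-- Being in the same tube is an equivalence relation. -/
theorem sameTube_equivalence :
    Equivalence fun S S' : {S : H // Simple S} => SameTube τ S.1 S'.1 where
  refl S := ⟨0, 0, ⟨Iso.refl _⟩⟩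
  symm := by
    rintro S S' ⟨m, n, ⟨e⟩⟩
    exact ⟨n, m, ⟨e.symm⟩⟩
  trans := by
    rintro S S' S'' ⟨m, n, ⟨e⟩⟩ ⟨a, b, ⟨e'⟩⟩
    obtain ⟨e1⟩ := tauPow_iso τ a ⟨e⟩
    obtain ⟨e2⟩ := tauPow_iso τ n ⟨e'⟩
    refine ⟨a + m, n + b, ⟨?_⟩⟩
    rw [tauPow_add, tauPow_add]
    refine e1 ≪≫ eqToIso ?_ ≪≫ e2
    rw [← tauPow_add, ← tauPow_add, add_comm]

/-- The equivalence relation on the simple objects: being in the same tube. -/
def tubeSetoid : Setoid {S : H // Simple S} := ⟨_, sameTube_equivalence τ⟩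

/-- The tubes (`τ`-orbits of simple objects). -/
def Tube : Type u := Quotient (tubeSetoid τ)

/-- Number of tubes of rank `n`. -/
noncomputable def numTubes (n : ℕ) : ℕ∞ :=
  Set.encard {q : Tube τ | ∃ S : {S : H // Simple S}, Quotient.mk (tubeSetoid τ) S = q ∧
    period τ S.1 = n}

/-- `p` is the weight sequence (up to reordering): all weights are at least `2`, and for `n ≥ 2` the
number of tubes of rank `n` is the number of indices `i` with `p i = n`. -/
def HasWeights (p : List ℕ) : Prop :=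
  (∀ n ∈ p, 2 ≤ n) ∧ ∀ n, 2 ≤ n → numTubes τ n = (p.count n : ℕ∞)

end

end Pool.Agent.WQ.Pub
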