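import Pool.Agent.WQ.Final
import Pool.Agent.WQ.Pub

/-!
# WQ: from the definitions of `Pub.lean` to those of `Defs.lean`
-/

set_option autoImplicit false

open CategoryTheory CategoryTheory.Limits CategoryTheory.Abelian

namespace Pool.Agent.WQ.Bridge

universe t v u w x

variable {K : Type t} [Field K] {H : Type u} [Category.{v} H] [Abelian H] [Linear K H]
  [HasExt.{w} H]

theorem her (h : Pub.Hered K H) : Her K H where
  finHom := h.finHom
  finExt := h.finExt
  hered := h.hered
  noeth := h.noeth

/-- The internal form of a Serre duality. -/
noncomputable def serre (s : Pub.SerreDuality K H) : Serre K H where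
  τ := s.τ
  add := s.add
  lin := s.lin
  tr := s.tr
  nondegL := s.nondegL
  nondegR := s.nondegR
  symm := s.symm

theorem hasTilt (h : Pub.EnoughTilting H) : HasTilt H := h

theorem clusterTilting (s : Pub.SerreDuality K H) {I : Type x} {T : I → H}
    (h : Pub.IsClusterTilting s.τ T) : (serre s).IsClusterTilting T where
  indec := h.indec
  basic := h.basic
  rigid := h.rigid
  maximal := h.maximal

theorem crad (s : Pub.SerreDuality K H) {I : Type x} (T : I → H) (i j : I) :
    (serre s).crad T i j = Pub.crad K s.τ T i j := rfl

theorem crad2 (s : Pub.SerreDuality K H) {I : Type x} (T : I → H) (i j : I) :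
    (serre s).crad2 T i j = Pub.crad2 K s.τ T i j := rfl

theorem arrows (s : Pub.SerreDuality K H) {I : Type x} (T : I → H) (i j : I) :
    (serre s).arrows T i j = Pub.arrows K s.τ T i j := rfl

theorem numTubes (s : Pub.SerreDuality K H) (n : ℕ) :
    (serre s).numTubes n = Pub.numTubes s.τ n := rfl

end Pool.Agent.WQ.Bridge
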