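import Pool.Agent.WQ.Tilt
import Pool.Agent.WQ.SerreB

/-!
# WQ: from the definition of cluster tilting to `CT` (module 8)

`Subsingleton (CExt X Y)` iff `Z1 Y X` and `Z1 X Y` (`Hom(X, τ Y) = 0 ↔ Ext¹(Y, X) = 0` by `Z0_tau`, and
`Ext¹(X, τ⁻¹ τ Y) = 0 ↔ Ext¹(X, Y) = 0`).

`one`: `end_one`.  `rad`: if `f ≫ g ≠ 0` it is an invertible scalar, `f` is a split mono into the
indecomposable `T j`, so an isomorphism, and `i = j`.

`max`: call `T₀` the tilting family of `HasTilt` for `X := ⨁ T i` (`Ext¹(T₀, T) = 0`).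
(a) `univ_ext` for each `T₀ j` (by the `T i`): `0 → T₀ j → B j → ⨁T → 0` with `Ext¹(T, B j) = 0`.
`Ext¹(B j, T) = 0` (from `Ext¹(⨁T, T) = 0`, `Ext¹(T₀ j, T) = 0`); `Ext¹(B j, B k) = 0` (from
`Ext¹(⨁T, B k) = 0`, `Ext¹(T₀ j, B k) = 0`, the latter from `Ext¹(T₀ j, T₀ k) = 0`, `Ext¹(T₀ j, ⨁T) = 0`).
By `decomp` and `maximal` every `B j` is a direct sum of `T i`.
(b) `Q` with `Hom(T, Q) = 0 = Ext¹(T, Q)`: `Hom(B j, Q) = 0 = Ext¹(B j, Q)`, so `Hom(T₀ j, Q) = 0`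
(`con_Z0_1`, `Ext¹(⨁T, Q) = 0`) and `Ext¹(T₀ j, Q) = 0` (`con_Z1_1`), so `Q = 0`.
(c) `X` with `Ext¹(T, X) = 0`: right approximation `p : ⨁T → X` is epi by (b) (as in `CT.gen`).  If also
`Ext¹(X, T) = 0`: `Ext¹(X, ⨁T) → Ext¹(X, X)` is onto, so `Ext¹(X, X) = 0`; `decomp`, `maximal`.
-/

set_option autoImplicit false

open CategoryTheory CategoryTheory.Limits CategoryTheory.Abelian

namespace Pool.Agent.WQ

attribute [local instance] Abelian.hasFiniteBiproducts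

universe t v u w x

variable {K : Type t} [Field K] {H : Type u} [Category.{v} H] [Abelian H] [Linear K H]
  [HasExt.{w} H] [Her K H] {I : Type x} [Fintype I]

theorem CExt_iff (𝒮 : Serre K H) (X Y : H) :
    Subsingleton (𝒮.CExt X Y) ↔ Z1 Y X ∧ Z1 X Y := by
  obtain ⟨e⟩ := 𝒮.si_ta Y
  rw [← 𝒮.Z0_tau Y X]
  constructor
  · intro h
    refine ⟨fun f => ?_, ?_⟩
    · have := congrArg Prod.fst (Subsingleton.elim (α := 𝒮.CExt X Y) (f, 0) (0, 0))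
      exact this
    · have h1 : Z1 X (𝒮.si (𝒮.ta Y)) := by
        intro a
        exact congrArg Prod.snd (Subsingleton.elim (α := 𝒮.CExt X Y) (0, a) (0, 0))
      exact h1.of_iso (Iso.refl _) e
  · rintro ⟨h0, h1⟩
    have h2 : Z1 X (𝒮.si (𝒮.ta Y)) := h1.of_iso (Iso.refl _) e.symm
    refine ⟨fun a b => ?_⟩
    obtain ⟨a1, a2⟩ := a
    obtain ⟨b1, b2⟩ := b
    refine Prod.ext ?_ ?_
    · exact (h0 a1).trans (h0 b1).symm
    · exact (h2 a2).trans (h2 b2).symm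

namespace FromC

variable {T : I → H}

include K in
/-- right approximations are epi if the orthogonal of `T` is zero -/
theorem epi_of_orth (hr : ∀ i j, Z1 (T i) (T j))
    (ho : ∀ Q : H, (∀ i, Z0 (T i) Q) → (∀ i, Z1 (T i) Q) → IsZero Q) {X : H}
    (h : ∀ i, Z1 (T i) X) {n : ℕ} {f : Fin n → I}
    (p : (⨁ fun k => T (f k)) ⟶ X) (hp : ∀ (j : I) (u : T j ⟶ X),
      ∃ v : T j ⟶ ⨁ fun k => T (f k), v ≫ p = u) : Epi p := by
  obtain ⟨N, J, Q, i, π, ι, q, w₁, w₂, hS1, hS2, hf⟩ := factor p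
  have hJ : ∀ j, Z1 (T j) J := fun j => cov_Z1_3 K hS1 ((Z1_sum_right _ _).2 fun k => hr _ _)
  have hQ0 : ∀ j, Z0 (T j) Q := by
    intro j u
    obtain ⟨v, hv⟩ := (lift_iff hS2 u).2 (hJ j _)
    obtain ⟨v', hv'⟩ := hp j v
    have hv2 : v ≫ q = u := hv
    rw [← hv2, ← hv', ← hf, Category.assoc, Category.assoc, w₂, comp_zero, comp_zero]
  have hQ1 : ∀ j, Z1 (T j) Q := fun j => cov_Z1_3 K hS2 (h j)
  have hQ := ho Q hQ0 hQ1
  have hq : q = 0 := hQ.eq_of_tgt _ _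
  have : Epi ι := hS2.exact.epi_f hq
  have : Epi π := hS1.epi_g
  rw [← hf]
  exact epi_comp _ _

/-- rigid objects compatible with `T` are direct sums of `T i` -/
theorem decompT (𝒮 : Serre K H) (hT : 𝒮.IsClusterTilting T) {B : H} (h1 : ∀ i, Z1 (T i) B)
    (h2 : ∀ i, Z1 B (T i)) (h3 : Z1 B B) :
    ∃ (n : ℕ) (f : Fin n → I), Nonempty (B ≅ ⨁ fun k => T (f k)) := by
  obtain ⟨n, Y, hY, ⟨e⟩⟩ := decomp K B
  have hk : ∀ k, ∃ i, Nonempty (Y k ≅ T i) := by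
    intro k
    have a1 : ∀ i, Z1 (T i) (Y k) := fun i =>
      (Z1_sum_right _ _).1 ((h1 i).of_iso (Iso.refl _) e) k
    have a2 : ∀ i, Z1 (Y k) (T i) := fun i =>
      (Z1_sum_left _ _).1 ((h2 i).of_iso e (Iso.refl _)) k
    have a3 : Z1 (Y k) (Y k) :=
      (Z1_sum_left _ _).1 ((Z1_sum_right _ _).1 (h3.of_iso e e) k) k
    exact hT.maximal (Y k) (hY k) (fun i => (CExt_iff 𝒮 _ _).2 ⟨a2 i, a1 i⟩)
      (fun i => (CExt_iff 𝒮 _ _).2 ⟨a1 i, a2 i⟩) ((CExt_iff 𝒮 _ _).2 ⟨a3, a3⟩)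
  choose f hf using hk
  exact ⟨n, f, ⟨e ≪≫ biproduct.mapIso fun k => (hf k).some⟩⟩

include K in
/-- the orthogonal of `T` is zero -/
theorem orth (𝒮 : Serre K H) (hH : HasTilt H) (hT : 𝒮.IsClusterTilting T)
    (hr : ∀ i j, Z1 (T i) (T j)) (Q : H) (h0 : ∀ i, Z0 (T i) Q) (h1 : ∀ i, Z1 (T i) Q) :
    IsZero Q := by
  obtain ⟨n, T₀, hrig, hzero, hX⟩ := hH (⨁ fun k => T ((Fintype.equivFin I).symm k))
  have hT₀T : ∀ j i, Z1 (T₀ j) (T i) := by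
    intro j i
    have h2 : Z1 (T₀ j) (⨁ fun k => T ((Fintype.equivFin I).symm k)) := hX j
    have h3 := (Z1_sum_right _ _).1 h2 (Fintype.equivFin I i)
    rwa [Equiv.symm_apply_apply] at h3
  have hex : ∀ j, ∃ (n : ℕ) (f : Fin n → I) (B : H) (i : T₀ j ⟶ B)
      (p : B ⟶ ⨁ fun k => T (f k)) (w₀ : i ≫ p = 0), (ShortComplex.mk i p w₀).ShortExact ∧
      ∀ i, Z1 (T i) B := by
    intro j
    obtain ⟨n, f, B, i, p, w₀, hS, hconn, -⟩ := univ_ext K T (T₀ j)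
    refine ⟨n, f, B, i, p, w₀, hS, fun j' e => ?_⟩
    obtain ⟨x, hx⟩ := Ext.covariant_sequence_exact₂ (T j') hS e
      ((Z1_sum_right _ _).2 (fun k => hr _ _) _)
    obtain ⟨u, rfl⟩ := hconn j' x
    rw [← hx]
    change ((Ext.mk₀ u).comp hS.extClass (zero_add 1)).comp (Ext.mk₀ i) (add_zero 1) = 0
    rw [Ext.comp_assoc_of_third_deg_zero]
    have h1 : hS.extClass.comp (Ext.mk₀ i) (add_zero 1) = 0 := hS.extClass_comp
    rw [h1, Ext.comp_zero]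
  choose n f B i p w₀ hS hTB using hex
  have hBT : ∀ j i, Z1 (B j) (T i) := fun j i' =>
    con_Z1_2 (hS j) (hT₀T j i') ((Z1_sum_left _ _).2 fun k => hr _ _)
  have hBB : ∀ j k, Z1 (B j) (B k) := fun j k =>
    con_Z1_2 (hS j) (cov_Z1_2 (hS k) (hrig j k) ((Z1_sum_right _ _).2 fun l => hT₀T _ _))
      ((Z1_sum_left _ _).2 fun l => hTB _ _)
  refine hzero Q ?_ ?_
  · intro j
    obtain ⟨m, g, ⟨e⟩⟩ := decompT 𝒮 hT (hTB j) (hBT j) (hBB j j)
    have h2 : Z0 (⨁ fun k => T (g k)) Q := (Z0_sum_left _ _).2 fun k => h0 _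
    have h3 : Z0 (B j) Q := h2.of_iso e.symm (Iso.refl _)
    exact con_Z0_1 (hS j) h3 ((Z1_sum_left _ _).2 fun k => h1 _)
  · intro j
    obtain ⟨m, g, ⟨e⟩⟩ := decompT 𝒮 hT (hTB j) (hBT j) (hBB j j)
    have h2 : Z1 (⨁ fun k => T (g k)) Q := (Z1_sum_left _ _).2 fun k => h1 _
    have h3 : Z1 (B j) Q := h2.of_iso e.symm (Iso.refl _)
    exact con_Z1_1 K (hS j) h3

include K in
theorem comp_zero_of_ne {A B : H} (hA : Indecomposable A) (hA1 : h0 K A A = 1)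
    (hB1 : h0 K B B = 1) (hne : ¬ Nonempty (A ≅ B)) (f : A ⟶ B) (g : B ⟶ A) : f ≫ g = 0 := by
  obtain ⟨c, hc⟩ := scalar_of_one K hA1 (f ≫ g)
  by_cases hc0 : c = 0
  · rw [hc, hc0, zero_smul]
  exfalso
  have h1 : f ≫ (c⁻¹ • g) = 𝟙 A := by
    rw [Linear.comp_smul, hc, smul_smul, inv_mul_cancel₀ hc0, one_smul]
  obtain ⟨d, hd⟩ := scalar_of_one K hB1 ((c⁻¹ • g) ≫ f)
  by_cases hd1 : d = 1
  · rw [hd1, one_smul] at hd
    exact hne ⟨⟨f, c⁻¹ • g, h1, hd⟩⟩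
  have h2 : d • f = f := by
    calc d • f = f ≫ (d • 𝟙 B) := by rw [Linear.comp_smul, Category.comp_id]
      _ = f ≫ ((c⁻¹ • g) ≫ f) := by rw [hd]
      _ = f := by rw [← Category.assoc, h1, Category.id_comp]
  have h3 : (d - 1) • f = 0 := by rw [sub_smul, h2, one_smul, sub_self]
  have h4 : f = 0 := by
    rcases smul_eq_zero.1 h3 with h | h
    · exact absurd (sub_eq_zero.1 h) hd1
    · exact h
  rw [h4, zero_comp] at h1
  exact hA.1 ((IsZero.iff_id_eq_zero A).2 h1.symm)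

end FromC

theorem ct_of_clusterTilting [IsAlgClosed K] (𝒮 : Serre K H) (hH : HasTilt H) {T : I → H}
    (hT : 𝒮.IsClusterTilting T) : CT K T := by
  have hr : ∀ i j, Z1 (T i) (T j) := fun i j => ((CExt_iff 𝒮 _ _).1 (hT.rigid i j)).2
  have h1 : ∀ i, h0 K (T i) (T i) = 1 := fun i => end_one K (hT.indec i) (hr i i)
  refine ⟨h1, ?_, hr, ?_⟩
  · intro i j hij f g
    exact FromC.comp_zero_of_ne (hT.indec i) (h1 i) (h1 j)
      (fun h => hij (hT.basic i j h)) f g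
  · intro X hX hX'
    obtain ⟨n, f, p, hp, -⟩ := right_approx K T X
    have hepi : Epi p := FromC.epi_of_orth (K := K) hr (FromC.orth 𝒮 hH hT hr) hX p hp
    have hS : (ShortComplex.mk (kernel.ι p) p (kernel.condition p)).ShortExact :=
      { exact := ShortComplex.exact_of_f_is_kernel _ (kernelIsKernel p)
        mono_f := inferInstanceAs (Mono (kernel.ι p))
        epi_g := hepi }
    refine FromC.decompT 𝒮 hT hX hX' ?_
    intro e
    obtain ⟨e', he'⟩ := ext_g_surj K hS (W := X) e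
    have h2 : Z1 X (⨁ fun k => T (f k)) := (Z1_sum_right _ _).2 fun k => hX' _
    rw [← he', h2 e', Ext.zero_comp]

end Pool.Agent.WQ
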