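import Pool.Agent.WQ.Ann
import Pool.Agent.WQ.FromC

/-!
# WQ: the number of arrows in the cluster category (module 12)

`(f, a) : T i → T j` is an isomorphism in the cluster category iff `f` is one (inverse
`(f⁻¹, -f⁻¹ a τ⁻¹(f⁻¹))`), i.e. iff `i = j` and `f ≠ 0`.  So `crad T i j = R0 × Ext¹(T i, τ⁻¹ T j)` and
`crad2 T i j = R0sq × M1`, `M1` the span of the `f b`, `f ∈ R0 T i k`, and the `a τ⁻¹(g)`, `g ∈ R0 T k j`.
`arrows = (dim R0 - dim R0sq) + (dim Ext¹(T i, τ⁻¹ T j) - dim M1)`, and `A1 T i j` is the annihilator of `M1` under the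
perfect pairing `pair : Hom(τ⁻¹ (τ⁻¹ T j), T i) × Ext¹(T i, τ⁻¹ T j) → K` (`pair_comp`, `pair_map_comp`,
nondegeneracy), so the second difference is `dim A1 T i j`.
-/

set_option autoImplicit false

open CategoryTheory CategoryTheory.Limits CategoryTheory.Abelian

namespace Pool.Agent.WQ

attribute [local instance] Abelian.hasFiniteBiproducts

universe t v u w x

variable {K : Type t} [Field K] {H : Type u} [Category.{v} H] [Abelian H] [Linear K H]
  [HasExt.{w} H] [Her K H] {I : Type x} [Fintype I] (𝒮 : Serre K H) {T : I → H}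

/-- Products in degree one: `f b` and `a τ⁻¹(g)` with `f`, `g` radical. -/
noncomputable def M1 (T : I → H) (i j : I) : Submodule K (Ext (T i) (𝒮.si (T j)) 1) :=
  Submodule.span K ({c | ∃ (k : I) (f : T i ⟶ T k) (b : Ext (T k) (𝒮.si (T j)) 1),
      f ∈ R0 K T i k ∧ c = (Ext.mk₀ f).comp b (zero_add 1)} ∪
    {c | ∃ (k : I) (a : Ext (T i) (𝒮.si (T k)) 1) (g : T k ⟶ T j),
      g ∈ R0 K T k j ∧ c = a.comp (Ext.mk₀ (𝒮.τ.inverse.map g)) (add_zero 1)})

namespace CluQ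

/-- the product of two submodules -/
def prodE {V W : Type*} [AddCommGroup V] [AddCommGroup W] [Module K V] [Module K W]
    (p : Submodule K V) (q : Submodule K W) : (p.prod q) ≃ₗ[K] (p × q) where
  toFun x := (⟨x.1.1, x.2.1⟩, ⟨x.1.2, x.2.2⟩)
  invFun x := ⟨(x.1.1, x.2.1), x.1.2, x.2.2⟩
  map_add' _ _ := rfl
  map_smul' _ _ := rfl
  left_inv _ := rfl
  right_inv _ := rfl

omit [Her K H] [Fintype I] in
theorem mem_R0 {i j : I} (f : T i ⟶ T j) : f ∈ R0 K T i j ↔ (i = j → f = 0) := Iff.rfl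

theorem finrank_ann {V W : Type*} [AddCommGroup V] [AddCommGroup W] [Module K V] [Module K W]
    [Module.Finite K V] [Module.Finite K W] (B : V →ₗ[K] W →ₗ[K] K)
    (h1 : ∀ v, (∀ w, B v w = 0) → v = 0) (h2 : ∀ w, (∀ v, B v w = 0) → w = 0)
    (A : Submodule K V) (M : Submodule K W) (hA : ∀ v, v ∈ A ↔ ∀ w ∈ M, B v w = 0) :
    (Module.finrank K A : ℤ) = Module.finrank K W - Module.finrank K M := by
  have hinj : Function.Injective B := by
    rw [← LinearMap.ker_eq_bot, LinearMap.ker_eq_bot']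
    intro v hv
    exact h1 v fun w => by rw [hv]; rfl
  have hinj' : Function.Injective B.flip := by
    rw [← LinearMap.ker_eq_bot, LinearMap.ker_eq_bot']
    intro w hw
    refine h2 w fun v => ?_
    have := LinearMap.congr_fun hw v
    exact this
  have d1 : Module.finrank K V ≤ Module.finrank K W := by
    have := LinearMap.finrank_le_finrank_of_injective hinj
    rwa [Subspace.dual_finrank_eq] at this
  have d2 : Module.finrank K W ≤ Module.finrank K V := by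
    have := LinearMap.finrank_le_finrank_of_injective hinj'
    rwa [Subspace.dual_finrank_eq] at this
  let Φ : V ≃ₗ[K] Module.Dual K W := LinearEquiv.ofInjectiveOfFinrankEq B hinj (by
    rw [Subspace.dual_finrank_eq]; omega)
  have hΦ : ∀ v, Φ v = B v := fun v => rfl
  have hA' : A.map (Φ : V →ₗ[K] Module.Dual K W) = M.dualAnnihilator := by
    ext ψ
    rw [Submodule.mem_map, Submodule.mem_dualAnnihilator]
    constructor
    · rintro ⟨v, hv, rfl⟩ w hw
      exact (hA v).1 hv w hw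
    · intro h
      refine ⟨Φ.symm ψ, (hA _).2 fun w hw => ?_, Φ.apply_symm_apply ψ⟩
      rw [← hΦ, Φ.apply_symm_apply]
      exact h w hw
  have e : A ≃ₗ[K] M.dualAnnihilator :=
    (Φ.submoduleMap A).trans (LinearEquiv.ofEq _ _ hA')
  have h3 := Subspace.finrank_add_finrank_dualAnnihilator_eq M
  rw [e.finrank_eq]
  omega

end CluQ

theorem isCIso_iff (hT : CT K T) {i j : I} (φ : 𝒮.CHom (T i) (T j)) :
    𝒮.IsCIso φ ↔ φ.1 ∉ R0 K T i j := by
  rw [CluQ.mem_R0]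
  constructor
  · rintro ⟨ψ, h1, -⟩ h
    have h2 : φ.1 ≫ ψ.1 = 𝟙 _ := congrArg Prod.fst h1
    have h3 : φ.1 ≫ ψ.1 = 0 := by
      by_cases hij : i = j
      · rw [h hij, zero_comp]
      · exact hT.rad i j hij _ _
    exact hT.id_ne i (h2.symm.trans h3)
  · intro h
    push Not at h
    obtain ⟨hij, hne⟩ := h
    subst hij
    obtain ⟨c, hc⟩ := scalar_of_one K (hT.one i) φ.1
    have hc0 : c ≠ 0 := by
      rintro rfl
      exact hne (by rw [hc, zero_smul])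
    have e1 : φ.1 ≫ (c⁻¹ • 𝟙 (T i)) = 𝟙 _ := by
      rw [hc, Linear.comp_smul, Category.comp_id, smul_smul, inv_mul_cancel₀ hc0, one_smul]
    have e2 : (c⁻¹ • 𝟙 (T i)) ≫ φ.1 = 𝟙 _ := by
      rw [hc, Linear.comp_smul, Category.comp_id, smul_smul, mul_inv_cancel₀ hc0, one_smul]
    set f := φ.1 with hf
    set g := c⁻¹ • 𝟙 (T i) with hg
    have e3 : 𝒮.τ.inverse.map f ≫ 𝒮.τ.inverse.map g = 𝟙 _ := by
      rw [← Functor.map_comp, e1]; exact 𝒮.τ.inverse.map_id _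
    have e4 : 𝒮.τ.inverse.map g ≫ 𝒮.τ.inverse.map f = 𝟙 _ := by
      rw [← Functor.map_comp, e2]; exact 𝒮.τ.inverse.map_id _
    refine ⟨(g, -((Ext.mk₀ g).comp (φ.2.comp (Ext.mk₀ (𝒮.τ.inverse.map g)) (add_zero 1))
      (zero_add 1))), ?_, ?_⟩
    · refine Prod.ext e1 ?_
      change (Ext.mk₀ f).comp (-((Ext.mk₀ g).comp (φ.2.comp (Ext.mk₀ (𝒮.τ.inverse.map g))
        (add_zero 1)) (zero_add 1))) (zero_add 1) +
        φ.2.comp (Ext.mk₀ (𝒮.τ.inverse.map g)) (add_zero 1) = 0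
      rw [Ext.comp_neg, Ext.mk₀_comp_mk₀_assoc, e1, Ext.mk₀_id_comp, neg_add_cancel]
    · refine Prod.ext e2 ?_
      change (Ext.mk₀ g).comp φ.2 (zero_add 1) +
        (-((Ext.mk₀ g).comp (φ.2.comp (Ext.mk₀ (𝒮.τ.inverse.map g))
        (add_zero 1)) (zero_add 1))).comp (Ext.mk₀ (𝒮.τ.inverse.map f)) (add_zero 1) = 0
      rw [Ext.neg_comp, Ext.comp_assoc_of_third_deg_zero, Ext.comp_assoc_of_third_deg_zero,
        Ext.mk₀_comp_mk₀, e4, Ext.comp_mk₀_id, add_neg_cancel]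

theorem crad_eq (hT : CT K T) (i j : I) :
    𝒮.crad T i j = (R0 K T i j).prod (⊤ : Submodule K (Ext (T i) (𝒮.si (T j)) 1)) := by
  have h : {φ : 𝒮.CHom (T i) (T j) | ¬ 𝒮.IsCIso φ} =
      ((R0 K T i j).prod (⊤ : Submodule K (Ext (T i) (𝒮.si (T j)) 1)) : Set _) := by
    ext φ
    rw [Set.mem_setOf_eq, isCIso_iff 𝒮 hT, not_not]
    constructor
    · intro h
      exact ⟨h, Submodule.mem_top⟩
    · intro h
      exact h.1
  unfold Serre.crad
  rw [h]
  exact Submodule.span_eq _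

theorem crad2_eq (hT : CT K T) (i j : I) :
    𝒮.crad2 T i j = (R0sq K T i j).prod (M1 𝒮 T i j) := by
  have hm : ∀ (k l : I) (φ : 𝒮.CHom (T k) (T l)), φ ∈ 𝒮.crad T k l ↔ φ.1 ∈ R0 K T k l := by
    intro k l φ
    rw [crad_eq 𝒮 hT]
    exact ⟨fun h => h.1, fun h => ⟨h, Submodule.mem_top⟩⟩
  apply le_antisymm
  · unfold Serre.crad2
    rw [Submodule.span_le]
    rintro χ ⟨k, φ, hφ, ψ, hψ, rfl⟩
    rw [hm] at hφ hψ
    refine ⟨Submodule.subset_span ⟨k, φ.1, ψ.1, hφ, hψ, rfl⟩, ?_⟩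
    refine Submodule.add_mem _ ?_ ?_
    · exact Submodule.subset_span (Or.inl ⟨k, φ.1, ψ.2, hφ, rfl⟩)
    · exact Submodule.subset_span (Or.inr ⟨k, φ.2, ψ.1, hψ, rfl⟩)
  · have a1 : R0sq K T i j ≤ (𝒮.crad2 T i j).comap
        (LinearMap.inl K (T i ⟶ T j) (Ext (T i) (𝒮.si (T j)) 1)) := by
      unfold R0sq
      rw [Submodule.span_le]
      rintro h ⟨k, f, g, hf, hg, rfl⟩
      refine Submodule.subset_span ⟨k, (f, 0), (hm _ _ _).2 hf, (g, 0), (hm _ _ _).2 hg, ?_⟩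
      refine Prod.ext rfl ?_
      change (0 : Ext (T i) (𝒮.si (T j)) 1) = (Ext.mk₀ f).comp 0 (zero_add 1) +
        (0 : Ext (T i) (𝒮.si (T k)) 1).comp (Ext.mk₀ (𝒮.τ.inverse.map g)) (add_zero 1)
      rw [Ext.comp_zero, Ext.zero_comp, add_zero]
    have a2 : M1 𝒮 T i j ≤ (𝒮.crad2 T i j).comap
        (LinearMap.inr K (T i ⟶ T j) (Ext (T i) (𝒮.si (T j)) 1)) := by
      unfold M1
      rw [Submodule.span_le]
      rintro m (⟨k, f, b, hf, rfl⟩ | ⟨k, a, g, hg, rfl⟩)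
      · refine Submodule.subset_span ⟨k, (f, 0), (hm _ _ _).2 hf, (0, b),
          (hm _ _ _).2 (Submodule.zero_mem _), ?_⟩
        refine Prod.ext ?_ ?_
        · change (0 : T i ⟶ T j) = f ≫ (0 : T k ⟶ T j)
          rw [comp_zero]
        · change (Ext.mk₀ f).comp b (zero_add 1) = (Ext.mk₀ f).comp b (zero_add 1) +
            (0 : Ext (T i) (𝒮.si (T k)) 1).comp (Ext.mk₀ (𝒮.τ.inverse.map (0 : T k ⟶ T j)))
              (add_zero 1)
          rw [Ext.zero_comp, add_zero]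
      · refine Submodule.subset_span ⟨k, (0, a), (hm _ _ _).2 (Submodule.zero_mem _), (g, 0),
          (hm _ _ _).2 hg, ?_⟩
        refine Prod.ext ?_ ?_
        · change (0 : T i ⟶ T j) = (0 : T i ⟶ T k) ≫ g
          rw [zero_comp]
        · change a.comp (Ext.mk₀ (𝒮.τ.inverse.map g)) (add_zero 1) =
            (Ext.mk₀ (0 : T i ⟶ T k)).comp (0 : Ext (T k) (𝒮.si (T j)) 1) (zero_add 1) +
            a.comp (Ext.mk₀ (𝒮.τ.inverse.map g)) (add_zero 1)
          rw [Ext.comp_zero, zero_add]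
    rintro ⟨x, y⟩ ⟨hx, hy⟩
    have e : ((x, y) : 𝒮.CHom (T i) (T j)) = (x, 0) + (0, y) := by
      refine Prod.ext ?_ ?_
      · exact (add_zero x).symm
      · exact (zero_add y).symm
    rw [e]
    exact Submodule.add_mem _ (a1 hx) (a2 hy)

theorem M1_dim (hT : CT K T) (i j : I) :
    (Module.finrank K (A1 𝒮 T i j) : ℤ) =
      h1 K (T i) (𝒮.si (T j)) - Module.finrank K (M1 𝒮 T i j) := by
  let B : (𝒮.si (𝒮.si (T j)) ⟶ T i) →ₗ[K] Ext (T i) (𝒮.si (T j)) 1 →ₗ[K] K :=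
    LinearMap.mk₂ K (fun g b => 𝒮.pair g b) (fun g g' b => 𝒮.pair_add_left g g' b)
      (fun c g b => 𝒮.pair_smul_left c g b) (fun g b b' => 𝒮.pair_add_right g b b')
      (fun c g b => 𝒮.pair_smul_right c g b)
  have hB : ∀ g b, B g b = 𝒮.pair g b := fun _ _ => rfl
  refine CluQ.finrank_ann B (fun g hg => 𝒮.pair_nondeg_left g hg)
    (fun b hb => 𝒮.pair_nondeg_right b hb) _ _ ?_
  intro g
  constructor
  · rintro ⟨h1, h2⟩ w hw
    have hle : M1 𝒮 T i j ≤ LinearMap.ker (B g) := by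
      unfold M1
      rw [Submodule.span_le]
      rintro m (⟨k, f, b, hf, rfl⟩ | ⟨k, a, r, hr, rfl⟩)
      · rw [SetLike.mem_coe, LinearMap.mem_ker, hB, ← 𝒮.pair_comp, h1 k f hf]
        have h0 : 𝒮.pair (0 : 𝒮.si (𝒮.si (T j)) ⟶ T k) b = 0 := by
          have h3 := 𝒮.pair_smul_left (0 : K) (0 : 𝒮.si (𝒮.si (T j)) ⟶ T k) b
          rwa [zero_smul, zero_mul] at h3
        exact h0
      · rw [SetLike.mem_coe, LinearMap.mem_ker, hB, ← 𝒮.pair_map_comp, h2 k r hr]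
        have h3 := 𝒮.pair_smul_left (0 : K) (0 : 𝒮.si (𝒮.si (T k)) ⟶ T i) a
        rwa [zero_smul, zero_mul] at h3
    exact hle hw
  · intro h
    refine ⟨fun k f hf => ?_, fun k r hr => ?_⟩
    · refine 𝒮.pair_nondeg_left _ fun b => ?_
      rw [𝒮.pair_comp]
      exact h _ (Submodule.subset_span (Or.inl ⟨k, f, b, hf, rfl⟩))
    · refine 𝒮.pair_nondeg_left _ fun a => ?_
      rw [𝒮.pair_map_comp]
      exact h _ (Submodule.subset_span (Or.inr ⟨k, a, r, hr, rfl⟩))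

/-- Arrows `i → j` of the ungraded quiver, `i ≠ j`. -/
theorem arrows_eq (hT : CT K T) (D : Dual K T) {i j : I} (hij : i ≠ j) :
    𝒮.arrows T i j = D.h 1 j i + D.h 2 i j := by
  have e0 := a0_eq hT D hij
  have e1 := M1_dim 𝒮 hT i j
  rw [A1_dim 𝒮 hT D hij] at e1
  have hle : 𝒮.crad2 T i j ≤ 𝒮.crad T i j := by
    rw [crad_eq 𝒮 hT, crad2_eq 𝒮 hT]
    rintro ⟨x, y⟩ ⟨hx, hy⟩
    exact ⟨R0sq_le hT i j hx, Submodule.mem_top⟩
  have e2 := Submodule.finrank_quotient_add_finrank ((𝒮.crad2 T i j).submoduleOf (𝒮.crad T i j))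
  rw [(Submodule.submoduleOfEquivOfLe hle).finrank_eq] at e2
  have e3 : Module.finrank K (𝒮.crad T i j) = Module.finrank K (R0 K T i j) +
      h1 K (T i) (𝒮.si (T j)) := by
    rw [crad_eq 𝒮 hT, (CluQ.prodE _ _).finrank_eq, Module.finrank_prod, finrank_top]
    rfl
  have e4 : Module.finrank K (𝒮.crad2 T i j) = Module.finrank K (R0sq K T i j) +
      Module.finrank K (M1 𝒮 T i j) := by
    rw [crad2_eq 𝒮 hT, (CluQ.prodE _ _).finrank_eq, Module.finrank_prod]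
  have e5 : 𝒮.arrows T i j = Module.finrank K
      (𝒮.crad T i j ⧸ (𝒮.crad2 T i j).submoduleOf (𝒮.crad T i j)) := rfl
  omega

end Pool.Agent.WQ
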