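import Pool.Agent.WQ.Exc

/-!
# WQ: winding numbers of chordless cycles (module 14)

`Cyc X m E o c`: exceptional objects `E k`, `k < m`, with heights `o k` (`Hom•(E k, E j) = 0` for `o j < o k`),
`Hom•(E j, E k) = 0` for non-neighbours, and `c k` is the contribution of the step `k → nx m k`:
`N (E k) (E (nx m k)) (1 - c k)` for an ascent, `N (E (nx m k)) (E k) (1 + c k)` for a descent.
`D` = number of descents (`desc`), `w = ∑ c k`.
Claim (`Cyc.main`): `D = 1 → w ∈ {0, 1}`, `D = m - 1 → w ∈ {0, -1}`, `2 ≤ D ≤ m - 2 → w = 0`.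

From `mutate` (`Y` below `Z`, `N Y Z e`) one gets, for `L`:
(a) `Hom•(W, Y) = 0 → (N W L n ↔ N W Z n)`; (b) `Hom•(Y, W) = 0 → (N L W n ↔ N Z W n)`;
(c) `N L Y n ↔ n = 1 - e` (from `self`, `Hom•(Z, Y) = 0`); (d) `Hom•(W, Z) = 0 → (N W L n ↔ N W Y (n + 1 - e))`;
(f) triangle: `(W, Y)`, `(W, Z)`, `(Y, Z)` exceptional pairs, `N W Y d`, `N W Z f`: `f = d + e ∨ f = d + e - 1`.

Moves.
1. `rotate` (index shift by one): `E (nx m k)`, `c (nx m k)`: same `D`, `w`.
2. `reverse`: `E (m - 1 - k)`; `D ↦ m - D`, `w ↦ -w`.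
3. `lift` (braid move): let `b` be the lowest vertex, `k₁ → b → k₂` its neighbours.  Replace `E k₁`, `E k₂` by their
   mutations over `E b` and the height of `b` by a value above all others: same `D`; `c` changes by `+1` on
   `k₁ → b` and by `-1` on `b → k₂`.
4. `collapse` (`m ≥ 4`): the last vertex `y = m-1` between `x = m-2` and `z = 0` with `o x < o y < o z`: drop `y` and
   replace `E z` by its mutation over `E y`: `c' (m-2) = c (m-2) + c (m-1)`, same `D`, `w`.
   If `o x < o y < o z` up to a cyclic permutation (forward type) first apply `lift` until `x` is lowest.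
   Backward type (`o z < o y < o x` up to cyclic permutation): reverse, collapse, reverse (`D ↦ D - 1`).
5. `m = 3`: `D = 1`: `lift` until vertex 0 is lowest, then (f); `D = 2`: reverse.
Existence of types for `m ≥ 4`: with `A k = o (nx k) - o k + M [descent]` (`M` larger than all differences) `∑ A k = M D` and
forward type at `nx k` iff `A k + A (nx k) < M`, backward iff `> M`.  So if `2 D ≥ m` some vertex has backward type, if
`2 D ≤ m` some vertex has forward type.  Induction on `m`: `D = 1` or `D = m - 1`: any vertex.  `m = 4`, `D = 2`: both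
types.  `m ≥ 5`: `D = m - 2`: a backward vertex; `D = 2`: a forward vertex; otherwise any.
-/

set_option autoImplicit false

namespace Pool.Agent.WQ

/-- Chordless cycle of exceptional objects. -/
structure Cyc {𝓔 : Type*} (X : ExcSys 𝓔) (m : ℕ) (E : ℕ → 𝓔) (o c : ℕ → ℤ) : Prop where
  three : 3 ≤ m
  inj : ∀ j < m, ∀ k < m, o j = o k → j = k
  back : ∀ j < m, ∀ k < m, o j < o k → ∀ n, ¬ X.N (E k) (E j) n
  step : ∀ k < m, (o k < o (nx m k) ∧ X.N (E k) (E (nx m k)) (1 - c k)) ∨
    (o (nx m k) < o k ∧ X.N (E (nx m k)) (E k) (1 + c k))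
  far : ∀ j < m, ∀ k < m, j ≠ k → nx m j ≠ k → nx m k ≠ j → ∀ n, ¬ X.N (E j) (E k) n

/-- Number of descents. -/
noncomputable def desc (m : ℕ) (o : ℕ → ℤ) : ℕ :=
  ((Finset.range m).filter (fun k => o (nx m k) < o k)).card

namespace CycAux

variable {𝓔 : Type*} {X : ExcSys 𝓔} {m : ℕ} {E : ℕ → 𝓔} {o c : ℕ → ℤ}

/-! ### indices -/

theorem nx_lt {k : ℕ} (hk : k < m) : nx m k < m := by
  unfold nx; split_ifs <;> omega

theorem nx_ne (hm : 2 ≤ m) {k : ℕ} : nx m k ≠ k := by
  unfold nx; split_ifs <;> omega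

theorem nx_nx_ne (hm : 3 ≤ m) {k : ℕ} : nx m (nx m k) ≠ k := by
  unfold nx; split_ifs <;> omega

theorem nx_inj {j k : ℕ} (h : nx m j = nx m k) : j = k := by
  unfold nx at h; split_ifs at h <;> omega

theorem nx_surj {k : ℕ} (hk : k < m) : ∃ j < m, nx m j = k := by
  rcases Nat.eq_zero_or_pos k with rfl | h
  · exact ⟨m - 1, by omega, by unfold nx; rw [if_pos (by omega)]⟩
  · exact ⟨k - 1, by omega, by unfold nx; rw [if_neg (by omega)]; omega⟩

theorem sum_nx {M : Type*} [AddCommMonoid M] (f : ℕ → M) :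
    ∑ k ∈ Finset.range m, f (nx m k) = ∑ k ∈ Finset.range m, f k := by
  refine Finset.sum_nbij (nx m) ?_ ?_ ?_ ?_
  · intro k hk
    exact Finset.mem_range.2 (nx_lt (Finset.mem_range.1 hk))
  · intro j _ k _ h
    exact nx_inj h
  · intro k hk
    obtain ⟨j, hj, h⟩ := nx_surj (Finset.mem_range.1 (Finset.mem_coe.1 hk))
    exact ⟨j, Finset.mem_coe.2 (Finset.mem_range.2 hj), h⟩
  · intro k _
    rfl

theorem desc_eq : desc m o = ∑ k ∈ Finset.range m, if o (nx m k) < o k then 1 else 0 := by
  unfold desc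
  rw [Finset.card_filter]

/-! ### consequences of mutation -/

theorem mut_props (X : ExcSys 𝓔) {Y Z : 𝓔} {e : ℤ} (h : ∀ n, ¬ X.N Z Y n) (he : X.N Y Z e) :
    ∃ L, (∀ n, ¬ X.N Y L n) ∧
      (∀ W, (∀ n, ¬ X.N W Y n) → ∀ n, (X.N W L n ↔ X.N W Z n)) ∧
      (∀ W, (∀ n, ¬ X.N Y W n) → ∀ n, (X.N L W n ↔ X.N Z W n)) ∧
      (∀ n, X.N L Y n ↔ n = 1 - e) ∧
      (∀ W, (∀ n, ¬ X.N W Z n) → ∀ n, (X.N W L n ↔ X.N W Y (n + 1 - e))) ∧
      (∀ W d f, (∀ n, ¬ X.N Y W n) → (∀ n, ¬ X.N Z W n) → X.N W Y d → X.N W Z f →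
        f = d + e ∨ f = d + e - 1) := by
  obtain ⟨L, t7, t1, t2, t3, t4, t5, t6⟩ := X.mutate Y Z e h he
  have ha : ∀ W, (∀ n, ¬ X.N W Y n) → ∀ n, (X.N W L n ↔ X.N W Z n) := by
    intro W hW n
    constructor
    · intro h1
      rcases t2 W n h1 with h2 | h2
      · exact h2
      · exact absurd h2 (hW _)
    · intro h1
      rcases t1 W n h1 with h2 | h2
      · exact absurd h2 (hW _)
      · exact h2
  have hb : ∀ W, (∀ n, ¬ X.N Y W n) → ∀ n, (X.N L W n ↔ X.N Z W n) := by
    intro W hW n
    constructor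
    · intro h1
      rcases t6 W n h1 with h2 | h2
      · exact h2
      · exact absurd h2 (hW _)
    · intro h1
      rcases t4 W n h1 with h2 | h2
      · exact h2
      · exact absurd h2 (hW _)
  refine ⟨L, t7, ha, hb, ?_, ?_, ?_⟩
  · intro n
    constructor
    · intro h1
      rcases t6 Y n h1 with h2 | h2
      · exact absurd h2 (h _)
      · have := (X.self Y _).1 h2
        omega
    · rintro rfl
      have h1 : X.N Y Y (-e + e) := (X.self Y _).2 (by ring)
      rcases t5 Y (-e) h1 with h2 | h2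
      · exact absurd h2 (h _)
      · rw [show (1 : ℤ) - e = -e + 1 by ring]; exact h2
  · intro W hW n
    constructor
    · intro h1
      rcases t2 W n h1 with h2 | h2
      · exact absurd h2 (hW _)
      · exact h2
    · intro h1
      have h1' : X.N W Y ((n + 1) - e) := h1
      rcases t3 W (n + 1) h1' with h2 | h2
      · exact absurd h2 (hW _)
      · rw [show n + 1 - 1 = n by ring] at h2; exact h2
  · intro W d f hYW hZW hd hf
    by_contra hcon
    push Not at hcon
    obtain ⟨hc1, hc2⟩ := hcon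
    have hLW : ∀ k, ¬ X.N L W k := fun k h1 => hZW k ((hb W hYW k).1 h1)
    have h1 : X.N W L f := by
      rcases t1 W f hf with h2 | h2
      · exact absurd (X.uniq W Y _ _ hYW h2 hd) (by omega)
      · exact h2
    have h3 : X.N W L (d + e - 1) := by
      rcases t3 W (d + e) (by rw [show d + e - e = d by ring]; exact hd) with h2 | h2
      · exact absurd (X.uniq W Z _ _ hZW h2 hf) (by omega)
      · exact h2
    exact hc2 (X.uniq W L _ _ hLW h1 h3)

/-! ### rotation -/

theorem rotate (h : Cyc X m E o c) :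
    Cyc X m (fun k => E (nx m k)) (fun k => o (nx m k)) (fun k => c (nx m k)) := by
  have hm := h.three
  refine ⟨h.three, ?_, ?_, ?_, ?_⟩
  · intro j hj k hk hjk
    exact nx_inj (h.inj _ (nx_lt hj) _ (nx_lt hk) hjk)
  · intro j hj k hk hjk n
    exact h.back _ (nx_lt hj) _ (nx_lt hk) hjk n
  · intro k hk
    exact h.step _ (nx_lt hk)
  · intro j hj k hk h1 h2 h3 n
    exact h.far _ (nx_lt hj) _ (nx_lt hk) (fun h' => h1 (nx_inj h')) (fun h' => h2 (nx_inj h'))
      (fun h' => h3 (nx_inj h')) n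

theorem rotate_desc : desc m (fun k => o (nx m k)) = desc m o := by
  rw [desc_eq, desc_eq]
  exact sum_nx (fun k => if o (nx m k) < o k then 1 else 0)

/-! ### reversal -/

/-- reflected index -/
def rv (m k : ℕ) : ℕ := m - 1 - nx m k

theorem rv_lt (hm : 1 ≤ m) {k : ℕ} : rv m k < m := by
  unfold rv; omega

theorem nx_rv {k : ℕ} (hk : k < m) : nx m (rv m (nx m k)) = rv m k := by
  unfold rv nx; split_ifs <;> omega

theorem rv_inj {j k : ℕ} (hj : j < m) (hk : k < m) (h : rv m j = rv m k) : j = k := by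
  unfold rv nx at h; split_ifs at h <;> omega

theorem rv_rv {k : ℕ} (hk : k < m) : rv m (rv m k) = k := by
  unfold rv nx; split_ifs <;> omega

theorem sum_rv {M : Type*} [AddCommMonoid M] (f : ℕ → M) :
    ∑ k ∈ Finset.range m, f (rv m k) = ∑ k ∈ Finset.range m, f k := by
  unfold rv
  rw [sum_nx (fun k => f (m - 1 - k))]
  exact Finset.sum_range_reflect f m

theorem reverse (h : Cyc X m E o c) :
    Cyc X m (fun k => E (rv m k)) (fun k => o (rv m k)) (fun k => - c (rv m (nx m k))) := by
  have hm := h.three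
  have hm1 : 1 ≤ m := by omega
  refine ⟨h.three, ?_, ?_, ?_, ?_⟩
  · intro j hj k hk hjk
    exact rv_inj hj hk (h.inj _ (rv_lt hm1) _ (rv_lt hm1) hjk)
  · intro j hj k hk hjk n
    exact h.back _ (rv_lt hm1) _ (rv_lt hm1) hjk n
  · intro k hk
    have hs := h.step _ (rv_lt hm1 (k := nx m k))
    rw [nx_rv hk] at hs
    rcases hs with ⟨h1, h2⟩ | ⟨h1, h2⟩
    · exact Or.inr ⟨h1, by rw [← sub_eq_add_neg]; exact h2⟩
    · exact Or.inl ⟨h1, by rw [sub_neg_eq_add]; exact h2⟩
  · intro j hj k hk h1 h2 h3 n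
    refine h.far _ (rv_lt hm1) _ (rv_lt hm1) (fun h' => h1 (rv_inj hj hk h')) (fun h' => h3 ?_)
      (fun h' => h2 ?_) n
    · -- nx (rv j) = rv k
      obtain ⟨l, hl, hl'⟩ := nx_surj hj
      rw [← hl', nx_rv hl] at h'
      rw [← rv_inj hl hk h', hl']
    · obtain ⟨l, hl, hl'⟩ := nx_surj hk
      rw [← hl', nx_rv hl] at h'
      rw [← rv_inj hl hj h', hl']

theorem reverse_desc (h : Cyc X m E o c) :
    desc m (fun k => o (rv m k)) + desc m o = m := by
  have hm := h.three
  have hm1 : 1 ≤ m := by omega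
  rw [desc_eq, desc_eq]
  have h1 : ∑ k ∈ Finset.range m, (if o (rv m (nx m k)) < o (rv m k) then 1 else 0) =
      ∑ k ∈ Finset.range m, if o k < o (nx m k) then 1 else 0 := by
    rw [← sum_rv (m := m) (fun k => if o k < o (nx m k) then 1 else 0),
      ← sum_nx (m := m) (fun k => if o (rv m k) < o (nx m (rv m k)) then 1 else 0)]
    refine Finset.sum_congr rfl fun k hk => ?_
    rw [nx_rv (Finset.mem_range.1 hk)]
  rw [h1, ← Finset.sum_add_distrib]
  rw [Finset.sum_congr rfl (g := fun _ => 1)]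
  · simp
  · intro k hk
    have hk' := Finset.mem_range.1 hk
    have hne : o k ≠ o (nx m k) := fun h' =>
      nx_ne (by omega) (h.inj _ hk' _ (nx_lt hk') h').symm
    rcases lt_or_gt_of_ne hne with h2 | h2
    · rw [if_pos h2, if_neg (by omega)]
    · rw [if_neg (by omega), if_pos h2]

theorem reverse_sum : ∑ k ∈ Finset.range m, - c (rv m (nx m k)) = - ∑ k ∈ Finset.range m, c k := by
  rw [Finset.sum_neg_distrib, sum_nx (fun k => c (rv m k)), sum_rv]

/-! ### braid move: the lowest vertex goes to the top -/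

theorem lift (h : Cyc X m E o c) {b : ℕ} (hb : b < m) (hmin : ∀ k < m, o b ≤ o k) {B : ℤ}
    (hB : ∀ k < m, o k < B) :
    ∃ (E' : ℕ → 𝓔) (c' : ℕ → ℤ), Cyc X m E' (fun k => if k = b then B else o k) c' ∧
      desc m (fun k => if k = b then B else o k) = desc m o ∧
      ∑ k ∈ Finset.range m, c' k = ∑ k ∈ Finset.range m, c k := by
  have hm := h.three
  have hlt : ∀ k < m, k ≠ b → o b < o k := fun k hk hkb =>
    lt_of_le_of_ne (hmin k hk) fun h' => hkb (h.inj _ hb _ hk h').symm
  -- the mutated objects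
  have hex : ∀ k, ∃ L, k < m → k ≠ b → (∀ n, ¬ X.N (E b) L n) ∧
      (∀ W, (∀ n, ¬ X.N W (E b) n) → ∀ n, (X.N W L n ↔ X.N W (E k) n)) ∧
      (∀ W, (∀ n, ¬ X.N (E b) W n) → ∀ n, (X.N L W n ↔ X.N (E k) W n)) ∧
      (∀ n, X.N L (E b) n ↔ X.N (E b) (E k) (1 - n)) := by
    intro k
    by_cases hk : k < m ∧ k ≠ b
    · obtain ⟨hk, hkb⟩ := hk
      have hback := h.back b hb k hk (hlt k hk hkb)
      by_cases hN : ∃ e, X.N (E b) (E k) e
      · obtain ⟨e, he⟩ := hN
        obtain ⟨L, h1, h2, h3, h4, -, -⟩ := mut_props X hback he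
        refine ⟨L, fun _ _ => ⟨h1, h2, h3, fun n => ?_⟩⟩
        rw [h4]
        constructor
        · rintro rfl
          rw [show (1 : ℤ) - (1 - e) = e by ring]; exact he
        · intro h5
          have := X.uniq _ _ _ _ hback he h5
          omega
      · push Not at hN
        exact ⟨E k, fun _ _ => ⟨hN, fun _ _ _ => Iff.rfl, fun _ _ _ => Iff.rfl,
          fun n => ⟨fun h' => absurd h' (hback n), fun h' => absurd h' (hN _)⟩⟩⟩
    · exact ⟨E k, fun h1 h2 => absurd ⟨h1, h2⟩ hk⟩
  choose L hL using hex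
  -- table
  have T1 : ∀ k < m, k ≠ b → ∀ n, ¬ X.N (E b) (L k) n := fun k hk hkb => (hL k hk hkb).1
  have T2 : ∀ k < m, k ≠ b → ∀ n, X.N (L k) (E b) n ↔ X.N (E b) (E k) (1 - n) :=
    fun k hk hkb => (hL k hk hkb).2.2.2
  have T3 : ∀ j < m, j ≠ b → ∀ k < m, k ≠ b → ∀ n, X.N (L j) (L k) n ↔ X.N (E j) (E k) n := by
    intro j hj hjb k hk hkb n
    rw [(hL j hj hjb).2.2.1 (L k) (T1 k hk hkb) n,
      (hL k hk hkb).2.1 (E j) (h.back b hb j hj (hlt j hj hjb)) n]
  refine ⟨fun k => if k = b then E b else L k,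
    fun k => c k + (if nx m k = b then 1 else 0) - (if k = b then 1 else 0), ?_, ?_, ?_⟩
  · refine ⟨h.three, ?_, ?_, ?_, ?_⟩
    · intro j hj k hk hjk
      split_ifs at hjk with h1 h2 h2
      · rw [h1, h2]
      · exact absurd hjk (hB k hk).ne'
      · exact absurd hjk (hB j hj).ne
      · exact h.inj _ hj _ hk hjk
    · intro j hj k hk hjk n
      by_cases h1 : j = b
      · rw [if_pos h1] at hjk
        by_cases h2 : k = b
        · rw [if_pos h2] at hjk; exact absurd hjk (lt_irrefl _)
        · rw [if_neg h2] at hjk; exact absurd hjk (hB k hk).not_gt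
      · by_cases h2 : k = b
        · rw [if_pos h2, if_neg h1]; exact T1 j hj h1 n
        · rw [if_neg h1, if_neg h2] at hjk
          rw [if_neg h2, if_neg h1, T3 k hk h2 j hj h1]
          exact h.back _ hj _ hk hjk n
    · intro k hk
      have hs := h.step k hk
      have hne := nx_ne (m := m) (by omega) (k := k)
      by_cases hkb : k = b
      · subst hkb
        have hnb : nx m k ≠ k := hne
        rw [if_pos rfl, if_neg hnb, if_neg hnb, if_pos rfl, if_pos rfl, if_neg hnb]
        refine Or.inr ⟨hB _ (nx_lt hk), ?_⟩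
        rw [T2 _ (nx_lt hk) hnb]
        rcases hs with ⟨-, h2⟩ | ⟨h1, -⟩
        · rw [show (1 : ℤ) - (1 + (c k + 0 - 1)) = 1 - c k by ring]; exact h2
        · exact absurd h1 (hmin _ (nx_lt hk)).not_gt
      · by_cases hnb : nx m k = b
        · rw [if_neg hkb, if_pos hnb, if_neg hkb, if_pos hnb, if_pos hnb, if_neg hkb]
          refine Or.inl ⟨hB _ hk, ?_⟩
          rw [T2 _ hk hkb]
          rcases hs with ⟨h1, -⟩ | ⟨-, h2⟩
          · rw [hnb] at h1
            exact absurd h1 (hmin _ hk).not_gt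
          · rw [hnb] at h2
            rw [show (1 : ℤ) - (1 - (c k + 1 - 0)) = 1 + c k by ring]; exact h2
        · rw [if_neg hkb, if_neg hnb, if_neg hkb, if_neg hnb, if_neg hnb, if_neg hkb,
            T3 _ hk hkb _ (nx_lt hk) hnb, T3 _ (nx_lt hk) hnb _ hk hkb,
            show c k + 0 - 0 = c k by ring]
          exact hs
    · intro j hj k hk h1 h2 h3 n
      by_cases hjb : j = b
      · have hkb : k ≠ b := fun h' => h1 (by rw [hjb, h'])
        rw [if_pos hjb, if_neg hkb]
        exact T1 k hk hkb n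
      · by_cases hkb : k = b
        · rw [if_neg hjb, if_pos hkb, T2 j hj hjb]
          rw [← hkb]
          exact h.far k hk j hj (Ne.symm h1) h3 h2 _
        · rw [if_neg hjb, if_neg hkb, T3 j hj hjb k hk hkb]
          exact h.far j hj k hk h1 h2 h3 n
  · -- descents
    rw [desc_eq, desc_eq]
    have h1 : ∀ k ∈ Finset.range m,
        (if (if nx m k = b then B else o (nx m k)) < (if k = b then B else o k) then 1 else 0) +
          (if nx m k = b then 1 else 0) =
        (if o (nx m k) < o k then 1 else 0) + (if k = b then 1 else 0 : ℕ) := by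
      intro k hk
      have hk' := Finset.mem_range.1 hk
      have hne := nx_ne (m := m) (by omega) (k := k)
      by_cases hkb : k = b
      · have hnb : nx m k ≠ b := fun h' => hne (by rw [h', hkb])
        rw [if_neg hnb, if_pos hkb, if_neg hnb, if_pos hkb, if_pos (hB _ (nx_lt hk')),
          if_neg (by rw [hkb]; exact (hmin _ (by rw [← hkb]; exact nx_lt hk')).not_gt)]
      · by_cases hnb : nx m k = b
        · rw [if_pos hnb, if_neg hkb, if_pos hnb, if_neg hkb, if_neg (hB _ hk').not_gt,
            if_pos (by rw [hnb]; exact hlt k hk' hkb)]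
        · rw [if_neg hnb, if_neg hkb, if_neg hnb, if_neg hkb]
    have h2 := Finset.sum_congr rfl h1
    rw [Finset.sum_add_distrib, Finset.sum_add_distrib,
      sum_nx (m := m) (fun k => if k = b then (1 : ℕ) else 0)] at h2
    exact Nat.add_right_cancel h2
  · rw [Finset.sum_sub_distrib, Finset.sum_add_distrib,
      sum_nx (m := m) (fun k => if k = b then (1 : ℤ) else 0)]
    ring

/-! ### normalisation of a forward triple -/

/-- The cyclic order `x, y, z` is positive. -/
def Fw (x y z : ℤ) : Prop := (x < y ∧ y < z) ∨ (y < z ∧ z < x) ∨ (z < x ∧ x < y)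

theorem normalize : ∀ (n : ℕ) {E : ℕ → 𝓔} {o c : ℕ → ℤ} (_ : Cyc X m E o c),
    ((Finset.range m).filter (fun k => o k < o (m - 2))).card = n →
    Fw (o (m - 2)) (o (m - 1)) (o 0) →
    ∃ (E' : ℕ → 𝓔) (o' c' : ℕ → ℤ), Cyc X m E' o' c' ∧ desc m o' = desc m o ∧
      ∑ k ∈ Finset.range m, c' k = ∑ k ∈ Finset.range m, c k ∧
      o' (m - 2) < o' (m - 1) ∧ o' (m - 1) < o' 0 := by
  intro n
  induction n with
  | zero =>
    intro E o c h hn hf
    have hm := h.three
    refine ⟨E, o, c, h, rfl, rfl, ?_⟩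
    have h0 : ¬ o 0 < o (m - 2) := by
      intro h'
      have : 0 ∈ (Finset.range m).filter (fun k => o k < o (m - 2)) :=
        Finset.mem_filter.2 ⟨Finset.mem_range.2 (by omega), h'⟩
      rw [Finset.card_eq_zero.1 hn] at this
      exact absurd this (Finset.notMem_empty _)
    rcases hf with hf | hf | hf
    · exact hf
    · exact absurd hf.2 h0
    · exact absurd hf.1 h0
  | succ n ih =>
    intro E o c h hn hf
    have hm := h.three
    have hne : (Finset.range m).Nonempty := ⟨0, Finset.mem_range.2 (by omega)⟩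
    obtain ⟨b, hb, hmin⟩ := Finset.exists_min_image (Finset.range m) o hne
    obtain ⟨a, ha, hmax⟩ := Finset.exists_max_image (Finset.range m) o hne
    have hb' := Finset.mem_range.1 hb
    have hmin' : ∀ k < m, o b ≤ o k := fun k hk => hmin k (Finset.mem_range.2 hk)
    have hB : ∀ k < m, o k < o a + 1 := fun k hk => by
      have := hmax k (Finset.mem_range.2 hk); omega
    obtain ⟨E', c', h', hd, hw⟩ := lift h hb' hmin' hB
    have hxb : m - 2 ≠ b := by
      rintro rfl
      have : 0 < ((Finset.range m).filter (fun k => o k < o (m - 2))).card := by omega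
      obtain ⟨k, hk⟩ := Finset.card_pos.1 this
      obtain ⟨hk1, hk2⟩ := Finset.mem_filter.1 hk
      exact absurd hk2 (hmin k hk1).not_gt
    have hlt : ∀ k < m, k ≠ b → o b < o k := fun k hk hkb =>
      lt_of_le_of_ne (hmin' k hk) fun h' => hkb (h.inj _ hb' _ hk h').symm
    obtain ⟨E2, o2, c2, h2, hd2, hw2, h3⟩ := ih h' (by
      have hcard : (Finset.range m).filter (fun k => (if k = b then o a + 1 else o k) <
          (if m - 2 = b then o a + 1 else o (m - 2))) =
          ((Finset.range m).filter (fun k => o k < o (m - 2))).erase b := by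
        ext k
        simp only [Finset.mem_filter, Finset.mem_erase, Finset.mem_range]
        rw [if_neg hxb]
        by_cases hkb : k = b
        · rw [if_pos hkb]
          constructor
          · rintro ⟨_, h4⟩
            exact absurd h4 (hB _ (by omega)).not_gt
          · rintro ⟨h4, _⟩
            exact absurd hkb h4
        · rw [if_neg hkb]
          tauto
      rw [hcard, Finset.card_erase_of_mem, hn]
      · rfl
      · exact Finset.mem_filter.2 ⟨hb, hlt _ (by omega) hxb⟩) (by
      have hx := hB (m - 2) (by omega)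
      have hy := hB (m - 1) (by omega)
      have hz := hB 0 (by omega)
      have hbx := hlt (m - 2) (by omega) hxb
      rw [if_neg hxb]
      by_cases hyb : m - 1 = b
      · have hzb : 0 ≠ b := by omega
        have hbz := hlt 0 (by omega) hzb
        rw [if_pos hyb, if_neg hzb]
        rw [hyb] at hf
        unfold Fw at hf ⊢
        omega
      · rw [if_neg hyb]
        by_cases hzb : 0 = b
        · rw [if_pos hzb]
          have hby := hlt (m - 1) (by omega) hyb
          rw [hzb] at hf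
          unfold Fw at hf ⊢
          omega
        · rw [if_neg hzb]
          exact hf)
    exact ⟨E2, o2, c2, h2, hd2.trans hd, hw2.trans hw, h3⟩

theorem normalize' (h : Cyc X m E o c) (hf : Fw (o (m - 2)) (o (m - 1)) (o 0)) :
    ∃ (E' : ℕ → 𝓔) (o' c' : ℕ → ℤ), Cyc X m E' o' c' ∧ desc m o' = desc m o ∧
      ∑ k ∈ Finset.range m, c' k = ∑ k ∈ Finset.range m, c k ∧
      o' (m - 2) < o' (m - 1) ∧ o' (m - 1) < o' 0 := normalize _ h rfl hf

/-! ### triangles -/

theorem triangle (h : Cyc X 3 E o c) (h1 : o 1 < o 2) (h2 : o 2 < o 0) :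
    c 0 + c 1 + c 2 = 0 ∨ c 0 + c 1 + c 2 = 1 := by
  have e0 : nx 3 0 = 1 := rfl
  have e1 : nx 3 1 = 2 := rfl
  have e2 : nx 3 2 = 0 := rfl
  have s0 := h.step 0 (by norm_num)
  have s1 := h.step 1 (by norm_num)
  have s2 := h.step 2 (by norm_num)
  rw [e0] at s0
  rw [e1] at s1
  rw [e2] at s2
  have n0 : X.N (E 1) (E 0) (1 + c 0) := by
    rcases s0 with ⟨h3, -⟩ | ⟨-, h3⟩
    · omega
    · exact h3
  have n1 : X.N (E 1) (E 2) (1 - c 1) := by
    rcases s1 with ⟨-, h3⟩ | ⟨h3, -⟩
    · exact h3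
    · omega
  have n2 : X.N (E 2) (E 0) (1 - c 2) := by
    rcases s2 with ⟨-, h3⟩ | ⟨h3, -⟩
    · exact h3
    · omega
  obtain ⟨L, -, -, -, -, -, hf⟩ := mut_props X (h.back 2 (by norm_num) 0 (by norm_num) h2) n2
  rcases hf (E 1) _ _ (h.back 1 (by norm_num) 2 (by norm_num) h1)
    (h.back 1 (by norm_num) 0 (by norm_num) (h1.trans h2)) n1 n0 with h3 | h3 <;> omega

/-! ### collapsing a monotone vertex -/

theorem collapse {m : ℕ} (hm : 3 ≤ m) {E : ℕ → 𝓔} {o c : ℕ → ℤ} (h : Cyc X (m + 1) E o c)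
    (h1 : o (m - 1) < o m) (h2 : o m < o 0) :
    ∃ (E' : ℕ → 𝓔) (c' : ℕ → ℤ), Cyc X m E' o c' ∧ desc m o = desc (m + 1) o ∧
      ∑ k ∈ Finset.range m, c' k = ∑ k ∈ Finset.range (m + 1), c k := by
  have eL : nx (m + 1) m = 0 := by unfold nx; simp
  have eX : nx (m + 1) (m - 1) = m := by unfold nx; rw [if_neg (by omega)]; omega
  have eO : ∀ k, k < m → nx (m + 1) k = k + 1 := by
    intro k hk; unfold nx; rw [if_neg (by omega)]
  have eM : nx m (m - 1) = 0 := by unfold nx; rw [if_pos (by omega)]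
  have eN : ∀ k, k < m - 1 → nx m k = k + 1 := by
    intro k hk; unfold nx; rw [if_neg (by omega)]
  have sX : X.N (E (m - 1)) (E m) (1 - c (m - 1)) := by
    have := h.step (m - 1) (by omega)
    rw [eX] at this
    rcases this with ⟨-, h3⟩ | ⟨h3, -⟩
    · exact h3
    · omega
  have sY : X.N (E m) (E 0) (1 - c m) := by
    have := h.step m (by omega)
    rw [eL] at this
    rcases this with ⟨-, h3⟩ | ⟨h3, -⟩
    · exact h3
    · omega
  obtain ⟨L, t7, ta, tb, -, td, -⟩ :=
    mut_props X (h.back m (by omega) 0 (by omega) h2) sY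
  -- no maps from `y` to the others
  have hyW : ∀ k, 0 < k → k < m → ∀ n, ¬ X.N (E m) (E k) n := by
    intro k hk0 hk n
    by_cases hkx : k = m - 1
    · rw [hkx]; exact h.back (m - 1) (by omega) m (by omega) h1 n
    · exact h.far m (by omega) k (by omega) (by omega) (by rw [eL]; omega)
        (by rw [eO k hk]; omega) n
  have T1 : ∀ k, 0 < k → k < m → ∀ n, (X.N L (E k) n ↔ X.N (E 0) (E k) n) :=
    fun k hk0 hk => tb _ (hyW k hk0 hk)
  have T2 : ∀ k, 0 < k → k < m - 1 → ∀ n, (X.N (E k) L n ↔ X.N (E k) (E 0) n) := by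
    intro k hk0 hk
    refine ta _ fun n => ?_
    exact h.far k (by omega) m (by omega) (by omega) (by rw [eO k (by omega)]; omega)
      (by rw [eL]; omega) n
  have T3 : ∀ n, (X.N (E (m - 1)) L n ↔ X.N (E (m - 1)) (E m) (n + 1 - (1 - c m))) := by
    refine td _ fun n => ?_
    exact h.far (m - 1) (by omega) 0 (by omega) (by omega) (by rw [eX]; omega)
      (by rw [eO 0 (by omega)]; omega) n
  refine ⟨fun k => if k = 0 then L else E k,
    fun k => if k = m - 1 then c (m - 1) + c m else c k, ?_, ?_, ?_⟩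
  · refine ⟨hm, ?_, ?_, ?_, ?_⟩
    · intro j hj k hk hjk
      exact h.inj j (by omega) k (by omega) hjk
    · intro j hj k hk hjk n
      by_cases hk0 : k = 0
      · by_cases hj0 : j = 0
        · rw [hk0, hj0] at hjk; exact absurd hjk (lt_irrefl _)
        · rw [if_pos hk0, if_neg hj0, T1 j (by omega) hj]
          rw [hk0] at hjk
          exact h.back j (by omega) 0 (by omega) hjk n
      · by_cases hj0 : j = 0
        · rw [if_neg hk0, if_pos hj0]
          rw [hj0] at hjk
          have hkx : k ≠ m - 1 := by rintro rfl; omega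
          rw [T2 k (by omega) (by omega)]
          exact h.back 0 (by omega) k (by omega) hjk n
        · rw [if_neg hk0, if_neg hj0]
          exact h.back j (by omega) k (by omega) hjk n
    · intro k hk
      by_cases hkx : k = m - 1
      · subst hkx
        rw [eM, if_pos rfl, if_neg (by omega), if_pos rfl]
        refine Or.inl ⟨h1.trans h2, ?_⟩
        rw [T3, show 1 - (c (m - 1) + c m) + 1 - (1 - c m) = 1 - c (m - 1) by ring]
        exact sX
      · rw [eN k (by omega), if_neg hkx]
        have hs := h.step k (by omega)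
        rw [eO k hk] at hs
        rw [if_neg (show k + 1 ≠ 0 by omega)]
        by_cases hk0 : k = 0
        · subst hk0
          rw [if_pos rfl, T1 1 (by omega) (by omega), T2 1 (by omega) (by omega)]
          exact hs
        · rw [if_neg hk0]; exact hs
    · intro j hj k hk hjk h3 h4 n
      -- neighbours in the small cycle are neighbours in the big one
      have key : ∀ a b : ℕ, a < m → b < m → a ≠ b → nx m a ≠ b → nx m b ≠ a →
          nx (m + 1) a ≠ b := by
        intro a b ha hb hab hab1 hab2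
        rw [eO a ha]
        by_cases hax : a = m - 1
        · omega
        · rw [eN a (by omega)] at hab1; exact hab1
      have k1 := key j k hj hk hjk h3 h4
      have k2 := key k j hk hj hjk.symm h4 h3
      by_cases hj0 : j = 0
      · have hk0 : k ≠ 0 := by omega
        rw [if_pos hj0, if_neg hk0, T1 k (by omega) hk]
        rw [hj0] at k1 k2 hjk
        exact h.far 0 (by omega) k (by omega) hjk k1 k2 n
      · by_cases hk0 : k = 0
        · have hjx : j ≠ m - 1 := by
            rintro rfl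
            rw [eM] at h3
            exact h3 hk0.symm
          rw [if_neg hj0, if_pos hk0, T2 j (by omega) (by omega)]
          rw [hk0] at k1 k2 hjk
          exact h.far j (by omega) 0 (by omega) hjk k1 k2 n
        · rw [if_neg hj0, if_neg hk0]
          exact h.far j (by omega) k (by omega) hjk k1 k2 n
  · rw [desc_eq, desc_eq]
    obtain ⟨l, rfl⟩ : ∃ l, m = l + 1 := ⟨m - 1, by omega⟩
    simp only [Nat.add_sub_cancel] at *
    rw [Finset.sum_range_succ, Finset.sum_range_succ (n := l + 1), Finset.sum_range_succ (n := l),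
      eM, eL, eX, if_neg (h1.trans h2).not_gt, if_neg h1.not_gt, if_neg h2.not_gt, add_zero,
      add_zero]
    refine Finset.sum_congr rfl fun k hk => ?_
    have hk' := Finset.mem_range.1 hk
    rw [eN k hk', eO k (by omega)]
  · obtain ⟨l, rfl⟩ : ∃ l, m = l + 1 := ⟨m - 1, by omega⟩
    simp only [Nat.add_sub_cancel] at *
    rw [Finset.sum_range_succ, Finset.sum_range_succ (n := l + 1), Finset.sum_range_succ (n := l),
      if_pos rfl, add_assoc]
    congr 1
    refine Finset.sum_congr rfl fun k hk => ?_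
    rw [if_neg (Finset.mem_range.1 hk).ne]

/-! ### reduction steps -/

theorem desc_pos' (h : Cyc X m E o c) : 1 ≤ desc m o := by
  have hm := h.three
  have hne : (Finset.range m).Nonempty := ⟨0, Finset.mem_range.2 (by omega)⟩
  obtain ⟨a, ha, hmax⟩ := Finset.exists_max_image (Finset.range m) o hne
  have ha' := Finset.mem_range.1 ha
  unfold desc
  apply Finset.card_pos.2
  refine ⟨a, Finset.mem_filter.2 ⟨ha, ?_⟩⟩
  exact lt_of_le_of_ne (hmax _ (Finset.mem_range.2 (nx_lt ha')))
    fun h' => nx_ne (by omega) (h.inj _ (nx_lt ha') _ ha' h')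

theorem stepF {m : ℕ} (hm : 3 ≤ m) {E : ℕ → 𝓔} {o c : ℕ → ℤ} (h : Cyc X (m + 1) E o c)
    (hf : Fw (o (m - 1)) (o m) (o 0)) :
    ∃ (E' : ℕ → 𝓔) (o' c' : ℕ → ℤ), Cyc X m E' o' c' ∧ desc m o' = desc (m + 1) o ∧
      ∑ k ∈ Finset.range m, c' k = ∑ k ∈ Finset.range (m + 1), c k := by
  obtain ⟨E1, o1, c1, h1, hd1, hw1, h2, h3⟩ := normalize' h (by
    rw [show m + 1 - 2 = m - 1 by omega, Nat.add_sub_cancel]; exact hf)
  rw [show m + 1 - 2 = m - 1 by omega, Nat.add_sub_cancel] at h2
  rw [Nat.add_sub_cancel] at h3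
  obtain ⟨E2, c2, h4, hd2, hw2⟩ := collapse hm h1 h2 h3
  exact ⟨E2, o1, c2, h4, hd2.trans hd1, hw2.trans hw1⟩

theorem stepB {m : ℕ} (hm : 3 ≤ m) {E : ℕ → 𝓔} {o c : ℕ → ℤ} (h : Cyc X (m + 1) E o c)
    (hf : Fw (o 0) (o m) (o (m - 1))) :
    ∃ (E' : ℕ → 𝓔) (o' c' : ℕ → ℤ), Cyc X m E' o' c' ∧ desc m o' + 1 = desc (m + 1) o ∧
      ∑ k ∈ Finset.range m, c' k = ∑ k ∈ Finset.range (m + 1), c k := by
  have r0 : rv (m + 1) (m - 1) = 0 := by unfold rv nx; rw [if_neg (by omega)]; omega
  have r1 : rv (m + 1) m = m := by unfold rv nx; rw [if_pos rfl]; omega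
  have r2 : rv (m + 1) 0 = m - 1 := by unfold rv nx; rw [if_neg (by omega)]; omega
  obtain ⟨E1, o1, c1, h1, hd1, hw1⟩ := stepF hm (reverse h) (by rw [r0, r1, r2]; exact hf)
  refine ⟨_, _, _, reverse h1, ?_, ?_⟩
  · have := reverse_desc h
    have := reverse_desc h1
    omega
  · rw [reverse_sum, hw1, reverse_sum, neg_neg]

theorem rotN (h : Cyc X m E o c) (r : ℕ) :
    Cyc X m (fun k => E ((nx m)^[r] k)) (fun k => o ((nx m)^[r] k)) (fun k => c ((nx m)^[r] k)) ∧
      desc m (fun k => o ((nx m)^[r] k)) = desc m o ∧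
      ∑ k ∈ Finset.range m, c ((nx m)^[r] k) = ∑ k ∈ Finset.range m, c k := by
  induction r with
  | zero => exact ⟨h, rfl, rfl⟩
  | succ r ih =>
    obtain ⟨h1, h2, h3⟩ := ih
    simp only [Function.iterate_succ_apply]
    refine ⟨rotate h1, ?_, ?_⟩
    · rw [← h2]; exact rotate_desc (o := fun k => o ((nx m)^[r] k))
    · rw [← h3]; exact sum_nx (fun k => c ((nx m)^[r] k))

theorem iter_nx {m : ℕ} (hm : 1 ≤ m) (r k : ℕ) (hk : k < m) : (nx m)^[r] k = (k + r) % m := by
  induction r with
  | zero => simp [Nat.mod_eq_of_lt hk]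
  | succ r ih =>
    rw [Function.iterate_succ_apply', ih, ← add_assoc, ← Nat.mod_add_mod (k + r) m 1]
    have hlt : (k + r) % m < m := Nat.mod_lt _ hm
    generalize (k + r) % m = a at hlt
    unfold nx
    split_ifs with h
    · rw [h, Nat.mod_self]
    · exact (Nat.mod_eq_of_lt (by omega)).symm

theorem nx_comm {n : ℕ} (r j : ℕ) : (nx n)^[r] (nx n j) = nx n ((nx n)^[r] j) := by
  rw [← Function.iterate_succ_apply, Function.iterate_succ_apply']

theorem redF {m : ℕ} (hm : 3 ≤ m) {E : ℕ → 𝓔} {o c : ℕ → ℤ} (h : Cyc X (m + 1) E o c) {k : ℕ}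
    (hk : k < m + 1) (hf : Fw (o k) (o (nx (m + 1) k)) (o (nx (m + 1) (nx (m + 1) k)))) :
    ∃ (E' : ℕ → 𝓔) (o' c' : ℕ → ℤ), Cyc X m E' o' c' ∧ desc m o' = desc (m + 1) o ∧
      ∑ k ∈ Finset.range m, c' k = ∑ k ∈ Finset.range (m + 1), c k := by
  obtain ⟨h1, h2, h3⟩ := rotN h (k + 2)
  have e0 : (nx (m + 1))^[k + 2] (m - 1) = k := by
    rw [iter_nx (by omega) _ _ (by omega), show m - 1 + (k + 2) = k + (m + 1) by omega,
      Nat.add_mod_right, Nat.mod_eq_of_lt hk]
  have i1 : nx (m + 1) (m - 1) = m := by unfold nx; rw [if_neg (by omega)]; omega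
  have i2 : nx (m + 1) m = 0 := by unfold nx; rw [if_pos rfl]
  have e1 : (nx (m + 1))^[k + 2] m = nx (m + 1) k := by
    have := nx_comm (n := m + 1) (k + 2) (m - 1)
    rw [i1, e0] at this; exact this
  have e2 : (nx (m + 1))^[k + 2] 0 = nx (m + 1) (nx (m + 1) k) := by
    have := nx_comm (n := m + 1) (k + 2) m
    rw [i2, e1] at this; exact this
  obtain ⟨E', o', c', h4, h5, h6⟩ := stepF hm h1 (by rw [e0, e1, e2]; exact hf)
  exact ⟨E', o', c', h4, h5.trans h2, h6.trans h3⟩

theorem redB {m : ℕ} (hm : 3 ≤ m) {E : ℕ → 𝓔} {o c : ℕ → ℤ} (h : Cyc X (m + 1) E o c) {k : ℕ}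
    (hk : k < m + 1) (hf : Fw (o (nx (m + 1) (nx (m + 1) k))) (o (nx (m + 1) k)) (o k)) :
    ∃ (E' : ℕ → 𝓔) (o' c' : ℕ → ℤ), Cyc X m E' o' c' ∧ desc m o' + 1 = desc (m + 1) o ∧
      ∑ k ∈ Finset.range m, c' k = ∑ k ∈ Finset.range (m + 1), c k := by
  obtain ⟨h1, h2, h3⟩ := rotN h (k + 2)
  have e0 : (nx (m + 1))^[k + 2] (m - 1) = k := by
    rw [iter_nx (by omega) _ _ (by omega), show m - 1 + (k + 2) = k + (m + 1) by omega,
      Nat.add_mod_right, Nat.mod_eq_of_lt hk]
  have i1 : nx (m + 1) (m - 1) = m := by unfold nx; rw [if_neg (by omega)]; omega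
  have i2 : nx (m + 1) m = 0 := by unfold nx; rw [if_pos rfl]
  have e1 : (nx (m + 1))^[k + 2] m = nx (m + 1) k := by
    have := nx_comm (n := m + 1) (k + 2) (m - 1)
    rw [i1, e0] at this; exact this
  have e2 : (nx (m + 1))^[k + 2] 0 = nx (m + 1) (nx (m + 1) k) := by
    have := nx_comm (n := m + 1) (k + 2) m
    rw [i2, e1] at this; exact this
  obtain ⟨E', o', c', h4, h5, h6⟩ := stepB hm h1 (by rw [e0, e1, e2]; exact hf)
  exact ⟨E', o', c', h4, h5.trans h2, h6.trans h3⟩

/-- Every triple of consecutive vertices has forward or backward type. -/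
theorem types (h : Cyc X m E o c) {k : ℕ} (hk : k < m) :
    Fw (o k) (o (nx m k)) (o (nx m (nx m k))) ∨ Fw (o (nx m (nx m k))) (o (nx m k)) (o k) := by
  have hm := h.three
  have h1 : o (nx m k) ≠ o k := fun h' => nx_ne (by omega) (h.inj _ (nx_lt hk) _ hk h')
  have h2 : o (nx m (nx m k)) ≠ o (nx m k) := fun h' =>
    nx_ne (by omega) (h.inj _ (nx_lt (nx_lt hk)) _ (nx_lt hk) h')
  have h3 : o (nx m (nx m k)) ≠ o k := fun h' =>
    nx_nx_ne hm (h.inj _ (nx_lt (nx_lt hk)) _ hk h')
  unfold Fw
  omega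

theorem exists_bound (h : Cyc X m E o c) : ∃ M : ℤ, 0 < M ∧
    ∀ j < m, ∀ k < m, o j - o k < M := by
  have hm := h.three
  have hne : (Finset.range m).Nonempty := ⟨0, Finset.mem_range.2 (by omega)⟩
  obtain ⟨b, hb, hmin⟩ := Finset.exists_min_image (Finset.range m) o hne
  obtain ⟨a, ha, hmax⟩ := Finset.exists_max_image (Finset.range m) o hne
  refine ⟨o a - o b + 1, ?_, ?_⟩
  · have := hmin a ha; omega
  · intro j hj k hk
    have := hmax j (Finset.mem_range.2 hj)
    have := hmin k (Finset.mem_range.2 hk)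
    omega

theorem sum_A (M : ℤ) : ∑ k ∈ Finset.range m,
    ((o (nx m k) - o k + M * (if o (nx m k) < o k then 1 else 0)) +
      (o (nx m (nx m k)) - o (nx m k) + M * (if o (nx m (nx m k)) < o (nx m k) then 1 else 0))) =
    2 * (M * desc m o) := by
  rw [Finset.sum_add_distrib,
    sum_nx (fun k => o (nx m k) - o k + M * (if o (nx m k) < o k then 1 else 0)),
    Finset.sum_add_distrib, Finset.sum_sub_distrib, sum_nx o, ← Finset.mul_sum, desc_eq]
  push_cast
  ring

theorem exists_fw (h : Cyc X m E o c) (hD : 2 * desc m o ≤ m) :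
    ∃ k < m, Fw (o k) (o (nx m k)) (o (nx m (nx m k))) := by
  by_contra hcon
  push Not at hcon
  have hm := h.three
  obtain ⟨M, hM, hb⟩ := exists_bound h
  have h1 : ∑ _k ∈ Finset.range m, M < ∑ k ∈ Finset.range m,
      ((o (nx m k) - o k + M * (if o (nx m k) < o k then 1 else 0)) +
      (o (nx m (nx m k)) - o (nx m k) +
        M * (if o (nx m (nx m k)) < o (nx m k) then 1 else 0))) := by
    apply Finset.sum_lt_sum_of_nonempty ⟨0, Finset.mem_range.2 (by omega)⟩
    intro k hk
    have hk' := Finset.mem_range.1 hk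
    have ht := (types h hk').resolve_left (hcon k hk')
    have b1 := hb k hk' _ (nx_lt (nx_lt hk'))
    unfold Fw at ht
    split_ifs <;> omega
  rw [sum_A, Finset.sum_const, Finset.card_range, nsmul_eq_mul] at h1
  have h2 : (m : ℤ) < 2 * desc m o := by nlinarith
  omega

theorem exists_bw (h : Cyc X m E o c) (hD : m ≤ 2 * desc m o) :
    ∃ k < m, Fw (o (nx m (nx m k))) (o (nx m k)) (o k) := by
  by_contra hcon
  push Not at hcon
  have hm := h.three
  obtain ⟨M, hM, hb⟩ := exists_bound h
  have h1 : ∑ k ∈ Finset.range m,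
      ((o (nx m k) - o k + M * (if o (nx m k) < o k then 1 else 0)) +
      (o (nx m (nx m k)) - o (nx m k) +
        M * (if o (nx m (nx m k)) < o (nx m k) then 1 else 0))) <
      ∑ _k ∈ Finset.range m, M := by
    apply Finset.sum_lt_sum_of_nonempty ⟨0, Finset.mem_range.2 (by omega)⟩
    intro k hk
    have hk' := Finset.mem_range.1 hk
    have ht := (types h hk').resolve_right (hcon k hk')
    have b1 := hb _ (nx_lt (nx_lt hk')) k hk'
    unfold Fw at ht
    split_ifs <;> omega
  rw [sum_A, Finset.sum_const, Finset.card_range, nsmul_eq_mul] at h1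
  have h2 : 2 * (desc m o : ℤ) < m := by nlinarith
  omega

theorem desc_lt (h : Cyc X m E o c) : desc m o + 1 ≤ m := by
  have h1 := reverse_desc h
  have h2 := desc_pos' (reverse h)
  omega

theorem main3 {E : ℕ → 𝓔} {o c : ℕ → ℤ} (h : Cyc X 3 E o c) (hD : desc 3 o = 1) :
    ∑ k ∈ Finset.range 3, c k = 0 ∨ ∑ k ∈ Finset.range 3, c k = 1 := by
  have hf : Fw (o 1) (o 2) (o 0) := by
    rw [desc_eq] at hD
    simp only [Finset.sum_range_succ, Finset.sum_range_zero, show nx 3 0 = 1 from rfl,
      show nx 3 1 = 2 from rfl, show nx 3 2 = 0 from rfl] at hD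
    have h1 : o 0 ≠ o 1 := fun h' => absurd (h.inj 0 (by norm_num) 1 (by norm_num) h') (by norm_num)
    have h2 : o 1 ≠ o 2 := fun h' => absurd (h.inj 1 (by norm_num) 2 (by norm_num) h') (by norm_num)
    have h3 : o 0 ≠ o 2 := fun h' => absurd (h.inj 0 (by norm_num) 2 (by norm_num) h') (by norm_num)
    unfold Fw
    split_ifs at hD <;> omega
  obtain ⟨E', o', c', h', hd, hw, h1, h2⟩ := normalize' h hf
  rw [← hw]
  have := triangle h' h1 h2
  simpa [Finset.sum_range_succ] using this

theorem main_aux (m : ℕ) (hm : 3 ≤ m) : ∀ {E : ℕ → 𝓔} {o c : ℕ → ℤ}, Cyc X m E o c →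
    (desc m o = 1 → ∑ k ∈ Finset.range m, c k = 0 ∨ ∑ k ∈ Finset.range m, c k = 1) ∧
    (desc m o + 1 = m → ∑ k ∈ Finset.range m, c k = 0 ∨ ∑ k ∈ Finset.range m, c k = -1) ∧
    (2 ≤ desc m o → desc m o + 2 ≤ m → ∑ k ∈ Finset.range m, c k = 0) := by
  induction m, hm using Nat.le_induction with
  | base =>
    intro E o c h
    refine ⟨main3 h, fun hD => ?_, fun h1 h2 => by omega⟩
    have h1 := reverse_desc h
    have h2 := main3 (reverse h) (by omega)
    rw [reverse_sum] at h2
    omega
  | succ m hm ih =>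
    intro E o c h
    have hp := desc_pos' h
    have hl := desc_lt h
    refine ⟨fun hD => ?_, fun hD => ?_, fun hD hD' => ?_⟩
    · rcases types h (k := 0) (by omega) with ht | ht
      · obtain ⟨E', o', c', h', hd, hw⟩ := redF hm h (by omega) ht
        rw [← hw]
        exact (ih h').1 (by omega)
      · obtain ⟨E', o', c', h', hd, hw⟩ := redB hm h (by omega) ht
        have := desc_pos' h'
        omega
    · rcases types h (k := 0) (by omega) with ht | ht
      · obtain ⟨E', o', c', h', hd, hw⟩ := redF hm h (by omega) ht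
        have := desc_lt h'
        omega
      · obtain ⟨E', o', c', h', hd, hw⟩ := redB hm h (by omega) ht
        rw [← hw]
        exact (ih h').2.1 (by omega)
    · by_cases h3 : m = 3
      · subst h3
        obtain ⟨k, hk, ht⟩ := exists_fw h (by omega)
        obtain ⟨E', o', c', h', hd, hw⟩ := redF le_rfl h hk ht
        obtain ⟨k2, hk2, ht2⟩ := exists_bw h (by omega)
        obtain ⟨E2, o2, c2, h2', hd2, hw2⟩ := redB le_rfl h hk2 ht2
        have a1 := (ih h').2.1 (by omega)
        have a2 := (ih h2').1 (by omega)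
        rw [hw] at a1
        rw [hw2] at a2
        omega
      · by_cases h4 : desc (m + 1) o + 2 = m + 1
        · obtain ⟨k, hk, ht⟩ := exists_bw h (by omega)
          obtain ⟨E', o', c', h', hd, hw⟩ := redB hm h hk ht
          rw [← hw]
          exact (ih h').2.2 (by omega) (by omega)
        · by_cases h5 : desc (m + 1) o = 2
          · obtain ⟨k, hk, ht⟩ := exists_fw h (by omega)
            obtain ⟨E', o', c', h', hd, hw⟩ := redF hm h hk ht
            rw [← hw]
            exact (ih h').2.2 (by omega) (by omega)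
          · rcases types h (k := 0) (by omega) with ht | ht
            · obtain ⟨E', o', c', h', hd, hw⟩ := redF hm h (by omega) ht
              rw [← hw]
              exact (ih h').2.2 (by omega) (by omega)
            · obtain ⟨E', o', c', h', hd, hw⟩ := redB hm h (by omega) ht
              rw [← hw]
              exact (ih h').2.2 (by omega) (by omega)

end CycAux

open CycAux

variable {𝓔 : Type*} {X : ExcSys 𝓔} {m : ℕ} {E : ℕ → 𝓔} {o c : ℕ → ℤ}

theorem Cyc.desc_pos (h : Cyc X m E o c) : 1 ≤ desc m o ∧ desc m o + 1 ≤ m :=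
  ⟨desc_pos' h, desc_lt h⟩

theorem Cyc.main (h : Cyc X m E o c) :
    (desc m o = 1 → ∑ k ∈ Finset.range m, c k = 0 ∨ ∑ k ∈ Finset.range m, c k = 1) ∧
    (desc m o + 1 = m → ∑ k ∈ Finset.range m, c k = 0 ∨ ∑ k ∈ Finset.range m, c k = -1) ∧
    (2 ≤ desc m o → desc m o + 2 ≤ m → ∑ k ∈ Finset.range m, c k = 0) :=
  main_aux m h.three h

open Classical in
/-- If every `Hom•` on the cycle is in degree `1` or `2` the winding number only depends on the
directions of the steps. -/
theorem Cyc.winding (h : Cyc X m E o c) (fwd : ℕ → Prop)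
    (hd : ∀ k < m, o (nx m k) < o k → c k = if fwd k then 0 else 1)
    (ha : ∀ k < m, o k < o (nx m k) → c k = if fwd k then -1 else 0) :
    ∑ k ∈ Finset.range m, c k =
      if ∀ k < m, fwd k then -1 else if ∀ k < m, ¬ fwd k then 1 else 0 := by
  have hm := h.three
  have hne : ∀ k < m, o (nx m k) < o k ∨ o k < o (nx m k) := fun k hk =>
    lt_or_gt_of_ne fun h' => nx_ne (by omega) (h.inj _ (nx_lt hk) _ hk h')
  have hD : ∑ k ∈ Finset.range m, (if o (nx m k) < o k then 1 else 0 : ℤ) = desc m o := by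
    rw [desc_eq]; push_cast; rfl
  have hA : ∑ k ∈ Finset.range m, (if o (nx m k) < o k then 0 else -1 : ℤ) = desc m o - m := by
    rw [← hD]
    have : (m : ℤ) = ∑ k ∈ Finset.range m, (1 : ℤ) := by simp
    rw [this, ← Finset.sum_sub_distrib]
    refine Finset.sum_congr rfl fun k _ => ?_
    split_ifs <;> norm_num
  have hcD : ∀ k ∈ Finset.range m, c k ≤ if o (nx m k) < o k then 1 else 0 := by
    intro k hk
    have hk' := Finset.mem_range.1 hk
    rcases hne k hk' with h1 | h1
    · rw [if_pos h1, hd k hk' h1]; split_ifs <;> norm_num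
    · rw [if_neg h1.not_gt, ha k hk' h1]; split_ifs <;> norm_num
  have hcA : ∀ k ∈ Finset.range m, (if o (nx m k) < o k then 0 else -1) ≤ c k := by
    intro k hk
    have hk' := Finset.mem_range.1 hk
    rcases hne k hk' with h1 | h1
    · rw [if_pos h1, hd k hk' h1]; split_ifs <;> norm_num
    · rw [if_neg h1.not_gt, ha k hk' h1]; split_ifs <;> norm_num
  obtain ⟨hp, hl⟩ := h.desc_pos
  obtain ⟨m1, m2, m3⟩ := h.main
  by_cases hF : ∀ k < m, fwd k
  · rw [if_pos hF]
    have h1 : ∑ k ∈ Finset.range m, c k =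
        ∑ k ∈ Finset.range m, (if o (nx m k) < o k then 0 else -1 : ℤ) := by
      refine Finset.sum_congr rfl fun k hk => ?_
      have hk' := Finset.mem_range.1 hk
      rcases hne k hk' with h1 | h1
      · rw [if_pos h1, hd k hk' h1, if_pos (hF k hk')]
      · rw [if_neg h1.not_gt, ha k hk' h1, if_pos (hF k hk')]
    rw [hA] at h1
    by_cases c1 : desc m o = 1
    · have := m1 c1; omega
    · by_cases c2 : desc m o + 1 = m
      · have := m2 c2; omega
      · have := m3 (by omega) (by omega); omega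
  · rw [if_neg hF]
    by_cases hB : ∀ k < m, ¬ fwd k
    · rw [if_pos hB]
      have h1 : ∑ k ∈ Finset.range m, c k =
          ∑ k ∈ Finset.range m, (if o (nx m k) < o k then 1 else 0 : ℤ) := by
        refine Finset.sum_congr rfl fun k hk => ?_
        have hk' := Finset.mem_range.1 hk
        rcases hne k hk' with h1 | h1
        · rw [if_pos h1, hd k hk' h1, if_neg (hB k hk')]
        · rw [if_neg h1.not_gt, ha k hk' h1, if_neg (hB k hk')]
      rw [hD] at h1
      by_cases c1 : desc m o = 1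
      · have := m1 c1; omega
      · by_cases c2 : desc m o + 1 = m
        · have := m2 c2; omega
        · have := m3 (by omega) (by omega); omega
    · rw [if_neg hB]
      by_cases c1 : desc m o = 1
      · rcases m1 c1 with h0 | h1
        · exact h0
        · exfalso
          apply hB
          have heq : ∑ k ∈ Finset.range m, c k =
              ∑ k ∈ Finset.range m, (if o (nx m k) < o k then 1 else 0 : ℤ) := by
            rw [hD, h1, c1]; rfl
          have hall := (Finset.sum_eq_sum_iff_of_le hcD).1 heq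
          intro k hk hf
          have h2 := hall k (Finset.mem_range.2 hk)
          rcases hne k hk with h3 | h3
          · rw [if_pos h3, hd k hk h3, if_pos hf] at h2; omega
          · rw [if_neg h3.not_gt, ha k hk h3, if_pos hf] at h2; omega
      · by_cases c2 : desc m o + 1 = m
        · rcases m2 c2 with h0 | h1
          · exact h0
          · exfalso
            apply hF
            have heq : ∑ k ∈ Finset.range m, (if o (nx m k) < o k then 0 else -1 : ℤ) =
                ∑ k ∈ Finset.range m, c k := by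
              rw [hA, h1]; omega
            have hall := (Finset.sum_eq_sum_iff_of_le hcA).1 heq
            intro k hk
            by_contra hf
            have h2 := hall k (Finset.mem_range.2 hk)
            rcases hne k hk with h3 | h3
            · rw [if_pos h3, hd k hk h3, if_neg hf] at h2; omega
            · rw [if_neg h3.not_gt, ha k hk h3, if_neg hf] at h2; omega
        · exact m3 (by omega) (by omega)

end Pool.Agent.WQ
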