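import Mathlib

/-!
# WQ: the weights of a weighted projective line from the ungraded quiver (MP_914906_al)

Definitions for the statement.  `H` is an abelian `K`-linear category with Mathlib's Ext groups.
For `H = coh X`, `X` a weighted projective line: `Her` and `Serre` are Geigle-Lenzing, `HasTilt`
holds with the canonical tilting bundle twisted by a sufficiently negative line bundle (Serre
vanishing), the tubes are indexed by the points of the projective line and the ranks different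
from one are the weights.
-/

set_option autoImplicit false

open CategoryTheory CategoryTheory.Limits CategoryTheory.Abelian

namespace Pool.Agent.WQ

universe t v u w

section

variable (K : Type t) [Field K] (H : Type u) [Category.{v} H] [Abelian H] [Linear K H]
  [HasExt.{w} H]

/-- Hom-finite, Ext-finite, hereditary, noetherian. -/
class Her : Prop where
  finHom : ∀ X Y : H, Module.Finite K (X ⟶ Y)
  finExt : ∀ X Y : H, Module.Finite K (Ext X Y 1)
  hered : ∀ (X Y : H) (e : Ext X Y 2), e = 0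
  noeth : ∀ X : H, IsNoetherianObject X

/-- Serre duality: a `K`-linear autoequivalence `τ` and trace forms `tr X : Ext¹(X, τ X) → K` such
that the composition pairings `Hom(X, Y) × Ext¹(Y, τ X) → Ext¹(X, τ X) → K` are nondegenerate on
both sides and symmetric: `tr (f b) = tr (b τ(f))`.  (Equivalently: isomorphisms
`Ext¹(Y, τ X) ≅ D Hom(X, Y)`, natural in `X` and `Y`.) -/
structure Serre where
  τ : H ≌ H
  add : τ.functor.Additive
  lin : τ.functor.Linear K
  tr : ∀ X : H, Ext X (τ.functor.obj X) 1 →ₗ[K] K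
  nondegL : ∀ (X Y : H) (f : X ⟶ Y),
    (∀ b : Ext Y (τ.functor.obj X) 1, tr X ((Ext.mk₀ f).comp b (zero_add 1)) = 0) → f = 0
  nondegR : ∀ (X Y : H) (b : Ext Y (τ.functor.obj X) 1),
    (∀ f : X ⟶ Y, tr X ((Ext.mk₀ f).comp b (zero_add 1)) = 0) → b = 0
  symm : ∀ (X Y : H) (f : X ⟶ Y) (b : Ext Y (τ.functor.obj X) 1),
    tr X ((Ext.mk₀ f).comp b (zero_add 1)) =
      tr Y (b.comp (Ext.mk₀ (τ.functor.map f)) (add_zero 1))

/-- Every object `X` admits a tilting object `T₀ = ⨁ T₀ i` (rigid, and `Hom(T₀, Y) = 0 =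
Ext¹(T₀, Y)` only for `Y = 0`) with `Ext¹(T₀, X) = 0`. -/
def HasTilt : Prop :=
  ∀ X : H, ∃ (n : ℕ) (T₀ : Fin n → H), (∀ i j, ∀ e : Ext (T₀ i) (T₀ j) 1, e = 0) ∧
    (∀ Y : H, (∀ i, ∀ f : T₀ i ⟶ Y, f = 0) → (∀ i, ∀ e : Ext (T₀ i) Y 1, e = 0) → IsZero Y) ∧
    ∀ i, ∀ e : Ext (T₀ i) X 1, e = 0

end

variable {K : Type t} [Field K] {H : Type u} [Category.{v} H] [Abelian H] [Linear K H]
  [HasExt.{w} H]

namespace Serre

variable (𝒮 : Serre K H)

/-! ### The cluster category

The cluster category is the orbit category of `D^b(H)` by `F = τ⁻¹[1]`.  `Hom_C(X, Y)` is the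
direct sum of `Hom_D(X, Fⁿ Y)`; for `X, Y` in `H` only `n = 0, 1` contribute:
`Hom_C(X, Y) = Hom(X, Y) ⊕ Ext¹(X, τ⁻¹ Y)`.  As `H` has no nonzero projectives every object of the
cluster category is isomorphic to an object of `H`.
-/

/-- Morphisms `X → Y` of the cluster category. -/
abbrev CHom (X Y : H) : Type (max v w) := (X ⟶ Y) × Ext X (𝒮.τ.inverse.obj Y) 1

/-- Identity of the cluster category. -/
noncomputable def cid (X : H) : 𝒮.CHom X X := (𝟙 X, 0)

/-- Composition of the cluster category: `(f, a) (g, b) = (f g, f b + a τ⁻¹(g))` (the product of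
`a` and `b` lies in `Ext²(X, τ⁻² Z) = 0`). -/
noncomputable def ccomp {X Y Z : H} (φ : 𝒮.CHom X Y) (ψ : 𝒮.CHom Y Z) : 𝒮.CHom X Z :=
  (φ.1 ≫ ψ.1, (Ext.mk₀ φ.1).comp ψ.2 (zero_add 1) +
    φ.2.comp (Ext.mk₀ (𝒮.τ.inverse.map ψ.1)) (add_zero 1))

/-- Objects of the cluster category (those of `H`). -/
structure Clu (𝒮 : Serre K H) where
  /-- underlying object of `H` -/
  obj : H

instance inverse_additive : 𝒮.τ.inverse.Additive :=
  haveI := 𝒮.add
  𝒮.τ.inverse_additive

/-- The cluster category. -/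
noncomputable instance cluCategory : Category (Clu 𝒮) where
  Hom X Y := 𝒮.CHom X.obj Y.obj
  id X := 𝒮.cid X.obj
  comp φ ψ := 𝒮.ccomp φ ψ
  id_comp φ := by
    ext
    · simp [ccomp, cid]
    · simp [ccomp, cid]
  comp_id φ := by
    ext
    · simp [ccomp, cid]
    · simp [ccomp, cid]
  assoc φ ψ χ := by
    ext
    · simp [ccomp]
    · simp only [ccomp, Functor.map_comp, Ext.comp_add, Ext.add_comp,
        ← Ext.mk₀_comp_mk₀, Ext.comp_assoc_of_second_deg_zero, Ext.comp_assoc_of_third_deg_zero,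
        add_assoc]

/-- Isomorphisms of the cluster category. -/
def IsCIso {X Y : H} (φ : 𝒮.CHom X Y) : Prop :=
  ∃ ψ : 𝒮.CHom Y X, 𝒮.ccomp φ ψ = 𝒮.cid X ∧ 𝒮.ccomp ψ φ = 𝒮.cid Y

/-- `Ext¹_C(X, Y) = Hom_C(X, Y[1])`, where `[1] = τ` in the cluster category. -/
abbrev CExt (X Y : H) : Type (max v w) := 𝒮.CHom X (𝒮.τ.functor.obj Y)

/-- `T = ⨁ T i` is a cluster-tilting object: basic, `Ext¹_C(T, T) = 0` and maximal with this
property. -/
structure IsClusterTilting {I : Type*} (T : I → H) : Prop where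
  indec : ∀ i, Indecomposable (T i)
  basic : ∀ i j, Nonempty (T i ≅ T j) → i = j
  rigid : ∀ i j, Subsingleton (𝒮.CExt (T i) (T j))
  maximal : ∀ X : H, Indecomposable X → (∀ i, Subsingleton (𝒮.CExt (T i) X)) →
    (∀ i, Subsingleton (𝒮.CExt X (T i))) → Subsingleton (𝒮.CExt X X) →
    ∃ i, Nonempty (X ≅ T i)

/-! ### The ungraded quiver -/

/-- The radical of `Hom_C(T i, T j)` (for pairwise nonisomorphic objects with local endomorphism
rings: the non-isomorphisms). -/
noncomputable def crad {I : Type*} (T : I → H) (i j : I) :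
    Submodule K (𝒮.CHom (T i) (T j)) :=
  Submodule.span K {φ | ¬ 𝒮.IsCIso φ}

/-- The square of the radical of the category of the `T i`. -/
noncomputable def crad2 {I : Type*} (T : I → H) (i j : I) :
    Submodule K (𝒮.CHom (T i) (T j)) :=
  Submodule.span K {χ | ∃ k, ∃ φ ∈ 𝒮.crad T i k, ∃ ψ ∈ 𝒮.crad T k j, χ = 𝒮.ccomp φ ψ}

/-- Number of arrows `i → j` of the ordinary quiver of the endomorphism algebra of `T` in the
cluster category: dimension of `rad(T i, T j) / rad²(T i, T j)`. -/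
noncomputable def arrows {I : Type*} (T : I → H) (i j : I) : ℕ :=
  Module.finrank K (𝒮.crad T i j ⧸ (𝒮.crad2 T i j).submoduleOf (𝒮.crad T i j))

/-! ### Tubes -/

/-- `τⁿ X`. -/
noncomputable def tauPow (n : ℕ) (X : H) : H := (fun Y => 𝒮.τ.functor.obj Y)^[n] X

/-- Simple objects of `H` are in the same tube if they are in the same `τ`-orbit. -/
def SameTube (S S' : H) : Prop := ∃ m n : ℕ, Nonempty (𝒮.tauPow m S ≅ 𝒮.tauPow n S')

/-- The rank of the tube of `S`: least `n ≥ 1` with `τⁿ S ≅ S`. -/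
noncomputable def period (S : H) : ℕ := sInf {n : ℕ | 0 < n ∧ Nonempty (𝒮.tauPow n S ≅ S)}

lemma tauPow_add (m n : ℕ) (X : H) : 𝒮.tauPow (m + n) X = 𝒮.tauPow m (𝒮.tauPow n X) :=
  Function.iterate_add_apply _ m n X

lemma tauPow_iso (n : ℕ) {X Y : H} (h : Nonempty (X ≅ Y)) :
    Nonempty (𝒮.tauPow n X ≅ 𝒮.tauPow n Y) := by
  induction n with
  | zero => exact h
  | succ n ih =>
    obtain ⟨e⟩ := ih
    refine ⟨?_⟩
    simp only [tauPow, Function.iterate_succ_apply']
    exact 𝒮.τ.functor.mapIso e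

/-- The equivalence relation on the simple objects: being in the same tube. -/
def tubeSetoid : Setoid {S : H // Simple S} where
  r S S' := 𝒮.SameTube S.1 S'.1
  iseqv :=
    { refl := fun S => ⟨0, 0, ⟨Iso.refl _⟩⟩
      symm := by
        rintro S S' ⟨m, n, ⟨e⟩⟩
        exact ⟨n, m, ⟨e.symm⟩⟩
      trans := by
        rintro S S' S'' ⟨m, n, ⟨e⟩⟩ ⟨a, b, ⟨e'⟩⟩
        obtain ⟨e1⟩ := 𝒮.tauPow_iso a ⟨e⟩
        obtain ⟨e2⟩ := 𝒮.tauPow_iso n ⟨e'⟩
        refine ⟨a + m, n + b, ⟨?_⟩⟩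
        rw [tauPow_add, tauPow_add]
        refine e1 ≪≫ eqToIso ?_ ≪≫ e2
        rw [← tauPow_add, ← tauPow_add, add_comm] }

/-- The tubes. -/
def Tube : Type u := Quotient 𝒮.tubeSetoid

/-- Number of tubes of rank `p`. For a weighted projective line and `p ≥ 2` this is the number of
indices `i` with weight `p_i = p`. -/
noncomputable def numTubes (p : ℕ) : ℕ∞ :=
  Set.encard {q : 𝒮.Tube | ∃ S : {S : H // Simple S}, Quotient.mk 𝒮.tubeSetoid S = q ∧
    𝒮.period S.1 = p}

end Serre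

end Pool.Agent.WQ
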