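import Pool.Agent.WQ.Order

/-!
# WQ: the dual exceptional collection (module 9)

For every `j` there is `S j = E j [a j]`, `a j ∈ {0, 1}`, with `Homⁿ(T i, S j) = K` for `i = j`, `n = 0` and zero
otherwise: `SA` (`a = 0`), `SB` (`a = 1`).

Existence (`exists_SA_or_SB`): right approximation `f : P → T j` of `T j` by the `T k`, `k ≠ j` (family indexed by
the subtype).  Image `J`.
* `f` not epi: `E = coker f`.  `Ext¹(T, J) = 0` (quotient of `⨁T`) so `Hom(T i, T j) → Hom(T i, E)` is onto;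
  for `i ≠ j` all maps `T i → T j` lie in `J`, so `Hom(T i, E) = 0`.  `Hom(T j, E)`: `E ≠ 0` and if it were `0`
  the identity of `T j` would factor through `J`.  `Ext¹(T, E) = 0` (quotient of `T j`).
* `f` epi with kernel `N`.  Right approximation of `N` by all `T k`, image `J`, `E = N / J`.
  `Hom(T i, J) = Hom(T i, N)` and `Ext¹(T i, J) = 0` give `Hom(T i, E) = 0` and `Ext¹(T i, N) ≅ Ext¹(T i, E)`;
  `Ext¹(T i, N)` is the cokernel of `Hom(T i, P) → Hom(T i, T j)`: zero for `i ≠ j`, and `K` for `i = j`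
  (compositions `T j → T k → T j` vanish).

`radA`: `π : T j → E` nonzero is epi (`CT.gen`: `E` is generated by `T`, only `T j` maps to `E`), kernel `R`.
`radB`: a nonzero class in `Ext¹(T j, E)` gives `0 → E → R → T j → 0` (`exists_ses`).
In both cases (`IsRad`): `Ext¹(T, R) = 0`, `Hom(T i, R) → Hom(T i, T j)` is injective, onto for `i ≠ j`, and
`Hom(T j, R) = 0`.
-/

set_option autoImplicit false

open CategoryTheory CategoryTheory.Limits CategoryTheory.Abelian

namespace Pool.Agent.WQ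

attribute [local instance] Abelian.hasFiniteBiproducts

universe t v u w x

variable (K : Type t) [Field K] {H : Type u} [Category.{v} H] [Abelian H] [Linear K H]
  [HasExt.{w} H] [Her K H] {I : Type x} [Fintype I]

/-- `E` represents `S j` with shift `0`. -/
structure SA (T : I → H) (j : I) (E : H) : Prop where
  one : h0 K (T j) E = 1
  z0 : ∀ i, i ≠ j → Z0 (T i) E
  z1 : ∀ i, Z1 (T i) E

/-- `E` represents `S j` with shift `1`. -/
structure SB (T : I → H) (j : I) (E : H) : Prop where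
  one : h1 K (T j) E = 1
  z1 : ∀ i, i ≠ j → Z1 (T i) E
  z0 : ∀ i, Z0 (T i) E

omit [Her K H] [Fintype I] in
variable {K} in
/-- `ρ : R → T j` represents the radical maps into `T j`. -/
structure IsRad (T : I → H) (j : I) {R : H} (ρ : R ⟶ T j) : Prop where
  z1 : ∀ i, Z1 (T i) R
  z0 : Z0 (T j) R
  inj : ∀ i (u : T i ⟶ R), u ≫ ρ = 0 → u = 0
  lift : ∀ i, i ≠ j → ∀ u : T i ⟶ T j, ∃ v : T i ⟶ R, v ≫ ρ = u

/-- The dual collection `S j = E j [a j]`. -/
structure Dual (T : I → H) where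
  E : I → H
  a : I → ℤ
  spec : ∀ j, (a j = 0 ∧ SA K T j (E j)) ∨ (a j = 1 ∧ SB K T j (E j))

variable {K} {T : I → H}

namespace DualX

/-- If all maps `W → B` lie in the subobject `A` the dimensions agree. -/
theorem h0_eq_of_factor {A B W : H} (i : A ⟶ B) [Mono i] (h : ∀ u : W ⟶ B, ∃ v : W ⟶ A, v ≫ i = u) :
    h0 K W A = h0 K W B := by
  have hb : Function.Bijective (Linear.rightComp K W i) := by
    refine ⟨fun u v huv => ?_, fun u => ?_⟩
    · exact (cancel_mono i).1 huv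
    · obtain ⟨v, hv⟩ := h u
      exact ⟨v, hv⟩
  exact (LinearEquiv.ofBijective _ hb).finrank_eq

/-- A map to a direct sum followed by a map is zero if the components are. -/
theorem comp_sum_zero {n : ℕ} {W Z : H} {X : Fin n → H} (p : (⨁ X) ⟶ Z)
    (h : ∀ k (u : W ⟶ X k), u ≫ biproduct.ι X k ≫ p = 0) (v : W ⟶ ⨁ X) : v ≫ p = 0 := by
  have h1 : v = v ≫ (∑ k, biproduct.π X k ≫ biproduct.ι X k) := by
    rw [biproduct.total, Category.comp_id]
  rw [h1, Preadditive.comp_sum, Preadditive.sum_comp]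
  refine Finset.sum_eq_zero fun k _ => ?_
  have h2 := h k (v ≫ biproduct.π X k)
  simpa using h2

/-- `Ext¹(W, X₁)` vanishes if `Ext¹(W, X₂) = 0` and all maps `W → X₃` lift. -/
theorem Z1_of_lift {S : ShortComplex H} (hS : S.ShortExact) {W : H} (h : Z1 W S.X₂)
    (hl : ∀ u : W ⟶ S.X₃, ∃ v : W ⟶ S.X₂, v ≫ S.g = u) : Z1 W S.X₁ := by
  intro e
  obtain ⟨u, hu⟩ := conn_of_comp_f hS e (h _)
  rw [← hu]
  exact (lift_iff hS u).1 (hl u)

/-- `Hom(W, X₃)` vanishes if `Ext¹(W, X₁) = 0` and the maps `W → X₂` are killed. -/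
theorem Z0_of_lift {S : ShortComplex H} (hS : S.ShortExact) {W : H} (h : Z1 W S.X₁)
    (hl : ∀ u : W ⟶ S.X₂, u ≫ S.g = 0) : Z0 W S.X₃ := by
  intro f
  obtain ⟨v, hv⟩ := (lift_iff hS f).2 (h _)
  rw [← hv, hl v]

end DualX

open DualX

theorem CT.exists_SA_or_SB (hT : CT K T) (j : I) :
    (∃ E, SA K T j E) ∨ ∃ E, SB K T j E := by
  obtain ⟨P, p, hp, hkill, hPz⟩ : ∃ (P : H) (p : P ⟶ T j),
      (∀ i, i ≠ j → ∀ u : T i ⟶ T j, ∃ v : T i ⟶ P, v ≫ p = u) ∧
      (∀ u : T j ⟶ P, u ≫ p = 0) ∧ ∀ i, Z1 (T i) P := by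
    obtain ⟨n, f, p, hp, -⟩ := right_approx K (fun k : {k : I // k ≠ j} => T k.1) (T j)
    refine ⟨_, p, fun i hi u => hp ⟨i, hi⟩ u, fun u => ?_, fun i => ?_⟩
    · exact comp_sum_zero p (fun k u => hT.rad j (f k).1 (Ne.symm (f k).2) u _) u
    · exact (Z1_sum_right _ _).2 fun k => hT.rigid i _
  by_cases hep : Epi p
  · -- kernel
    right
    have w₀ : kernel.ι p ≫ p = 0 := kernel.condition p
    have hS : (ShortComplex.mk (kernel.ι p) p w₀).ShortExact :=
      { exact := ShortComplex.exact_kernel p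
        mono_f := inferInstanceAs (Mono (kernel.ι p))
        epi_g := hep }
    obtain ⟨n₂, f₂, p₂, hp₂, -⟩ := right_approx K T (kernel p)
    obtain ⟨N₂, J, E, i₂, π, ι, q, w₁, w₂, S₁, S₂, hfac⟩ := factor p₂
    have mι : Mono ι := S₂.mono_f
    have hJ : ∀ i, Z1 (T i) J := fun i =>
      cov_Z1_3 K S₁ ((Z1_sum_right _ _).2 fun k => hT.rigid i _)
    have hfacJ : ∀ i (u : T i ⟶ kernel p), ∃ v : T i ⟶ J, v ≫ ι = u := by
      intro i u
      obtain ⟨v, hv⟩ := hp₂ i u
      refine ⟨v ≫ π, ?_⟩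
      rw [Category.assoc, hfac, hv]
    have hE0 : ∀ i, Z0 (T i) E := by
      intro i
      refine Z0_of_lift S₂ (hJ i) fun u => ?_
      obtain ⟨v, hv⟩ := hfacJ i u
      change u ≫ q = 0
      rw [← hv, Category.assoc, w₂, comp_zero]
    have hN1 : ∀ i, i ≠ j → Z1 (T i) (kernel p) := fun i hi =>
      Z1_of_lift hS (hPz i) fun u => hp i hi u
    refine ⟨E, ?_, fun i hi => cov_Z1_3 K S₂ (hN1 i hi), hE0⟩
    -- dimensions
    have e1 := chi_cov K hS (W := T j)
    have e2 := chi_cov K S₂ (W := T j)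
    change chi K (T j) P = chi K (T j) (kernel p) + chi K (T j) (T j) at e1
    change chi K (T j) (kernel p) = chi K (T j) J + chi K (T j) E at e2
    have d1 : h0 K (T j) (kernel p) = h0 K (T j) P :=
      h0_eq_of_factor (kernel.ι p) fun u => ⟨kernel.lift p u (hkill u), kernel.lift_ι _ _ _⟩
    have d2 : h0 K (T j) J = h0 K (T j) (kernel p) := h0_eq_of_factor ι (hfacJ j)
    have z1 : h1 K (T j) P = 0 := (h1_eq_zero K).2 (hPz j)
    have z2 : h1 K (T j) (T j) = 0 := (h1_eq_zero K).2 (hT.rigid j j)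
    have z3 : h1 K (T j) J = 0 := (h1_eq_zero K).2 (hJ j)
    have z4 : h0 K (T j) E = 0 := (h0_eq_zero K).2 (hE0 j)
    have z5 := hT.one j
    simp only [chi] at e1 e2
    omega
  · left
    obtain ⟨N, J, E, i, π, ι, q, w₁, w₂, S₁, S₂, hfac⟩ := factor p
    have eπ : Epi π := S₁.epi_g
    have mι : Mono ι := S₂.mono_f
    have hJ : ∀ i, Z1 (T i) J := fun i => cov_Z1_3 K S₁ (hPz i)
    have hE1 : ∀ i, Z1 (T i) E := fun i => cov_Z1_3 K S₂ (hT.rigid i j)
    have hE0 : ∀ i, i ≠ j → Z0 (T i) E := by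
      intro i hi
      refine Z0_of_lift S₂ (hJ i) fun u => ?_
      obtain ⟨v, hv⟩ := hp i hi u
      change u ≫ q = 0
      rw [← hv, ← hfac, Category.assoc, Category.assoc, w₂, comp_zero, comp_zero]
    have hJ0 : Z0 (T j) J := by
      intro u
      obtain ⟨c, hc⟩ := scalar_of_one K (hT.one j) (u ≫ ι)
      by_cases hc0 : c = 0
      · rw [hc0, zero_smul] at hc
        exact zero_of_comp_mono ι hc
      · exfalso
        apply hep
        have h1 : (c⁻¹ • u) ≫ ι = 𝟙 (T j) := by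
          rw [Linear.smul_comp, hc, smul_smul, inv_mul_cancel₀ hc0, one_smul]
        have hι : Epi ι := by
          have : Epi ((c⁻¹ • u) ≫ ι) := by
            rw [h1]
            infer_instance
          exact epi_of_epi (c⁻¹ • u) ι
        rw [← hfac]
        exact epi_comp π ι
    refine ⟨E, ?_, hE0, hE1⟩
    have e2 := chi_cov K S₂ (W := T j)
    change chi K (T j) (T j) = chi K (T j) J + chi K (T j) E at e2
    have z2 : h1 K (T j) (T j) = 0 := (h1_eq_zero K).2 (hT.rigid j j)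
    have z3 : h1 K (T j) J = 0 := (h1_eq_zero K).2 (hJ j)
    have z4 : h0 K (T j) J = 0 := (h0_eq_zero K).2 hJ0
    have z5 := hT.one j
    have z6 : h1 K (T j) E = 0 := (h1_eq_zero K).2 (hE1 j)
    simp only [chi] at e2
    omega

theorem CT.nonempty_dual (hT : CT K T) : Nonempty (Dual K T) := by
  classical
  have h : ∀ j, ∃ (E : H) (a : ℤ), (a = 0 ∧ SA K T j E) ∨ (a = 1 ∧ SB K T j E) := by
    intro j
    rcases hT.exists_SA_or_SB j with ⟨E, hE⟩ | ⟨E, hE⟩
    · exact ⟨E, 0, Or.inl ⟨rfl, hE⟩⟩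
    · exact ⟨E, 1, Or.inr ⟨rfl, hE⟩⟩
  choose E a h using h
  exact ⟨⟨E, a, h⟩⟩

theorem SA.rad (hT : CT K T) {j : I} {E : H} (h : SA K T j E) : ∃ (R : H) (ρ : R ⟶ T j)
    (π : T j ⟶ E) (w₀ : ρ ≫ π = 0), (ShortComplex.mk ρ π w₀).ShortExact ∧ IsRad T j ρ := by
  obtain ⟨π, hπ0, hπ⟩ := finrank_eq_one_iff'.1 h.one
  have hepi : Epi π := by
    have h1 : cokernel.π π = 0 := by
      refine hT.gen h.z1 (cokernel.π π) fun i u => ?_
      by_cases hi : i = j
      · subst hi
        obtain ⟨c, hc⟩ := hπ u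
        rw [← hc, Linear.smul_comp, cokernel.condition, smul_zero]
      · rw [h.z0 i hi u, zero_comp]
    exact Preadditive.epi_of_cokernel_zero h1
  have w₀ : kernel.ι π ≫ π = 0 := kernel.condition π
  have hS : (ShortComplex.mk (kernel.ι π) π w₀).ShortExact :=
    { exact := ShortComplex.exact_kernel π
      mono_f := inferInstanceAs (Mono (kernel.ι π))
      epi_g := hepi }
  refine ⟨kernel π, kernel.ι π, π, w₀, hS, ?_, ?_, ?_, ?_⟩
  · intro i
    refine Z1_of_lift hS (hT.rigid i j) fun u => ?_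
    by_cases hi : i = j
    · subst hi
      obtain ⟨c, hc⟩ := hπ u
      refine ⟨c • 𝟙 _, ?_⟩
      change (c • 𝟙 _) ≫ π = u
      rw [Linear.smul_comp, Category.id_comp, hc]
    · refine ⟨0, ?_⟩
      rw [zero_comp]
      exact (h.z0 i hi u).symm
  · intro u
    obtain ⟨c, hc⟩ := scalar_of_one K (hT.one j) (u ≫ kernel.ι π)
    have h1 : c • π = 0 := by
      calc c • π = (c • 𝟙 _) ≫ π := by rw [Linear.smul_comp, Category.id_comp]
        _ = 0 := by rw [← hc, Category.assoc, kernel.condition, comp_zero]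
    have hc0 : c = 0 := (smul_eq_zero.1 h1).resolve_right hπ0
    rw [hc0, zero_smul] at hc
    exact zero_of_comp_mono _ hc
  · intro i u hu
    exact zero_of_comp_mono _ hu
  · intro i hi u
    exact ⟨kernel.lift π u (h.z0 i hi _), kernel.lift_ι _ _ _⟩

theorem SB.rad (hT : CT K T) {j : I} {E : H} (h : SB K T j E) : ∃ (R : H) (i : E ⟶ R)
    (ρ : R ⟶ T j) (w₀ : i ≫ ρ = 0), (ShortComplex.mk i ρ w₀).ShortExact ∧ IsRad T j ρ := by
  obtain ⟨δ, hδ0, hδ⟩ := finrank_eq_one_iff'.1 h.one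
  obtain ⟨R, i, ρ, w₀, hS, hcl⟩ := exists_ses δ
  have : Mono (ShortComplex.mk i ρ w₀).f := hS.mono_f
  have hz0 : Z0 (T j) R := by
    intro u
    obtain ⟨c, hc⟩ := scalar_of_one K (hT.one j) (u ≫ ρ)
    have hc0 : c = 0 := by
      by_contra hc0
      apply hδ0
      have h1 := (lift_iff hS (𝟙 (T j))).1 ⟨c⁻¹ • u, by
        change (c⁻¹ • u) ≫ ρ = 𝟙 (T j)
        rw [Linear.smul_comp, hc, smul_smul, inv_mul_cancel₀ hc0, one_smul]⟩
      change (Ext.mk₀ (𝟙 (T j))).comp hS.extClass (zero_add 1) = 0 at h1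
      rw [Ext.mk₀_id_comp, hcl] at h1
      exact h1
    rw [hc0, zero_smul] at hc
    have h3 : hS.exact.lift u hc ≫ i = u := hS.exact.lift_f u hc
    rw [← h3, h.z0 j (hS.exact.lift u hc), zero_comp]
  refine ⟨R, i, ρ, w₀, hS, ?_, hz0, ?_, ?_⟩
  · intro k
    by_cases hk : k = j
    · subst hk
      have e1 := chi_cov K hS (W := T k)
      change chi K (T k) R = chi K (T k) E + chi K (T k) (T k) at e1
      have z2 : h1 K (T k) (T k) = 0 := (h1_eq_zero K).2 (hT.rigid k k)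
      have z3 : h0 K (T k) E = 0 := (h0_eq_zero K).2 (h.z0 k)
      have z4 : h0 K (T k) R = 0 := (h0_eq_zero K).2 hz0
      have z5 := hT.one k
      have z6 := h.one
      simp only [chi] at e1
      exact (h1_eq_zero K).1 (by omega)
    · exact cov_Z1_2 hS (h.z1 k hk) (hT.rigid k j)
  · intro k u hu
    have h3 : hS.exact.lift u hu ≫ i = u := hS.exact.lift_f u hu
    rw [← h3, h.z0 k (hS.exact.lift u hu), zero_comp]
  · intro k hk u
    exact (lift_iff hS u).2 (h.z1 k hk _)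

/-- The radical maps into `T j`, `S j = E[1]`, are jointly epi. -/
theorem SB.joint_epi (hT : CT K T) {j : I} {E : H} (h : SB K T j E) {X : H} (g : T j ⟶ X)
    (hg : ∀ i, i ≠ j → ∀ u : T i ⟶ T j, u ≫ g = 0) : g = 0 := by
  obtain ⟨R, i, ρ, w₀, hS, hR⟩ := h.rad hT
  have eρ : Epi ρ := hS.epi_g
  have h1 : ρ ≫ g = 0 := by
    refine hT.gen hR.z1 (ρ ≫ g) fun k u => ?_
    by_cases hk : k = j
    · subst hk
      rw [hR.z0 u, zero_comp]
    · rw [← Category.assoc]
      exact hg k hk _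
  exact (cancel_epi ρ).1 (by rw [h1, comp_zero])

end Pool.Agent.WQ
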