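import Pool.Agent.WQ.Dual

/-!
# WQ: properties of the dual collection (module 9b)

Exceptional: `SA`: `Hom(E, E) → Hom(T j, E)` injective; `Ext¹(E, E)`: `Hom(R, E) = 0` (`CT.gen`) and
`Ext¹(T j, E) = 0`.  `SB`: `Hom(R, E) = 0`, so `Hom(E, E) → Ext¹(T j, E)` injective and `E ≠ 0`;
`Ext¹(R, E) → Ext¹(E, E)` is onto and
`Ext¹(R, E) = 0`: presentation `0 → N → P → R → 0` (`CT.pres`), `Hom(N, E) = 0`, `Ext¹(P, E) = 0` since `T j` is
no summand of `P`.  More precisely: `Hom(E,E) → Ext¹(T j, E) → Ext¹(R, E) = 0`.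

`Dual.order` (`ρ j < ρ i`): with `R` from `SA.rad` / `SB.rad` for `j`: every `T k` with a nonzero map to `R` has
`ρ k < ρ j`, and in the presentation `0 → N → P → R → 0` of `CT.pres` the summands `T k` of `P` and of `N` have
`ρ k < ρ j` (`N ⊆ P`), so they are different from `T i`.
* `SA`, `SA`: `Z1`: `Hom(R, E i) = 0` (`CT.gen`), `Ext¹(T j, E i) = 0`.
* `SB` (`j`), `SA` (`i`): `Z0`: `Hom(R, E i) = 0`, `Ext¹(T j, E i) = 0`.  `Z1`: `Ext¹(R, E i) = 0` since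
  `Hom(N, E i) = 0`, `Ext¹(P, E i) = 0`; `Ext¹(R, E i) → Ext¹(E j, E i)` is onto.
* `SB`, `SB`: `Z1`: same with `Ext¹(P, E i) = 0` because `T i` is no summand of `P`.
-/

set_option autoImplicit false

open CategoryTheory CategoryTheory.Limits CategoryTheory.Abelian

namespace Pool.Agent.WQ

attribute [local instance] Abelian.hasFiniteBiproducts

universe t v u w x

variable {K : Type t} [Field K] {H : Type u} [Category.{v} H] [Abelian H] [Linear K H]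
  [HasExt.{w} H] [Her K H] {I : Type x} [Fintype I] {T : I → H}

namespace DualB

/-- maps from an object generated by `T` -/
theorem gen_Z0 (hT : CT K T) {R F : H} (hR : ∀ i, Z1 (T i) R)
    (h : ∀ i, ¬ Z0 (T i) R → Z0 (T i) F) : Z0 R F := by
  intro g
  refine hT.gen hR g fun i u => ?_
  by_cases hi : Z0 (T i) R
  · rw [hi u, zero_comp]
  · exact h i hi _

/-- maps from `R` to `F` if only `T j` maps to `F` -/
theorem rad_Z0 (hT : CT K T) {j : I} {R F : H} {ρ : R ⟶ T j} (hR : IsRad T j ρ)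
    (h : ∀ i, i ≠ j → Z0 (T i) F) : Z0 R F := by
  refine gen_Z0 hT hR.z1 fun i hi => h i ?_
  rintro rfl
  exact hi hR.z0

end DualB

theorem SA.exc (hT : CT K T) {j : I} {E : H} (h : SA K T j E) : h0 K E E = 1 ∧ Z1 E E := by
  obtain ⟨R, ρ, π, w₀, hS, hR⟩ := h.rad hT
  have hRE : Z0 R E := DualB.rad_Z0 hT hR h.z0
  have hEE : Z1 E E := con_Z1_3 hS hRE (h.z1 j)
  refine ⟨?_, hEE⟩
  have hRE1 : Z1 R E := con_Z1_1 K hS (h.z1 j)
  have e1 := chi_con (K := K) hS (W := E)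
  simp only at e1
  rw [chi, chi, chi, h.one, (h1_eq_zero K).2 (h.z1 j), (h0_eq_zero K).2 hRE,
    (h1_eq_zero K).2 hRE1, (h1_eq_zero K).2 hEE] at e1
  omega

theorem SB.exc (hT : CT K T) {j : I} {E : H} (h : SB K T j E) : h0 K E E = 1 ∧ Z1 E E := by
  obtain ⟨R, i, ρ, w₀, hS, hR⟩ := h.rad hT
  have hRE : Z0 R E := DualB.gen_Z0 hT hR.z1 fun i _ => h.z0 i
  have hRE1 : Z1 R E := by
    obtain ⟨m, n, f', f, i', p', w', hS', hne⟩ := hT.pres hR.z1
    refine con_Z1_3 hS' ((Z0_sum_left _ _).2 fun k => h.z0 _)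
      ((Z1_sum_left _ _).2 fun k => h.z1 _ fun hk => ?_)
    have h1 := hne k
    rw [hk] at h1
    exact h1 hR.z0
  have hEE : Z1 E E := con_Z1_1 K hS hRE1
  refine ⟨?_, hEE⟩
  have e1 := chi_con (K := K) hS (W := E)
  simp only at e1
  rw [chi, chi, chi, h.one, (h0_eq_zero K).2 (h.z0 j), (h0_eq_zero K).2 hRE,
    (h1_eq_zero K).2 hRE1, (h1_eq_zero K).2 hEE] at e1
  omega

/-- Vanishing of `Homⁿ(S j, S i)`, `n ≤ 0`, `i ≠ j`. -/
theorem SA.SA_zero (hT : CT K T) {i j : I} (hij : i ≠ j) {E F : H} (h : SA K T j E)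
    (h' : SA K T i F) : Z0 E F := by
  obtain ⟨R, ρ, π, w₀, hS, hR⟩ := h.rad hT
  exact con_Z0_3 hS (h'.z0 j hij.symm)

theorem SA.SB_zero (hT : CT K T) {i j : I} (hij : i ≠ j) {E F : H} (h : SA K T j E)
    (h' : SB K T i F) : Z0 E F ∧ Z1 E F := by
  obtain ⟨R, ρ, π, w₀, hS, hR⟩ := h.rad hT
  exact ⟨con_Z0_3 hS (h'.z0 j), con_Z1_3 hS (DualB.gen_Z0 hT hR.z1 fun k _ => h'.z0 k)
    (h'.z1 j hij.symm)⟩

theorem SB.SB_zero (hT : CT K T) {i j : I} (hij : i ≠ j) {E F : H} (h : SB K T j E)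
    (h' : SB K T i F) : Z0 E F := by
  obtain ⟨R, i, ρ, w₀, hS, hR⟩ := h.rad hT
  exact con_Z0_1 hS (DualB.gen_Z0 hT hR.z1 fun k _ => h'.z0 k) (h'.z1 j hij.symm)

namespace DualB

/-- the summands which map to the radical object precede `j` -/
theorem rad_lt {ρ : I → ℕ} (hρ' : ∀ i j, i ≠ j → ¬ Z0 (T i) (T j) → ρ i < ρ j) {j : I} {R : H}
    {r : R ⟶ T j} (hR : IsRad T j r) {k : I} (hk : ¬ Z0 (T k) R) : ρ k < ρ j := by
  refine hρ' k j ?_ ?_
  · rintro rfl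
    exact hk hR.z0
  · intro h
    exact hk fun u => hR.inj k u (h _)

/-- the presentation of the radical object -/
theorem rad_pres (hT : CT K T) {ρ : I → ℕ} (hρ' : ∀ i j, i ≠ j → ¬ Z0 (T i) (T j) → ρ i < ρ j)
    {j : I} {R : H} {r : R ⟶ T j} (hR : IsRad T j r) : ∃ (m n : ℕ) (f' : Fin m → I)
    (f : Fin n → I) (i : (⨁ fun k => T (f' k)) ⟶ ⨁ fun k => T (f k))
    (p : (⨁ fun k => T (f k)) ⟶ R) (w₀ : i ≫ p = 0), (ShortComplex.mk i p w₀).ShortExact ∧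
    (∀ k, ρ (f k) < ρ j) ∧ ∀ k, ρ (f' k) < ρ j := by
  obtain ⟨m, n, f', f, i, p, w₀, hS, hne⟩ := hT.pres hR.z1
  refine ⟨m, n, f', f, i, p, w₀, hS, fun k => rad_lt hρ' hR (hne k), fun k => ?_⟩
  by_contra hc
  have h1 : Z0 (T (f' k)) (⨁ fun k => T (f k)) := by
    refine (Z0_sum_right _ _).2 fun l => ?_
    by_contra h2
    have h3 : f' k ≠ f l := by
      intro h4
      rw [h4] at hc
      exact hc (rad_lt hρ' hR (hne l))
    exact hc ((hρ' _ _ h3 h2).trans (rad_lt hρ' hR (hne l)))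
  have h2 : Mono i := hS.mono_f
  have h3 : biproduct.ι (fun k => T (f' k)) k = 0 := by
    rw [← cancel_mono i, zero_comp]
    exact h1 _
  refine hT.id_ne (f' k) ?_
  have h4 := biproduct.ι_π_self (fun k => T (f' k)) k
  rw [h3, zero_comp] at h4
  exact h4.symm

end DualB

/-- A nonzero `Homⁿ(S j, S i)`, `i ≠ j`, forces `i < j`.  (`Ext¹(E, F)` for `SA`, `SA`: `Hom(R, F)` is onto
it, and `R` is generated by the `T k`, `k < j`.  For `S j = E[1]`: `Ext¹(R, F) → Ext¹(E, F)` is onto,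
`Hom(R, F) → Hom(E, F)` is onto, and `CT.pres` for `R`.) -/
theorem Dual.order (hT : CT K T) (D : Dual K T) {ρ : I → ℕ} (hρ : Function.Injective ρ)
    (hρ' : ∀ i j, i ≠ j → ¬ Z0 (T i) (T j) → ρ i < ρ j) {i j : I} (h : ρ j < ρ i) :
    Z0 (D.E j) (D.E i) ∧ Z1 (D.E j) (D.E i) := by
  have hij : i ≠ j := by
    rintro rfl
    exact lt_irrefl _ h
  rcases D.spec j with ⟨-, hj⟩ | ⟨-, hj⟩
  · rcases D.spec i with ⟨-, hi⟩ | ⟨-, hi⟩
    · refine ⟨SA.SA_zero hT hij hj hi, ?_⟩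
      obtain ⟨R, r, π, w₀, hS, hR⟩ := hj.rad hT
      refine con_Z1_3 hS (DualB.gen_Z0 hT hR.z1 fun k hk => hi.z0 k ?_) (hi.z1 j)
      rintro rfl
      exact lt_irrefl _ (h.trans (DualB.rad_lt hρ' hR hk))
    · exact SA.SB_zero hT hij hj hi
  · obtain ⟨R, a, r, w₀, hS, hR⟩ := hj.rad hT
    obtain ⟨m, n, f', f, b, p, w₁, hS', hf, hf'⟩ := DualB.rad_pres hT hρ' hR
    rcases D.spec i with ⟨-, hi⟩ | ⟨-, hi⟩
    · constructor
      · refine con_Z0_1 hS (DualB.gen_Z0 hT hR.z1 fun k hk => hi.z0 k ?_) (hi.z1 j)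
        rintro rfl
        exact lt_irrefl _ (h.trans (DualB.rad_lt hρ' hR hk))
      · refine con_Z1_1 K hS (con_Z1_3 hS' ((Z0_sum_left _ _).2 fun k => hi.z0 _ fun hk => ?_)
          ((Z1_sum_left _ _).2 fun k => hi.z1 _))
        have := hf' k
        rw [hk] at this
        exact lt_irrefl _ (h.trans this)
    · refine ⟨SB.SB_zero hT hij hj hi, ?_⟩
      refine con_Z1_1 K hS (con_Z1_3 hS' ((Z0_sum_left _ _).2 fun k => hi.z0 _)
          ((Z1_sum_left _ _).2 fun k => hi.z1 _ fun hk => ?_))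
      have := hf k
      rw [hk] at this
      exact lt_irrefl _ (h.trans this)

/-- `dim Homⁿ(S j, S i)`. -/
noncomputable def Dual.h (D : Dual K T) (n : ℤ) (j i : I) : ℕ :=
  if n + D.a i - D.a j = 0 then h0 K (D.E j) (D.E i)
  else if n + D.a i - D.a j = 1 then h1 K (D.E j) (D.E i) else 0

/-- The sign `(-1)^(a j)`. -/
noncomputable def Dual.sg (D : Dual K T) (j : I) : ℤ := 1 - 2 * D.a j

/-- `Homⁿ(S j, S i) = 0` for `i ≠ j` and `n ≠ 1, 2`. -/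
theorem Dual.h_zero (hT : CT K T) (D : Dual K T) {i j : I} (hij : i ≠ j) {n : ℤ} (h1 : n ≠ 1)
    (h2 : n ≠ 2) : D.h n j i = 0 := by
  unfold Dual.h
  rcases D.spec j with ⟨aj, hj⟩ | ⟨aj, hj⟩ <;> rcases D.spec i with ⟨ai, hi⟩ | ⟨ai, hi⟩ <;>
    rw [aj, ai]
  · rw [(h0_eq_zero K).2 (SA.SA_zero hT hij hj hi)]
    split_ifs <;> first | rfl | omega
  · rw [(h0_eq_zero K).2 (SA.SB_zero hT hij hj hi).1, (h1_eq_zero K).2 (SA.SB_zero hT hij hj hi).2]
    split_ifs <;> rfl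
  · split_ifs <;> first | rfl | omega
  · rw [(h0_eq_zero K).2 (SB.SB_zero hT hij hj hi)]
    split_ifs <;> first | rfl | omega

open Classical in
theorem Dual.chi_T (D : Dual K T) (i j : I) :
    D.sg j * chi K (T i) (D.E j) = if i = j then 1 else 0 := by
  unfold Dual.sg chi
  rcases D.spec j with ⟨aj, hj⟩ | ⟨aj, hj⟩ <;> rw [aj] <;> split_ifs with hij
  · subst hij
    rw [hj.one, (h1_eq_zero K).2 (hj.z1 i)]
    norm_num
  · rw [(h0_eq_zero K).2 (hj.z0 i hij), (h1_eq_zero K).2 (hj.z1 i)]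
    norm_num
  · subst hij
    rw [hj.one, (h0_eq_zero K).2 (hj.z0 i)]
    norm_num
  · rw [(h0_eq_zero K).2 (hj.z0 i), (h1_eq_zero K).2 (hj.z1 i hij)]
    norm_num

/-- `Homⁿ(S j, S i)` is concentrated in the degrees `1` and `2` for `i ≠ j`. -/
theorem Dual.chi_E (hT : CT K T) (D : Dual K T) {i j : I} (hij : i ≠ j) :
    D.sg j * D.sg i * chi K (D.E j) (D.E i) = (D.h 2 j i : ℤ) - D.h 1 j i := by
  unfold Dual.sg Dual.h chi
  rcases D.spec j with ⟨aj, hj⟩ | ⟨aj, hj⟩ <;> rcases D.spec i with ⟨ai, hi⟩ | ⟨ai, hi⟩ <;>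
    rw [aj, ai]
  · rw [(h0_eq_zero K).2 (SA.SA_zero hT hij hj hi)]
    norm_num
  · rw [(h0_eq_zero K).2 (SA.SB_zero hT hij hj hi).1, (h1_eq_zero K).2 (SA.SB_zero hT hij hj hi).2]
    norm_num
  · norm_num
  · rw [(h0_eq_zero K).2 (SB.SB_zero hT hij hj hi)]
    norm_num

theorem Dual.exc (hT : CT K T) (D : Dual K T) (j : I) :
    h0 K (D.E j) (D.E j) = 1 ∧ Z1 (D.E j) (D.E j) := by
  rcases D.spec j with ⟨-, h⟩ | ⟨-, h⟩
  · exact h.exc hT
  · exact h.exc hT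

end Pool.Agent.WQ
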