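import Pool.Agent.WQ.Rank

/-!
# WQ: eigenspaces of the Coxeter transformation (module 21)

`ζ ≠ 1` a root of unity, `v ∈ ℂ^I` with `(ζ Gᵗ + G) v = 0`.  `χ(Y, τ X) = - χ(X, Y)` says
`κ X ⬝ G (κ Y) = - κ Y ⬝ G (κ (τ X))`.  Let `Φ` be the endomorphism of `ℂ^I` with `Φ (κ X) = κ (τ X)`
(`G Φ = - Gᵗ`; it exists since `G` is nondegenerate and the `κ X` span).  Then `v = ζ Φ v`.
`v (1 - ζ) = ζ (Φ v - v)` lies in the span of the `κ S`, `S` simple (`tau_sub`).
`u S = ∑ (j < p) ζ^j κ (τ^j S)` for `ζ^p = 1`, `p = period S`: in the kernel, `u (τ S) = ζ⁻¹ u S`, and the kernel is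
spanned by the `u S` (average `(1/N) ∑ (j<N) ζ^j Φ^j` with `N` a common multiple).  One `S` for each tube:
linearly independent since `κ S' ⬝ G (u S) = 0` for `S'` in another tube and `≠ 0` for `S' = S`
(`1 - ζ^(p-1)`, or its analogue).  Conclusion: the kernel dimension is the number of tubes with `ζ^p = 1`.
-/

set_option autoImplicit false

open CategoryTheory CategoryTheory.Limits CategoryTheory.Abelian

namespace Pool.Agent.WQ

universe t v u w x

namespace Eig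

section

variable {K : Type t} [Field K] {H : Type u} [Category.{v} H] [Abelian H] [Linear K H]
  [HasExt.{w} H] {I : Type x} [Fintype I] (k : K0Data K H I)

/-- the class of `X` with complex coordinates -/
noncomputable def kc (X : H) : I → ℂ := fun i => (k.κ X i : ℂ)

/-- the Gram matrix over `ℂ` -/
noncomputable def Gc : Matrix I I ℂ := k.G.map (Int.cast : ℤ → ℂ)

theorem chi_c (X Y : H) : dotProduct (kc k X) ((Gc k).mulVec (kc k Y)) = ((chi K X Y : ℤ) : ℂ) := by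
  rw [k.chi_eq]
  simp only [dotProduct, Matrix.mulVec, kc, Gc, Matrix.map_apply]
  push_cast
  rfl

theorem kc_iso {X Y : H} (h : Nonempty (X ≅ Y)) : kc k X = kc k Y := by
  unfold kc
  rw [k.iso X Y h]

theorem cast_mem (x : I → ℤ) :
    (fun i => (x i : ℂ)) ∈ Submodule.span ℂ (Set.range (kc k)) := by
  have hx : x ∈ Submodule.span ℤ (Set.range k.κ) := by
    rw [k.span]
    exact Submodule.mem_top
  induction hx using Submodule.span_induction with
  | mem x hx =>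
    obtain ⟨X, rfl⟩ := hx
    exact Submodule.subset_span ⟨X, rfl⟩
  | zero =>
    convert Submodule.zero_mem (Submodule.span ℂ (Set.range (kc k))) using 1
    funext i
    simp
  | add x y _ _ hx hy =>
    convert Submodule.add_mem _ hx hy using 1
    funext i
    simp
  | smul a x _ hx =>
    convert Submodule.smul_mem _ (a : ℂ) hx using 1
    funext i
    simp

theorem span_kc : Submodule.span ℂ (Set.range (kc k)) = ⊤ := by
  classical
  rw [eq_top_iff]
  intro v _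
  have hv : v = ∑ i, v i • (fun j => ((Pi.single i (1 : ℤ) : I → ℤ) j : ℂ)) := by
    funext j
    rw [Finset.sum_apply]
    simp only [Pi.smul_apply, smul_eq_mul, Pi.single_apply]
    rw [Finset.sum_eq_single j]
    · simp
    · intro i _ hij
      rw [if_neg hij.symm]
      simp
    · intro h
      exact absurd (Finset.mem_univ j) h
  rw [hv]
  exact Submodule.sum_mem _ fun i _ => Submodule.smul_mem _ _ (cast_mem k _)

theorem eq_zero_of_dot {w : I → ℂ} (h : ∀ Y : H, dotProduct (kc k Y) w = 0) : w = 0 := by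
  have h1 : ∀ v : I → ℂ, dotProduct v w = 0 := by
    intro v
    have hv : v ∈ Submodule.span ℂ (Set.range (kc k)) := by
      rw [span_kc]
      exact Submodule.mem_top
    induction hv using Submodule.span_induction with
    | mem x hx =>
      obtain ⟨X, rfl⟩ := hx
      exact h X
    | zero => exact zero_dotProduct _
    | add x y _ _ hx hy => rw [add_dotProduct, hx, hy, add_zero]
    | smul a x _ hx => rw [smul_dotProduct, hx, smul_zero]
  exact dotProduct_eq_zero w fun v => by rw [dotProduct_comm]; exact h1 v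

section phi

variable [DecidableEq I]

theorem det_ne : (Gc k).det ≠ 0 := by
  have h : k.G.det ≠ 0 := by
    intro h0
    obtain ⟨v, hv, hv'⟩ := Matrix.exists_mulVec_eq_zero_iff.2 h0
    exact hv (k.nondeg v hv')
  have h2 : (Gc k).det = ((k.G.det : ℤ) : ℂ) := by
    have := RingHom.map_det (Int.castRingHom ℂ) k.G
    exact this.symm
  rw [h2]
  exact_mod_cast h

theorem Gc_inj {v w : I → ℂ} (h : (Gc k).mulVec v = (Gc k).mulVec w) : v = w := by
  have hu : IsUnit (Gc k).det := isUnit_iff_ne_zero.2 (det_ne k)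
  have h1 : (Gc k)⁻¹.mulVec ((Gc k).mulVec v) = (Gc k)⁻¹.mulVec ((Gc k).mulVec w) := by rw [h]
  rwa [Matrix.mulVec_mulVec, Matrix.mulVec_mulVec, Matrix.nonsing_inv_mul _ hu,
    Matrix.one_mulVec, Matrix.one_mulVec] at h1

/-- the endomorphism of `ℂ^I` induced by `τ` -/
noncomputable def Phi : (I → ℂ) →ₗ[ℂ] (I → ℂ) :=
  Matrix.mulVecLin (-((Gc k)⁻¹ * (Gc k).transpose))

theorem Gc_Phi (v : I → ℂ) : (Gc k).mulVec (Phi k v) = - (Gc k).transpose.mulVec v := by
  have hu : IsUnit (Gc k).det := isUnit_iff_ne_zero.2 (det_ne k)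
  rw [Phi, Matrix.mulVecLin_apply, Matrix.mulVec_mulVec, mul_neg, ← mul_assoc,
    Matrix.mul_nonsing_inv _ hu, one_mul, Matrix.neg_mulVec]

theorem Phi_kc [Her K H] (𝒮 : Serre K H) (X : H) : Phi k (kc k X) = kc k (𝒮.ta X) := by
  apply Gc_inj k
  rw [Gc_Phi, eq_comm, ← sub_eq_zero]
  apply eq_zero_of_dot k
  intro Y
  rw [dotProduct_sub, dotProduct_neg, chi_c]
  have h1 : dotProduct (kc k Y) ((Gc k).transpose.mulVec (kc k X)) = ((chi K X Y : ℤ) : ℂ) := by
    rw [← chi_c k, Matrix.dotProduct_mulVec, Matrix.vecMul_transpose, dotProduct_comm]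
  rw [h1, 𝒮.chi_tau]
  push_cast
  ring

theorem ker_iff (ζ : ℂ) (v : I → ℂ) :
    (Mx k.G.transpose ζ).mulVec v = 0 ↔ v = ζ • Phi k v := by
  have h1 : Mx k.G.transpose ζ = ζ • (Gc k).transpose + Gc k := rfl
  have h2 : (Mx k.G.transpose ζ).mulVec v = (Gc k).mulVec v - (Gc k).mulVec (ζ • Phi k v) := by
    rw [h1, Matrix.add_mulVec, Matrix.smul_mulVec, Matrix.mulVec_smul, Gc_Phi, smul_neg,
      sub_neg_eq_add, add_comm]
  rw [h2, sub_eq_zero]
  exact ⟨fun h => Gc_inj k h, fun h => by rw [← h]⟩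

end phi

/-- periodic functions -/
theorem sum_shift {M : Type*} [AddCommGroup M] {f : ℕ → M} {N : ℕ} (h : ∀ n, f (n + N) = f n)
    (n : ℕ) : ∑ l ∈ Finset.range N, f (l + n) = ∑ l ∈ Finset.range N, f l := by
  induction n with
  | zero => rfl
  | succ n ih =>
    rw [← ih]
    have h1 := Finset.sum_range_succ (fun l => f (l + n)) N
    have h2 := Finset.sum_range_succ' (fun l => f (l + n)) N
    rw [h1] at h2
    have h3 : f (N + n) = f (0 + n) := by rw [add_comm, h, zero_add]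
    rw [h3] at h2
    have h4 := add_right_cancel h2
    rw [h4]
    refine Finset.sum_congr rfl fun l _ => ?_
    congr 1
    ring

section tube

variable [DecidableEq I] [Her K H] (𝒮 : Serre K H)

theorem kc_tauPow (n : ℕ) (X : H) : (Phi k ^ n) (kc k X) = kc k (𝒮.tauPow n X) := by
  induction n with
  | zero => rfl
  | succ n ih =>
    rw [pow_succ', Module.End.mul_apply, ih, Phi_kc k 𝒮]
    have : 𝒮.tauPow (n + 1) X = 𝒮.ta (𝒮.tauPow n X) := Function.iterate_succ_apply' _ _ _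
    rw [this]

variable [IsAlgClosed K]

/-- the functions `n ↦ ζ^n κ (τ^n S)` -/
noncomputable def ff (ζ : ℂ) (S : H) (n : ℕ) : I → ℂ := ζ ^ n • kc k (𝒮.tauPow n S)

theorem kc_mod {S : H} (hS : Simple S) {m n : ℕ} (h : m ≡ n [MOD 𝒮.period S]) :
    kc k (𝒮.tauPow m S) = kc k (𝒮.tauPow n S) :=
  kc_iso k ((𝒮.tauPow_iso_iff k hS m n).2 h)

theorem ff_period {ζ : ℂ} {S : H} (hS : Simple S) {N : ℕ} (hN : ζ ^ N = 1)
    (hN' : 𝒮.period S ∣ N) (n : ℕ) : ff k 𝒮 ζ S (n + N) = ff k 𝒮 ζ S n := by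
  unfold ff
  rw [pow_add, hN, mul_one]
  congr 1
  apply kc_mod k 𝒮 hS
  exact (Nat.modEq_iff_dvd' (by omega)).2 (by simpa using hN') |>.symm

/-- the eigenvector of a tube -/
noncomputable def uu (ζ : ℂ) (S : H) : I → ℂ :=
  ∑ j ∈ Finset.range (𝒮.period S), ff k 𝒮 ζ S j

theorem sum_ff {ζ : ℂ} {S : H} (hS : Simple S) (r : ℕ) :
    ∑ l ∈ Finset.range (𝒮.period S * r), ff k 𝒮 ζ S l =
      (∑ m ∈ Finset.range r, (ζ ^ 𝒮.period S) ^ m) • uu k 𝒮 ζ S := by
  induction r with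
  | zero => simp
  | succ r ih =>
    rw [Nat.mul_succ, Finset.sum_range_add, ih, Finset.sum_range_succ, add_smul]
    congr 1
    unfold uu
    rw [Finset.smul_sum]
    refine Finset.sum_congr rfl fun j _ => ?_
    unfold ff
    rw [pow_add, pow_mul, mul_smul]
    congr 2
    apply kc_mod k 𝒮 hS
    exact (Nat.modEq_iff_dvd' (by omega)).2 (by simp) |>.symm


/-- representative of a tube -/
noncomputable def rp (q : 𝒮.Tube) : H := (Quotient.out q).1

omit [Her K H] [IsAlgClosed K] in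
theorem simple_rp (q : 𝒮.Tube) : Simple (rp 𝒮 q) := (Quotient.out q).2

/-- the span of the classes of simple objects -/
noncomputable def WW : Submodule ℂ (I → ℂ) :=
  Submodule.span ℂ {x | ∃ (q : 𝒮.Tube) (n : ℕ), x = kc k (𝒮.tauPow n (rp 𝒮 q))}

theorem kc_simple {S : H} (hS : Simple S) : kc k S ∈ WW k 𝒮 := by
  have h1 : 𝒮.SameTube (rp 𝒮 (Quotient.mk 𝒮.tubeSetoid ⟨S, hS⟩)) S :=
    Quotient.exact (s := 𝒮.tubeSetoid) (Quotient.out_eq (Quotient.mk 𝒮.tubeSetoid ⟨S, hS⟩))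
  obtain ⟨n, -, hn⟩ := (𝒮.sameTube_iff k (simple_rp 𝒮 _)).1 h1
  refine Submodule.subset_span ⟨Quotient.mk 𝒮.tubeSetoid ⟨S, hS⟩, n, ?_⟩
  exact (kc_iso k hn).symm

theorem cast_mem_WW {c : I → ℤ} (hc : c ∈ AddSubgroup.closure {c | ∃ S : H, Simple S ∧ c = k.κ S}) :
    (fun i => (c i : ℂ)) ∈ WW k 𝒮 := by
  induction hc using AddSubgroup.closure_induction with
  | mem x hx =>
    obtain ⟨S, hS, rfl⟩ := hx
    exact kc_simple k 𝒮 hS
  | zero =>
    convert Submodule.zero_mem (WW k 𝒮) using 1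
    funext i
    simp
  | add x y _ _ hx hy =>
    convert Submodule.add_mem _ hx hy using 1
    funext i
    simp
  | neg x _ hx =>
    convert Submodule.neg_mem _ hx using 1
    funext i
    simp

theorem Phi_sub_mem (v : I → ℂ) : Phi k v - v ∈ WW k 𝒮 := by
  have hv : v ∈ Submodule.span ℂ (Set.range (kc k)) := by
    rw [span_kc]
    exact Submodule.mem_top
  induction hv using Submodule.span_induction with
  | mem x hx =>
    obtain ⟨X, rfl⟩ := hx
    rw [Phi_kc k 𝒮]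
    convert cast_mem_WW k 𝒮 (𝒮.tau_sub k X) using 1
    funext i
    simp [kc]
  | zero => simp
  | add x y _ _ hx hy =>
    rw [map_add, add_sub_add_comm]
    exact Submodule.add_mem _ hx hy
  | smul a x _ hx =>
    rw [map_smul, ← smul_sub]
    exact Submodule.smul_mem _ _ hx

/-- the tubes which contribute -/
def QQ (ζ : ℂ) : Set 𝒮.Tube := {q | ζ ^ 𝒮.period (rp 𝒮 q) = 1}

/-- the eigenvectors -/
noncomputable def uq (ζ : ℂ) (q : QQ 𝒮 ζ) : I → ℂ := uu k 𝒮 ζ (rp 𝒮 q.1)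

include k in
theorem QQ_eq (ζ : ℂ) : {q : 𝒮.Tube | ∃ S : {S : H // Simple S},
      Quotient.mk 𝒮.tubeSetoid S = q ∧ ζ ^ 𝒮.period S.1 = 1} = QQ 𝒮 ζ := by
  ext q
  constructor
  · rintro ⟨S, rfl, h⟩
    have h1 : 𝒮.SameTube (rp 𝒮 (Quotient.mk 𝒮.tubeSetoid S)) S.1 :=
      Quotient.exact (s := 𝒮.tubeSetoid) (Quotient.out_eq (Quotient.mk 𝒮.tubeSetoid S))
    change ζ ^ 𝒮.period (rp 𝒮 (Quotient.mk 𝒮.tubeSetoid S)) = 1
    rw [𝒮.period_sameTube k (simple_rp 𝒮 _) S.2 h1, h]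
  · intro h
    exact ⟨Quotient.out q, Quotient.out_eq q, h⟩

variable {ζ : ℂ}

include k in
/-- a common multiple of all periods -/
theorem exists_N {d : ℕ} (hd : 0 < d) (hζ : ζ ^ d = 1) :
    ∃ N : ℕ, 0 < N ∧ ζ ^ N = 1 ∧ ∀ S : H, Simple S → 𝒮.period S ∣ N := by
  refine ⟨d * (Fintype.card I + 1).factorial, by positivity, by rw [pow_mul, hζ, one_pow], ?_⟩
  intro S hS
  obtain ⟨h1, h2, -⟩ := 𝒮.period_spec k hS
  exact Dvd.dvd.mul_left (Nat.dvd_factorial h1 h2) _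

theorem uq_mem (q : QQ 𝒮 ζ) : uq k 𝒮 ζ q = ζ • Phi k (uq k 𝒮 ζ q) := by
  have hS := simple_rp 𝒮 q.1
  have h1 : ζ • Phi k (uq k 𝒮 ζ q) =
      ∑ l ∈ Finset.range (𝒮.period (rp 𝒮 q.1)), ff k 𝒮 ζ (rp 𝒮 q.1) (l + 1) := by
    unfold uq uu
    rw [map_sum, Finset.smul_sum]
    refine Finset.sum_congr rfl fun l _ => ?_
    unfold ff
    rw [map_smul, Phi_kc k 𝒮, smul_smul, ← pow_succ']
    have : 𝒮.tauPow (l + 1) (rp 𝒮 q.1) = 𝒮.ta (𝒮.tauPow l (rp 𝒮 q.1)) :=
      Function.iterate_succ_apply' _ _ _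
    rw [this]
  rw [h1, sum_shift (ff_period k 𝒮 hS q.2 dvd_rfl) 1]
  rfl

theorem span_uq (h1 : ζ ≠ 1) {d : ℕ} (hd : 0 < d) (hζ : ζ ^ d = 1) {v : I → ℂ}
    (hv : v = ζ • Phi k v) : v ∈ Submodule.span ℂ (Set.range (uq k 𝒮 ζ)) := by
  have hζ0 : ζ ≠ 0 := by
    rintro rfl
    rw [zero_pow hd.ne'] at hζ
    exact zero_ne_one hζ
  obtain ⟨N, hN, hζN, hper⟩ := exists_N k 𝒮 hd hζ
  -- `v ∈ W`
  have hW : v ∈ WW k 𝒮 := by
    have h2 : (1 - ζ) • v = ζ • (Phi k v - v) := by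
      rw [sub_smul, one_smul, smul_sub, ← hv]
    have h3 : (1 - ζ) • v ∈ WW k 𝒮 := by
      rw [h2]
      exact Submodule.smul_mem _ _ (Phi_sub_mem k 𝒮 v)
    exact (Submodule.smul_mem_iff _ (sub_ne_zero.2 h1.symm)).1 h3
  -- the averaging operator
  let B : (I → ℂ) →ₗ[ℂ] (I → ℂ) := ∑ n ∈ Finset.range N, ζ ^ n • (Phi k ^ n)
  have hBa : ∀ x, B x = ∑ n ∈ Finset.range N, ζ ^ n • (Phi k ^ n) x := by
    intro x
    simp only [B, LinearMap.sum_apply, LinearMap.smul_apply]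
  have hB : ∀ x ∈ WW k 𝒮, B x ∈ Submodule.span ℂ (Set.range (uq k 𝒮 ζ)) := by
    intro x hx
    induction hx using Submodule.span_induction with
    | mem x hx =>
      obtain ⟨q, n, rfl⟩ := hx
      have hS := simple_rp 𝒮 q
      have h2 : ζ ^ n • B (kc k (𝒮.tauPow n (rp 𝒮 q))) =
          ∑ l ∈ Finset.range N, ff k 𝒮 ζ (rp 𝒮 q) (l + n) := by
        rw [hBa, Finset.smul_sum]
        refine Finset.sum_congr rfl fun l _ => ?_
        unfold ff
        rw [kc_tauPow k 𝒮, ← 𝒮.tauPow_add, smul_smul, ← pow_add, add_comm n l]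
      rw [sum_shift (ff_period k 𝒮 hS hζN (hper _ hS)) n] at h2
      obtain ⟨r, hr⟩ := hper _ hS
      have h3 : ∑ l ∈ Finset.range N, ff k 𝒮 ζ (rp 𝒮 q) l =
          (∑ m ∈ Finset.range r, (ζ ^ 𝒮.period (rp 𝒮 q)) ^ m) • uu k 𝒮 ζ (rp 𝒮 q) := by
        rw [hr]
        exact sum_ff k 𝒮 hS r
      rw [h3] at h2
      rw [← Submodule.smul_mem_iff _ (pow_ne_zero n hζ0), h2]
      by_cases hq : ζ ^ 𝒮.period (rp 𝒮 q) = 1
      · exact Submodule.smul_mem _ _ (Submodule.subset_span ⟨⟨q, hq⟩, rfl⟩)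
      · have h4 : ∑ m ∈ Finset.range r, (ζ ^ 𝒮.period (rp 𝒮 q)) ^ m = 0 := by
          have h5 := geom_sum_mul (ζ ^ 𝒮.period (rp 𝒮 q)) r
          rw [← pow_mul, ← hr, hζN, sub_self] at h5
          exact (mul_eq_zero.1 h5).resolve_right (sub_ne_zero.2 hq)
        rw [h4, zero_smul]
        exact Submodule.zero_mem _
    | zero =>
      rw [map_zero]
      exact Submodule.zero_mem _
    | add x y _ _ hx hy =>
      rw [map_add]
      exact Submodule.add_mem _ hx hy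
    | smul a x _ hx =>
      rw [map_smul]
      exact Submodule.smul_mem _ _ hx
  have hiter : ∀ n, ζ ^ n • (Phi k ^ n) v = v := by
    intro n
    induction n with
    | zero => simp
    | succ n ih =>
      rw [pow_succ' (Phi k), Module.End.mul_apply, pow_succ', mul_smul, ← map_smul, ih]
      exact hv.symm
  have hBv : B v = (N : ℂ) • v := by
    rw [hBa]
    simp only [hiter, Finset.sum_const, Finset.card_range]
    rw [← Nat.cast_smul_eq_nsmul ℂ]
  have h2 := hB v hW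
  rw [hBv] at h2
  exact (Submodule.smul_mem_iff _ (Nat.cast_ne_zero.2 hN.ne')).1 h2

open Classical in
theorem dot_uu (h1 : ζ ≠ 1) (q q' : QQ 𝒮 ζ) :
    dotProduct (kc k (rp 𝒮 q'.1)) ((Gc k).mulVec (uq k 𝒮 ζ q)) =
      if q = q' then 1 - ζ else 0 := by
  have hS := simple_rp 𝒮 q.1
  have hS' := simple_rp 𝒮 q'.1
  have h2 : dotProduct (kc k (rp 𝒮 q'.1)) ((Gc k).mulVec (uq k 𝒮 ζ q)) =
      ∑ j ∈ Finset.range (𝒮.period (rp 𝒮 q.1)),
        ζ ^ j * ((chi K (rp 𝒮 q'.1) (𝒮.tauPow j (rp 𝒮 q.1)) : ℤ) : ℂ) := by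
    unfold uq uu ff
    have : (Gc k).mulVec (∑ j ∈ Finset.range (𝒮.period (rp 𝒮 q.1)),
        ζ ^ j • kc k (𝒮.tauPow j (rp 𝒮 q.1))) = ∑ j ∈ Finset.range (𝒮.period (rp 𝒮 q.1)),
        ζ ^ j • (Gc k).mulVec (kc k (𝒮.tauPow j (rp 𝒮 q.1))) := by
      rw [← Matrix.mulVecLin_apply, map_sum]
      refine Finset.sum_congr rfl fun j _ => ?_
      rw [map_smul, Matrix.mulVecLin_apply]
    rw [this, dotProduct_sum]
    refine Finset.sum_congr rfl fun j _ => ?_
    rw [dotProduct_smul, chi_c, smul_eq_mul]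
  rw [h2]
  by_cases hq : q = q'
  · subst hq
    rw [if_pos rfl]
    obtain ⟨hp0, -, -⟩ := 𝒮.period_spec k hS
    have hp2 : 2 ≤ 𝒮.period (rp 𝒮 q.1) := by
      by_contra hcon
      have hp1 : 𝒮.period (rp 𝒮 q.1) = 1 := by omega
      have h3 : ζ ^ 𝒮.period (rp 𝒮 q.1) = 1 := q.2
      rw [hp1, pow_one] at h3
      exact h1 h3
    have h3 : ∀ j ∈ Finset.range (𝒮.period (rp 𝒮 q.1)),
        ζ ^ j * ((chi K (rp 𝒮 q.1) (𝒮.tauPow j (rp 𝒮 q.1)) : ℤ) : ℂ) =
          (if j = 0 then 1 else 0) - if j = 1 then ζ else 0 := by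
      intro j hj
      rw [Finset.mem_range] at hj
      rw [𝒮.chi_simple hS (𝒮.simple_tauPow hS j)]
      have e1 : Nonempty (rp 𝒮 q.1 ≅ 𝒮.tauPow j (rp 𝒮 q.1)) ↔ j = 0 := by
        have := 𝒮.tauPow_iso_iff k hS 0 j
        change Nonempty (rp 𝒮 q.1 ≅ 𝒮.tauPow j (rp 𝒮 q.1)) ↔ _ at this
        rw [this]
        constructor
        · intro h
          have h4 := Nat.ModEq.eq_of_lt_of_lt h (by omega) hj
          exact h4.symm
        · rintro rfl
          rfl
      have e2 : Nonempty (𝒮.ta (rp 𝒮 q.1) ≅ 𝒮.tauPow j (rp 𝒮 q.1)) ↔ j = 1 := by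
        have := 𝒮.tauPow_iso_iff k hS 1 j
        change Nonempty (𝒮.ta (rp 𝒮 q.1) ≅ 𝒮.tauPow j (rp 𝒮 q.1)) ↔ _ at this
        rw [this]
        constructor
        · intro h
          have h4 := Nat.ModEq.eq_of_lt_of_lt h (by omega) hj
          exact h4.symm
        · rintro rfl
          rfl
      simp only [e1, e2]
      split_ifs with h4 h5 h5
      · omega
      · rw [h4]; simp
      · rw [h5]; simp
      · simp
    rw [Finset.sum_congr rfl h3, Finset.sum_sub_distrib, Finset.sum_ite_eq', Finset.sum_ite_eq',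
      if_pos (Finset.mem_range.2 (by omega)), if_pos (Finset.mem_range.2 (by omega))]
  · rw [if_neg hq]
    refine Finset.sum_eq_zero fun j _ => ?_
    rw [𝒮.chi_simple hS' (𝒮.simple_tauPow hS j)]
    have hne : ¬ 𝒮.SameTube (rp 𝒮 q'.1) (rp 𝒮 q.1) := by
      intro h
      apply hq
      apply Subtype.ext
      rw [← Quotient.out_eq q.1, ← Quotient.out_eq q'.1]
      exact (Quotient.sound (s := 𝒮.tubeSetoid) h).symm
    rw [if_neg, if_neg]
    · simp
    · intro h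
      exact hne ⟨1, j, h⟩
    · intro h
      exact hne ⟨0, j, h⟩

theorem linInd (h1 : ζ ≠ 1) : LinearIndependent ℂ (uq k 𝒮 ζ) := by
  classical
  rw [linearIndependent_iff']
  intro s g hg q hq
  have h2 := congrArg (fun w => dotProduct (kc k (rp 𝒮 q.1)) ((Gc k).mulVec w)) hg
  simp only [Matrix.mulVec_zero, dotProduct_zero] at h2
  have h3 : (Gc k).mulVec (∑ i ∈ s, g i • uq k 𝒮 ζ i) =
      ∑ i ∈ s, g i • (Gc k).mulVec (uq k 𝒮 ζ i) := by
    rw [← Matrix.mulVecLin_apply, map_sum]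
    refine Finset.sum_congr rfl fun j _ => ?_
    rw [map_smul, Matrix.mulVecLin_apply]
  rw [h3, dotProduct_sum] at h2
  have h4 : ∀ i ∈ s, dotProduct (kc k (rp 𝒮 q.1)) (g i • (Gc k).mulVec (uq k 𝒮 ζ i)) =
      if i = q then g i * (1 - ζ) else 0 := by
    intro i _
    rw [dotProduct_smul, dot_uu k 𝒮 h1, smul_eq_mul]
    split_ifs <;> simp
  rw [Finset.sum_congr rfl h4, Finset.sum_ite_eq' s q, if_pos hq] at h2
  exact (mul_eq_zero.1 h2).resolve_right (sub_ne_zero.2 h1.symm)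

end tube

end

end Eig

variable {K : Type t} [Field K] [IsAlgClosed K] {H : Type u} [Category.{v} H] [Abelian H]
  [Linear K H] [HasExt.{w} H] [Her K H] {I : Type x} [Fintype I] [DecidableEq I]
  (𝒮 : Serre K H) (k : K0Data K H I)


theorem eig_dim {ζ : ℂ} (h1 : ζ ≠ 1) {d : ℕ} (hd : 0 < d) (hζ : ζ ^ d = 1) :
    (nul (Mx k.G.transpose ζ) : ℕ∞) = Set.encard {q : 𝒮.Tube | ∃ S : {S : H // Simple S},
      Quotient.mk 𝒮.tubeSetoid S = q ∧ ζ ^ 𝒮.period S.1 = 1} := by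
  rw [Eig.QQ_eq k 𝒮]
  have hli := Eig.linInd k 𝒮 h1
  have hfin : Finite (Eig.QQ 𝒮 ζ) := hli.finite
  have : Fintype (Eig.QQ 𝒮 ζ) := Fintype.ofFinite _
  have hker : LinearMap.ker (Mx k.G.transpose ζ).mulVecLin =
      Submodule.span ℂ (Set.range (Eig.uq k 𝒮 ζ)) := by
    apply le_antisymm
    · intro v hv
      rw [LinearMap.mem_ker, Matrix.mulVecLin_apply, Eig.ker_iff] at hv
      exact Eig.span_uq k 𝒮 h1 hd hζ hv
    · rw [Submodule.span_le]
      rintro _ ⟨q, rfl⟩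
      change _ ∈ LinearMap.ker _
      rw [LinearMap.mem_ker, Matrix.mulVecLin_apply, Eig.ker_iff]
      exact Eig.uq_mem k 𝒮 q
  unfold nul
  rw [hker, finrank_span_eq_card hli, ← Nat.card_eq_fintype_card, Nat.card_coe_set_eq]
  exact Set.Finite.cast_ncard_eq (Set.toFinite _)

end Pool.Agent.WQ
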