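import Mathlib

/-!
# WQ: exceptional systems (definition)

`N A B n`: the group `Homⁿ(A, B)` of two exceptional objects of `D^b(H)` is nonzero.
-/

set_option autoImplicit false

namespace Pool.Agent.WQ

/-- Nonvanishing of graded Hom spaces between exceptional objects.  For an exceptional pair `(Y, Z)`
(`Hom•(Z, Y) = 0`) with `Homᵉ(Y, Z) ≠ 0` the object `L` is the left mutation, with triangle
`P → Z → L`, `P = Hom•(Y, Z) ⊗ Y` (a sum of copies of `Y[-e]`). -/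
structure ExcSys (𝓔 : Type*) where
  N : 𝓔 → 𝓔 → ℤ → Prop
  self : ∀ A n, N A A n ↔ n = 0
  uniq : ∀ A B m n, (∀ k, ¬ N B A k) → N A B m → N A B n → m = n
  mutate : ∀ Y Z e, (∀ n, ¬ N Z Y n) → N Y Z e → ∃ L,
    (∀ n, ¬ N Y L n) ∧
    (∀ W n, N W Z n → N W Y (n - e) ∨ N W L n) ∧
    (∀ W n, N W L n → N W Z n ∨ N W Y (n + 1 - e)) ∧
    (∀ W n, N W Y (n - e) → N W Z n ∨ N W L (n - 1)) ∧
    (∀ W n, N Z W n → N L W n ∨ N Y W (n + e)) ∧
    (∀ W n, N Y W (n + e) → N Z W n ∨ N L W (n + 1)) ∧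
    (∀ W n, N L W n → N Z W n ∨ N Y W (n - 1 + e))

/-- Successor on the cyclically ordered set `{0, .., m-1}`. -/
def nx (m k : ℕ) : ℕ := if k + 1 = m then 0 else k + 1

end Pool.Agent.WQ
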