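import Pool.Agent.WQ.Sum

/-!
# WQ: indecomposable and exceptional objects, Happel-Ringel lemma (module 4)

`iso_or_nilp`: for `a : X ⟶ X` let `μ = X^k q` be its minimal polynomial (`q(0) ≠ 0`), `u X^k + v q = 1`;
`e = (u X^k)(a)` is idempotent, idempotents split, so `e = 0` (then `a^k = 0`) or `e = 1` (then `a`
is invertible).

`hr` (without pushouts): `f = π ι`, `π : X → I` epi with kernel `N`, `ι : I → Y` mono with cokernel
`q : Y → Q` and class `δ ∈ Ext¹(Q, I)`.  `ext_g_surj`: `δ = δ' π`, `δ' ∈ Ext¹(Q, X)`.  `q δ' ∈ Ext¹(Y, X) = 0`, so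
(`conn_of_g_comp`) `δ' = δ s`, `s : I → X`.  `δ (s π - 1) = 0`, so (`extend_iff`) `1 - s π = ι t`,
`t : Y → I`.  If `π s ∈ End X` is invertible, `π` is mono, hence `f` mono.  If `t ι ∈ End Y` is
invertible, `ι` is epi, hence `f` epi.  Otherwise both are nilpotent, so `s π` and `ι t = 1 - s π` are
nilpotent in `End I` and `I = 0`.

`lemE`: a nonzero `f : A → B` is mono (then `Ext¹(B,B) → Ext¹(A,B)` is onto) or epi (then
`Ext¹(A,A) → Ext¹(A,B)` is onto).
-/

set_option autoImplicit false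

open CategoryTheory CategoryTheory.Limits CategoryTheory.Abelian

namespace Pool.Agent.WQ

attribute [local instance] Abelian.hasFiniteBiproducts

universe t v u w

namespace HR

section idem

variable {H : Type u} [Category.{v} H] [Abelian H]

/-- Idempotents of an indecomposable object are trivial. -/
theorem idem_trivial {X : H} (hX : Indecomposable X) (e : X ⟶ X) (he : e ≫ e = e) :
    e = 0 ∨ e = 𝟙 X := by
  obtain ⟨Y, i, p, h1, h2⟩ := IsIdempotentComplete.idempotents_split X e he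
  have he' : (𝟙 X - e) ≫ (𝟙 X - e) = 𝟙 X - e := Idempotents.idem_of_id_sub_idem e he
  obtain ⟨Z, j, q, h3, h4⟩ := IsIdempotentComplete.idempotents_split X (𝟙 X - e) he'
  have h5 : i ≫ q = 0 := by
    have e1 : i ≫ e = i := by rw [← h2, ← Category.assoc, h1, Category.id_comp]
    have e2 : (𝟙 X - e) ≫ q = q := by rw [← h4, Category.assoc, h3, Category.comp_id]
    calc i ≫ q = (i ≫ e) ≫ (𝟙 X - e) ≫ q := by rw [e1, e2]
      _ = i ≫ (e ≫ (𝟙 X - e)) ≫ q := by simp only [Category.assoc]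
      _ = 0 := by
        rw [Preadditive.comp_sub, Category.comp_id, he, sub_self, zero_comp, comp_zero]
  have h6 : j ≫ p = 0 := by
    have e1 : j ≫ (𝟙 X - e) = j := by rw [← h4, ← Category.assoc, h3, Category.id_comp]
    have e2 : e ≫ p = p := by rw [← h2, Category.assoc, h1, Category.comp_id]
    calc j ≫ p = (j ≫ (𝟙 X - e)) ≫ e ≫ p := by rw [e1, e2]
      _ = j ≫ ((𝟙 X - e) ≫ e) ≫ p := by simp only [Category.assoc]
      _ = 0 := by
        rw [Preadditive.sub_comp, Category.id_comp, he, sub_self, zero_comp, comp_zero]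
  let φ : X ≅ Y ⊞ Z :=
    { hom := biprod.lift p q
      inv := biprod.desc i j
      hom_inv_id := by rw [biprod.lift_desc, h2, h4, add_sub_cancel]
      inv_hom_id := by
        ext
        · simp [h1]
        · simp [h5]
        · simp [h6]
        · simp [h3] }
  rcases hX.2 Y Z φ with h | h
  · left
    rw [← h2, h.eq_of_src i 0, comp_zero]
  · right
    have h7 : 𝟙 X - e = 0 := by rw [← h4, h.eq_of_src j 0, comp_zero]
    exact (sub_eq_zero.1 h7).symm

theorem isZero_of_id {X : H} (h : 𝟙 X = 0) : IsZero X := (IsZero.iff_id_eq_zero X).2 h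

end idem

end HR

variable (K : Type t) [Field K] {H : Type u} [Category.{v} H] [Abelian H] [Linear K H]
  [HasExt.{w} H] [Her K H]

include K in
/-- Monic endomorphisms are isomorphisms. -/
theorem isIso_of_mono_end {X : H} (f : X ⟶ X) [Mono f] : IsIso f := by
  have hinj : Function.Injective (Linear.rightComp K X f) := by
    intro a b hab
    exact (cancel_mono f).1 hab
  obtain ⟨g, hg⟩ := (LinearMap.injective_iff_surjective.1 hinj) (𝟙 X)
  have hg' : g ≫ f = 𝟙 X := hg
  refine ⟨g, ?_, hg'⟩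
  rw [← cancel_mono f, Category.assoc, hg', Category.comp_id, Category.id_comp]

include K in
/-- Epic endomorphisms are isomorphisms. -/
theorem isIso_of_epi_end {X : H} (f : X ⟶ X) [Epi f] : IsIso f := by
  have hinj : Function.Injective (Linear.leftComp K X f) := by
    intro a b hab
    exact (cancel_epi f).1 hab
  obtain ⟨g, hg⟩ := (LinearMap.injective_iff_surjective.1 hinj) (𝟙 X)
  have hg' : f ≫ g = 𝟙 X := hg
  refine ⟨g, hg', ?_⟩
  rw [← cancel_epi f, ← Category.assoc, hg', Category.comp_id, Category.id_comp]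

include K in
theorem iso_or_nilp {X : H} (hX : Indecomposable X) (a : End X) : IsUnit a ∨ IsNilpotent a := by
  have hfin : Module.Finite K (End X) := Her.finHom X X
  have hint : IsIntegral K a := Algebra.IsIntegral.isIntegral a
  have hp : minpoly K a ≠ 0 := minpoly.ne_zero hint
  obtain ⟨q, hq, hq'⟩ := Polynomial.exists_eq_pow_rootMultiplicity_mul_and_not_dvd _ hp 0
  rw [map_zero, sub_zero] at hq hq'
  generalize Polynomial.rootMultiplicity 0 (minpoly K a) = n at hq
  have hcop : IsCoprime ((Polynomial.X : Polynomial K) ^ (n + 1)) q :=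
    IsCoprime.pow_left ((Polynomial.irreducible_X.coprime_iff_not_dvd).2 hq')
  obtain ⟨u, v, huv⟩ := hcop
  have h0 : Polynomial.aeval a (Polynomial.X ^ (n + 1) * q) = 0 := by
    have : Polynomial.X ^ (n + 1) * q = Polynomial.X * minpoly K a := by
      rw [hq, pow_succ']
      ring
    rw [this, map_mul, minpoly.aeval, mul_zero]
  set E : End X := Polynomial.aeval a (u * Polynomial.X ^ (n + 1)) with hE
  have h1 : E * E = E := by
    have e1 : E = E * Polynomial.aeval a (u * Polynomial.X ^ (n + 1) + v * q) := by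
      rw [huv, map_one, mul_one]
    have e2 : E * Polynomial.aeval a (v * q) = 0 := by
      rw [hE, ← map_mul]
      have : u * Polynomial.X ^ (n + 1) * (v * q) = (u * v) * (Polynomial.X ^ (n + 1) * q) := by
        ring
      rw [this, map_mul, h0, mul_zero]
    rw [map_add, mul_add, e2, add_zero] at e1
    exact e1.symm
  rcases HR.idem_trivial hX E h1 with h | h
  · right
    refine ⟨n + 1, ?_⟩
    have h' : E = 0 := h
    have e1 : a ^ (n + 1) = Polynomial.aeval a ((Polynomial.X : Polynomial K) ^ (n + 1)) *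
        Polynomial.aeval a (u * Polynomial.X ^ (n + 1) + v * q) := by
      rw [huv, map_one, mul_one, map_pow, Polynomial.aeval_X]
    have e2 : Polynomial.aeval a ((Polynomial.X : Polynomial K) ^ (n + 1)) *
        Polynomial.aeval a (v * q) = 0 := by
      rw [← map_mul]
      have : Polynomial.X ^ (n + 1) * (v * q) = v * (Polynomial.X ^ (n + 1) * q) := by ring
      rw [this, map_mul, h0, mul_zero]
    rw [e1, map_add, mul_add, e2, ← hE, h', mul_zero, add_zero]
  · left
    have h' : E = 1 := h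
    have e1 : a * Polynomial.aeval a (u * Polynomial.X ^ n) = 1 := by
      rw [← h', hE]
      nth_rewrite 1 [← Polynomial.aeval_X (R := K) a]
      rw [← map_mul]
      congr 1
      ring
    have e2 : Polynomial.aeval a (u * Polynomial.X ^ n) * a = 1 := by
      rw [← h', hE]
      nth_rewrite 2 [← Polynomial.aeval_X (R := K) a]
      rw [← map_mul]
      congr 1
      ring
    exact ⟨⟨a, _, e1, e2⟩, rfl⟩

namespace HR

omit [HasExt.{w} H] in
/-- moving a composition around a nilpotent product -/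
theorem nilp_swap {X I : H} (p : X ⟶ I) (s : I ⟶ X) (h : IsNilpotent (End.of (p ≫ s))) :
    IsNilpotent (End.of (s ≫ p)) := by
  obtain ⟨n, hn⟩ := h
  refine ⟨n + 1, ?_⟩
  have key : ∀ n : ℕ, (End.of (s ≫ p)) ^ (n + 1) = End.of (s ≫ ((End.of (p ≫ s)) ^ n).asHom ≫ p) := by
    intro n
    induction n with
    | zero => simp
    | succ n ih =>
      rw [pow_succ, ih, pow_succ]
      simp [End.mul_def]
  rw [key, hn]
  simp

end HR

include K in
/-- Happel-Ringel lemma. -/
theorem hr {X Y : H} (hX : Indecomposable X) (hY : Indecomposable Y) (h : Z1 Y X) (f : X ⟶ Y)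
    (hf : f ≠ 0) : Mono f ∨ Epi f := by
  obtain ⟨N, I, Q, i, π, ι, q, w₁, w₂, hS₁, hS₂, rfl⟩ := factor f
  have hπ : Epi π := hS₁.epi_g
  have hι : Mono ι := hS₂.mono_f
  obtain ⟨δ', hδ'⟩ := ext_g_surj K hS₁ hS₂.extClass
  obtain ⟨s, hs⟩ := conn_of_g_comp hS₂ δ' (h _)
  have h1 : hS₂.extClass.comp (Ext.mk₀ (𝟙 I - s ≫ π)) (add_zero 1) = 0 := by
    have e1 : (hS₂.extClass.comp (Ext.mk₀ s) (add_zero 1)).comp (Ext.mk₀ π) (add_zero 1) =
        hS₂.extClass := by
      rw [hs]
      exact hδ'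
    have e2 : hS₂.extClass.comp (Ext.mk₀ (s ≫ π)) (add_zero 1) = hS₂.extClass := by
      rw [← Ext.mk₀_comp_mk₀, ← Ext.comp_assoc_of_third_deg_zero]
      exact e1
    rw [sub_eq_add_neg, Ext.mk₀_add, Ext.mk₀_neg, Ext.comp_add, Ext.comp_neg, e2,
      Ext.comp_mk₀_id, add_neg_cancel]
  obtain ⟨t, ht⟩ := (extend_iff hS₂ _).2 h1
  have ht' : ι ≫ t = 𝟙 I - s ≫ π := ht
  rcases iso_or_nilp K hX (End.of (π ≫ s)) with h2 | h2
  · left
    have h3 : IsIso (π ≫ s) := (isUnit_iff_isIso _).1 h2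
    have h4 : Mono π := mono_of_mono π s
    exact mono_comp π ι
  rcases iso_or_nilp K hY (End.of (t ≫ ι)) with h3 | h3
  · right
    have h4 : IsIso (t ≫ ι) := (isUnit_iff_isIso _).1 h3
    have h5 : Epi ι := epi_of_epi t ι
    exact epi_comp π ι
  · exfalso
    have h4 := HR.nilp_swap π s h2
    have h5 := HR.nilp_swap t ι h3
    have h6 : End.of (ι ≫ t) = 1 - End.of (s ≫ π) := ht'
    rw [h6] at h5
    have h7 : IsUnit (1 - End.of (s ≫ π)) := h4.isUnit_one_sub
    obtain ⟨n, hn⟩ := h5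
    have h8 : IsUnit ((1 - End.of (s ≫ π)) ^ n) := h7.pow n
    rw [hn] at h8
    have h9 : (0 : End I) = 1 := isUnit_zero_iff.1 h8
    have h10 : (0 : I ⟶ I) = 𝟙 I := h9
    apply hf
    rw [← Category.comp_id π, ← h10, comp_zero, zero_comp]

theorem end_one [IsAlgClosed K] {X : H} (hX : Indecomposable X) (h : Z1 X X) : h0 K X X = 1 := by
  refine finrank_endomorphism_eq_one K fun f => ⟨?_, ?_⟩
  · rintro hf rfl
    apply hX.1
    apply HR.isZero_of_id
    have := IsIso.hom_inv_id (0 : X ⟶ X)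
    rw [zero_comp] at this
    exact this.symm
  · intro hf
    rcases hr K hX hX h f hf with h1 | h1
    · exact isIso_of_mono_end K f
    · exact isIso_of_epi_end K f

theorem HR.id_ne_zero_of_one {X : H} (h : h0 K X X = 1) : 𝟙 X ≠ 0 := by
  intro h1
  have h2 : Z0 X X := by
    intro f
    rw [← Category.comp_id f, h1, comp_zero]
  rw [← h0_eq_zero K, h] at h2
  exact one_ne_zero h2

/-- If `End X = K` every endomorphism is a scalar. -/
theorem scalar_of_one {X : H} (h : h0 K X X = 1) (f : X ⟶ X) : ∃ c : K, f = c • 𝟙 X := by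
  obtain ⟨c, hc⟩ := (finrank_eq_one_iff_of_nonzero' (𝟙 X) (HR.id_ne_zero_of_one K h)).1 h f
  exact ⟨c, hc.symm⟩

theorem indec_of_one {X : H} (h : h0 K X X = 1) : Indecomposable X := by
  have h1 := HR.id_ne_zero_of_one K h
  refine ⟨fun h2 => h1 (h2.eq_of_src _ _), fun Y Z φ => ?_⟩
  obtain ⟨c, hc⟩ := scalar_of_one K h (φ.hom ≫ biprod.fst ≫ biprod.inl ≫ φ.inv)
  have h2 : (φ.hom ≫ biprod.fst ≫ biprod.inl ≫ φ.inv) ≫
      (φ.hom ≫ biprod.fst ≫ biprod.inl ≫ φ.inv) = φ.hom ≫ biprod.fst ≫ biprod.inl ≫ φ.inv := by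
    simp
  have h3 : c * c = c := by
    rw [hc, Linear.smul_comp, Linear.comp_smul, Category.comp_id, smul_smul] at h2
    exact smul_left_injective K h1 h2
  rcases IsIdempotentElem.iff_eq_zero_or_one.1 (show IsIdempotentElem c from h3) with h4 | h4
  · left
    apply HR.isZero_of_id
    have h5 : (biprod.inl ≫ φ.inv) ≫ (φ.hom ≫ biprod.fst ≫ biprod.inl ≫ φ.inv) ≫
        (φ.hom ≫ biprod.fst) = 𝟙 Y := by simp
    rw [← h5, hc, h4, zero_smul, zero_comp, comp_zero]
  · right
    apply HR.isZero_of_id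
    have h5 : (biprod.inr ≫ φ.inv) ≫ (φ.hom ≫ biprod.fst ≫ biprod.inl ≫ φ.inv) ≫
        (φ.hom ≫ biprod.snd) = (0 : Z ⟶ Z) := by simp
    rw [← h5, hc, h4, one_smul]
    simp

/-- For exceptional `A`, `B` with `Ext¹(B, A) = 0`: `Hom(A, B) = 0` or `Ext¹(A, B) = 0`. -/
theorem lemE {A B : H} (hA : h0 K A A = 1) (hA' : Z1 A A) (hB : h0 K B B = 1) (hB' : Z1 B B)
    (h : Z1 B A) : Z0 A B ∨ Z1 A B := by
  by_cases h0 : Z0 A B
  · exact Or.inl h0
  right
  unfold Z0 at h0
  push Not at h0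
  obtain ⟨f, hf⟩ := h0
  obtain ⟨N, I, Q, i, π, ι, q, w₁, w₂, hS₁, hS₂, hfac⟩ := factor f
  rcases hr K (indec_of_one K hA) (indec_of_one K hB) h f hf with h1 | h1
  · have hπ : Mono π := by
      rw [← hfac] at h1
      exact mono_of_mono π ι
    have hπe : Epi π := hS₁.epi_g
    have hiso : IsIso π := isIso_of_mono_of_epi π
    exact (con_Z1_1 K hS₂ hB').of_iso (asIso π).symm (Iso.refl B)
  · have hι : Epi ι := by
      rw [← hfac] at h1
      exact epi_of_epi π ι
    have hιm : Mono ι := hS₂.mono_f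
    have hiso : IsIso ι := isIso_of_mono_of_epi ι
    exact (cov_Z1_3 K hS₁ hA').of_iso (Iso.refl A) (asIso ι)

namespace HR

omit [Linear K H] [HasExt.{w} H] [Her K H] in
theorem sum_iso' {n m : ℕ} (Y : Fin n ⊕ Fin m → H) :
    Nonempty ((⨁ fun k => Y (Sum.inl k)) ⊞ (⨁ fun k => Y (Sum.inr k)) ≅ ⨁ Y) := by
  let c : ∀ k : Fin n ⊕ Fin m, Y k ⟶ (⨁ fun k => Y (Sum.inl k)) ⊞ (⨁ fun k => Y (Sum.inr k)) :=
    fun k => match k with
    | Sum.inl k => biproduct.ι (fun k => Y (Sum.inl k)) k ≫ biprod.inl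
    | Sum.inr k => biproduct.ι (fun k => Y (Sum.inr k)) k ≫ biprod.inr
  have hD1 : ∀ k, biproduct.ι Y (Sum.inl k) ≫ biproduct.desc c =
      biproduct.ι (fun k => Y (Sum.inl k)) k ≫ biprod.inl :=
    fun k => biproduct.ι_desc c (Sum.inl k)
  have hD2 : ∀ k, biproduct.ι Y (Sum.inr k) ≫ biproduct.desc c =
      biproduct.ι (fun k => Y (Sum.inr k)) k ≫ biprod.inr :=
    fun k => biproduct.ι_desc c (Sum.inr k)
  exact ⟨{
    hom := biprod.desc (biproduct.desc fun k => biproduct.ι Y (Sum.inl k))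
      (biproduct.desc fun k => biproduct.ι Y (Sum.inr k))
    inv := biproduct.desc c
    hom_inv_id := by
      apply biprod.hom_ext'
      · apply biproduct.hom_ext'
        intro k
        rw [biprod.inl_desc_assoc, biproduct.ι_desc_assoc, hD1, Category.comp_id]
      · apply biproduct.hom_ext'
        intro k
        rw [biprod.inr_desc_assoc, biproduct.ι_desc_assoc, hD2, Category.comp_id]
    inv_hom_id := by
      apply biproduct.hom_ext'
      rintro (k | k)
      · rw [← Category.assoc, hD1, Category.assoc, biprod.inl_desc, biproduct.ι_desc,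
          Category.comp_id]
      · rw [← Category.assoc, hD2, Category.assoc, biprod.inr_desc, biproduct.ι_desc,
          Category.comp_id] }⟩

omit [Linear K H] [HasExt.{w} H] [Her K H] in
theorem sum_iso {n m : ℕ} (Y₁ : Fin n → H) (Y₂ : Fin m → H) :
    Nonempty ((⨁ Y₁) ⊞ (⨁ Y₂) ≅
      ⨁ (fun k : Fin (n + m) => Sum.elim Y₁ Y₂ (finSumFinEquiv.symm k))) := by
  obtain ⟨e1⟩ := sum_iso' (Sum.elim Y₁ Y₂)
  exact ⟨e1 ≪≫ (biproduct.whiskerEquiv finSumFinEquiv.symm fun _ => Iso.refl _).symm⟩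

theorem h0_lt {X Y Z : H} (φ : X ≅ Y ⊞ Z) (hZ : ¬ IsZero Z) : h0 K Y Y < h0 K X X := by
  let L : ((Y ⟶ Y) × (Z ⟶ Z)) →ₗ[K] (X ⟶ X) :=
    { toFun := fun p => φ.hom ≫ biprod.map p.1 p.2 ≫ φ.inv
      map_add' := fun p p' => by
        have : biprod.map (p + p').1 (p + p').2 = biprod.map p.1 p.2 + biprod.map p'.1 p'.2 := by
          ext <;> simp
        rw [this, Preadditive.add_comp, Preadditive.comp_add]
      map_smul' := fun c p => by
        have : biprod.map (c • p).1 (c • p).2 = c • biprod.map p.1 p.2 := by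
          ext <;> simp
        rw [this, Linear.smul_comp, Linear.comp_smul, RingHom.id_apply] }
  have hL : Function.Injective L := by
    intro p p' hpp
    have h1 : φ.hom ≫ biprod.map p.1 p.2 ≫ φ.inv = φ.hom ≫ biprod.map p'.1 p'.2 ≫ φ.inv := hpp
    rw [cancel_epi, cancel_mono] at h1
    apply Prod.ext
    · have h2 := congrArg (fun f => biprod.inl ≫ f ≫ biprod.fst) h1
      simpa using h2
    · have h2 := congrArg (fun f => biprod.inr ≫ f ≫ biprod.snd) h1
      simpa using h2
  have h1 := LinearMap.finrank_le_finrank_of_injective hL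
  rw [Module.finrank_prod] at h1
  have h2 : h0 K Z Z ≠ 0 := by
    intro h
    apply hZ
    apply isZero_of_id
    exact (h0_eq_zero K).1 h _
  unfold h0 at h2 ⊢
  omega

end HR

include K in
/-- Every object is a finite direct sum of indecomposable objects (induction on `dim End X`). -/
theorem decomp (X : H) : ∃ (n : ℕ) (Y : Fin n → H), (∀ k, Indecomposable (Y k)) ∧
    Nonempty (X ≅ ⨁ Y) := by
  induction h : h0 K X X using Nat.strong_induction_on generalizing X with
  | _ d ih =>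
    by_cases h1 : IsZero X
    · refine ⟨0, Fin.elim0, fun k => k.elim0, ⟨h1.iso ?_⟩⟩
      apply HR.isZero_of_id
      apply biproduct.hom_ext'
      intro k
      exact k.elim0
    by_cases h2 : Indecomposable X
    · exact ⟨1, fun _ => X, fun _ => h2, ⟨(biproductUniqueIso fun _ : Fin 1 => X).symm⟩⟩
    have h3 : ∃ (Y Z : H) (_ : X ≅ Y ⊞ Z), ¬ IsZero Y ∧ ¬ IsZero Z := by
      by_contra hcon
      apply h2
      refine ⟨h1, fun Y Z φ => ?_⟩
      by_contra h4
      rw [not_or] at h4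
      exact hcon ⟨Y, Z, φ, h4⟩
    obtain ⟨Y, Z, φ, hY, hZ⟩ := h3
    obtain ⟨n, A, hA, ⟨a⟩⟩ := ih _ (by rw [← h]; exact HR.h0_lt K φ hZ) Y rfl
    obtain ⟨m, B, hB, ⟨b⟩⟩ := ih _ (by
      rw [← h]; exact HR.h0_lt K (φ ≪≫ biprod.braiding Y Z) hY) Z rfl
    obtain ⟨c⟩ := HR.sum_iso A B
    refine ⟨n + m, _, ?_, ⟨φ ≪≫ biprod.mapIso a b ≪≫ c⟩⟩
    intro k
    rcases finSumFinEquiv.symm k with k | k
    · exact hA k
    · exact hB k

end Pool.Agent.WQ
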