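import Pool.Agent.WQ.Real
import Pool.Agent.WQ.HR
import Pool.Agent.WQ.Exc

/-!
# WQ: mutations of exceptional pairs (module 13)

`EObj`: `E[a]` with `E` exceptional.  `Homⁿ(E[a], F[b])` is `Hom(E, F)` for `n = a - b` and `Ext¹(E, F)` for
`n = a - b + 1`.  `uniq` is `lemE`.

Mutation, `Y`, `Z` exceptional in `H`, `Hom(Z, Y) = 0 = Ext¹(Z, Y)`:
* (X) `Ext¹(Y, Z) ≠ 0`, `Hom(Y, Z) = 0`: `univ_ext_one`: `0 → Z → L → Y^m → 0`, shift of `L` = shift of `Z`;
* `Hom(Y, Z) ≠ 0`, `Ext¹(Y, Z) = 0`: evaluation `p : Y^m → Z` (`eval_exists`) with image `J`; it is mono or epi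
  (`eval_mono_or_epi`); (C) mono: `0 → Y^m → Z → L → 0`, same shift; (N) epi: `0 → L → Y^m → Z → 0`, shift of `L` =
  shift of `Z` plus one.
`eval_mono_or_epi`: kernel `N`, cokernel `Q`.  Suppose `Q ≠ 0`.  `Ext¹(Z, J) = 0` (quotient of `Y^m`) and
`End Z = K`, `Z → Q` nonzero give `Hom(Z, J) = 0`; so `Ext¹(Z, N) = 0` (`cov_Z1_1`).  `Hom(Y, Y^m) → Hom(Y, J)` is
bijective, so `Hom(Y, N) = 0 = Ext¹(Y, N)`, `Hom(N, N) ≅ Ext¹(J, N)`, and
`Ext¹(Z, N) → Ext¹(J, N)` is onto, so `N = 0`.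
In all cases `Hom(Y, L) = 0 = Ext¹(Y, L)`, `End L = K` and `Ext¹(L, L) = 0` (long exact sequences), and the six
implications of `ExcSys.mutate` are contrapositives of the vanishing lemmas of `Ses.lean`.
-/

set_option autoImplicit false

open CategoryTheory CategoryTheory.Limits CategoryTheory.Abelian

namespace Pool.Agent.WQ

attribute [local instance] Abelian.hasFiniteBiproducts

universe t v u w

variable (K : Type t) [Field K] (H : Type u) [Category.{v} H] [Abelian H] [Linear K H]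
  [HasExt.{w} H]

/-- Exceptional objects of the derived category: `E[a]`, `E` exceptional in `H`. -/
structure EObj where
  E : H
  a : ℤ
  one : h0 K E E = 1
  rig : Z1 E E

variable {K H}

/-- `Homⁿ(A, B) ≠ 0`. -/
def EObj.N (A B : EObj K H) (n : ℤ) : Prop :=
  (n = A.a - B.a ∧ ¬ Z0 A.E B.E) ∨ (n = A.a - B.a + 1 ∧ ¬ Z1 A.E B.E)

variable [Her K H]

namespace Mut

/-- powers: `Hom(W, Y^m) = 0`. -/
theorem Z0_pow_right {W Y : H} {m : ℕ} (h : Z0 W Y) : Z0 W (⨁ fun _ : Fin m => Y) :=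
  (Z0_sum_right W _).2 fun _ => h

theorem Z0_pow_left {W Y : H} {m : ℕ} (h : Z0 Y W) : Z0 (⨁ fun _ : Fin m => Y) W :=
  (Z0_sum_left W _).2 fun _ => h

theorem Z1_pow_right {W Y : H} {m : ℕ} (h : Z1 W Y) : Z1 W (⨁ fun _ : Fin m => Y) :=
  (Z1_sum_right W _).2 fun _ => h

theorem Z1_pow_left {W Y : H} {m : ℕ} (h : Z1 Y W) : Z1 (⨁ fun _ : Fin m => Y) W :=
  (Z1_sum_left W _).2 fun _ => h

theorem Z0_of_pow_right {W Y : H} {m : ℕ} (hm : 0 < m) (h : Z0 W (⨁ fun _ : Fin m => Y)) :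
    Z0 W Y := (Z0_sum_right W _).1 h ⟨0, hm⟩

theorem Z0_of_pow_left {W Y : H} {m : ℕ} (hm : 0 < m) (h : Z0 (⨁ fun _ : Fin m => Y) W) :
    Z0 Y W := (Z0_sum_left W _).1 h ⟨0, hm⟩

theorem Z1_of_pow_right {W Y : H} {m : ℕ} (hm : 0 < m) (h : Z1 W (⨁ fun _ : Fin m => Y)) :
    Z1 W Y := (Z1_sum_right W _).1 h ⟨0, hm⟩

theorem Z1_of_pow_left {W Y : H} {m : ℕ} (hm : 0 < m) (h : Z1 (⨁ fun _ : Fin m => Y) W) :
    Z1 Y W := (Z1_sum_left W _).1 h ⟨0, hm⟩

theorem chi_of_Z {X Y : H} (h : Z0 X Y) (h' : Z1 X Y) : chi K X Y = 0 := by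
  rw [chi, (h0_eq_zero K).2 h, (h1_eq_zero K).2 h']
  simp

theorem h0_of_chi {X Y : H} (h : chi K X Y = 1) (h' : Z1 X Y) : h0 K X Y = 1 := by
  rw [chi, (h1_eq_zero K).2 h'] at h
  simpa using h

theorem chi_of_one {X Y : H} (h : h0 K X Y = 1) (h' : Z1 X Y) : chi K X Y = 1 := by
  rw [chi, (h1_eq_zero K).2 h', h]
  simp

end Mut

open Mut

theorem eval_mono_or_epi {Y Z : H} (hY : h0 K Y Y = 1) (hY' : Z1 Y Y) (hZ : h0 K Z Z = 1)
    (hZ' : Z1 Z Z) (h : Z0 Z Y) (h' : Z1 Z Y) {m : ℕ} (p : (⨁ fun _ : Fin m => Y) ⟶ Z)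
    (hp : ∀ u : Y ⟶ Z, ∃ v, v ≫ p = u) (hp' : ∀ v : Y ⟶ ⨁ fun _ : Fin m => Y, v ≫ p = 0 → v = 0) :
    Mono p ∨ Epi p := by
  obtain ⟨N, J, Q, i, π, ι, q, w₁, w₂, S₁, S₂, hfac⟩ := factor p
  have mi : Mono i := S₁.mono_f
  have eπ : Epi π := S₁.epi_g
  have mι : Mono ι := S₂.mono_f
  have eq' : Epi q := S₂.epi_g
  by_cases hep : Epi p
  · exact Or.inr hep
  left
  have hZJ1 : Z1 Z J := cov_Z1_3 K S₁ (Z1_pow_right h')
  have hZJ0 : Z0 Z J := by
    intro f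
    obtain ⟨c, hc⟩ := scalar_of_one K hZ (f ≫ ι)
    by_cases hc0 : c = 0
    · rw [hc0, zero_smul] at hc
      exact zero_of_comp_mono ι hc
    · exfalso
      apply hep
      have h1 : (c⁻¹ • f) ≫ ι = 𝟙 Z := by
        rw [Linear.smul_comp, hc, smul_smul, inv_mul_cancel₀ hc0, one_smul]
      have hι : Epi ι := by
        have : Epi ((c⁻¹ • f) ≫ ι) := by
          rw [h1]
          infer_instance
        exact epi_of_epi (c⁻¹ • f) ι
      rw [← hfac]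
      exact epi_comp π ι
  have hZN1 : Z1 Z N := cov_Z1_1 S₁ hZJ0 (Z1_pow_right h')
  have hYN0 : Z0 Y N := by
    intro f
    have h1 : (f ≫ i) ≫ p = 0 := by
      rw [← hfac, Category.assoc, reassoc_of% w₁, zero_comp, comp_zero]
    exact zero_of_comp_mono i (hp' _ h1)
  have hYN1 : Z1 Y N := by
    intro e
    have h1 : e.comp (Ext.mk₀ i) (add_zero 1) = 0 := Z1_pow_right hY' _
    obtain ⟨u, hu⟩ := conn_of_comp_f S₁ e h1
    rw [← hu]
    obtain ⟨v, hv⟩ := hp (u ≫ ι)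
    rw [← hfac, ← Category.assoc] at hv
    exact (lift_iff S₁ u).1 ⟨v, (cancel_mono ι).1 hv⟩
  have hNN : Z0 N N := con_Z0_1 S₁ (Z0_pow_left hYN0) (con_Z1_1 K S₂ hZN1)
  have hi : i = 0 := by
    have h1 : 𝟙 N = 0 := hNN _
    rw [← Category.id_comp i, h1, zero_comp]
  have hπ : Mono π := S₁.exact.mono_g hi
  rw [← hfac]
  exact mono_comp π ι

/-- The mutation in `H`. -/
theorem mut_exists {Y Z : H} (hY : h0 K Y Y = 1) (hY' : Z1 Y Y) (hZ : h0 K Z Z = 1)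
    (hZ' : Z1 Z Z) (h : Z0 Z Y) (h' : Z1 Z Y) (hne : ¬ (Z0 Y Z ∧ Z1 Y Z)) :
    ∃ (L : H) (m : ℕ), 0 < m ∧ h0 K L L = 1 ∧ Z1 L L ∧ Z0 Y L ∧ Z1 Y L ∧
      ((Z0 Y Z ∧ ∃ (i : Z ⟶ L) (p : L ⟶ ⨁ fun _ : Fin m => Y) (w₀ : i ≫ p = 0),
          (ShortComplex.mk i p w₀).ShortExact) ∨
       (Z1 Y Z ∧ ∃ (i : (⨁ fun _ : Fin m => Y) ⟶ Z) (p : Z ⟶ L) (w₀ : i ≫ p = 0),
          (ShortComplex.mk i p w₀).ShortExact) ∨
       (Z1 Y Z ∧ ∃ (i : L ⟶ ⨁ fun _ : Fin m => Y) (p : (⨁ fun _ : Fin m => Y) ⟶ Z)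
          (w₀ : i ≫ p = 0), (ShortComplex.mk i p w₀).ShortExact)) := by
  rcases lemE K hY hY' hZ hZ' h' with h0 | h1
  · -- extension case
    obtain ⟨m, L, i, p, w₀, hS, hm, hsurj, hinj⟩ := univ_ext_one K hY Z
    have hm0 : 0 < m := by
      rcases Nat.eq_zero_or_pos m with h2 | h2
      · exact absurd ⟨h0, (h1_eq_zero K).1 (hm.symm.trans h2)⟩ hne
      · exact h2
    have mi : Mono i := hS.mono_f
    have hYL0 : Z0 Y L := by
      intro f
      have h2 : f ≫ p = 0 := hinj _ ((lift_iff hS (f ≫ p)).1 ⟨f, rfl⟩)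
      have h3 : hS.exact.lift f h2 ≫ i = f := hS.exact.lift_f f h2
      rw [← h3, h0 (hS.exact.lift f h2), zero_comp]
    have hYL1 : Z1 Y L := by
      intro e
      have h2 : e.comp (Ext.mk₀ p) (add_zero 1) = 0 := Z1_pow_right hY' _
      obtain ⟨e', he'⟩ := Ext.covariant_sequence_exact₂ Y hS e h2
      obtain ⟨u, hu⟩ := hsurj e'
      rw [← he', ← hu, Ext.comp_assoc_of_third_deg_zero]
      have h3 := hS.extClass_comp
      change hS.extClass.comp (Ext.mk₀ i) (add_zero 1) = 0 at h3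
      change (Ext.mk₀ u).comp (hS.extClass.comp (Ext.mk₀ i) (add_zero 1)) (zero_add 1) = 0
      rw [h3, Ext.comp_zero]
    have hZL1 : Z1 Z L := cov_Z1_2 hS hZ' (Z1_pow_right h')
    have hLL1 : Z1 L L := con_Z1_2 hS hZL1 (Z1_pow_left hYL1)
    have e1 := chi_con K hS (W := L)
    have e2 := chi_cov K hS (W := Z)
    change chi K L L = chi K Z L + chi K (⨁ fun _ : Fin m => Y) L at e1
    change chi K Z L = chi K Z Z + chi K Z (⨁ fun _ : Fin m => Y) at e2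
    rw [chi_of_Z (Z0_pow_left hYL0) (Z1_pow_left hYL1), add_zero] at e1
    rw [chi_of_Z (Z0_pow_right h) (Z1_pow_right h'), add_zero] at e2
    refine ⟨L, m, hm0, h0_of_chi ?_ hLL1, hLL1, hYL0, hYL1, Or.inl ⟨h0, i, p, w₀, hS⟩⟩
    rw [e1, e2, chi_of_one hZ hZ']
  · -- evaluation case
    obtain ⟨m, p, hm, hp, hp'⟩ := eval_exists K hY Z
    have hm0 : 0 < m := by
      rcases Nat.eq_zero_or_pos m with h2 | h2
      · exact absurd ⟨(h0_eq_zero K).1 (hm.symm.trans h2), h1⟩ hne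
      · exact h2
    rcases eval_mono_or_epi hY hY' hZ hZ' h h' p hp hp' with hmono | hepi
    · -- cokernel
      let q := cokernel.π p
      have w₀ : p ≫ q = 0 := cokernel.condition p
      have hS : (ShortComplex.mk p q w₀).ShortExact :=
        { exact := ShortComplex.exact_cokernel p
          mono_f := hmono
          epi_g := inferInstanceAs (Epi (cokernel.π p)) }
      have hYL0 : Z0 Y (cokernel p) := by
        intro f
        obtain ⟨v, hv⟩ := (lift_iff hS f).2 (Z1_pow_right hY' _)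
        obtain ⟨u, hu⟩ := hp v
        change v ≫ q = f at hv
        rw [← hv, ← hu, Category.assoc, w₀, comp_zero]
      have hYL1 : Z1 Y (cokernel p) := cov_Z1_3 K hS h1
      have hZL1 : Z1 Z (cokernel p) := cov_Z1_3 K hS hZ'
      have hLL1 : Z1 (cokernel p) (cokernel p) :=
        con_Z1_3 hS (Z0_pow_left hYL0) hZL1
      have e1 := chi_con K hS (W := cokernel p)
      have e2 := chi_cov K hS (W := Z)
      change chi K Z (cokernel p) = chi K (⨁ fun _ : Fin m => Y) (cokernel p) +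
        chi K (cokernel p) (cokernel p) at e1
      change chi K Z Z = chi K Z (⨁ fun _ : Fin m => Y) + chi K Z (cokernel p) at e2
      rw [chi_of_Z (Z0_pow_left hYL0) (Z1_pow_left hYL1), zero_add] at e1
      rw [chi_of_Z (Z0_pow_right h) (Z1_pow_right h'), zero_add] at e2
      refine ⟨cokernel p, m, hm0, h0_of_chi ?_ hLL1, hLL1, hYL0, hYL1,
        Or.inr (Or.inl ⟨h1, p, q, w₀, hS⟩)⟩
      rw [← e1, ← e2, chi_of_one hZ hZ']
    · -- kernel
      let i := kernel.ι p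
      have w₀ : i ≫ p = 0 := kernel.condition p
      have hS : (ShortComplex.mk i p w₀).ShortExact :=
        { exact := ShortComplex.exact_kernel p
          mono_f := inferInstanceAs (Mono (kernel.ι p))
          epi_g := hepi }
      have hYL0 : Z0 Y (kernel p) := by
        intro f
        have h2 : (f ≫ i) ≫ p = 0 := by
          rw [Category.assoc, w₀, comp_zero]
        have h3 : f ≫ kernel.ι p = 0 := hp' _ h2
        exact zero_of_comp_mono (kernel.ι p) h3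
      have hYL1 : Z1 Y (kernel p) := by
        intro e
        obtain ⟨u, hu⟩ := conn_of_comp_f hS e (Z1_pow_right hY' _)
        rw [← hu]
        obtain ⟨v, hv⟩ := hp u
        exact (lift_iff hS u).1 ⟨v, hv⟩
      have hLL1 : Z1 (kernel p) (kernel p) := con_Z1_1 K hS (Z1_pow_left hYL1)
      have e1 := chi_con K hS (W := kernel p)
      have e2 := chi_cov K hS (W := Z)
      change chi K (⨁ fun _ : Fin m => Y) (kernel p) = chi K (kernel p) (kernel p) +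
        chi K Z (kernel p) at e1
      change chi K Z (⨁ fun _ : Fin m => Y) = chi K Z (kernel p) + chi K Z Z at e2
      rw [chi_of_Z (Z0_pow_left hYL0) (Z1_pow_left hYL1)] at e1
      rw [chi_of_Z (Z0_pow_right h) (Z1_pow_right h'), chi_of_one hZ hZ'] at e2
      refine ⟨kernel p, m, hm0, h0_of_chi ?_ hLL1, hLL1, hYL0, hYL1,
        Or.inr (Or.inr ⟨h1, i, p, w₀, hS⟩)⟩
      linarith

theorem EObj.N_self (A : EObj K H) (n : ℤ) : A.N A n ↔ n = 0 := by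
  constructor
  · rintro (⟨h, _⟩ | ⟨_, h⟩)
    · rw [h, sub_self]
    · exact absurd A.rig h
  · intro h
    refine Or.inl ⟨by rw [h, sub_self], fun h1 => ?_⟩
    have h2 := (h0_eq_zero K).2 h1
    rw [A.one] at h2
    exact one_ne_zero h2

theorem Mut.Z_of_N {A B : EObj K H} (h : ∀ k, ¬ B.N A k) : Z0 B.E A.E ∧ Z1 B.E A.E := by
  constructor
  · by_contra hc
    exact h _ (Or.inl ⟨rfl, hc⟩)
  · by_contra hc
    exact h _ (Or.inr ⟨rfl, hc⟩)

theorem EObj.N_uniq (A B : EObj K H) (m n : ℤ) (h : ∀ k, ¬ B.N A k) (hm : A.N B m)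
    (hn : A.N B n) : m = n := by
  have h1 := (Mut.Z_of_N h).2
  have h2 := lemE K A.one A.rig B.one B.rig h1
  rcases hm with ⟨hm, hm'⟩ | ⟨hm, hm'⟩
  · rcases hn with ⟨hn, hn'⟩ | ⟨hn, hn'⟩
    · rw [hm, hn]
    · exact absurd h2 (by tauto)
  · rcases hn with ⟨hn, hn'⟩ | ⟨hn, hn'⟩
    · exact absurd h2 (by tauto)
    · rw [hm, hn]

namespace Mut

theorem not_N {A B : EObj K H} {n : ℤ} (h : ¬ A.N B n) :
    (n = A.a - B.a → Z0 A.E B.E) ∧ (n = A.a - B.a + 1 → Z1 A.E B.E) := by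
  constructor
  · intro h1
    by_contra hc
    exact h (Or.inl ⟨h1, hc⟩)
  · intro h1
    by_contra hc
    exact h (Or.inr ⟨h1, hc⟩)

end Mut

theorem EObj.N_mut (Y Z : EObj K H) (e : ℤ) (h : ∀ n, ¬ Z.N Y n) (he : Y.N Z e) :
    ∃ L : EObj K H, (∀ n, ¬ Y.N L n) ∧
      (∀ (W : EObj K H) n, W.N Z n → W.N Y (n - e) ∨ W.N L n) ∧
      (∀ (W : EObj K H) n, W.N L n → W.N Z n ∨ W.N Y (n + 1 - e)) ∧
      (∀ (W : EObj K H) n, W.N Y (n - e) → W.N Z n ∨ W.N L (n - 1)) ∧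
      (∀ (W : EObj K H) n, Z.N W n → L.N W n ∨ Y.N W (n + e)) ∧
      (∀ (W : EObj K H) n, Y.N W (n + e) → Z.N W n ∨ L.N W (n + 1)) ∧
      (∀ (W : EObj K H) n, L.N W n → Z.N W n ∨ Y.N W (n - 1 + e)) := by
  obtain ⟨hZY0, hZY1⟩ := Z_of_N h
  have hne : ¬ (Z0 Y.E Z.E ∧ Z1 Y.E Z.E) := by
    rintro ⟨h1, h2⟩
    rcases he with ⟨_, h3⟩ | ⟨_, h3⟩
    · exact h3 h1
    · exact h3 h2
  obtain ⟨L, m, hm, hL, hL', hYL0, hYL1, hcase⟩ :=
    mut_exists Y.one Y.rig Z.one Z.rig hZY0 hZY1 hne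
  rcases hcase with ⟨h0, i, p, w₀, hS⟩ | ⟨h1, i, p, w₀, hS⟩ | ⟨h1, i, p, w₀, hS⟩
  · -- `0 → Z → L → Y^m → 0`, `e = Y.a - Z.a + 1`
    have hee : e = Y.a - Z.a + 1 := by
      rcases he with ⟨_, h3⟩ | ⟨h3, _⟩
      · exact absurd h0 h3
      · exact h3
    refine ⟨⟨L, Z.a, hL, hL'⟩, ?_, ?_, ?_, ?_, ?_, ?_, ?_⟩
    · rintro n (⟨_, h3⟩ | ⟨_, h3⟩)
      · exact h3 hYL0
      · exact h3 hYL1
    · intro W n hn
      by_contra hc
      rw [not_or] at hc
      obtain ⟨⟨a1, a2⟩, ⟨b1, b2⟩⟩ := And.intro (not_N hc.1) (not_N hc.2)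
      rcases hn with ⟨hn, hn'⟩ | ⟨hn, hn'⟩
      · exact hn' (cov_Z0_1 hS (b1 hn))
      · exact hn' (cov_Z1_1 hS (Z0_pow_right (a1 (by omega))) (b2 hn))
    · intro W n hn
      by_contra hc
      rw [not_or] at hc
      obtain ⟨⟨a1, a2⟩, ⟨b1, b2⟩⟩ := And.intro (not_N hc.1) (not_N hc.2)
      rcases hn with ⟨hn, hn'⟩ | ⟨hn, hn'⟩
      · exact hn' (cov_Z0_2 hS (a1 hn) (Z0_pow_right (b1 (by change n = W.a - Z.a at hn; omega))))
      · exact hn' (cov_Z1_2 hS (a2 hn)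
          (Z1_pow_right (b2 (by change n = W.a - Z.a + 1 at hn; omega))))
    · intro W n hn
      by_contra hc
      rw [not_or] at hc
      obtain ⟨⟨a1, a2⟩, ⟨b1, b2⟩⟩ := And.intro (not_N hc.1) (not_N hc.2)
      change n - 1 = W.a - Z.a → _ at b1
      change n - 1 = W.a - Z.a + 1 → _ at b2
      rcases hn with ⟨hn, hn'⟩ | ⟨hn, hn'⟩
      · exact hn' (Z0_of_pow_right hm (cov_Z0_3 hS (b1 (by omega)) (a2 (by omega))))
      · exact hn' (Z1_of_pow_right hm (cov_Z1_3 K hS (b2 (by omega))))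
    · intro W n hn
      by_contra hc
      rw [not_or] at hc
      obtain ⟨⟨a1, a2⟩, ⟨b1, b2⟩⟩ := And.intro (not_N hc.1) (not_N hc.2)
      rcases hn with ⟨hn, hn'⟩ | ⟨hn, hn'⟩
      · exact hn' (con_Z0_1 hS (a1 hn) (Z1_pow_left (b2 (by omega))))
      · exact hn' (con_Z1_1 K hS (a2 hn))
    · intro W n hn
      by_contra hc
      rw [not_or] at hc
      obtain ⟨⟨a1, a2⟩, ⟨b1, b2⟩⟩ := And.intro (not_N hc.1) (not_N hc.2)
      change n + 1 = Z.a - W.a → _ at b1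
      change n + 1 = Z.a - W.a + 1 → _ at b2
      rcases hn with ⟨hn, hn'⟩ | ⟨hn, hn'⟩
      · exact hn' (Z0_of_pow_left hm (con_Z0_3 hS (b1 (by omega))))
      · exact hn' (Z1_of_pow_left hm (con_Z1_3 hS (a1 (by omega)) (b2 (by omega))))
    · intro W n hn
      by_contra hc
      rw [not_or] at hc
      obtain ⟨⟨a1, a2⟩, ⟨b1, b2⟩⟩ := And.intro (not_N hc.1) (not_N hc.2)
      rcases hn with ⟨hn, hn'⟩ | ⟨hn, hn'⟩
      · change n = Z.a - W.a at hn
        exact hn' (con_Z0_2 hS (a1 hn) (Z0_pow_left (b1 (by omega))))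
      · change n = Z.a - W.a + 1 at hn
        exact hn' (con_Z1_2 hS (a2 hn) (Z1_pow_left (b2 (by omega))))
  · -- `0 → Y^m → Z → L → 0`, `e = Y.a - Z.a`
    have hee : e = Y.a - Z.a := by
      rcases he with ⟨h3, _⟩ | ⟨_, h3⟩
      · exact h3
      · exact absurd h1 h3
    refine ⟨⟨L, Z.a, hL, hL'⟩, ?_, ?_, ?_, ?_, ?_, ?_, ?_⟩
    · rintro n (⟨_, h3⟩ | ⟨_, h3⟩)
      · exact h3 hYL0
      · exact h3 hYL1
    · intro W n hn
      by_contra hc
      rw [not_or] at hc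
      obtain ⟨⟨a1, a2⟩, ⟨b1, b2⟩⟩ := And.intro (not_N hc.1) (not_N hc.2)
      rcases hn with ⟨hn, hn'⟩ | ⟨hn, hn'⟩
      · exact hn' (cov_Z0_2 hS (Z0_pow_right (a1 (by omega))) (b1 hn))
      · exact hn' (cov_Z1_2 hS (Z1_pow_right (a2 (by omega))) (b2 hn))
    · intro W n hn
      by_contra hc
      rw [not_or] at hc
      obtain ⟨⟨a1, a2⟩, ⟨b1, b2⟩⟩ := And.intro (not_N hc.1) (not_N hc.2)
      rcases hn with ⟨hn, hn'⟩ | ⟨hn, hn'⟩
      · change n = W.a - Z.a at hn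
        exact hn' (cov_Z0_3 hS (a1 hn) (Z1_pow_right (b2 (by omega))))
      · change n = W.a - Z.a + 1 at hn
        exact hn' (cov_Z1_3 K hS (a2 hn))
    · intro W n hn
      by_contra hc
      rw [not_or] at hc
      obtain ⟨⟨a1, a2⟩, ⟨b1, b2⟩⟩ := And.intro (not_N hc.1) (not_N hc.2)
      change n - 1 = W.a - Z.a → _ at b1
      change n - 1 = W.a - Z.a + 1 → _ at b2
      rcases hn with ⟨hn, hn'⟩ | ⟨hn, hn'⟩
      · exact hn' (Z0_of_pow_right hm (cov_Z0_1 hS (a1 (by omega))))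
      · exact hn' (Z1_of_pow_right hm (cov_Z1_1 hS (b1 (by omega)) (a2 (by omega))))
    · intro W n hn
      by_contra hc
      rw [not_or] at hc
      obtain ⟨⟨a1, a2⟩, ⟨b1, b2⟩⟩ := And.intro (not_N hc.1) (not_N hc.2)
      rcases hn with ⟨hn, hn'⟩ | ⟨hn, hn'⟩
      · exact hn' (con_Z0_2 hS (Z0_pow_left (b1 (by omega))) (a1 hn))
      · exact hn' (con_Z1_2 hS (Z1_pow_left (b2 (by omega))) (a2 hn))
    · intro W n hn
      by_contra hc
      rw [not_or] at hc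
      obtain ⟨⟨a1, a2⟩, ⟨b1, b2⟩⟩ := And.intro (not_N hc.1) (not_N hc.2)
      change n + 1 = Z.a - W.a → _ at b1
      change n + 1 = Z.a - W.a + 1 → _ at b2
      rcases hn with ⟨hn, hn'⟩ | ⟨hn, hn'⟩
      · exact hn' (Z0_of_pow_left hm (con_Z0_1 hS (a1 (by omega)) (b2 (by omega))))
      · exact hn' (Z1_of_pow_left hm (con_Z1_1 K hS (a2 (by omega))))
    · intro W n hn
      by_contra hc
      rw [not_or] at hc
      obtain ⟨⟨a1, a2⟩, ⟨b1, b2⟩⟩ := And.intro (not_N hc.1) (not_N hc.2)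
      rcases hn with ⟨hn, hn'⟩ | ⟨hn, hn'⟩
      · change n = Z.a - W.a at hn
        exact hn' (con_Z0_3 hS (a1 hn))
      · change n = Z.a - W.a + 1 at hn
        exact hn' (con_Z1_3 hS (Z0_pow_left (b1 (by omega))) (a2 hn))
  · -- `0 → L → Y^m → Z → 0`, `e = Y.a - Z.a`
    have hee : e = Y.a - Z.a := by
      rcases he with ⟨h3, _⟩ | ⟨_, h3⟩
      · exact h3
      · exact absurd h1 h3
    refine ⟨⟨L, Z.a + 1, hL, hL'⟩, ?_, ?_, ?_, ?_, ?_, ?_, ?_⟩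
    · rintro n (⟨_, h3⟩ | ⟨_, h3⟩)
      · exact h3 hYL0
      · exact h3 hYL1
    · intro W n hn
      by_contra hc
      rw [not_or] at hc
      obtain ⟨⟨a1, a2⟩, ⟨b1, b2⟩⟩ := And.intro (not_N hc.1) (not_N hc.2)
      change n = W.a - (Z.a + 1) → _ at b1
      change n = W.a - (Z.a + 1) + 1 → _ at b2
      rcases hn with ⟨hn, hn'⟩ | ⟨hn, hn'⟩
      · exact hn' (cov_Z0_3 hS (Z0_pow_right (a1 (by omega))) (b2 (by omega)))
      · exact hn' (cov_Z1_3 K hS (Z1_pow_right (a2 (by omega))))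
    · intro W n hn
      by_contra hc
      rw [not_or] at hc
      obtain ⟨⟨a1, a2⟩, ⟨b1, b2⟩⟩ := And.intro (not_N hc.1) (not_N hc.2)
      rcases hn with ⟨hn, hn'⟩ | ⟨hn, hn'⟩
      · change n = W.a - (Z.a + 1) at hn
        exact hn' (cov_Z0_1 hS (Z0_pow_right (b1 (by omega))))
      · change n = W.a - (Z.a + 1) + 1 at hn
        exact hn' (cov_Z1_1 hS (a1 (by omega)) (Z1_pow_right (b2 (by omega))))
    · intro W n hn
      by_contra hc
      rw [not_or] at hc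
      obtain ⟨⟨a1, a2⟩, ⟨b1, b2⟩⟩ := And.intro (not_N hc.1) (not_N hc.2)
      change n - 1 = W.a - (Z.a + 1) → _ at b1
      change n - 1 = W.a - (Z.a + 1) + 1 → _ at b2
      rcases hn with ⟨hn, hn'⟩ | ⟨hn, hn'⟩
      · exact hn' (Z0_of_pow_right hm (cov_Z0_2 hS (b1 (by omega)) (a1 (by omega))))
      · exact hn' (Z1_of_pow_right hm (cov_Z1_2 hS (b2 (by omega)) (a2 (by omega))))
    · intro W n hn
      by_contra hc
      rw [not_or] at hc
      obtain ⟨⟨a1, a2⟩, ⟨b1, b2⟩⟩ := And.intro (not_N hc.1) (not_N hc.2)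
      change n = (Z.a + 1) - W.a → _ at a1
      change n = (Z.a + 1) - W.a + 1 → _ at a2
      rcases hn with ⟨hn, hn'⟩ | ⟨hn, hn'⟩
      · exact hn' (con_Z0_3 hS (Z0_pow_left (b1 (by omega))))
      · exact hn' (con_Z1_3 hS (a1 (by omega)) (Z1_pow_left (b2 (by omega))))
    · intro W n hn
      by_contra hc
      rw [not_or] at hc
      obtain ⟨⟨a1, a2⟩, ⟨b1, b2⟩⟩ := And.intro (not_N hc.1) (not_N hc.2)
      change n + 1 = (Z.a + 1) - W.a → _ at b1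
      change n + 1 = (Z.a + 1) - W.a + 1 → _ at b2
      rcases hn with ⟨hn, hn'⟩ | ⟨hn, hn'⟩
      · exact hn' (Z0_of_pow_left hm (con_Z0_2 hS (b1 (by omega)) (a1 (by omega))))
      · exact hn' (Z1_of_pow_left hm (con_Z1_2 hS (b2 (by omega)) (a2 (by omega))))
    · intro W n hn
      by_contra hc
      rw [not_or] at hc
      obtain ⟨⟨a1, a2⟩, ⟨b1, b2⟩⟩ := And.intro (not_N hc.1) (not_N hc.2)
      rcases hn with ⟨hn, hn'⟩ | ⟨hn, hn'⟩
      · change n = (Z.a + 1) - W.a at hn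
        exact hn' (con_Z0_1 hS (Z0_pow_left (b1 (by omega))) (a2 (by omega)))
      · change n = (Z.a + 1) - W.a + 1 at hn
        exact hn' (con_Z1_1 K hS (Z1_pow_left (b2 (by omega))))

variable (K H) in
/-- The exceptional system of `H`. -/
def excSys : ExcSys (EObj K H) where
  N := EObj.N
  self := EObj.N_self
  uniq := EObj.N_uniq
  mutate := EObj.N_mut

end Pool.Agent.WQ
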