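import Pool.Agent.WQ.Exc

/-!
# WQ: chordless cycles generate the cycle space (module 15)

`A` symmetric and irreflexive, `g` antisymmetric, `∑ g = 0` on every chordless cycle of length `≥ 3`.  Then
`∑ g = 0` on every closed walk `v 0, .., v (m-1)` (`A (v k) (v (nx m k))` for `k < m`): strong induction on `m`;
`m ≤ 2` trivial; if `v j = v k` or `A (v j) (v k)` for two non-neighbours `j, k` rotate so that `j = 0` and split
into two shorter closed walks.  The potential is the sum along a walk from a chosen base point of the component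
(`Relation.ReflTransGen` or `SimpleGraph.Reachable`).
-/

set_option autoImplicit false

namespace Pool.Agent.WQ

namespace Pot

/-- the sum along a splice: leave out the steps `j, .., j + d` and jump instead. -/
theorem sum_splice {I : Type*} (g : I → I → ℤ) (v : ℕ → I) (j d r : ℕ) :
    ∑ k ∈ Finset.range (j + 1 + r),
      g (if k ≤ j then v k else v (k + d)) (if k + 1 ≤ j then v (k + 1) else v (k + 1 + d)) =
    ∑ k ∈ Finset.range j, g (v k) (v (k + 1)) + g (v j) (v (j + 1 + d)) +
      ∑ k ∈ Finset.range r, g (v (j + 1 + d + k)) (v (j + 1 + d + k + 1)) := by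
  rw [Finset.sum_range_add, Finset.sum_range_succ]
  congr 1
  · congr 1
    · refine Finset.sum_congr rfl fun k hk => ?_
      rw [Finset.mem_range] at hk
      rw [if_pos (by omega), if_pos (by omega)]
    · rw [if_pos le_rfl, if_neg (by omega)]
  · refine Finset.sum_congr rfl fun k _ => ?_
    rw [if_neg (by omega), if_neg (by omega)]
    have e1 : j + 1 + k + d = j + 1 + d + k := by ring
    have e2 : j + 1 + k + 1 + d = j + 1 + d + k + 1 := by ring
    rw [e1, e2]

theorem closed_zero {I : Type*} (A : I → I → Prop) (hs : ∀ i j, A i j → A j i)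
    (hi : ∀ i, ¬ A i i) (g : I → I → ℤ) (hg : ∀ i j, g j i = - g i j)
    (h : ∀ (m : ℕ) (v : ℕ → I), 3 ≤ m → (∀ j < m, ∀ k < m, v j = v k → j = k) →
      (∀ k < m, A (v k) (v (nx m k))) →
      (∀ j < m, ∀ k < m, j ≠ k → nx m j ≠ k → nx m k ≠ j → ¬ A (v j) (v k)) →
      ∑ k ∈ Finset.range m, g (v k) (v (nx m k)) = 0) (m : ℕ) :
    ∀ v : ℕ → I, (∀ k < m, A (v k) (v (k + 1))) → v m = v 0 →
      ∑ k ∈ Finset.range m, g (v k) (v (k + 1)) = 0 := by
  induction m using Nat.strong_induction_on with
  | _ m ih =>
    intro v hv h0
    -- small cases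
    rcases Nat.lt_or_ge m 3 with hm | hm
    · rcases (show m = 0 ∨ m = 1 ∨ m = 2 by omega) with rfl | rfl | rfl
      · simp
      · exact absurd (by have h1 := hv 0 (by omega); rw [zero_add, h0] at h1; exact h1) (hi (v 0))
      · rw [Finset.sum_range_succ, Finset.sum_range_succ, Finset.sum_range_zero]
        change 0 + g (v 0) (v 1) + g (v 1) (v 2) = 0
        rw [h0, hg (v 0) (v 1)]
        ring
    -- a repeated vertex
    by_cases c1 : ∃ j k, j < k ∧ k < m ∧ v j = v k
    · obtain ⟨j, k, hjk, hkm, he⟩ := c1
      obtain ⟨d, rfl⟩ : ∃ d, k = j + d := ⟨k - j, by omega⟩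
      obtain ⟨r, rfl⟩ : ∃ r, m = j + (d + 1) + r := ⟨m - (j + (d + 1)), by omega⟩
      have hd : 1 ≤ d := by omega
      have s1 := ih (j + 1 + r) (by omega) (fun i => if i ≤ j then v i else v (i + d)) (by
        intro i hi'
        show A (if i ≤ j then v i else v (i + d)) (if i + 1 ≤ j then v (i + 1) else v (i + 1 + d))
        rcases lt_trichotomy i j with hij | hij | hij
        · rw [if_pos (by omega), if_pos (by omega)]
          exact hv i (by omega)
        · subst hij
          rw [if_pos (by omega), if_neg (by omega), he]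
          have e1 : i + 1 + d = i + d + 1 := by ring
          rw [e1]
          exact hv (i + d) (by omega)
        · rw [if_neg (by omega), if_neg (by omega)]
          have e1 : i + 1 + d = i + d + 1 := by ring
          rw [e1]
          exact hv (i + d) (by omega)) (by
        show (if j + 1 + r ≤ j then v (j + 1 + r) else v (j + 1 + r + d)) =
          (if 0 ≤ j then v 0 else v (0 + d))
        rw [if_neg (by omega), if_pos (by omega), ← h0]
        congr 1
        ring)
      rw [sum_splice g v j d r] at s1
      have s2 := ih d (by omega) (fun i => v (j + i)) (fun i hi' => by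
        show A (v (j + i)) (v (j + (i + 1)))
        exact hv (j + i) (by omega)) (by
        show v (j + d) = v (j + 0)
        rw [add_zero, he])
      rw [Finset.sum_range_add, Finset.sum_range_add, Finset.sum_range_succ (fun i => _) d]
      have e2 : j + d + 1 = j + 1 + d := by ring
      have e3 : j + (d + 1) = j + 1 + d := by ring
      rw [← he, e2, e3]
      have s2' : ∑ x ∈ Finset.range d, g (v (j + x)) (v (j + x + 1)) = 0 := s2
      rw [s2', zero_add]
      exact s1
    -- a chord
    by_cases c2 : ∃ j k, j + 1 < k ∧ k < m ∧ ¬ (j = 0 ∧ k = m - 1) ∧ A (v j) (v k)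
    · obtain ⟨j, k, hjk, hkm, hn, hA⟩ := c2
      obtain ⟨d, rfl⟩ : ∃ d, k = j + 1 + d := ⟨k - j - 1, by omega⟩
      obtain ⟨r, rfl⟩ : ∃ r, m = j + (d + 1) + r := ⟨m - (j + (d + 1)), by omega⟩
      have hd : 1 ≤ d := by omega
      have s1 := ih (j + 1 + r) (by omega) (fun i => if i ≤ j then v i else v (i + d)) (by
        intro i hi'
        show A (if i ≤ j then v i else v (i + d)) (if i + 1 ≤ j then v (i + 1) else v (i + 1 + d))
        rcases lt_trichotomy i j with hij | hij | hij
        · rw [if_pos (by omega), if_pos (by omega)]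
          exact hv i (by omega)
        · subst hij
          rw [if_pos (by omega), if_neg (by omega)]
          exact hA
        · rw [if_neg (by omega), if_neg (by omega)]
          have e1 : i + 1 + d = i + d + 1 := by ring
          rw [e1]
          exact hv (i + d) (by omega)) (by
        show (if j + 1 + r ≤ j then v (j + 1 + r) else v (j + 1 + r + d)) =
          (if 0 ≤ j then v 0 else v (0 + d))
        rw [if_neg (by omega), if_pos (by omega), ← h0]
        congr 1
        ring)
      rw [sum_splice g v j d r] at s1
      have s2 := ih (d + 1 + 1) (by omega) (fun i => if i ≤ d + 1 then v (j + i) else v j) (by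
        intro i hi'
        show A (if i ≤ d + 1 then v (j + i) else v j)
          (if i + 1 ≤ d + 1 then v (j + (i + 1)) else v j)
        rw [if_pos (by omega)]
        by_cases hid : i + 1 ≤ d + 1
        · rw [if_pos hid]
          exact hv (j + i) (by omega)
        · rw [if_neg hid]
          have e1 : j + i = j + 1 + d := by omega
          rw [e1]
          exact hs _ _ hA) (by
        show (if d + 1 + 1 ≤ d + 1 then v (j + (d + 1 + 1)) else v j) =
          (if 0 ≤ d + 1 then v (j + 0) else v j)
        rw [if_neg (by omega), if_pos (by omega), add_zero])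
      rw [Finset.sum_range_succ] at s2
      have s3 : ∑ x ∈ Finset.range (d + 1),
          g (if x ≤ d + 1 then v (j + x) else v j) (if x + 1 ≤ d + 1 then v (j + (x + 1)) else v j) =
          ∑ x ∈ Finset.range (d + 1), g (v (j + x)) (v (j + x + 1)) := by
        refine Finset.sum_congr rfl fun x hx => ?_
        rw [Finset.mem_range] at hx
        rw [if_pos (by omega), if_pos (by omega)]
        rfl
      have s4 : g (if d + 1 ≤ d + 1 then v (j + (d + 1)) else v j)
          (if d + 1 + 1 ≤ d + 1 then v (j + (d + 1 + 1)) else v j) = - g (v j) (v (j + 1 + d)) := by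
        rw [if_pos le_rfl, if_neg (by omega), hg]
        congr 3
        ring
      have s5 : ∑ x ∈ Finset.range (d + 1), g (v (j + x)) (v (j + x + 1)) =
          g (v j) (v (j + 1 + d)) := by
        have s6 := s2
        change ∑ x ∈ Finset.range (d + 1),
          g (if x ≤ d + 1 then v (j + x) else v j)
            (if x + 1 ≤ d + 1 then v (j + (x + 1)) else v j) +
          g (if d + 1 ≤ d + 1 then v (j + (d + 1)) else v j)
            (if d + 1 + 1 ≤ d + 1 then v (j + (d + 1 + 1)) else v j) = 0 at s6
        rw [s3, s4] at s6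
        linarith
      rw [Finset.sum_range_add, Finset.sum_range_add, s5]
      have e3 : j + (d + 1) = j + 1 + d := by ring
      rw [e3]
      exact s1
    -- a chordless cycle
    have hnx : ∀ k < m, v (nx m k) = v (k + 1) := by
      intro k hk
      unfold nx
      by_cases hk1 : k + 1 = m
      · rw [if_pos hk1, hk1, h0]
      · rw [if_neg hk1]
    have h1 := h m v hm (by
      intro j hj k hk he
      by_contra hne
      rcases lt_or_gt_of_ne hne with hlt | hlt
      · exact c1 ⟨j, k, hlt, hk, he⟩
      · exact c1 ⟨k, j, hlt, hj, he.symm⟩) (by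
      intro k hk
      rw [hnx k hk]
      exact hv k hk) (by
      have key : ∀ j < m, ∀ k < m, j < k → nx m j ≠ k → nx m k ≠ j → ¬ A (v j) (v k) := by
        intro j hj k hk hlt n1 n2 hA
        refine c2 ⟨j, k, ?_, hk, ?_, hA⟩
        · unfold nx at n1
          rw [if_neg (by omega)] at n1
          omega
        · rintro ⟨rfl, rfl⟩
          unfold nx at n2
          rw [if_pos (by omega)] at n2
          exact n2 rfl
      intro j hj k hk hne n1 n2 hA
      rcases lt_or_gt_of_ne hne with hlt | hlt
      · exact key j hj k hk hlt n1 n2 hA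
      · exact key k hk j hj hlt n2 n1 (hs _ _ hA))
    rw [← h1]
    refine Finset.sum_congr rfl fun k hk => ?_
    rw [hnx k (Finset.mem_range.1 hk)]

/-- the sum along a walk -/
def wsum {I : Type*} {G : SimpleGraph I} (g : I → I → ℤ) : ∀ {a b : I}, G.Walk a b → ℤ
  | _, _, .nil => 0
  | a, _, .cons (v := v) _ p => g a v + wsum g p

theorem wsum_append {I : Type*} {G : SimpleGraph I} (g : I → I → ℤ) {a b c : I}
    (p : G.Walk a b) (q : G.Walk b c) : wsum g (p.append q) = wsum g p + wsum g q := by
  induction p with
  | nil => simp [wsum]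
  | cons h p ih =>
    rw [SimpleGraph.Walk.cons_append]
    simp only [wsum]
    rw [ih]
    ring

theorem wsum_reverse {I : Type*} {G : SimpleGraph I} (g : I → I → ℤ)
    (hg : ∀ i j, g j i = - g i j) {a b : I} (p : G.Walk a b) : wsum g p.reverse = - wsum g p := by
  induction p with
  | nil => simp [wsum]
  | cons h p ih =>
    rw [SimpleGraph.Walk.reverse_cons, wsum_append, ih]
    simp only [wsum]
    rw [hg]
    ring

theorem wsum_eq {I : Type*} {G : SimpleGraph I} (g : I → I → ℤ) {a b : I} (p : G.Walk a b) :
    wsum g p = ∑ k ∈ Finset.range p.length, g (p.getVert k) (p.getVert (k + 1)) := by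
  induction p with
  | nil => simp [wsum]
  | cons h p ih =>
    rw [SimpleGraph.Walk.length_cons, Finset.sum_range_succ']
    simp only [wsum, SimpleGraph.Walk.getVert_cons_succ, SimpleGraph.Walk.getVert_zero]
    rw [ih]
    ring

end Pot

open Pot in
theorem potential {I : Type*} (A : I → I → Prop) (hs : ∀ i j, A i j → A j i)
    (hi : ∀ i, ¬ A i i) (g : I → I → ℤ) (hg : ∀ i j, g j i = - g i j)
    (h : ∀ (m : ℕ) (v : ℕ → I), 3 ≤ m → (∀ j < m, ∀ k < m, v j = v k → j = k) →
      (∀ k < m, A (v k) (v (nx m k))) →
      (∀ j < m, ∀ k < m, j ≠ k → nx m j ≠ k → nx m k ≠ j → ¬ A (v j) (v k)) →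
      ∑ k ∈ Finset.range m, g (v k) (v (nx m k)) = 0) :
    ∃ φ : I → ℤ, ∀ i j, A i j → g i j = φ j - φ i := by
  let G : SimpleGraph I := { Adj := A, symm := ⟨fun a b => hs a b⟩, loopless := ⟨hi⟩ }
  have hclosed : ∀ (a : I) (p : G.Walk a a), wsum g p = 0 := by
    intro a p
    rw [wsum_eq]
    refine closed_zero A hs hi g hg h p.length p.getVert (fun k hk => p.adj_getVert_succ hk) ?_
    rw [p.getVert_length, p.getVert_zero]
  have hbase : ∀ i : I, Nonempty (G.Walk (G.connectedComponentMk i).out i) := by
    intro i
    have h1 : G.connectedComponentMk (G.connectedComponentMk i).out = G.connectedComponentMk i :=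
      Quot.out_eq _
    exact SimpleGraph.ConnectedComponent.exact h1
  let φ : I → ℤ := fun i => wsum g (hbase i).some
  refine ⟨φ, fun i j hij => ?_⟩
  have hadj : G.Adj i j := hij
  have hcc : G.connectedComponentMk i = G.connectedComponentMk j :=
    SimpleGraph.ConnectedComponent.sound hadj.reachable
  have hbj : ∃ q : G.Walk (G.connectedComponentMk i).out j, wsum g q = φ j := by
    change ∃ q : G.Walk (G.connectedComponentMk i).out j, wsum g q = wsum g (hbase j).some
    rw [hcc]
    exact ⟨_, rfl⟩
  obtain ⟨q, hq⟩ := hbj
  have h2 := hclosed _ (((hbase i).some.append (SimpleGraph.Walk.cons hadj SimpleGraph.Walk.nil)).append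
    q.reverse)
  rw [wsum_append, wsum_append, wsum_reverse g hg, hq] at h2
  simp only [wsum] at h2
  change wsum g (hbase i).some + (g i j + 0) + - φ j = 0 at h2
  change g i j = φ j - wsum g (hbase i).some
  linarith

end Pool.Agent.WQ
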