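import Pool.Agent.WQ.CluQ
import Pool.Agent.WQ.Mut
import Pool.Agent.WQ.Cycle
import Pool.Agent.WQ.Pot
import Pool.Agent.WQ.Eig

/-!
# WQ: assembly (module 22)

`winding_T`: for `T` with dual collection `D` and order `ρ`, `b i j = arrows i j - arrows j i`: the sum of `gam ρ b` over a
chordless cycle of the graph `b i j ≠ 0` is `-1` if all `b (v k) (v (k+1)) > 0`, `1` if all `< 0`, else `0`
(`Cyc.winding` with `E k = S (v k)`, `o k = - ρ (v k)`, `c k = gam ρ b (v k) (v (nx m k))`).  For `ρ i < ρ j`: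
`b i j = D.h 1 j i - D.h 2 j i` (`arrows_eq`, `Dual.order`), at most one of the two is nonzero (`lemE`).
`nul_T`: `nul (Mx Gᵗ ζ)` is the same for `T` and `T'` (`nul_G`, `nul_conj`, `nul_reindex`, `potential`,
`Dual.chi_E`).
`count`: `period = p` for all `p ≥ 2` from the numbers of tubes with `ζ^period = 1`, i.e. `d ∣ period`
(`ζ` a primitive `d`-th root of unity): downward induction on `p` (the periods are bounded).
-/

set_option autoImplicit false

open CategoryTheory CategoryTheory.Limits CategoryTheory.Abelian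

namespace Pool.Agent.WQ

attribute [local instance] Abelian.hasFiniteBiproducts

universe t v u w x t' v' u' w' x'

section one

variable {K : Type t} [Field K] [IsAlgClosed K] {H : Type u} [Category.{v} H] [Abelian H]
  [Linear K H] [HasExt.{w} H] [Her K H] {I : Type x} [Fintype I] [DecidableEq I]
  (𝒮 : Serre K H) {T : I → H}

/-- `b i j = #(i → j) - #(j → i)`. -/
noncomputable def bmat (T : I → H) (i j : I) : ℤ := (𝒮.arrows T i j : ℤ) - 𝒮.arrows T j i

theorem bmat_antisymm (T : I → H) (i j : I) : bmat 𝒮 T j i = - bmat 𝒮 T i j := by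
  unfold bmat; ring

theorem h_zero_of_Z (D : Dual K T) {i j : I} (h : Z0 (D.E j) (D.E i) ∧ Z1 (D.E j) (D.E i))
    (n : ℤ) : D.h n j i = 0 := by
  unfold Dual.h
  split_ifs
  · exact (h0_eq_zero K).2 h.1
  · exact (h1_eq_zero K).2 h.2
  · rfl

/-- For `ρ i < ρ j`: `b i j` and `Hom•(S j, S i)`. -/
theorem bmat_eq (hT : CT K T) (D : Dual K T) {ρ : I → ℕ} (hρ : Function.Injective ρ)
    (hρ' : ∀ i j, i ≠ j → ¬ Z0 (T i) (T j) → ρ i < ρ j) {i j : I} (h : ρ i < ρ j) :
    bmat 𝒮 T i j = (D.h 1 j i : ℤ) - D.h 2 j i ∧ (D.h 1 j i = 0 ∨ D.h 2 j i = 0) := by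
  have hij : i ≠ j := by rintro rfl; exact lt_irrefl _ h
  have hz := D.order hT hρ hρ' h
  have hz' := h_zero_of_Z D hz
  refine ⟨?_, ?_⟩
  · unfold bmat
    rw [arrows_eq 𝒮 hT D hij, arrows_eq 𝒮 hT D hij.symm, hz' 2, hz' 1]
    push_cast
    ring
  · have hE := lemE K (D.exc hT j).1 (D.exc hT j).2 (D.exc hT i).1 (D.exc hT i).2 hz.2
    unfold Dual.h
    rcases hE with hE | hE
    · have h0 := (h0_eq_zero K).2 hE
      rw [h0]
      split_ifs <;> first | (left; rfl) | (right; rfl) | omega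
    · have h1 := (h1_eq_zero K).2 hE
      rw [h1]
      split_ifs <;> first | (left; rfl) | (right; rfl) | omega

theorem Umat_eq (hT : CT K T) (D : Dual K T) {ρ : I → ℕ} (hρ : Function.Injective ρ)
    (hρ' : ∀ i j, i ≠ j → ¬ Z0 (T i) (T j) → ρ i < ρ j) :
    (∀ i, Umat D i i = 1) ∧ (∀ i j, ρ i < ρ j → Umat D i j = - bmat 𝒮 T i j) ∧
      ∀ i j, ρ j < ρ i → Umat D i j = 0 := by
  refine ⟨fun i => ?_, fun i j h => ?_, fun i j h => ?_⟩
  · have h1 := D.exc hT i
    simp only [Umat, Matrix.of_apply, chi]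
    rw [h1.1, (h1_eq_zero K).2 h1.2]
    unfold Dual.sg
    rcases D.spec i with ⟨h2, -⟩ | ⟨h2, -⟩ <;> rw [h2] <;> norm_num
  · have hij : i ≠ j := by rintro rfl; exact lt_irrefl _ h
    have h1 := D.chi_E hT hij
    rw [(bmat_eq 𝒮 hT D hρ hρ' h).1]
    simp only [Umat, Matrix.of_apply]
    rw [mul_comm (D.sg i) (D.sg j), h1]
    ring
  · have hz := D.order hT hρ hρ' h
    simp only [Umat, Matrix.of_apply, chi]
    rw [(h0_eq_zero K).2 hz.1, (h1_eq_zero K).2 hz.2]
    simp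

/-- The exceptional object `S i` of the derived category. -/
noncomputable def SO (hT : CT K T) (D : Dual K T) (i : I) : EObj K H :=
  ⟨D.E i, D.a i, (D.exc hT i).1, (D.exc hT i).2⟩

theorem N_iff (hT : CT K T) (D : Dual K T) (j i : I) (n : ℤ) :
    (SO hT D j).N (SO hT D i) n ↔ D.h n j i ≠ 0 := by
  have e0 := (h0_eq_zero K (X := D.E j) (Y := D.E i))
  have e1 := (h1_eq_zero K (X := D.E j) (Y := D.E i))
  unfold EObj.N Dual.h SO
  simp only
  constructor
  · rintro (⟨h1, h2⟩ | ⟨h1, h2⟩)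
    · rw [if_pos (by omega)]
      exact fun h => h2 (e0.1 h)
    · rw [if_neg (by omega), if_pos (by omega)]
      exact fun h => h2 (e1.1 h)
  · intro h
    split_ifs at h with h1 h2
    · exact Or.inl ⟨by omega, fun h' => h (e0.2 h')⟩
    · exact Or.inr ⟨by omega, fun h' => h (e1.2 h')⟩
    · exact absurd rfl h

theorem N_vals (hT : CT K T) (D : Dual K T) {ρ : I → ℕ} (hρ : Function.Injective ρ)
    (hρ' : ∀ i j, i ≠ j → ¬ Z0 (T i) (T j) → ρ i < ρ j) {i j : I} (h : ρ i < ρ j) :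
    (∀ n, ¬ (SO hT D i).N (SO hT D j) n) ∧
    (0 < bmat 𝒮 T i j → (SO hT D j).N (SO hT D i) 1) ∧
    (bmat 𝒮 T i j < 0 → (SO hT D j).N (SO hT D i) 2) ∧
    (bmat 𝒮 T i j = 0 → ∀ n, ¬ (SO hT D j).N (SO hT D i) n) := by
  have hij : i ≠ j := by rintro rfl; exact lt_irrefl _ h
  have hz := D.order hT hρ hρ' h
  have hz' := h_zero_of_Z D hz
  obtain ⟨hb, hb'⟩ := bmat_eq 𝒮 hT D hρ hρ' h
  refine ⟨fun n hn => ?_, fun h1 => ?_, fun h1 => ?_, fun h1 n hn => ?_⟩
  · rw [N_iff] at hn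
    exact hn (hz' n)
  · rw [N_iff]; omega
  · rw [N_iff]; omega
  · rw [N_iff] at hn
    by_cases n1 : n = 1
    · subst n1; omega
    · by_cases n2 : n = 2
      · subst n2; omega
      · exact hn (D.h_zero hT hij n1 n2)

open Classical in
theorem winding_T (hT : CT K T) (D : Dual K T) {ρ : I → ℕ} (hρ : Function.Injective ρ)
    (hρ' : ∀ i j, i ≠ j → ¬ Z0 (T i) (T j) → ρ i < ρ j) (m : ℕ) (v : ℕ → I) (hm : 3 ≤ m)
    (hv : ∀ j < m, ∀ k < m, v j = v k → j = k)
    (ha : ∀ k < m, bmat 𝒮 T (v k) (v (nx m k)) ≠ 0)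
    (hn : ∀ j < m, ∀ k < m, j ≠ k → nx m j ≠ k → nx m k ≠ j → ¬ bmat 𝒮 T (v j) (v k) ≠ 0) :
    ∑ k ∈ Finset.range m, gam ρ (bmat 𝒮 T) (v k) (v (nx m k)) =
      if ∀ k < m, 0 < bmat 𝒮 T (v k) (v (nx m k)) then -1
      else if ∀ k < m, ¬ 0 < bmat 𝒮 T (v k) (v (nx m k)) then 1 else 0 := by
  have hlt : ∀ k < m, nx m k < m := fun k hk => by unfold nx; split_ifs <;> omega
  have hneq : ∀ i j, i ≠ j → ρ i < ρ j ∨ ρ j < ρ i := fun i j hij =>
    lt_or_gt_of_ne fun h => hij (hρ h)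
  have hcyc : Cyc (excSys K H) m (fun k => SO hT D (v k)) (fun k => -(ρ (v k) : ℤ))
      (fun k => gam ρ (bmat 𝒮 T) (v k) (v (nx m k))) := by
    refine ⟨hm, ?_, ?_, ?_, ?_⟩
    · intro j hj k hk hjk
      apply hv j hj k hk
      apply hρ
      simp only [neg_inj] at hjk
      exact_mod_cast hjk
    · intro j hj k hk hjk n
      have h1 : ρ (v k) < ρ (v j) := by
        simp only [neg_lt_neg_iff] at hjk
        exact_mod_cast hjk
      exact (N_vals 𝒮 hT D hρ hρ' h1).1 n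
    · intro k hk
      have hb := ha k hk
      have hne : v k ≠ v (nx m k) := by
        intro h
        have := hv k hk _ (hlt k hk) h
        unfold nx at this
        split_ifs at this <;> omega
      rcases hneq _ _ hne with h1 | h1
      · -- descent
        refine Or.inr ⟨by simp only [neg_lt_neg_iff]; exact_mod_cast h1, ?_⟩
        obtain ⟨-, h2, h3, -⟩ := N_vals 𝒮 hT D hρ hρ' h1
        simp only [gam]
        rw [if_neg hb, if_pos h1]
        split_ifs with h4
        · exact h2 h4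
        · exact h3 (by omega)
      · refine Or.inl ⟨by simp only [neg_lt_neg_iff]; exact_mod_cast h1, ?_⟩
        obtain ⟨-, h2, h3, -⟩ := N_vals 𝒮 hT D hρ hρ' h1
        rw [bmat_antisymm] at h2 h3
        simp only [gam]
        rw [if_neg hb, if_neg h1.not_gt]
        split_ifs with h4
        · exact h3 (by omega)
        · exact h2 (by omega)
    · intro j hj k hk h1 h2 h3 n
      have hb := hn j hj k hk h1 h2 h3
      rw [not_not] at hb
      have hne : v j ≠ v k := fun h => h1 (hv j hj k hk h)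
      rcases hneq _ _ hne with h4 | h4
      · exact (N_vals 𝒮 hT D hρ hρ' h4).1 n
      · refine (N_vals 𝒮 hT D hρ hρ' h4).2.2.2 ?_ n
        rw [bmat_antisymm, hb, neg_zero]
  refine (hcyc.winding (fun k => 0 < bmat 𝒮 T (v k) (v (nx m k))) ?_ ?_).trans ?_
  · intro k hk h1
    have h2 : ρ (v k) < ρ (v (nx m k)) := by
      simp only [neg_lt_neg_iff] at h1
      exact_mod_cast h1
    simp only [gam]
    rw [if_neg (ha k hk), if_pos h2]
    split_ifs <;> rfl
  · intro k hk h1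
    have h2 : ρ (v (nx m k)) < ρ (v k) := by
      simp only [neg_lt_neg_iff] at h1
      exact_mod_cast h1
    simp only [gam]
    rw [if_neg (ha k hk), if_neg h2.not_gt]
    split_ifs <;> rfl
  · split_ifs <;> rfl

end one

theorem sum_fibers {Q : Type*} (p : Q → ℕ) (B : ℕ) (hB : ∀ q, p q ≤ B) (d : ℕ)
    (hfin : {q | d ∣ p q}.Finite) : Set.ncard {q | d ∣ p q} =
      ∑ l ∈ (Finset.range (B + 1)).filter (fun l => d ∣ l), Set.ncard {q | p q = l} := by
  classical
  rw [Set.ncard_eq_toFinset_card _ hfin]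
  rw [Finset.card_eq_sum_card_fiberwise (f := p)
    (t := (Finset.range (B + 1)).filter (fun l => d ∣ l))]
  · refine Finset.sum_congr rfl fun l hl => ?_
    have hl' := (Finset.mem_filter.1 hl).2
    have : ({q | p q = l} : Set Q) = ↑(hfin.toFinset.filter (fun q => p q = l)) := by
      ext q
      simp only [Set.mem_ofPred_eq, Finset.coe_filter, Set.Finite.mem_toFinset]
      constructor
      · rintro rfl; exact ⟨hl', rfl⟩
      · rintro ⟨-, h⟩; exact h
    rw [this, Set.ncard_coe_finset]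
  · intro q hq
    have hq' : d ∣ p q := by simpa using hq
    have := hB q
    simp only [Finset.coe_filter, Finset.mem_range, Set.mem_ofPred_eq]
    exact ⟨by omega, hq'⟩

/-- Numbers of tubes of each rank from the numbers of tubes whose rank is divisible by `d`. -/
theorem count_periods {Q Q' : Type*} (p : Q → ℕ) (p' : Q' → ℕ) (B : ℕ) (hB : ∀ q, p q ≤ B)
    (hB' : ∀ q, p' q ≤ B) (h0 : ∀ q, 0 < p q) (h0' : ∀ q, 0 < p' q)
    (hfin : ∀ d, 2 ≤ d → {q | d ∣ p q}.Finite)
    (h : ∀ d, 2 ≤ d → Set.encard {q | d ∣ p q} = Set.encard {q | d ∣ p' q}) (n : ℕ)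
    (hn : 2 ≤ n) : Set.encard {q | p q = n} = Set.encard {q | p' q = n} := by
  classical
  have hfin' : ∀ d, 2 ≤ d → {q | d ∣ p' q}.Finite := by
    intro d hd
    rw [← Set.encard_lt_top_iff, ← h d hd, Set.encard_lt_top_iff]
    exact hfin d hd
  have f1 : ∀ l, 2 ≤ l → {q | p q = l}.Finite := fun l hl =>
    (hfin l hl).subset (by rintro q rfl; exact dvd_rfl)
  have f1' : ∀ l, 2 ≤ l → {q | p' q = l}.Finite := fun l hl =>
    (hfin' l hl).subset (by rintro q rfl; exact dvd_rfl)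
  have z : {q | p q = 0} = ∅ := by
    ext q; simpa using (h0 q).ne'
  have z' : {q | p' q = 0} = ∅ := by
    ext q; simpa using (h0' q).ne'
  have key : ∀ r l, 2 ≤ l → B < l + r → Set.ncard {q | p q = l} = Set.ncard {q | p' q = l} := by
    intro r
    induction r with
    | zero =>
      intro l hl hBl
      have e1 : {q | p q = l} = ∅ := by
        ext q
        have := hB q
        simp only [Set.mem_ofPred_eq, Set.mem_empty_iff_false, iff_false]
        omega
      have e2 : {q | p' q = l} = ∅ := by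
        ext q
        have := hB' q
        simp only [Set.mem_ofPred_eq, Set.mem_empty_iff_false, iff_false]
        omega
      rw [e1, e2, Set.ncard_empty, Set.ncard_empty]
    | succ r ih =>
      intro l hl hBl
      by_cases hlB : B < l
      · exact ih l hl (by omega)
      have e := h l hl
      rw [← (hfin l hl).cast_ncard_eq, ← (hfin' l hl).cast_ncard_eq] at e
      have e' : Set.ncard {q | l ∣ p q} = Set.ncard {q | l ∣ p' q} := by exact_mod_cast e
      rw [sum_fibers p B hB l (hfin l hl), sum_fibers p' B hB' l (hfin' l hl)] at e'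
      have hmem : l ∈ (Finset.range (B + 1)).filter (fun a => l ∣ a) :=
        Finset.mem_filter.2 ⟨Finset.mem_range.2 (by omega), dvd_rfl⟩
      rw [← Finset.add_sum_erase _ _ hmem, ← Finset.add_sum_erase _ _ hmem] at e'
      have e3 : ∑ x ∈ ((Finset.range (B + 1)).filter (fun a => l ∣ a)).erase l,
          Set.ncard {q | p q = x} =
          ∑ x ∈ ((Finset.range (B + 1)).filter (fun a => l ∣ a)).erase l,
          Set.ncard {q | p' q = x} := by
        refine Finset.sum_congr rfl fun x hx => ?_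
        obtain ⟨hx1, hx2⟩ := Finset.mem_erase.1 hx
        obtain ⟨hx3, hx4⟩ := Finset.mem_filter.1 hx2
        rcases Nat.eq_zero_or_pos x with rfl | hx5
        · rw [z, z', Set.ncard_empty, Set.ncard_empty]
        · have := Nat.le_of_dvd hx5 hx4
          exact ih x (by omega) (by omega)
      omega
  have := key (B + 1) n hn (by omega)
  rw [← (f1 n hn).cast_ncard_eq, ← (f1' n hn).cast_ncard_eq, this]

theorem nul_T {K : Type t} [Field K] [IsAlgClosed K] {H : Type u} [Category.{v} H] [Abelian H]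
    [Linear K H] [HasExt.{w} H] [Her K H] {I : Type x} [Fintype I] [DecidableEq I]
    (𝒮 : Serre K H) {T : I → H} {K' : Type t'} [Field K'] [IsAlgClosed K'] {H' : Type u'}
    [Category.{v'} H'] [Abelian H'] [Linear K' H'] [HasExt.{w'} H'] [Her K' H'] {I' : Type x'}
    [Fintype I'] [DecidableEq I'] (𝒮' : Serre K' H') {T' : I' → H'} (hT : CT K T)
    (hT' : CT K' T') (σ : I ≃ I') (hσ : ∀ i j, 𝒮.arrows T i j = 𝒮'.arrows T' (σ i) (σ j)) {x : ℂ}
    (hx : x ≠ 0) : nul (Mx (Gmat K T).transpose x) = nul (Mx (Gmat K' T').transpose x) := by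
  obtain ⟨D⟩ := hT.nonempty_dual
  obtain ⟨D'⟩ := hT'.nonempty_dual
  obtain ⟨ρ, hρ, hρ'⟩ := hT.order
  obtain ⟨τ, hτ, hτ'⟩ := hT'.order
  rw [nul_G (G_mul_U hT D), nul_G (G_mul_U hT' D'), ← nul_reindex σ (Umat D')]
  have hb : ∀ i j, bmat 𝒮' T' (σ i) (σ j) = bmat 𝒮 T i j := by
    intro i j
    unfold bmat
    rw [hσ, hσ]
  obtain ⟨u1, u2, u3⟩ := Umat_eq 𝒮 hT D hρ hρ'
  obtain ⟨v1, v2, v3⟩ := Umat_eq 𝒮' hT' D' hτ hτ'
  have hτσ : Function.Injective (fun i => τ (σ i)) := fun i j h => σ.injective (hτ h)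
  have hg : ∀ i j, gam τ (bmat 𝒮' T') (σ i) (σ j) = gam (fun i => τ (σ i)) (bmat 𝒮 T) i j := by
    intro i j
    unfold gam
    rw [hb]
  obtain ⟨φ, hφ⟩ := potential (fun i j => bmat 𝒮 T i j ≠ 0)
    (fun i j h => by rw [bmat_antisymm]; simpa using h)
    (fun i => by unfold bmat; simp)
    (fun i j => gam ρ (bmat 𝒮 T) i j - gam (fun i => τ (σ i)) (bmat 𝒮 T) i j)
    (fun i j => by
      rw [gam_antisymm hρ (bmat_antisymm 𝒮 T), gam_antisymm hτσ (bmat_antisymm 𝒮 T)]
      ring)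
    (fun m w hm hw ha hn => by
      rw [Finset.sum_sub_distrib, winding_T 𝒮 hT D hρ hρ' m w hm hw ha hn]
      have h1 := winding_T 𝒮' hT' D' hτ hτ' m (fun k => σ (w k)) hm
        (fun j hj k hk h => hw j hj k hk (σ.injective h))
        (fun k hk => by rw [hb]; exact ha k hk)
        (fun j hj k hk h1 h2 h3 => by rw [hb]; exact hn j hj k hk h1 h2 h3)
      simp only [hg, hb] at h1
      rw [h1, sub_self])
  exact nul_conj hρ hτσ (bmat_antisymm 𝒮 T) u1 u2 u3 (fun i => v1 (σ i))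
    (fun i j h => by rw [Matrix.of_apply, v2 _ _ h, hb])
    (fun i j h => by rw [Matrix.of_apply, v3 _ _ h]) hφ hx

section tubes

variable {K : Type t} [Field K] [IsAlgClosed K] {H : Type u} [Category.{v} H] [Abelian H]
  [Linear K H] [HasExt.{w} H] [Her K H] {I : Type x} [Fintype I] [DecidableEq I]
  (𝒮 : Serre K H)

/-- Rank of a tube. -/
noncomputable def tubeRank (q : 𝒮.Tube) : ℕ := 𝒮.period (Quotient.out q).1

theorem tubeRank_mk (k : K0Data K H I) (S : {S : H // Simple S}) :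
    tubeRank 𝒮 (Quotient.mk 𝒮.tubeSetoid S) = 𝒮.period S.1 := by
  unfold tubeRank
  have h : 𝒮.SameTube (Quotient.out (Quotient.mk 𝒮.tubeSetoid S)).1 S.1 :=
    Quotient.exact (s := 𝒮.tubeSetoid) (Quotient.out_eq (Quotient.mk 𝒮.tubeSetoid S))
  exact 𝒮.period_sameTube k (Quotient.out (Quotient.mk 𝒮.tubeSetoid S)).2 S.2 h

theorem tube_set (k : K0Data K H I) (P : ℕ → Prop) :
    {q : 𝒮.Tube | ∃ S : {S : H // Simple S}, Quotient.mk 𝒮.tubeSetoid S = q ∧ P (𝒮.period S.1)} =
      {q : 𝒮.Tube | P (tubeRank 𝒮 q)} := by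
  ext q
  simp only [Set.mem_ofPred_eq]
  constructor
  · rintro ⟨S, rfl, h⟩
    rw [tubeRank_mk 𝒮 k]; exact h
  · intro h
    exact ⟨Quotient.out q, Quotient.out_eq q, h⟩

end tubes

/-- The ungraded quiver of a cluster-tilting object determines the ranks of the tubes. -/
theorem main {K : Type t} [Field K] [IsAlgClosed K] {H : Type u} [Category.{v} H] [Abelian H]
    [Linear K H] [HasExt.{w} H] [Her K H] {I : Type x} [Finite I] (𝒮 : Serre K H)
    (hH : HasTilt H) {T : I → H} (hT : 𝒮.IsClusterTilting T) {K' : Type t'} [Field K']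
    [IsAlgClosed K'] {H' : Type u'} [Category.{v'} H'] [Abelian H'] [Linear K' H']
    [HasExt.{w'} H'] [Her K' H'] {I' : Type x'} [Finite I'] (𝒮' : Serre K' H')
    (hH' : HasTilt H') {T' : I' → H'} (hT' : 𝒮'.IsClusterTilting T') (σ : I ≃ I')
    (hσ : ∀ i j, 𝒮.arrows T i j = 𝒮'.arrows T' (σ i) (σ j)) (p : ℕ) (hp : 2 ≤ p) :
    𝒮.numTubes p = 𝒮'.numTubes p := by
  classical
  have := Fintype.ofFinite I
  have := Fintype.ofFinite I'
  have cT := ct_of_clusterTilting 𝒮 hH hT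
  have cT' := ct_of_clusterTilting 𝒮' hH' hT'
  obtain ⟨D⟩ := cT.nonempty_dual
  obtain ⟨D'⟩ := cT'.nonempty_dual
  obtain ⟨k, hk⟩ := exists_K0Data cT D
  obtain ⟨k', hk'⟩ := exists_K0Data cT' D'
  have key : ∀ d, 2 ≤ d → Set.encard {q : 𝒮.Tube | d ∣ tubeRank 𝒮 q} =
      Set.encard {q : 𝒮'.Tube | d ∣ tubeRank 𝒮' q} ∧
      Set.encard {q : 𝒮.Tube | d ∣ tubeRank 𝒮 q} ≠ ⊤ := by
    intro d hd
    have hprim := Complex.isPrimitiveRoot_exp d (by omega)
    set ζ := Complex.exp (2 * Real.pi * Complex.I / d) with hζ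
    have h1 : ζ ≠ 1 := hprim.ne_one (by omega)
    have e1 := eig_dim 𝒮 k h1 (by omega : 0 < d) hprim.pow_eq_one
    have e2 := eig_dim 𝒮' k' h1 (by omega : 0 < d) hprim.pow_eq_one
    rw [tube_set 𝒮 k (fun n => ζ ^ n = 1)] at e1
    rw [tube_set 𝒮' k' (fun n => ζ ^ n = 1)] at e2
    simp only [hprim.pow_eq_one_iff_dvd] at e1 e2
    rw [hk] at e1
    rw [hk'] at e2
    have e3 := nul_T 𝒮 𝒮' cT cT' σ hσ (x := ζ) (hprim.ne_zero (by omega))
    rw [← e1, ← e2, e3]
    exact ⟨rfl, ENat.natCast_ne_top _⟩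
  unfold Serre.numTubes
  rw [tube_set 𝒮 k (fun n => n = p), tube_set 𝒮' k' (fun n => n = p)]
  have hs : ∀ q : 𝒮.Tube, 0 < tubeRank 𝒮 q ∧ tubeRank 𝒮 q ≤ Fintype.card I + 1 := fun q =>
    ⟨(𝒮.period_spec k (Quotient.out q).2).1, (𝒮.period_spec k (Quotient.out q).2).2.1⟩
  have hs' : ∀ q : 𝒮'.Tube, 0 < tubeRank 𝒮' q ∧ tubeRank 𝒮' q ≤ Fintype.card I' + 1 := fun q =>
    ⟨(𝒮'.period_spec k' (Quotient.out q).2).1, (𝒮'.period_spec k' (Quotient.out q).2).2.1⟩
  exact count_periods (tubeRank 𝒮) (tubeRank 𝒮') (Fintype.card I + 1 + (Fintype.card I' + 1))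
    (fun q => by have := (hs q).2; omega) (fun q => by have := (hs' q).2; omega)
    (fun q => (hs q).1) (fun q => (hs' q).1)
    (fun d hd => Set.encard_ne_top_iff.1 (key d hd).2) (fun d hd => (key d hd).1) p hp

end Pool.Agent.WQ
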