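import Pool.Agent.WQ.CluQ

/-!
# WQ: arrows of degree zero and one (module G5, for MP_629323_al)

`crad_eq`, `crad2_eq` (`CluQ.lean`): `crad = R0 × ⊤`, `crad2 = R0sq × M1`.  So the comaps along `inl`, `inr` are
`R0`, `R0sq`, resp. `⊤`, `M1`.  `arr0_eq`: `a0_eq`.  `arr_add`: dimensions as in the proof of `arrows_eq`.
`arr0_self`: `R0 T i i = 0`.
-/

set_option autoImplicit false

open CategoryTheory CategoryTheory.Limits CategoryTheory.Abelian

namespace Pool.Agent.WQ

attribute [local instance] Abelian.hasFiniteBiproducts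

universe t v u w x

variable {K : Type t} [Field K] {H : Type u} [Category.{v} H] [Abelian H] [Linear K H]
  [HasExt.{w} H] [Her K H] {I : Type x} [Fintype I] (𝒮 : Serre K H) {T : I → H}

omit [Her K H] [Fintype I] in
/-- Number of arrows `i → j` of degree zero. -/
noncomputable def arr0 (𝒮 : Serre K H) (T : I → H) (i j : I) : ℕ :=
  Module.finrank K (((𝒮.crad T i j).comap (LinearMap.inl K _ _) : Submodule K (T i ⟶ T j)) ⧸
    ((𝒮.crad2 T i j).comap (LinearMap.inl K _ _)).submoduleOf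
      ((𝒮.crad T i j).comap (LinearMap.inl K _ _)))

omit [Her K H] [Fintype I] in
/-- Number of arrows `i → j` of degree one. -/
noncomputable def arr1 (𝒮 : Serre K H) (T : I → H) (i j : I) : ℕ :=
  Module.finrank K (((𝒮.crad T i j).comap (LinearMap.inr K _ _) :
      Submodule K (Ext (T i) (𝒮.τ.inverse.obj (T j)) 1)) ⧸
    ((𝒮.crad2 T i j).comap (LinearMap.inr K _ _)).submoduleOf
      ((𝒮.crad T i j).comap (LinearMap.inr K _ _)))

namespace Grad

omit [Her K H] [Fintype I] in
theorem finrank_quot {V : Type*} [AddCommGroup V] [Module K V] [Module.Finite K V]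
    {A B : Submodule K V} (h : B ≤ A) :
    (Module.finrank K (A ⧸ B.submoduleOf A) : ℤ) = Module.finrank K A - Module.finrank K B := by
  have e2 := Submodule.finrank_quotient_add_finrank (B.submoduleOf A)
  rw [(Submodule.submoduleOfEquivOfLe h).finrank_eq] at e2
  omega

omit [Her K H] [Fintype I] in
theorem comap_inl {V W : Type*} [AddCommGroup V] [Module K V] [AddCommGroup W] [Module K W]
    (A : Submodule K V) (B : Submodule K W) : (A.prod B).comap (LinearMap.inl K V W) = A := by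
  ext x
  simp

omit [Her K H] [Fintype I] in
theorem comap_inr {V W : Type*} [AddCommGroup V] [Module K V] [AddCommGroup W] [Module K W]
    (A : Submodule K V) (B : Submodule K W) : (A.prod B).comap (LinearMap.inr K V W) = B := by
  ext x
  simp

end Grad

theorem arr0_fin (hT : CT K T) (i j : I) : (arr0 𝒮 T i j : ℤ) =
    (Module.finrank K (R0 K T i j) : ℤ) - Module.finrank K (R0sq K T i j) := by
  unfold arr0
  rw [crad_eq 𝒮 hT, crad2_eq 𝒮 hT, Grad.comap_inl, Grad.comap_inl]
  exact Grad.finrank_quot (R0sq_le hT i j)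

theorem arr1_fin (hT : CT K T) (i j : I) : (arr1 𝒮 T i j : ℤ) =
    (h1 K (T i) (𝒮.si (T j)) : ℤ) - Module.finrank K (M1 𝒮 T i j) := by
  unfold arr1
  rw [crad_eq 𝒮 hT, crad2_eq 𝒮 hT, Grad.comap_inr, Grad.comap_inr, Grad.finrank_quot le_top,
    finrank_top]
  rfl

theorem arr0_eq (hT : CT K T) (D : Dual K T) {i j : I} (hij : i ≠ j) :
    arr0 𝒮 T i j = D.h 1 j i := by
  have h := arr0_fin 𝒮 hT i j
  rw [a0_eq hT D hij] at h
  exact_mod_cast h

theorem arr0_self (hT : CT K T) (i : I) : arr0 𝒮 T i i = 0 := by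
  have h := arr0_fin 𝒮 hT i i
  have h1 : R0 K T i i = ⊥ := by
    rw [eq_bot_iff]
    intro x hx
    exact hx rfl
  rw [h1, finrank_bot] at h
  omega

theorem arr_add (hT : CT K T) (i j : I) : 𝒮.arrows T i j = arr0 𝒮 T i j + arr1 𝒮 T i j := by
  have e0 := arr0_fin 𝒮 hT i j
  have e1 := arr1_fin 𝒮 hT i j
  have hle : 𝒮.crad2 T i j ≤ 𝒮.crad T i j := by
    rw [crad_eq 𝒮 hT, crad2_eq 𝒮 hT]
    rintro ⟨x, y⟩ ⟨hx, hy⟩
    exact ⟨R0sq_le hT i j hx, Submodule.mem_top⟩
  have e2 := Submodule.finrank_quotient_add_finrank ((𝒮.crad2 T i j).submoduleOf (𝒮.crad T i j))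
  rw [(Submodule.submoduleOfEquivOfLe hle).finrank_eq] at e2
  have e3 : Module.finrank K (𝒮.crad T i j) = Module.finrank K (R0 K T i j) +
      h1 K (T i) (𝒮.si (T j)) := by
    rw [crad_eq 𝒮 hT, (CluQ.prodE _ _).finrank_eq, Module.finrank_prod, finrank_top]
    rfl
  have e4 : Module.finrank K (𝒮.crad2 T i j) = Module.finrank K (R0sq K T i j) +
      Module.finrank K (M1 𝒮 T i j) := by
    rw [crad2_eq 𝒮 hT, (CluQ.prodE _ _).finrank_eq, Module.finrank_prod]
  have e5 : 𝒮.arrows T i j = Module.finrank K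
      (𝒮.crad T i j ⧸ (𝒮.crad2 T i j).submoduleOf (𝒮.crad T i j)) := rfl
  omega

end Pool.Agent.WQ
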