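import Mathlib

/-!
# WQ: linear algebra (module 16)

`b` antisymmetric (`b i j` = arrows `i → j` minus arrows `j → i`), `ρ` a total order, `U` unitriangular with
`U i j = - b i j` for `ρ i < ρ j`.  `M(x) = x U + Uᵗ` has the entries
`M i j = (-x)^([0 < b i j] + gam ρ b i j) b i j` for `i ≠ j`, `x + 1` on the diagonal.  If
`gam ρ b i j - gam ρ' b i j = φ j - φ i` whenever `b i j ≠ 0`, then `M' = D M D⁻¹`, `D = diag((-x)^(φ i))`, for `x ≠ 0`.
`ker_G`: `G U = 1` gives `G (x U + Uᵗ) Gᵗ = x Gᵗ + G`.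
-/

set_option autoImplicit false

namespace Pool.Agent.WQ

/-- Contribution of the step `i → j` to the winding number. -/
def gam {I : Type*} (ρ : I → ℕ) (b : I → I → ℤ) (i j : I) : ℤ :=
  if b i j = 0 then 0
  else if ρ i < ρ j then (if 0 < b i j then 0 else 1) else (if 0 < b i j then -1 else 0)

theorem gam_antisymm {I : Type*} {ρ : I → ℕ} (hρ : Function.Injective ρ) {b : I → I → ℤ}
    (hb : ∀ i j, b j i = - b i j) (i j : I) : gam ρ b j i = - gam ρ b i j := by
  unfold gam
  have h := hb i j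
  by_cases h0 : b i j = 0
  · have h0' : b j i = 0 := by rw [h, h0, neg_zero]
    rw [if_pos h0, if_pos h0', neg_zero]
  · have h0' : b j i ≠ 0 := by rw [h]; exact neg_ne_zero.2 h0
    rw [if_neg h0, if_neg h0']
    have hne : ρ i ≠ ρ j := by
      intro he
      have hij := hρ he
      subst hij
      omega
    split_ifs <;> omega

variable {I : Type*} [Fintype I] [DecidableEq I]

/-- `x U + Uᵗ` over the complex numbers. -/
noncomputable def Mx (U : Matrix I I ℤ) (x : ℂ) : Matrix I I ℂ :=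
  x • U.map (Int.cast : ℤ → ℂ) + U.transpose.map (Int.cast : ℤ → ℂ)

/-- Dimension of the kernel. -/
noncomputable def nul (M : Matrix I I ℂ) : ℕ := Module.finrank ℂ (LinearMap.ker M.mulVecLin)

omit [Fintype I] [DecidableEq I] in
lemma Gram.Mx_apply (U : Matrix I I ℤ) (x : ℂ) (i j : I) :
    Mx U x i j = x * (U i j : ℂ) + (U j i : ℂ) := by
  simp [Mx]

omit [DecidableEq I] in
lemma Gram.rank_add_nul (M : Matrix I I ℂ) : M.rank + nul M = Fintype.card I := by
  have h := LinearMap.finrank_range_add_finrank_ker M.mulVecLin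
  rw [Module.finrank_fintype_fun_eq_card] at h
  exact h

omit [DecidableEq I] in
lemma Gram.nul_congr {J : Type*} [Fintype J] {M : Matrix I I ℂ} {N : Matrix J J ℂ}
    (hc : Fintype.card I = Fintype.card J) (h : M.rank = N.rank) : nul M = nul N := by
  have h1 := Gram.rank_add_nul M
  have h2 := Gram.rank_add_nul N
  omega

omit [Fintype I] [DecidableEq I] in
lemma Gram.Mx_entry {b : I → I → ℤ} {ρ : I → ℕ} (hρ : Function.Injective ρ)
    (hb : ∀ i j, b j i = - b i j) {U : Matrix I I ℤ}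
    (h2 : ∀ i j, ρ i < ρ j → U i j = - b i j)
    (h3 : ∀ i j, ρ j < ρ i → U i j = 0) {x : ℂ} {i j : I} (hij : i ≠ j) :
    Mx U x i j = (-x) ^ ((if 0 < b i j then 1 else 0) + gam ρ b i j : ℤ) * (b i j : ℂ) := by
  rw [Gram.Mx_apply]
  unfold gam
  by_cases h0 : b i j = 0
  · have hbj := hb i j
    rcases lt_trichotomy (ρ i) (ρ j) with h | h | h
    · rw [h2 i j h, h3 j i h, h0]; simp
    · exact absurd (hρ h) hij
    · rw [h3 i j h, h2 j i h, hbj, h0]; simp
  · rw [if_neg h0]
    rcases lt_trichotomy (ρ i) (ρ j) with h | h | h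
    · rw [if_pos h, h2 i j h, h3 j i h]
      by_cases h4 : 0 < b i j
      · rw [if_pos h4, if_pos h4, add_zero, zpow_one]; push_cast; ring
      · rw [if_neg h4, if_neg h4, zero_add, zpow_one]; push_cast; ring
    · exact absurd (hρ h) hij
    · rw [if_neg (not_lt.2 h.le), h3 i j h, h2 j i h, hb i j]
      by_cases h4 : 0 < b i j
      · rw [if_pos h4, if_pos h4, show (1 : ℤ) + -1 = 0 by norm_num, zpow_zero]
        push_cast; ring
      · rw [if_neg h4, if_neg h4, add_zero, zpow_zero]; push_cast; ring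

theorem nul_conj {b : I → I → ℤ} {ρ ρ' : I → ℕ} (hρ : Function.Injective ρ)
    (hρ' : Function.Injective ρ') (hb : ∀ i j, b j i = - b i j) {U U' : Matrix I I ℤ}
    (h1 : ∀ i, U i i = 1) (h2 : ∀ i j, ρ i < ρ j → U i j = - b i j)
    (h3 : ∀ i j, ρ j < ρ i → U i j = 0) (h1' : ∀ i, U' i i = 1)
    (h2' : ∀ i j, ρ' i < ρ' j → U' i j = - b i j) (h3' : ∀ i j, ρ' j < ρ' i → U' i j = 0)
    {φ : I → ℤ} (hφ : ∀ i j, b i j ≠ 0 → gam ρ b i j - gam ρ' b i j = φ j - φ i) {x : ℂ}
    (hx : x ≠ 0) : nul (Mx U x) = nul (Mx U' x) := by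
  have hx' : (-x) ≠ 0 := neg_ne_zero.2 hx
  set d : I → ℂ := fun i => (-x) ^ (φ i) with hd
  set d' : I → ℂ := fun i => (-x) ^ (-φ i) with hd'
  have hd0 : ∀ i, d i ≠ 0 := fun i => zpow_ne_zero _ hx'
  have hd0' : ∀ i, d' i ≠ 0 := fun i => zpow_ne_zero _ hx'
  have key : Mx U x = Matrix.diagonal d' * Mx U' x * Matrix.diagonal d := by
    ext i j
    rw [Matrix.mul_diagonal, Matrix.diagonal_mul]
    by_cases hij : i = j
    · subst hij
      rw [Gram.Mx_apply, Gram.Mx_apply, h1, h1', hd, hd']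
      have : (-x) ^ (-φ i) * (-x) ^ (φ i) = 1 := by
        rw [← zpow_add₀ hx', neg_add_cancel, zpow_zero]
      push_cast
      linear_combination -(x + 1) * this
    · rw [Gram.Mx_entry hρ hb h2 h3 hij, Gram.Mx_entry hρ' hb h2' h3' hij]
      by_cases h0 : b i j = 0
      · rw [h0]; simp
      · have h4 : gam ρ b i j = gam ρ' b i j + (φ j + -φ i) := by
          have := hφ i j h0
          omega
        have h5 : (-x) ^ (φ j + -φ i) = d j * d' i := zpow_add₀ hx' _ _
        rw [h4, ← add_assoc, zpow_add₀ hx' _ (φ j + -φ i), h5]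
        ring
  rw [key]
  refine Gram.nul_congr rfl ?_
  rw [Matrix.rank_mul_eq_left_of_isUnit_det, Matrix.rank_mul_eq_right_of_isUnit_det]
  · rw [Matrix.det_diagonal, isUnit_iff_ne_zero]
    exact Finset.prod_ne_zero_iff.2 fun i _ => hd0' i
  · rw [Matrix.det_diagonal, isUnit_iff_ne_zero]
    exact Finset.prod_ne_zero_iff.2 fun i _ => hd0 i

theorem nul_reindex {J : Type*} [Fintype J] [DecidableEq J] (e : I ≃ J) (U : Matrix J J ℤ)
    (x : ℂ) : nul (Mx (Matrix.of fun i j => U (e i) (e j)) x) = nul (Mx U x) := by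
  have h : Mx (Matrix.of fun i j => U (e i) (e j)) x = (Mx U x).submatrix e e := by
    ext i j
    rw [Matrix.submatrix_apply, Gram.Mx_apply, Gram.Mx_apply, Matrix.of_apply, Matrix.of_apply]
  rw [h]
  exact Gram.nul_congr (Fintype.card_congr e) (Matrix.rank_submatrix _ e e)

/-- The kernel of `x Gᵗ + G`. -/
theorem nul_G {G U : Matrix I I ℤ} (h : G * U = 1) (x : ℂ) :
    nul (Mx G.transpose x) = nul (Mx U x) := by
  set Gc : Matrix I I ℂ := G.map (Int.cast : ℤ → ℂ) with hGc
  set Uc : Matrix I I ℂ := U.map (Int.cast : ℤ → ℂ) with hUc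
  have hc : Gc * Uc = 1 := by
    have h1 : (G * U).map (Int.castRingHom ℂ) = (1 : Matrix I I ℤ).map (Int.castRingHom ℂ) := by
      rw [h]
    rw [Matrix.map_mul] at h1
    have h2 : (1 : Matrix I I ℤ).map (Int.castRingHom ℂ) = 1 :=
      Matrix.map_one _ (map_zero _) (map_one _)
    rw [h2] at h1
    exact h1
  have hdet : IsUnit Gc.det := by
    have h1 : Gc.det * Uc.det = 1 := by rw [← Matrix.det_mul, hc, Matrix.det_one]
    exact IsUnit.of_mul_eq_one _ h1
  have key : Mx G.transpose x = Gc * Mx U x * Gc.transpose := by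
    have e1 : Mx U x = x • Uc + Uc.transpose := rfl
    have e2 : Mx G.transpose x = x • Gc.transpose + Gc := rfl
    rw [e1, e2, mul_add, add_mul, Matrix.mul_smul, hc, Matrix.smul_mul, one_mul, mul_assoc,
      ← Matrix.transpose_mul, hc, Matrix.transpose_one, mul_one]
  rw [key]
  refine Gram.nul_congr rfl ?_
  rw [Matrix.rank_mul_eq_left_of_isUnit_det, Matrix.rank_mul_eq_right_of_isUnit_det]
  · exact hdet
  · rwa [Matrix.det_transpose]

end Pool.Agent.WQ
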