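import Pool.Agent.WQ.DualB
import Pool.Agent.WQ.Gram

/-!
# WQ: the Grothendieck group (module 17)

`G_mul_U`: let `c j` be the coefficients of `CT.k0` for `E j`, times `sg j`.  `Dual.chi_T` says `G C = 1`, `C k j = c j k`,
and `U i j = sg i sg j χ(E j, E i) = ∑ₖ c j k χ(T k, E i) sg i = c j i`.
`κ X = U (χ(T i, X))ᵢ`: if `c` are the coefficients of `X` then `(χ(T i, X))ᵢ = G c`, `κ X = c`.
-/

set_option autoImplicit false

open CategoryTheory CategoryTheory.Limits CategoryTheory.Abelian

namespace Pool.Agent.WQ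

attribute [local instance] Abelian.hasFiniteBiproducts

universe t v u w x

section

variable (K : Type t) [Field K] (H : Type u) [Category.{v} H] [Abelian H] [Linear K H]
  [HasExt.{w} H] (I : Type x) [Fintype I]

/-- `κ X` is the class of `X` in the Grothendieck group `ℤ^I`, `G` the Gram matrix of the Euler
form. -/
structure K0Data where
  G : Matrix I I ℤ
  κ : H → I → ℤ
  chi_eq : ∀ X Y, chi K X Y = dotProduct (κ X) (G.mulVec (κ Y))
  add : ∀ S : ShortComplex H, S.ShortExact → κ S.X₂ = κ S.X₁ + κ S.X₃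
  iso : ∀ X Y : H, Nonempty (X ≅ Y) → κ X = κ Y
  span : Submodule.span ℤ (Set.range κ) = ⊤
  nondeg : ∀ c : I → ℤ, G.mulVec c = 0 → c = 0

end

variable {K : Type t} [Field K] {H : Type u} [Category.{v} H] [Abelian H] [Linear K H]
  [HasExt.{w} H] [Her K H] {I : Type x} [Fintype I] [DecidableEq I]

variable (K) in
/-- Gram matrix of the Euler form on the `T i`. -/
noncomputable def Gmat (T : I → H) : Matrix I I ℤ := Matrix.of fun i j => chi K (T i) (T j)

/-- Gram matrix of the dual collection. -/
noncomputable def Umat {T : I → H} (D : Dual K T) : Matrix I I ℤ :=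
  Matrix.of fun i j => D.sg i * D.sg j * chi K (D.E j) (D.E i)

variable {T : I → H}

namespace K0

/-- the values `χ(T i, X)` -/
noncomputable def vec (K : Type t) [Field K] {H : Type u} [Category.{v} H] [Abelian H] [Linear K H]
    [HasExt.{w} H] {I : Type x} (T : I → H) (X : H) : I → ℤ := fun i => chi K (T i) X

theorem coef_eq (D : Dual K T) (j : I) {c : I → ℤ}
    (hc : ∀ W, chi K W (D.E j) = ∑ i, c i * chi K W (T i)) (i : I) :
    ∑ k, Gmat K T i k * (D.sg j * c k) = if i = j then 1 else 0 := by
  have h1 := Dual.chi_T D i j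
  rw [hc (T i), Finset.mul_sum] at h1
  have h2 : ∑ k, Gmat K T i k * (D.sg j * c k) = ∑ k, D.sg j * (c k * chi K (T i) (T k)) := by
    refine Finset.sum_congr rfl fun k _ => ?_
    change chi K (T i) (T k) * (D.sg j * c k) = _
    ring
  rw [h2, h1]
  by_cases h : i = j
  · rw [if_pos h, if_pos h]
  · rw [if_neg h, if_neg h]

end K0

theorem G_mul_U (hT : CT K T) (D : Dual K T) : Gmat K T * Umat D = 1 := by
  choose c hc1 hc2 using fun j => hT.k0 (D.E j)
  have hU : ∀ i j, Umat D i j = D.sg j * c j i := by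
    intro i j
    change D.sg i * D.sg j * chi K (D.E j) (D.E i) = _
    rw [hc1 j (D.E i)]
    have h1 : ∀ k, D.sg i * chi K (T k) (D.E i) = if k = i then 1 else 0 := by
      intro k
      have h2 := Dual.chi_T D k i
      by_cases h : k = i
      · rw [if_pos h]; rw [if_pos h] at h2; exact h2
      · rw [if_neg h]; rw [if_neg h] at h2; exact h2
    have h3 : D.sg i * D.sg j * ∑ k, c j k * chi K (T k) (D.E i) =
        ∑ k, D.sg j * c j k * (D.sg i * chi K (T k) (D.E i)) := by
      rw [Finset.mul_sum]
      refine Finset.sum_congr rfl fun k _ => ?_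
      ring
    rw [h3]
    simp_rw [h1, mul_ite, mul_one, mul_zero]
    rw [Finset.sum_ite_eq' Finset.univ i]
    simp
  ext i j
  rw [Matrix.mul_apply, Matrix.one_apply]
  simp_rw [hU]
  exact K0.coef_eq D j (hc2 j) i

theorem exists_K0Data (hT : CT K T) (D : Dual K T) :
    ∃ k : K0Data K H I, k.G = Gmat K T := by
  have hGU := G_mul_U hT D
  have hUG : Umat D * Gmat K T = 1 := mul_eq_one_comm.1 hGU
  let κ : H → I → ℤ := fun X => (Umat D).mulVec (K0.vec K T X)
  -- the class has the right coefficients
  have hcoef : ∀ (X : H) (c : I → ℤ), (∀ W, chi K W X = ∑ i, c i * chi K W (T i)) → κ X = c := by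
    intro X c hc
    have h1 : K0.vec K T X = (Gmat K T).mulVec c := by
      funext i
      change chi K (T i) X = dotProduct (fun j => chi K (T i) (T j)) c
      rw [hc (T i)]
      unfold dotProduct
      refine Finset.sum_congr rfl fun k _ => ?_
      ring
    change (Umat D).mulVec (K0.vec K T X) = c
    rw [h1, Matrix.mulVec_mulVec, hUG, Matrix.one_mulVec]
  have hvec : ∀ X, (Gmat K T).mulVec (κ X) = K0.vec K T X := by
    intro X
    change (Gmat K T).mulVec ((Umat D).mulVec (K0.vec K T X)) = _
    rw [Matrix.mulVec_mulVec, hGU, Matrix.one_mulVec]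
  have hbasis : ∀ i, κ (T i) = Pi.single i 1 := by
    intro i
    refine hcoef (T i) (Pi.single i 1) fun W => ?_
    rw [Finset.sum_eq_single i]
    · rw [Pi.single_eq_same, one_mul]
    · intro j _ hj
      rw [Pi.single_eq_of_ne hj, zero_mul]
    · intro h
      exact absurd (Finset.mem_univ i) h
  refine ⟨{ G := Gmat K T, κ := κ, chi_eq := ?_, add := ?_, iso := ?_, span := ?_, nondeg := ?_ }, rfl⟩
  · intro X Y
    obtain ⟨c, hc1, hc2⟩ := hT.k0 X
    rw [hvec Y, hcoef X c hc2, hc1 Y]
    rfl
  · intro S hS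
    have h1 : K0.vec K T S.X₂ = K0.vec K T S.X₁ + K0.vec K T S.X₃ := by
      funext i
      exact chi_cov K hS
    change (Umat D).mulVec (K0.vec K T S.X₂) = _
    rw [h1, Matrix.mulVec_add]
  · rintro X Y ⟨e⟩
    have h1 : K0.vec K T X = K0.vec K T Y := by
      funext i
      exact chi_iso K (Iso.refl _) e
    change (Umat D).mulVec (K0.vec K T X) = (Umat D).mulVec (K0.vec K T Y)
    rw [h1]
  · rw [eq_top_iff]
    intro c _
    have h1 : c = ∑ i, c i • (Pi.single i (1 : ℤ) : I → ℤ) := by
      funext j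
      rw [Finset.sum_apply, Finset.sum_eq_single j]
      · simp
      · intro i _ hi
        simp [Pi.single_eq_of_ne (Ne.symm hi)]
      · intro h
        exact absurd (Finset.mem_univ j) h
    rw [h1]
    refine Submodule.sum_mem _ fun i _ => Submodule.smul_mem _ _ (Submodule.subset_span ⟨T i, ?_⟩)
    exact hbasis i
  · intro c hc
    have h1 : (Umat D).mulVec ((Gmat K T).mulVec c) = c := by
      rw [Matrix.mulVec_mulVec, hUG, Matrix.one_mulVec]
    rw [← h1, hc, Matrix.mulVec_zero]

end Pool.Agent.WQ
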