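import Pool.Agent.WQ.K0

/-!
# WQ: the Grothendieck group with the basis `T i` (module G4, for MP_629323_al)

`exists_K0Data'`: same proof as `exists_K0Data` (`K0.lean`), it contains `hbasis`.
`mulVec_G`: `(G (κ X)) i = χ(T i, X)`.
`S_of_skew`: `G U = 1 = U G`.  If `(G + Gᵗ) y = - c G w` then `x = G y`, `r = G w` satisfy
`(U + Uᵗ) x = y + Uᵗ G y = y - Uᵗ Gᵗ y - c Uᵗ G w = - c Uᵗ r`.
`skew_of_S`: conversely for `x` with `(U + Uᵗ) x = 0` the vector `y = U x` has `(G + Gᵗ) y = 0` and `G y = x`.
-/

set_option autoImplicit false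

open CategoryTheory CategoryTheory.Limits CategoryTheory.Abelian

namespace Pool.Agent.WQ

attribute [local instance] Abelian.hasFiniteBiproducts

universe t v u w x

section

variable {K : Type t} [Field K] {H : Type u} [Category.{v} H] [Abelian H] [Linear K H]
  [HasExt.{w} H] [Her K H] {I : Type x} [Fintype I] [DecidableEq I] {T : I → H}

theorem exists_K0Data' (hT : CT K T) (D : Dual K T) :
    ∃ k : K0Data K H I, k.G = Gmat K T ∧ ∀ i, k.κ (T i) = Pi.single i 1 := by
  have hGU := G_mul_U hT D
  have hUG : Umat D * Gmat K T = 1 := mul_eq_one_comm.1 hGU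
  let κ : H → I → ℤ := fun X => (Umat D).mulVec (K0.vec K T X)
  -- the class has the right coefficients
  have hcoef : ∀ (X : H) (c : I → ℤ), (∀ W, chi K W X = ∑ i, c i * chi K W (T i)) → κ X = c := by
    intro X c hc
    have h1 : K0.vec K T X = (Gmat K T).mulVec c := by
      funext i
      change chi K (T i) X = dotProduct (fun j => chi K (T i) (T j)) c
      rw [hc (T i)]
      unfold dotProduct
      refine Finset.sum_congr rfl fun k _ => ?_
      ring
    change (Umat D).mulVec (K0.vec K T X) = c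
    rw [h1, Matrix.mulVec_mulVec, hUG, Matrix.one_mulVec]
  have hvec : ∀ X, (Gmat K T).mulVec (κ X) = K0.vec K T X := by
    intro X
    change (Gmat K T).mulVec ((Umat D).mulVec (K0.vec K T X)) = _
    rw [Matrix.mulVec_mulVec, hGU, Matrix.one_mulVec]
  have hbasis : ∀ i, κ (T i) = Pi.single i 1 := by
    intro i
    refine hcoef (T i) (Pi.single i 1) fun W => ?_
    rw [Finset.sum_eq_single i]
    · rw [Pi.single_eq_same, one_mul]
    · intro j _ hj
      rw [Pi.single_eq_of_ne hj, zero_mul]
    · intro h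
      exact absurd (Finset.mem_univ i) h
  refine ⟨{ G := Gmat K T, κ := κ, chi_eq := ?_, add := ?_, iso := ?_, span := ?_, nondeg := ?_ }, rfl,
    hbasis⟩
  · intro X Y
    obtain ⟨c, hc1, hc2⟩ := hT.k0 X
    rw [hvec Y, hcoef X c hc2, hc1 Y]
    rfl
  · intro S hS
    have h1 : K0.vec K T S.X₂ = K0.vec K T S.X₁ + K0.vec K T S.X₃ := by
      funext i
      exact chi_cov K hS
    change (Umat D).mulVec (K0.vec K T S.X₂) = _
    rw [h1, Matrix.mulVec_add]
  · rintro X Y ⟨e⟩
    have h1 : K0.vec K T X = K0.vec K T Y := by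
      funext i
      exact chi_iso K (Iso.refl _) e
    change (Umat D).mulVec (K0.vec K T X) = (Umat D).mulVec (K0.vec K T Y)
    rw [h1]
  · rw [eq_top_iff]
    intro c _
    have h1 : c = ∑ i, c i • (Pi.single i (1 : ℤ) : I → ℤ) := by
      funext j
      rw [Finset.sum_apply, Finset.sum_eq_single j]
      · simp
      · intro i _ hi
        simp [Pi.single_eq_of_ne (Ne.symm hi)]
      · intro h
        exact absurd (Finset.mem_univ j) h
    rw [h1]
    refine Submodule.sum_mem _ fun i _ => Submodule.smul_mem _ _ (Submodule.subset_span ⟨T i, ?_⟩)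
    exact hbasis i
  · intro c hc
    have h1 : (Umat D).mulVec ((Gmat K T).mulVec c) = c := by
      rw [Matrix.mulVec_mulVec, hUG, Matrix.one_mulVec]
    rw [← h1, hc, Matrix.mulVec_zero]

end

section

variable {I : Type x} [Fintype I] [DecidableEq I] {G U : Matrix I I ℤ}

/-- from the symmetrized Euler form to `U + Uᵗ` -/
theorem S_of_skew (h : G * U = 1) {y w : I → ℤ} {c : ℤ}
    (hy : (G + G.transpose).mulVec y = - c • G.mulVec w) :
    (U + U.transpose).mulVec (G.mulVec y) = - c • U.transpose.mulVec (G.mulVec w) := by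
  have h' : U * G = 1 := mul_eq_one_comm.1 h
  have ht : U.transpose * G.transpose = 1 := by
    rw [← Matrix.transpose_mul, h, Matrix.transpose_one]
  have e1 : U.transpose.mulVec ((G + G.transpose).mulVec y) =
      U.transpose.mulVec (G.mulVec y) + y := by
    rw [Matrix.add_mulVec, Matrix.mulVec_add, Matrix.mulVec_mulVec _ _ G.transpose, ht,
      Matrix.one_mulVec]
  rw [hy, Matrix.mulVec_smul] at e1
  rw [Matrix.add_mulVec, Matrix.mulVec_mulVec _ U G, h', Matrix.one_mulVec, e1]
  abel

theorem skew_of_S (h : G * U = 1) {x : I → ℤ} (hx : (U + U.transpose).mulVec x = 0) :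
    (G + G.transpose).mulVec (U.mulVec x) = 0 ∧ G.mulVec (U.mulVec x) = x := by
  have h' : U * G = 1 := mul_eq_one_comm.1 h
  have ht : G.transpose * U.transpose = 1 := by
    rw [← Matrix.transpose_mul, h', Matrix.transpose_one]
  have e0 : G.mulVec (U.mulVec x) = x := by
    rw [Matrix.mulVec_mulVec, h, Matrix.one_mulVec]
  refine ⟨?_, e0⟩
  have e1 : G.transpose.mulVec ((U + U.transpose).mulVec x) = G.transpose.mulVec (U.mulVec x) + x := by
    rw [Matrix.add_mulVec, Matrix.mulVec_add, Matrix.mulVec_mulVec _ _ U.transpose, ht,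
      Matrix.one_mulVec]
  rw [hx, Matrix.mulVec_zero] at e1
  rw [Matrix.add_mulVec, e0, add_comm]
  exact e1.symm

end

end Pool.Agent.WQ
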