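import Pool.Agent.WQ.Rank

/-!
# WQ: line bundles, the rank function (module G1, for MP_629323_al)

`LBd 𝒮 L`: `L` is an exceptional line bundle: `End L = K`, `Ext¹(L, L) = 0`, no simple subobject, `rk S L = 1`
for all simple `S`.

`rk_nonneg`: `torsion`, `rk_FL`, `Rank.rk_ge`.
`isZero_of_rk`: `X` without simple subobjects and `rk S X = 0` for all simple `S` is zero (`exists_simple_quot`,
`Rank.rk_ge`).
`LBd.mono`: `f : L → X` nonzero, `X` without simple subobjects: kernel `M`, image `J` (`factor`), both without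
simple subobjects, `rk S M + rk S J = 1`, both `≥ 0`.  `Hom(M, τ J) = 0`: the image `J'` of a map has
`rk S J' ≤ rk S M` (kernel) and `rk S J' ≤ rk S (τ J) = rk S J` (cokernel), so `rk S J' = 0` for all `S`.  So
`Ext¹(J, M) = 0` (`Z0_tau`), the sequence `0 → M → L → J → 0` splits (`lift_iff` with `𝟙 J`), the
idempotent `L → J → L` is a scalar (`scalar_of_one`); as `J ≠ 0` it is nonzero, so `L → J` is mono and `M = 0`.
`LBd.gen`: induction on `(rk S₀ X).toNat` (`S₀` a simple object, `exists_simple_quot` for `L`): by `torsion` one may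
assume that `X` has no simple subobject and `X ≠ 0`; take `S` with `rk S X > 0`; `Rank.twists`: `X'` without simple
subobjects, `κ X' = κ X + N w_S`, `χ(L, X') = χ(L, X) + N > 0` (`rk_eq`, `rk S L = 1`); `0 ≠ f : L → X'` is mono,
`κ X' = κ L + κ (X' / L)`, `rk S₀ (X' / L) = rk S₀ X - 1`.
`LBd.rk_const`: `rk S X = n` if `κ X = n κ L + v`, `v ∈ V` (`rk_eq`, `rk_FL`).
`LBd.wcl_eq`: `w_S - w_S'` is orthogonal to everything; `nondeg`.
`LBd.FL_of_rk`: `torsion`; the quotient `B` has `rk S B = 0` for all `S`, so `B = 0`, and `A → X` is an isomorphism.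
-/

set_option autoImplicit false

open CategoryTheory CategoryTheory.Limits CategoryTheory.Abelian

namespace Pool.Agent.WQ

universe t v u w x

variable {K : Type t} [Field K] [IsAlgClosed K] {H : Type u} [Category.{v} H] [Abelian H]
  [Linear K H] [HasExt.{w} H] [Her K H] {I : Type x} [Fintype I] [DecidableEq I]
  (𝒮 : Serre K H) (k : K0Data K H I)

/-- `L` is an exceptional line bundle. -/
structure LBd (𝒮 : Serre K H) (L : H) : Prop where
  one : h0 K L L = 1
  z1 : Z1 L L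
  tf : ∀ S : H, Simple S → Z0 S L
  rk : ∀ S : H, Simple S → 𝒮.rk S L = 1

include k in
theorem rk_nonneg {S : H} (hS : Simple S) (X : H) : 0 ≤ 𝒮.rk S X := by
  obtain ⟨A, B, i, p, w₀, hAB, hA, hB⟩ := torsion K X
  have e := 𝒮.rk_add k (S := S) _ hAB
  change 𝒮.rk S X = 𝒮.rk S A + 𝒮.rk S B at e
  rw [e, 𝒮.rk_FL k hS hA, zero_add]
  exact (Int.natCast_nonneg _).trans (Rank.rk_ge 𝒮 k hB hS)

include k in
theorem isZero_of_rk {X : H} (hX : ∀ S : H, Simple S → Z0 S X)
    (h : ∀ S : H, Simple S → 𝒮.rk S X = 0) : IsZero X := by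
  by_contra hc
  obtain ⟨S, p, hS, hp⟩ := exists_simple_quot K hc
  have h4 := Rank.rk_ge 𝒮 k hX hS
  rw [h S hS] at h4
  have h5 : h0 K X S = 0 := by omega
  have h6 : p = 0 := (h0_eq_zero K).1 h5 p
  have h7 : 𝟙 S = 0 := by
    have := hp
    apply (cancel_epi p).1
    rw [h6, zero_comp, zero_comp]
  exact Simple.not_isZero S ((IsZero.iff_id_eq_zero S).2 h7)

/-- classes of simple objects are orthogonal to `w_S`. -/
theorem LBA_dot {S : H} (hS : Simple S) {v : I → ℤ} (hv : v ∈ Rank.V k) :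
    dotProduct v (k.G.mulVec (𝒮.wcl k S)) = 0 := by
  induction hv using AddSubgroup.closure_induction with
  | mem v hv =>
    obtain ⟨S', hS', rfl⟩ := hv
    rw [← 𝒮.rk_eq]
    exact 𝒮.rk_FL k hS (Rank.FL_simple hS')
  | zero => exact zero_dotProduct _
  | add a b _ _ ha hb => rw [add_dotProduct, ha, hb, add_zero]
  | neg a _ ha => rw [neg_dotProduct, ha, neg_zero]

variable {𝒮}

include k in
theorem LBd.mono {L : H} (hL : LBd 𝒮 L) {X : H} (hX : ∀ S : H, Simple S → Z0 S X) (f : L ⟶ X)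
    (hf : f ≠ 0) : Mono f := by
  obtain ⟨M, J, Q, i, π, ι, q, w₁, w₂, S₁, S₂, hfac⟩ := factor f
  have mi : Mono i := S₁.mono_f
  have mι : Mono ι := S₂.mono_f
  have hJ : ∀ S : H, Simple S → Z0 S J := noSimple_sub ι hX
  have hZ : Z0 M (𝒮.ta J) := by
    intro g
    obtain ⟨M', J', Q', i', π', ι', q', w₁', w₂', S₁', S₂', hfac'⟩ := factor g
    have mι' : Mono ι' := S₂'.mono_f
    have hJ' : ∀ S : H, Simple S → Z0 S J' := noSimple_sub ι' (𝒮.noSimple_ta hJ)
    have h0 : IsZero J' := by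
      refine isZero_of_rk 𝒮 k hJ' fun S hS => ?_
      have e1 := 𝒮.rk_add k (S := S) _ S₁
      have e2 := 𝒮.rk_add k (S := S) _ S₁'
      have e3 := 𝒮.rk_add k (S := S) _ S₂'
      change 𝒮.rk S L = 𝒮.rk S M + 𝒮.rk S J at e1
      change 𝒮.rk S M = 𝒮.rk S M' + 𝒮.rk S J' at e2
      change 𝒮.rk S (𝒮.ta J) = 𝒮.rk S J' + 𝒮.rk S Q' at e3
      rw [hL.rk S hS] at e1
      rw [𝒮.rk_tau k hS] at e3
      have n1 := rk_nonneg 𝒮 k hS M'
      have n2 := rk_nonneg 𝒮 k hS J'
      have n3 := rk_nonneg 𝒮 k hS Q'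
      omega
    rw [← hfac', h0.eq_of_src ι' 0, comp_zero]
  have hZ1 : Z1 J M := (𝒮.Z0_tau J M).1 hZ
  obtain ⟨v, hv⟩ := (lift_iff S₁ (𝟙 J)).2 (hZ1 _)
  change v ≫ π = 𝟙 J at hv
  obtain ⟨c, hc⟩ := scalar_of_one K hL.one (π ≫ v)
  have hc0 : c ≠ 0 := by
    intro h
    apply hf
    rw [h, zero_smul] at hc
    have h1 : π = 0 := by
      have h2 : (π ≫ v) ≫ π = π := by rw [Category.assoc, hv, Category.comp_id]
      rw [← h2, hc, zero_comp]
    rw [← hfac, h1, zero_comp]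
  have hπ : Mono π := by
    have h1 : π ≫ (c⁻¹ • v) = 𝟙 L := by
      rw [Linear.comp_smul, hc, smul_smul, inv_mul_cancel₀ hc0, one_smul]
    exact mono_of_mono_fac h1
  rw [← hfac]
  exact mono_comp π ι

theorem LBd.exists_simple {L : H} (hL : LBd 𝒮 L) : ∃ S : H, Simple S := by
  have h1 : ¬ IsZero L := by
    intro h
    have h2 : h0 K L L = 0 := (h0_eq_zero K).2 (fun f => h.eq_of_src f 0)
    have h3 := hL.one
    omega
  obtain ⟨S, p, hS, -⟩ := exists_simple_quot K h1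
  exact ⟨S, hS⟩

theorem LBd.gen {L : H} (hL : LBd 𝒮 L) (X : H) :
    ∃ n : ℤ, k.κ X - n • k.κ L ∈ AddSubgroup.closure {c | ∃ S : H, Simple S ∧ c = k.κ S} := by
  obtain ⟨S₀, hS₀⟩ := hL.exists_simple
  have main : ∀ (n : ℕ) (X : H), 𝒮.rk S₀ X < n → ∃ n : ℤ, k.κ X - n • k.κ L ∈ Rank.V k := by
    intro n
    induction n with
    | zero =>
      intro X hX
      exfalso
      have := rk_nonneg 𝒮 k hS₀ X
      push_cast at hX
      omega
    | succ n ih =>
      intro X hX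
      obtain ⟨A, B, i, p, w₀, hAB, hA, hB⟩ := torsion K X
      have e1 := k.add _ hAB
      change k.κ X = k.κ A + k.κ B at e1
      have e2 := 𝒮.rk_add k (S := S₀) _ hAB
      change 𝒮.rk S₀ X = 𝒮.rk S₀ A + 𝒮.rk S₀ B at e2
      rw [𝒮.rk_FL k hS₀ hA, zero_add] at e2
      by_cases hB0 : IsZero B
      · refine ⟨0, ?_⟩
        rw [e1, Rank.kappa_zero k hB0, zero_smul, add_zero, sub_zero]
        exact Rank.FL_mem k hA
      have h1 : ∃ S : H, Simple S ∧ 0 < 𝒮.rk S B := by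
        by_contra hcon
        push Not at hcon
        exact hB0 (isZero_of_rk 𝒮 k hB fun S hS =>
          le_antisymm (hcon S hS) (rk_nonneg 𝒮 k hS B))
      obtain ⟨S, hS, hrk⟩ := h1
      obtain ⟨X', hX', hκ⟩ := Rank.twists 𝒮 k hS hB hrk ((chi K L B).natAbs + 1)
      have hchi : 0 < chi K L X' := by
        rw [k.chi_eq, hκ, Matrix.mulVec_add, Matrix.mulVec_smul, dotProduct_add,
          dotProduct_smul, ← k.chi_eq, ← 𝒮.rk_eq, hL.rk S hS, smul_eq_mul, mul_one]
        have h2 : -((chi K L B).natAbs : ℤ) ≤ chi K L B := by omega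
        have h3 : (((chi K L B).natAbs + 1 : ℕ) : ℤ) = ((chi K L B).natAbs : ℤ) + 1 := rfl
        rw [h3]
        linarith
      have hne : ¬ Z0 L X' := by
        intro h
        have h1 := (h0_eq_zero K).2 h
        unfold chi at hchi
        omega
      unfold Z0 at hne
      push Not at hne
      obtain ⟨f, hf⟩ := hne
      have hm : Mono f := hL.mono k hX' f hf
      have hC : (ShortComplex.mk f (cokernel.π f) (cokernel.condition f)).ShortExact :=
        { exact := ShortComplex.exact_cokernel f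
          mono_f := hm
          epi_g := inferInstanceAs (Epi (cokernel.π f)) }
      have e3 := k.add _ hC
      change k.κ X' = k.κ L + k.κ (cokernel f) at e3
      have e4 := 𝒮.rk_add k (S := S₀) _ hC
      change 𝒮.rk S₀ X' = 𝒮.rk S₀ L + 𝒮.rk S₀ (cokernel f) at e4
      have e5 : 𝒮.rk S₀ X' = 𝒮.rk S₀ B := by
        rw [𝒮.rk_eq k, 𝒮.rk_eq k, hκ, add_dotProduct, smul_dotProduct, Rank.dot_wcl 𝒮 k hS hS₀,
          smul_zero, add_zero]
      rw [hL.rk S₀ hS₀] at e4
      obtain ⟨m, hm'⟩ := ih (cokernel f) (by push_cast at hX; omega)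
      refine ⟨m + 1, ?_⟩
      have hw : 𝒮.wcl k S ∈ Rank.V k := by
        rw [Serre.wcl]
        exact sum_mem fun j _ => Rank.simple_mem k (𝒮.simple_tauPow hS j)
      have e6 : k.κ X - (m + 1) • k.κ L = k.κ A + (k.κ (cokernel f) - m • k.κ L) -
          (((chi K L B).natAbs + 1 : ℕ) : ℤ) • 𝒮.wcl k S := by
        rw [e3] at hκ
        rw [e1, add_smul, one_smul, eq_sub_iff_add_eq]
        have h7 : k.κ B + (((chi K L B).natAbs + 1 : ℕ) : ℤ) • 𝒮.wcl k S =
          k.κ L + k.κ (cokernel f) := hκ.symm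
        have h8 : k.κ A + k.κ B - (m • k.κ L + k.κ L) +
            (((chi K L B).natAbs + 1 : ℕ) : ℤ) • 𝒮.wcl k S =
            k.κ A + (k.κ B + (((chi K L B).natAbs + 1 : ℕ) : ℤ) • 𝒮.wcl k S) -
              (m • k.κ L + k.κ L) := by abel
        rw [h8, h7]
        abel
      rw [e6]
      exact sub_mem (add_mem (Rank.FL_mem k hA) hm') (zsmul_mem hw _)
  exact main ((𝒮.rk S₀ X).toNat + 1) X (by push_cast; omega)

/-- the integer of `LBd.gen` is the rank. -/
theorem LBd.rk_eq_of {L : H} (hL : LBd 𝒮 L) {X : H} {n : ℤ} (h : k.κ X - n • k.κ L ∈ Rank.V k)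
    {S : H} (hS : Simple S) : 𝒮.rk S X = n := by
  have h1 := LBA_dot 𝒮 k hS h
  rw [sub_dotProduct, smul_dotProduct, ← 𝒮.rk_eq, ← 𝒮.rk_eq, hL.rk S hS, smul_eq_mul,
    mul_one] at h1
  omega

include k in
theorem LBd.rk_const {L : H} (hL : LBd 𝒮 L) {S S' : H} (hS : Simple S) (hS' : Simple S') (X : H) :
    𝒮.rk S X = 𝒮.rk S' X := by
  obtain ⟨n, hn⟩ := hL.gen k X
  rw [hL.rk_eq_of k hn hS, hL.rk_eq_of k hn hS']

theorem LBd.wcl_eq {L : H} (hL : LBd 𝒮 L) {S S' : H} (hS : Simple S) (hS' : Simple S') :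
    𝒮.wcl k S = 𝒮.wcl k S' := by
  have h1 : ∀ c ∈ Submodule.span ℤ (Set.range k.κ),
      dotProduct c (k.G.mulVec (𝒮.wcl k S - 𝒮.wcl k S')) = 0 := by
    intro c hc
    induction hc using Submodule.span_induction with
    | mem c hc =>
      obtain ⟨X, rfl⟩ := hc
      rw [Matrix.mulVec_sub, dotProduct_sub, ← 𝒮.rk_eq, ← 𝒮.rk_eq, hL.rk_const k hS hS',
        sub_self]
    | zero => exact zero_dotProduct _
    | add a b _ _ ha hb => rw [add_dotProduct, ha, hb, add_zero]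
    | smul c a _ ha => rw [smul_dotProduct, ha, smul_zero]
  have h2 : k.G.mulVec (𝒮.wcl k S - 𝒮.wcl k S') = 0 := by
    ext i
    have h3 := h1 (Pi.single i 1) (by rw [k.span]; exact Submodule.mem_top)
    rwa [single_dotProduct, one_mul] at h3
  exact sub_eq_zero.1 (k.nondeg _ h2)

include k in
theorem LBd.FL_of_rk {L : H} (hL : LBd 𝒮 L) {S : H} (hS : Simple S) {X : H}
    (h : 𝒮.rk S X = 0) : ∃ A : H, FL A ∧ Nonempty (A ≅ X) := by
  obtain ⟨A, B, i, p, w₀, hAB, hA, hB⟩ := torsion K X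
  have hB0 : IsZero B := by
    refine isZero_of_rk 𝒮 k hB fun S' hS' => ?_
    have e := 𝒮.rk_add k (S := S) _ hAB
    change 𝒮.rk S X = 𝒮.rk S A + 𝒮.rk S B at e
    rw [𝒮.rk_FL k hS hA, zero_add, h] at e
    rw [hL.rk_const k hS' hS, ← e]
  have hi : Mono i := hAB.mono_f
  have hp0 : p = 0 := hB0.eq_of_tgt p 0
  have he : Epi i := hAB.exact.epi_f hp0
  have hiso : IsIso i := isIso_of_mono_of_epi i
  exact ⟨A, hA, ⟨asIso i⟩⟩

end Pool.Agent.WQ
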