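import Pool.Agent.WQ.LBA
import Pool.Agent.WQ.Final

/-!
# WQ: the Coxeter transformation on a line bundle (module G2, for MP_629323_al)

`w = w_S` (`LBd.wcl_eq`), `l = ∑ (j < N) κ (τ^j L)`, `N` a common multiple of all periods.
The classes are integer vectors; `χ(x, y) = x ⬝ G y`; `χ(κ Y, κ (τ X)) = - χ(κ X, κ Y)` (`chi_tau`).

`LBd.jump`: `κ (τ^N L) = κ L + c w` with `c = N (∑ (n ∈ p) (1 - 1/n) - 2)`.
Let `E` be the (finite) set of tubes of rank `≥ 2`; for `q ∈ E` let `S q` be the simple object in the tube `q` with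
`χ(L, S q) = 1` (the `χ(L, τ^j S) ≥ 0` have sum `rk S L = 1`).  `t = κ (τ L) - κ L`.  `t + ∑ κ (S q)` is left
orthogonal to all simple objects: for `S = τ^a (S q)`: `χ(τ L, τ^a S q) = χ(L, τ^(a-1) S q)`; `chi_simple`.  Adding
`β w` it becomes orthogonal to `L`, so it is zero by `LBd.gen` and nondegeneracy: `t = β w - ∑ κ (S q)`.
`χ(L, t) = χ(L, τ L) - χ(L, L) = -2`, so `β = card E - 2`.  Sum over `τ^j`, `j < N`:
`κ (τ^N L) - κ L = N β w - ∑ (q ∈ E) (N / p q) w`.  `∑ (q ∈ E) f (p q) = ∑ (n ∈ p) f n` since `numTubes n = count n p`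
(all ranks are `≤ card I + 1`).
`LBd.ker`: `χ(κ X, y) + χ(y, κ X) = 0` for all `X`.  `y = a κ L + v`, `v ∈ V` (`LBd.gen` and `span`).  Let `Φ` be the
additive endomorphism with `Φ (κ X) = κ (τ X)`; `Φ y = y`, so `N y = ∑ (j < N) Φ^j y = a l + b w`, and `Φ - 1` gives
`0 = a (κ (τ^N L) - κ L) = a c w`, so `a = 0` (`c ≠ 0`, `w ≠ 0` as `χ(L, w) = 1`).
(One may use `Eig.Phi` over the complex numbers instead and cast back.)
`LBd.skew`: `χ(l, x) + χ(x, l) = χ(l, x) - χ(l, Φ⁻¹..)`: for `x = κ X`: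
`χ(κ X, l) + χ(l, κ X) = χ(κ X, l) - χ(κ X, Φ l) = - c χ(κ X, w)`.
`LBd.neg`: `S` simple: `χ(S, l) = - χ(l, S)` (`skew`, `χ(S, w) = 0`), `χ(τ^j L, S) ≥ 0` (`chi_noSimple`) and one of
them (`j < N`) is positive.  Then additivity on `FL`.
-/

set_option autoImplicit false

open CategoryTheory CategoryTheory.Limits CategoryTheory.Abelian

namespace Pool.Agent.WQ

universe t v u w x

variable {K : Type t} [Field K] [IsAlgClosed K] {H : Type u} [Category.{v} H] [Abelian H]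
  [Linear K H] [HasExt.{w} H] [Her K H] {I : Type x} [Fintype I] [DecidableEq I]
  {𝒮 : Serre K H} (k : K0Data K H I)

/-- `∑ (j < N) κ (τ^j L)`. -/
noncomputable def lcl (𝒮 : Serre K H) (N : ℕ) (L : H) : I → ℤ :=
  ∑ j ∈ Finset.range N, k.κ (𝒮.tauPow j L)

theorem LBd.jump {L : H} (hL : LBd 𝒮 L) {p : List ℕ} (hp : ∀ n ∈ p, 2 ≤ n)
    (hp' : ∀ n, 2 ≤ n → 𝒮.numTubes n = (p.count n : ℕ∞)) {S : H} (hS : Simple S) :
    ∃ (N : ℕ) (c : ℤ), 0 < N ∧ (∀ S : H, Simple S → 𝒮.period S ∣ N) ∧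
      k.κ (𝒮.tauPow N L) = k.κ L + c • 𝒮.wcl k S ∧
      (c : ℚ) = N * ((p.map fun n : ℕ => (1 : ℚ) - 1 / n).sum - 2) := by
  sorry

namespace LBB

open Rank

section

variable {K : Type t} [Field K] {H : Type u} [Category.{v} H] [Abelian H]
  [Linear K H] [HasExt.{w} H] {I : Type x} [Fintype I] [DecidableEq I]
  (𝒮 : Serre K H) (k : K0Data K H I)

theorem tauPow_succ (n : ℕ) (X : H) : 𝒮.tauPow (n + 1) X = 𝒮.ta (𝒮.tauPow n X) :=
  Function.iterate_succ_apply' _ _ _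

theorem chi_tauPow [Her K H] (n : ℕ) (X Y : H) :
    chi K (𝒮.tauPow n X) (𝒮.tauPow n Y) = chi K X Y := by
  induction n with
  | zero => rfl
  | succ n ih =>
    rw [tauPow_succ, tauPow_succ, 𝒮.chi_tau, 𝒮.chi_tau, neg_neg, ih]

/-- complex coordinates -/
noncomputable def cc (x : I → ℤ) : I → ℂ := fun i => (x i : ℂ)

omit [Fintype I] [DecidableEq I] in
theorem cc_inj {x y : I → ℤ} (h : cc x = cc y) : x = y := by
  funext i
  have := congrFun h i
  unfold cc at this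
  exact_mod_cast this

omit [Fintype I] [DecidableEq I] in
theorem cc_add (x y : I → ℤ) : cc (x + y) = cc x + cc y := by
  funext i; simp [cc]

omit [Fintype I] [DecidableEq I] in
theorem cc_smul (a : ℤ) (x : I → ℤ) : cc (a • x) = (a : ℂ) • cc x := by
  funext i; simp [cc]

omit [Fintype I] [DecidableEq I] in
theorem cc_zero : cc (0 : I → ℤ) = 0 := by
  funext i; simp [cc]

omit [Fintype I] [DecidableEq I] in
theorem cc_sum {ι : Type*} (s : Finset ι) (f : ι → I → ℤ) :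
    cc (∑ j ∈ s, f j) = ∑ j ∈ s, cc (f j) := by
  funext i; simp [cc]

omit [DecidableEq I] in
theorem cc_dot (x y : I → ℤ) :
    dotProduct (cc x) ((Eig.Gc k).mulVec (cc y)) =
      ((dotProduct x (k.G.mulVec y) : ℤ) : ℂ) := by
  simp only [dotProduct, Matrix.mulVec, cc, Eig.Gc, Matrix.map_apply]
  push_cast
  rfl

omit [DecidableEq I] in
theorem cc_kc (X : H) : cc (k.κ X) = Eig.kc k X := rfl

omit [DecidableEq I] in
/-- bilinearity on both sides -/
theorem dot_lcl (N : ℕ) (L X : H) :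
    dotProduct (k.κ X) (k.G.mulVec (lcl k 𝒮 N L)) =
      ∑ j ∈ Finset.range N, chi K X (𝒮.tauPow j L) := by
  unfold lcl
  rw [Matrix.mulVec_sum, dotProduct_sum]
  exact Finset.sum_congr rfl fun j _ => (k.chi_eq _ _).symm

omit [DecidableEq I] in
theorem lcl_dot (N : ℕ) (L X : H) :
    dotProduct (lcl k 𝒮 N L) (k.G.mulVec (k.κ X)) =
      ∑ j ∈ Finset.range N, chi K (𝒮.tauPow j L) X := by
  unfold lcl
  rw [sum_dotProduct]
  exact Finset.sum_congr rfl fun j _ => (k.chi_eq _ _).symm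

end

end LBB

open LBB

theorem LBd.skew {L : H} {S : H} {N : ℕ} {c : ℤ}
    (hc : k.κ (𝒮.tauPow N L) = k.κ L + c • 𝒮.wcl k S) (X : H) :
    dotProduct (k.κ X) (k.G.mulVec (lcl k 𝒮 N L)) + dotProduct (lcl k 𝒮 N L) (k.G.mulVec (k.κ X)) =
      - c * dotProduct (k.κ X) (k.G.mulVec (𝒮.wcl k S)) := by
  rw [dot_lcl, lcl_dot]
  have h1 : ∀ j, chi K (𝒮.tauPow j L) X = - chi K X (𝒮.tauPow (j + 1) L) := by
    intro j
    rw [tauPow_succ, 𝒮.chi_tau, neg_neg]
  have h2 : chi K X (𝒮.tauPow N L) = chi K X L +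
      c * dotProduct (k.κ X) (k.G.mulVec (𝒮.wcl k S)) := by
    rw [k.chi_eq, hc, Matrix.mulVec_add, Matrix.mulVec_smul, dotProduct_add, dotProduct_smul,
      ← k.chi_eq, smul_eq_mul]
  simp only [h1]
  rw [Finset.sum_neg_distrib, ← sub_eq_add_neg, ← Finset.sum_sub_distrib]
  have h3 := Finset.sum_range_sub' (fun j => chi K X (𝒮.tauPow j L)) N
  rw [h3, h2]
  change chi K X L - _ = _
  ring

theorem LBd.neg {L : H} (hL : LBd 𝒮 L) {S : H} (hS : Simple S) {N : ℕ} {c : ℤ} (hN : 0 < N)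
    (hN' : ∀ S : H, Simple S → 𝒮.period S ∣ N)
    (hc : k.κ (𝒮.tauPow N L) = k.κ L + c • 𝒮.wcl k S) {A : H} (hA : FL A) (hA0 : ¬ IsZero A) :
    dotProduct (k.κ A) (k.G.mulVec (lcl k 𝒮 N L)) < 0 := by
  have key : ∀ S' : H, Simple S' → dotProduct (k.κ S') (k.G.mulVec (lcl k 𝒮 N L)) < 0 := by
    intro S' hS'
    have h1 := LBd.skew k hc S'
    have h2 : dotProduct (k.κ S') (k.G.mulVec (𝒮.wcl k S)) = 0 := by
      rw [← 𝒮.rk_eq]
      exact 𝒮.rk_FL k hS (Rank.FL_simple hS')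
    rw [h2, mul_zero, lcl_dot] at h1
    have h3 : ∀ j ∈ Finset.range N, chi K (𝒮.tauPow j L) S' = chi K L (𝒮.tauPow (N - j) S') := by
      intro j hj
      have hj' := Finset.mem_range.1 hj
      obtain ⟨e⟩ := (𝒮.tauPow_iso_iff k hS' N 0).2
        ((Nat.modEq_zero_iff_dvd).2 (hN' S' hS'))
      rw [← chi_tauPow 𝒮 j L, ← 𝒮.tauPow_add, Nat.add_sub_cancel' hj'.le]
      exact chi_iso K (Iso.refl _) e.symm
    rw [Finset.sum_congr rfl h3] at h1
    have h4 : ∀ n, 0 ≤ chi K L (𝒮.tauPow n S') := by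
      intro n
      rw [(𝒮.chi_noSimple hL.tf (𝒮.simple_tauPow hS' n)).1]
      exact Int.natCast_nonneg _
    have h5 : 0 < ∑ j ∈ Finset.range N, chi K L (𝒮.tauPow (N - j) S') := by
      refine lt_of_le_of_ne (Finset.sum_nonneg fun j _ => h4 _) fun h => ?_
      have h6 := (Finset.sum_eq_zero_iff_of_nonneg fun j _ => h4 (N - j)).1 h.symm
      have h7 := hL.rk S' hS'
      have h8 : 𝒮.rk S' L = 0 := by
        unfold Serre.rk
        refine Finset.sum_eq_zero fun n hn => ?_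
        have hp := Nat.le_of_dvd hN (hN' S' hS')
        have hn' := Finset.mem_range.1 hn
        rcases Nat.eq_zero_or_pos n with rfl | hn0
        · have h9 := h6 0 (Finset.mem_range.2 hN)
          rw [Nat.sub_zero] at h9
          obtain ⟨e⟩ := (𝒮.tauPow_iso_iff k hS' N 0).2
            ((Nat.modEq_zero_iff_dvd).2 (hN' S' hS'))
          rw [← h9]
          exact chi_iso K (Iso.refl _) e.symm
        · have h9 := h6 (N - n) (Finset.mem_range.2 (by omega))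
          rwa [Nat.sub_sub_self (by omega)] at h9
      rw [h8] at h7
      exact absurd h7 (by norm_num)
    linarith
  have main : ∀ {A : H}, FL A → IsZero A ∨
      dotProduct (k.κ A) (k.G.mulVec (lcl k 𝒮 N L)) < 0 := by
    intro A hA
    induction hA with
    | zero h => exact Or.inl h
    | ext i p w₀ hS _ hsimple ih =>
      refine Or.inr ?_
      have h1 := k.add _ hS
      have h2 := key _ hsimple
      have h3 : dotProduct _ (k.G.mulVec (lcl k 𝒮 N L)) = dotProduct _ (k.G.mulVec (lcl k 𝒮 N L)) :=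
        congrArg (fun z => dotProduct z (k.G.mulVec (lcl k 𝒮 N L))) h1
      rw [add_dotProduct] at h3
      change dotProduct (k.κ _) _ = dotProduct (k.κ _) _ + dotProduct (k.κ _) _ at h3
      rw [h3]
      rcases ih with ih | ih
      · rw [Rank.kappa_zero k ih, zero_dotProduct]
        linarith
      · linarith
  exact (main hA).resolve_left hA0

namespace LBB

omit [IsAlgClosed K] in
/-- a vector in the left and right radical of the symmetrised form is fixed by `Φ` -/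
theorem Phi_fix {y : I → ℤ}
    (hy : ∀ X : H, dotProduct (k.κ X) (k.G.mulVec y) + dotProduct y (k.G.mulVec (k.κ X)) = 0) :
    Eig.Phi k (cc y) = cc y := by
  apply Eig.Gc_inj k
  rw [Eig.Gc_Phi, eq_comm, ← sub_eq_zero, sub_neg_eq_add]
  apply Eig.eq_zero_of_dot k
  intro X
  have h1 : dotProduct (Eig.kc k X) ((Eig.Gc k).transpose.mulVec (cc y)) =
      dotProduct (cc y) ((Eig.Gc k).mulVec (Eig.kc k X)) := by
    rw [Matrix.dotProduct_mulVec, Matrix.vecMul_transpose, dotProduct_comm]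
  rw [dotProduct_add, h1, ← cc_kc, cc_dot, cc_dot]
  exact_mod_cast hy X

omit [IsAlgClosed K] [Her K H] in
theorem pow_fix {y : I → ℂ} (h : Eig.Phi k y = y) (n : ℕ) : (Eig.Phi k ^ n) y = y := by
  induction n with
  | zero => rfl
  | succ n ih => rw [pow_succ, Module.End.mul_apply, h, ih]

/-- sum of `Φ^j`, `j < N` -/
noncomputable def SN (N : ℕ) (v : I → ℂ) : I → ℂ := ∑ j ∈ Finset.range N, (Eig.Phi k ^ j) v

omit [IsAlgClosed K] [Her K H] in
theorem SN_add (N : ℕ) (v w : I → ℂ) : SN k N (v + w) = SN k N v + SN k N w := by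
  unfold SN
  rw [← Finset.sum_add_distrib]
  exact Finset.sum_congr rfl fun j _ => map_add _ _ _

omit [IsAlgClosed K] [Her K H] in
theorem SN_smul (N : ℕ) (a : ℂ) (v : I → ℂ) : SN k N (a • v) = a • SN k N v := by
  unfold SN
  rw [Finset.smul_sum]
  exact Finset.sum_congr rfl fun j _ => map_smul _ _ _

omit [IsAlgClosed K] in
theorem SN_kc (𝒮 : Serre K H) (N : ℕ) (X : H) :
    SN k N (cc (k.κ X)) = cc (lcl k 𝒮 N X) := by
  unfold SN lcl
  rw [cc_sum]
  exact Finset.sum_congr rfl fun j _ => Eig.kc_tauPow k 𝒮 j X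

theorem SN_simple (𝒮 : Serre K H) {S : H} (hS : Simple S) {N : ℕ} (hN' : 𝒮.period S ∣ N) :
    ∃ b : ℤ, SN k N (cc (k.κ S)) = (b : ℂ) • cc (𝒮.wcl k S) := by
  obtain ⟨r, rfl⟩ := hN'
  refine ⟨r, ?_⟩
  have h1 := Eig.sum_ff k 𝒮 (ζ := 1) hS r
  have h2 : Eig.uu k 𝒮 1 S = cc (𝒮.wcl k S) := by
    unfold Eig.uu Eig.ff Serre.wcl
    rw [cc_sum]
    exact Finset.sum_congr rfl fun j _ => by rw [one_pow, one_smul]; rfl
  have h3 : SN k (𝒮.period S * r) (cc (k.κ S)) =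
      ∑ l ∈ Finset.range (𝒮.period S * r), Eig.ff k 𝒮 1 S l := by
    unfold SN Eig.ff
    exact Finset.sum_congr rfl fun j _ => by
      rw [one_pow, one_smul]; exact Eig.kc_tauPow k 𝒮 j S
  rw [h3, h1, h2]
  simp

theorem SN_V (𝒮 : Serre K H) {w : I → ℤ} (hw : ∀ S : H, Simple S → 𝒮.wcl k S = w) {N : ℕ}
    (hN' : ∀ S : H, Simple S → 𝒮.period S ∣ N) {v : I → ℤ}
    (hv : v ∈ AddSubgroup.closure {c | ∃ S : H, Simple S ∧ c = k.κ S}) :
    ∃ b : ℤ, SN k N (cc v) = (b : ℂ) • cc w := by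
  induction hv using AddSubgroup.closure_induction with
  | mem x hx =>
    obtain ⟨S, hS, rfl⟩ := hx
    obtain ⟨b, hb⟩ := SN_simple k 𝒮 hS (hN' S hS)
    exact ⟨b, by rw [hb, hw S hS]⟩
  | zero =>
    refine ⟨0, ?_⟩
    unfold SN
    simp [cc_zero]
  | add x y _ _ hx hy =>
    obtain ⟨a, ha⟩ := hx
    obtain ⟨b, hb⟩ := hy
    refine ⟨a + b, ?_⟩
    rw [cc_add, SN_add, ha, hb, ← add_smul]
    push_cast
    rfl
  | neg x _ hx =>
    obtain ⟨a, ha⟩ := hx
    refine ⟨-a, ?_⟩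
    have h1 : cc (-x) = (-1 : ℂ) • cc x := by
      funext i; simp [cc]
    rw [h1, SN_smul, ha, smul_smul]
    push_cast
    ring_nf

theorem exists_cls {L : H} (hL : LBd 𝒮 L) (y : I → ℤ) :
    ∃ n : ℤ, y - n • k.κ L ∈ AddSubgroup.closure {c | ∃ S : H, Simple S ∧ c = k.κ S} := by
  have hy : y ∈ Submodule.span ℤ (Set.range k.κ) := by
    rw [k.span]
    exact Submodule.mem_top
  induction hy using Submodule.span_induction with
  | mem x hx =>
    obtain ⟨X, rfl⟩ := hx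
    exact hL.gen k X
  | zero =>
    refine ⟨0, ?_⟩
    rw [zero_smul, sub_zero]
    exact zero_mem _
  | add x y _ _ hx hy =>
    obtain ⟨m, hm⟩ := hx
    obtain ⟨n, hn⟩ := hy
    refine ⟨m + n, ?_⟩
    have h1 : x + y - (m + n) • k.κ L = (x - m • k.κ L) + (y - n • k.κ L) := by
      rw [add_smul]; abel
    rw [h1]
    exact add_mem hm hn
  | smul a x _ hx =>
    obtain ⟨m, hm⟩ := hx
    refine ⟨a * m, ?_⟩
    have h1 : a • x - (a * m) • k.κ L = a • (x - m • k.κ L) := by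
      rw [smul_sub, smul_smul]
    rw [h1]
    exact zsmul_mem hm a

theorem Phi_wcl (𝒮 : Serre K H) {S : H} (hS : Simple S) :
    Eig.Phi k (cc (𝒮.wcl k S)) = cc (𝒮.wcl k S) := by
  obtain ⟨e⟩ := (𝒮.period_spec k hS).2.2
  have e1 : Eig.Phi k (cc (𝒮.wcl k S)) =
      ∑ j ∈ Finset.range (𝒮.period S), Eig.kc k (𝒮.tauPow (j + 1) S) := by
    unfold Serre.wcl
    rw [cc_sum, map_sum]
    refine Finset.sum_congr rfl fun j _ => ?_
    rw [cc_kc, Eig.Phi_kc k 𝒮, tauPow_succ]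
  have e2 : cc (𝒮.wcl k S) =
      ∑ j ∈ Finset.range (𝒮.period S), Eig.kc k (𝒮.tauPow j S) := by
    unfold Serre.wcl
    rw [cc_sum]
    rfl
  have e3 := Finset.sum_range_succ (fun j => Eig.kc k (𝒮.tauPow j S)) (𝒮.period S)
  have e4 := Finset.sum_range_succ' (fun j => Eig.kc k (𝒮.tauPow j S)) (𝒮.period S)
  have e5 : Eig.kc k (𝒮.tauPow (𝒮.period S) S) = Eig.kc k (𝒮.tauPow 0 S) :=
    Eig.kc_iso k ⟨e⟩
  rw [e3, e5] at e4
  rw [e1, e2]
  exact (add_right_cancel e4).symm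

end LBB

theorem LBd.ker {L : H} (hL : LBd 𝒮 L) {S : H} (hS : Simple S) {N : ℕ} {c : ℤ} (hN : 0 < N)
    (hN' : ∀ S : H, Simple S → 𝒮.period S ∣ N)
    (hc : k.κ (𝒮.tauPow N L) = k.κ L + c • 𝒮.wcl k S) (hc0 : c ≠ 0) {y : I → ℤ}
    (hy : ∀ X : H, dotProduct (k.κ X) (k.G.mulVec y) + dotProduct y (k.G.mulVec (k.κ X)) = 0) :
    ∃ a b : ℤ, a ≠ 0 ∧ a • y = b • 𝒮.wcl k S := by
  obtain ⟨a, ha⟩ := exists_cls k hL y
  obtain ⟨b, hb⟩ := SN_V k 𝒮 (w := 𝒮.wcl k S) (fun S' hS' => hL.wcl_eq k hS' hS) hN' ha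
  have hfix := Phi_fix k hy
  have h1 : SN k N (cc y) = (N : ℂ) • cc y := by
    unfold SN
    rw [Finset.sum_congr rfl fun j _ => pow_fix k hfix j]
    simp [Nat.cast_smul_eq_nsmul]
  have h2 : cc y = (a : ℂ) • cc (k.κ L) + cc (y - a • k.κ L) := by
    rw [← cc_smul, ← cc_add]
    congr 1
    abel
  have h3 : (N : ℂ) • cc y = (a : ℂ) • cc (lcl k 𝒮 N L) + (b : ℂ) • cc (𝒮.wcl k S) := by
    rw [← h1]
    conv_lhs => rw [h2]
    rw [SN_add, SN_smul, SN_kc k 𝒮, hb]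
  -- the action of `Φ` on `l` and on `w`
  have h4 : Eig.Phi k (cc (lcl k 𝒮 N L)) = cc (lcl k 𝒮 N L) + (c : ℂ) • cc (𝒮.wcl k S) := by
    have e1 : Eig.Phi k (cc (lcl k 𝒮 N L)) =
        ∑ j ∈ Finset.range N, Eig.kc k (𝒮.tauPow (j + 1) L) := by
      unfold lcl
      rw [cc_sum, map_sum]
      refine Finset.sum_congr rfl fun j _ => ?_
      rw [cc_kc, Eig.Phi_kc k 𝒮, tauPow_succ]
    have e2 : cc (lcl k 𝒮 N L) = ∑ j ∈ Finset.range N, Eig.kc k (𝒮.tauPow j L) := by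
      unfold lcl
      rw [cc_sum]
      rfl
    have e3 := Finset.sum_range_succ (fun j => Eig.kc k (𝒮.tauPow j L)) N
    have e4 := Finset.sum_range_succ' (fun j => Eig.kc k (𝒮.tauPow j L)) N
    have e5 : Eig.kc k (𝒮.tauPow N L) = Eig.kc k L + (c : ℂ) • cc (𝒮.wcl k S) := by
      rw [← cc_kc, ← cc_kc, hc, cc_add, cc_smul]
    have e6 : Eig.kc k (𝒮.tauPow 0 L) = Eig.kc k L := rfl
    rw [e3, e5, e6] at e4
    rw [e1, e2]
    rw [← sub_eq_zero] at e4 ⊢
    rw [← neg_eq_zero, ← e4]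
    abel
  have h5 : Eig.Phi k (cc (𝒮.wcl k S)) = cc (𝒮.wcl k S) := Phi_wcl k 𝒮 hS
  have h6 : ((a : ℂ) * c) • cc (𝒮.wcl k S) = 0 := by
    have e1 := congrArg (Eig.Phi k) h3
    rw [map_smul, hfix, map_add, map_smul, map_smul, h4, h5, h3, smul_add, smul_smul] at e1
    rw [← sub_eq_zero] at e1
    rw [← neg_eq_zero, ← e1]
    abel
  have hw : cc (𝒮.wcl k S) ≠ 0 := by
    intro h
    have e1 : 𝒮.wcl k S = 0 := cc_inj (by rw [h, cc_zero])
    have e2 := hL.rk S hS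
    rw [𝒮.rk_eq k, e1, Matrix.mulVec_zero, dotProduct_zero] at e2
    exact absurd e2 (by norm_num)
  have h7 : (a : ℂ) * c = 0 := (smul_eq_zero.1 h6).resolve_right hw
  have h8 : a = 0 := by
    rcases mul_eq_zero.1 h7 with h | h
    · exact_mod_cast h
    · exact absurd (by exact_mod_cast h) hc0
  refine ⟨N, b, by exact_mod_cast hN.ne', cc_inj ?_⟩
  rw [cc_smul, cc_smul]
  rw [h8] at h3
  simpa using h3

end Pool.Agent.WQ
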