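import Pool.Agent.WQ.LBA
import Pool.Agent.WQ.Final

/-!
# WQ: the class of `τ^N L` for a line bundle `L` (module G2, part 1, for MP_629323_al)

`LBd.jump`: see the header of `LBB.lean`.
-/

set_option autoImplicit false

open CategoryTheory CategoryTheory.Limits CategoryTheory.Abelian

namespace Pool.Agent.WQ

universe t v u w x

variable {K : Type t} [Field K] [IsAlgClosed K] {H : Type u} [Category.{v} H] [Abelian H]
  [Linear K H] [HasExt.{w} H] [Her K H] {I : Type x} [Fintype I] [DecidableEq I]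
  {𝒮 : Serre K H} (k : K0Data K H I)

namespace LBJ

omit [IsAlgClosed K] [Her K H] in
theorem eq_zero_of_dot {z : I → ℤ} (h : ∀ X : H, dotProduct z (k.G.mulVec (k.κ X)) = 0) : z = 0 := by
  have h1 : ∀ c : I → ℤ, dotProduct z (k.G.mulVec c) = 0 := by
    intro c
    have hc : c ∈ Submodule.span ℤ (Set.range k.κ) := by
      rw [k.span]
      trivial
    induction hc using Submodule.span_induction with
    | mem x hx =>
      obtain ⟨X, rfl⟩ := hx
      exact h X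
    | zero => rw [Matrix.mulVec_zero, dotProduct_zero]
    | add x y _ _ hx hy => rw [Matrix.mulVec_add, dotProduct_add, hx, hy, add_zero]
    | smul a x _ hx => rw [Matrix.mulVec_smul, dotProduct_smul, hx, smul_zero]
  have h2 : Matrix.vecMul z k.G = 0 := by
    funext i
    have h3 := h1 (Pi.single i 1)
    rw [Matrix.dotProduct_mulVec, dotProduct_single, mul_one] at h3
    exact h3
  by_contra hz
  have h4 : k.G.det = 0 := Matrix.exists_vecMul_eq_zero_iff.1 ⟨z, hz, h2⟩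
  obtain ⟨c, hc, hc'⟩ := Matrix.exists_mulVec_eq_zero_iff.2 h4
  exact hc (k.nondeg c hc')

variable {k}

include k in
theorem lbd_ta {L : H} (hL : LBd 𝒮 L) : LBd 𝒮 (𝒮.ta L) := by
  refine ⟨?_, ?_, 𝒮.noSimple_ta hL.tf, fun S hS => ?_⟩
  · rw [𝒮.h0_tau_tau]; exact hL.one
  · rw [← h1_eq_zero K, 𝒮.h1_tau_tau, h1_eq_zero K]; exact hL.z1
  · rw [𝒮.rk_tau k hS]; exact hL.rk S hS

include k in
theorem lbd_tauPow {L : H} (hL : LBd 𝒮 L) (j : ℕ) : LBd 𝒮 (𝒮.tauPow j L) := by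
  induction j with
  | zero => exact hL
  | succ j ih =>
    rw [𝒮.Twist_tauPow_succ]
    exact lbd_ta (k := k) ih

theorem chi_self {L : H} (hL : LBd 𝒮 L) : chi K L L = 1 := by
  rw [chi, hL.one, (h1_eq_zero K).2 hL.z1]
  norm_num

theorem chi_nonneg {L : H} (hL : LBd 𝒮 L) {S : H} (hS : Simple S) : 0 ≤ chi K L S := by
  rw [(𝒮.chi_noSimple hL.tf hS).1]
  exact Int.natCast_nonneg _

/-- In every tube there is a simple object with `χ(L, S) = 1`. -/
theorem exists_one {L : H} (hL : LBd 𝒮 L) {S : H} (hS : Simple S) :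
    ∃ j < 𝒮.period S, chi K L (𝒮.tauPow j S) = 1 := by
  by_contra hcon
  push Not at hcon
  have h1 := hL.rk S hS
  unfold Serre.rk at h1
  by_cases h2 : ∃ j < 𝒮.period S, chi K L (𝒮.tauPow j S) ≠ 0
  · obtain ⟨j, hj, h3⟩ := h2
    have h4 := chi_nonneg hL (𝒮.simple_tauPow hS j)
    have h5 : 2 ≤ chi K L (𝒮.tauPow j S) := by
      have := hcon j hj
      omega
    have h6 := Finset.single_le_sum (f := fun j => chi K L (𝒮.tauPow j S))
      (s := Finset.range (𝒮.period S)) (fun i _ => chi_nonneg hL (𝒮.simple_tauPow hS i))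
      (Finset.mem_range.2 hj)
    omega
  · push Not at h2
    rw [Finset.sum_eq_zero fun j hj => h2 j (Finset.mem_range.1 hj)] at h1
    exact absurd h1 (by norm_num)

include k in
/-- If `χ(L, S) = 1` then `χ(L, τ^j S) = 0` for `0 < j < p`. -/
theorem chi_zero {L : H} (hL : LBd 𝒮 L) {S : H} (hS : Simple S) (h1 : chi K L S = 1) {j : ℕ}
    (hj0 : 0 < j) (hj : j < 𝒮.period S) : chi K L (𝒮.tauPow j S) = 0 := by
  have hp := (𝒮.period_spec k hS).1
  have h2 := hL.rk S hS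
  unfold Serre.rk at h2
  rw [← Finset.add_sum_erase _ _ (Finset.mem_range.2 hp)] at h2
  have h3 : chi K L (𝒮.tauPow 0 S) = 1 := h1
  rw [h3] at h2
  have h4 : ∑ x ∈ (Finset.range (𝒮.period S)).erase 0, chi K L (𝒮.tauPow x S) = 0 := by omega
  rw [Finset.sum_eq_zero_iff_of_nonneg fun i _ => chi_nonneg hL (𝒮.simple_tauPow hS i)] at h4
  exact h4 j (Finset.mem_erase.2 ⟨by omega, Finset.mem_range.2 hj⟩)

/-- `χ(w_S, X) = - χ(X, w_S)`. -/
theorem w_left {S : H} (hS : Simple S) (X : H) :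
    dotProduct (𝒮.wcl k S) (k.G.mulVec (k.κ X)) = - 𝒮.rk S X := by
  obtain ⟨-, -, ⟨e⟩⟩ := 𝒮.period_spec k hS
  rw [Serre.wcl, sum_dotProduct]
  unfold Serre.rk
  rw [Serre.Twist_cyc (fun j => chi K X (𝒮.tauPow j S)) _ (chi_iso K (Iso.refl _) e),
    ← Finset.sum_neg_distrib]
  refine Finset.sum_congr rfl fun j _ => ?_
  rw [← k.chi_eq, 𝒮.Twist_tauPow_succ, 𝒮.chi_tau, neg_neg]

omit [IsAlgClosed K] [Her K H] in
theorem sameTube_ta (S : H) : 𝒮.SameTube (𝒮.ta S) S := ⟨0, 1, ⟨Iso.refl _⟩⟩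

omit [IsAlgClosed K] [Her K H] in
theorem sameTube_iso {S S' : H} (h : Nonempty (S ≅ S')) : 𝒮.SameTube S S' := ⟨0, 0, h⟩

omit [IsAlgClosed K] [Her K H] in
theorem sameTube_symm {S S' : H} (h : 𝒮.SameTube S S') : 𝒮.SameTube S' S := by
  obtain ⟨m, n, ⟨e⟩⟩ := h
  exact ⟨n, m, ⟨e.symm⟩⟩

omit [IsAlgClosed K] [Her K H] in
theorem sameTube_trans {S S' S'' : H} (h : 𝒮.SameTube S S') (h' : 𝒮.SameTube S' S'') :
    𝒮.SameTube S S'' := by
  obtain ⟨m, n, ⟨e⟩⟩ := h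
  obtain ⟨a, b, ⟨e'⟩⟩ := h'
  obtain ⟨e1⟩ := 𝒮.tauPow_iso a ⟨e⟩
  obtain ⟨e2⟩ := 𝒮.tauPow_iso n ⟨e'⟩
  refine ⟨a + m, n + b, ⟨?_⟩⟩
  rw [𝒮.tauPow_add, 𝒮.tauPow_add]
  refine e1 ≪≫ eqToIso ?_ ≪≫ e2
  rw [← 𝒮.tauPow_add, ← 𝒮.tauPow_add, add_comm]

/-- Simple objects in different tubes. -/
theorem chi_diff {S S' : H} (hS : Simple S) (hS' : Simple S') (h : ¬ 𝒮.SameTube S S') :
    chi K S S' = 0 := by
  classical
  rw [𝒮.chi_simple hS hS', if_neg fun h1 => h (sameTube_iso h1), if_neg fun h1 =>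
    h (sameTube_trans (sameTube_symm (sameTube_ta S)) (sameTube_iso h1)), sub_zero]

/-- The values on the tube of `S`. -/
theorem val_tube (k : K0Data K H I) {L : H} (hL : LBd 𝒮 L) {S : H} (hS : Simple S)
    (h1 : chi K L S = 1) (hp : 2 ≤ 𝒮.period S) {n : ℕ} (hn : n < 𝒮.period S) :
    chi K (𝒮.ta L) (𝒮.tauPow n S) - chi K L (𝒮.tauPow n S) + chi K S (𝒮.tauPow n S) = 0 := by
  classical
  have hiso := 𝒮.tauPow_iso_iff k hS
  have e1 : Nonempty (S ≅ 𝒮.tauPow n S) ↔ n = 0 := by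
    have h2 := hiso 0 n
    rw [show 𝒮.tauPow 0 S = S from rfl] at h2
    rw [h2]
    unfold Nat.ModEq
    rw [Nat.mod_eq_of_lt hn, Nat.zero_mod]
    omega
  have e2 : Nonempty (𝒮.ta S ≅ 𝒮.tauPow n S) ↔ n = 1 := by
    have h2 := hiso 1 n
    rw [show 𝒮.tauPow 1 S = 𝒮.ta S from rfl] at h2
    rw [h2]
    unfold Nat.ModEq
    rw [Nat.mod_eq_of_lt hn, Nat.mod_eq_of_lt (by omega)]
    omega
  rw [𝒮.chi_simple hS (𝒮.simple_tauPow hS n), if_congr e1 rfl rfl, if_congr e2 rfl rfl]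
  rcases Nat.eq_zero_or_pos n with rfl | hn0
  · obtain ⟨-, -, ⟨e⟩⟩ := 𝒮.period_spec k hS
    have h3 : chi K (𝒮.ta L) (𝒮.tauPow 0 S) = 0 := by
      rw [show 𝒮.tauPow 0 S = S from rfl, ← chi_iso K (Iso.refl (𝒮.ta L)) e]
      have h4 : 𝒮.period S = (𝒮.period S - 1) + 1 := by omega
      rw [h4, 𝒮.Twist_tauPow_succ, 𝒮.Twist_chi_ta]
      exact chi_zero (k := k) hL hS h1 (by omega) (by omega)
    have h5 : chi K L (𝒮.tauPow 0 S) = 1 := h1
    rw [h3, h5]
    norm_num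
  · obtain ⟨m, rfl⟩ : ∃ m, n = m + 1 := Nat.exists_eq_succ_of_ne_zero hn0.ne'
    rw [chi_zero (k := k) hL hS h1 hn0 hn, 𝒮.Twist_tauPow_succ, 𝒮.Twist_chi_ta]
    rcases Nat.eq_zero_or_pos m with rfl | hm
    · rw [show 𝒮.tauPow 0 S = S from rfl, h1]
      norm_num
    · rw [chi_zero (k := k) hL hS h1 hm (by omega), if_neg (by omega), if_neg (by omega)]
      norm_num

/-- One step. -/
theorem step (k : K0Data K H I) {L : H} (hL : LBd 𝒮 L) {ι : Type*} (E : Finset ι) (s : ι → H)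
    (hs : ∀ q ∈ E, Simple (s q)) (hone : ∀ q ∈ E, chi K L (s q) = 1)
    (hp : ∀ q ∈ E, 2 ≤ 𝒮.period (s q))
    (hd : ∀ q ∈ E, ∀ q' ∈ E, 𝒮.SameTube (s q) (s q') → q = q')
    (hall : ∀ S, Simple S → 2 ≤ 𝒮.period S → ∃ q ∈ E, 𝒮.SameTube (s q) S) {S : H} (hS : Simple S) :
    k.κ (𝒮.ta L) = k.κ L + ((E.card : ℤ) - 2) • 𝒮.wcl k S - ∑ q ∈ E, k.κ (s q) := by
  classical
  obtain ⟨z, hz⟩ : ∃ z, z = k.κ (𝒮.ta L) - k.κ L + ∑ q ∈ E, k.κ (s q) := ⟨_, rfl⟩
  have hdot : ∀ X : H, dotProduct z (k.G.mulVec (k.κ X)) =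
      chi K (𝒮.ta L) X - chi K L X + ∑ q ∈ E, chi K (s q) X := by
    intro X
    rw [hz, add_dotProduct, sub_dotProduct, sum_dotProduct, ← k.chi_eq, ← k.chi_eq]
    congr 1
    exact Finset.sum_congr rfl fun q _ => (k.chi_eq _ _).symm
  have hA : ∀ S' : H, Simple S' → dotProduct z (k.G.mulVec (k.κ S')) = 0 := by
    intro S' hS'
    rw [hdot]
    have hpos := (𝒮.period_spec k hS').1
    by_cases h2 : 2 ≤ 𝒮.period S'
    · obtain ⟨q0, hq0, hst⟩ := hall S' hS' h2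
      obtain ⟨n, hn, ⟨e⟩⟩ := (𝒮.sameTube_iff k (hs q0 hq0)).1 hst
      rw [← Finset.add_sum_erase _ _ hq0, Finset.sum_eq_zero (s := E.erase q0), add_zero]
      · have h3 := val_tube k hL (hs q0 hq0) (hone q0 hq0) (hp q0 hq0) hn
        rw [chi_iso K (Iso.refl _) e, chi_iso K (Iso.refl _) e, chi_iso K (Iso.refl _) e] at h3
        exact h3
      · intro q hq
        obtain ⟨hq1, hq2⟩ := Finset.mem_erase.1 hq
        apply chi_diff (hs q hq2) hS'
        intro h3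
        exact hq1 (hd q hq2 q0 hq0 (sameTube_trans h3 (sameTube_symm hst)))
    · have h1 : 𝒮.period S' = 1 := by omega
      obtain ⟨-, -, ⟨e⟩⟩ := 𝒮.period_spec k hS'
      rw [h1] at e
      have h3 : chi K (𝒮.ta L) S' = chi K L S' := by
        rw [← chi_iso K (Iso.refl (𝒮.ta L)) e]
        exact 𝒮.Twist_chi_ta L S'
      rw [h3, sub_self, zero_add]
      refine Finset.sum_eq_zero fun q hq => chi_diff (𝒮 := 𝒮) (hs q hq) hS' fun h4 => ?_
      have h5 := 𝒮.period_sameTube k (hs q hq) hS' h4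
      have h6 := hp q hq
      omega
  obtain ⟨β, hβ⟩ : ∃ β : ℤ, β = - dotProduct z (k.G.mulVec (k.κ L)) := ⟨_, rfl⟩
  have hz' : z = β • 𝒮.wcl k S := by
    have h0 : z - β • 𝒮.wcl k S = 0 := by
      apply eq_zero_of_dot k
      intro X
      have hV : ∀ c ∈ AddSubgroup.closure {c | ∃ S : H, Simple S ∧ c = k.κ S},
          dotProduct (z - β • 𝒮.wcl k S) (k.G.mulVec c) = 0 := by
        intro c hc
        induction hc using AddSubgroup.closure_induction with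
        | mem x hx =>
          obtain ⟨S', hS', rfl⟩ := hx
          rw [sub_dotProduct, smul_dotProduct, hA S' hS', w_left hS, 𝒮.rk_FL k hS (Rank.FL_simple hS'),
            neg_zero, smul_zero, sub_zero]
        | zero => rw [Matrix.mulVec_zero, dotProduct_zero]
        | add x y _ _ hx hy => rw [Matrix.mulVec_add, dotProduct_add, hx, hy, add_zero]
        | neg x _ hx => rw [Matrix.mulVec_neg, dotProduct_neg, hx, neg_zero]
      obtain ⟨n, hn⟩ := hL.gen k X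
      have h1 := hV _ hn
      have hLz : dotProduct (z - β • 𝒮.wcl k S) (k.G.mulVec (k.κ L)) = 0 := by
        rw [sub_dotProduct, smul_dotProduct, w_left hS, hL.rk S hS, hβ, smul_eq_mul]
        ring
      rw [Matrix.mulVec_sub, dotProduct_sub, Matrix.mulVec_smul, dotProduct_smul, hLz, smul_zero,
        sub_zero] at h1
      exact h1
    exact sub_eq_zero.1 h0
  have hκ : k.κ (𝒮.ta L) = k.κ L + β • 𝒮.wcl k S - ∑ q ∈ E, k.κ (s q) := by
    rw [← hz', hz]
    abel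
  have hβ' : β = (E.card : ℤ) - 2 := by
    have h1 : chi K L (𝒮.ta L) = -1 := by rw [𝒮.chi_tau, chi_self hL]
    have h2 : dotProduct (k.κ L) (k.G.mulVec (𝒮.wcl k S)) = 1 := by
      rw [← 𝒮.rk_eq k, hL.rk S hS]
    have h3 : dotProduct (k.κ L) (k.G.mulVec (∑ q ∈ E, k.κ (s q))) = E.card := by
      rw [Matrix.mulVec_sum, dotProduct_sum, Finset.sum_congr rfl (g := fun _ => (1 : ℤ))]
      · simp
      · intro q hq
        rw [← k.chi_eq, hone q hq]
    rw [k.chi_eq, hκ, Matrix.mulVec_sub, Matrix.mulVec_add, Matrix.mulVec_smul, dotProduct_sub,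
      dotProduct_add, dotProduct_smul, h2, h3, ← k.chi_eq, chi_self hL, smul_eq_mul] at h1
    omega
  rw [hκ, hβ']

theorem sum_period {A : Type*} [AddCommGroup A] (f : ℕ → A) (p : ℕ) (h : ∀ j, f (j + p) = f j)
    (m : ℕ) : ∑ j ∈ Finset.range (p * m), f j = (m : ℤ) • ∑ j ∈ Finset.range p, f j := by
  induction m with
  | zero => simp
  | succ m ih =>
    rw [Nat.mul_succ, Finset.sum_range_add, ih, Serre.Twist_shift f p h]
    push_cast
    rw [add_smul, one_smul]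

theorem chi_tauPow (j : ℕ) (X Y : H) : chi K (𝒮.tauPow j X) (𝒮.tauPow j Y) = chi K X Y := by
  induction j with
  | zero => rfl
  | succ j ih => rw [𝒮.Twist_tauPow_succ, 𝒮.Twist_tauPow_succ, 𝒮.Twist_chi_ta, ih]

omit [IsAlgClosed K] [Her K H] in
theorem sameTube_tauPow (j : ℕ) (S : H) : 𝒮.SameTube (𝒮.tauPow j S) S := ⟨0, j, ⟨Iso.refl _⟩⟩

end LBJ

open LBJ in
theorem LBd.jump {L : H} (hL : LBd 𝒮 L) {p : List ℕ} (hp : ∀ n ∈ p, 2 ≤ n)
    (hp' : ∀ n, 2 ≤ n → 𝒮.numTubes n = (p.count n : ℕ∞)) {S : H} (hS : Simple S) :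
    ∃ (N : ℕ) (c : ℤ), 0 < N ∧ (∀ S : H, Simple S → 𝒮.period S ∣ N) ∧
      k.κ (𝒮.tauPow N L) = k.κ L + c • 𝒮.wcl k S ∧
      (c : ℚ) = N * ((p.map fun n : ℕ => (1 : ℚ) - 1 / n).sum - 2) := by
  classical
  set B := Fintype.card I + 1 with hB
  -- the tubes of rank at least two
  have hfin : {q : 𝒮.Tube | 2 ≤ tubeRank 𝒮 q}.Finite := by
    have h1 : {q : 𝒮.Tube | 2 ≤ tubeRank 𝒮 q} ⊆ ⋃ n ∈ Finset.Icc 2 B, {q : 𝒮.Tube | tubeRank 𝒮 q = n} := by
      intro q hq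
      simp only [Set.mem_iUnion, Finset.mem_Icc, Set.mem_ofPred_eq, exists_prop, exists_eq_right'] at hq ⊢
      exact ⟨hq, (𝒮.period_spec k (Quotient.out q).2).2.1⟩
    refine Set.Finite.subset (Set.Finite.biUnion (Finset.finite_toSet _) fun n hn => ?_) h1
    have h2 : 2 ≤ n := (Finset.mem_Icc.1 hn).1
    have h3 := hp' n h2
    unfold Serre.numTubes at h3
    rw [tube_set 𝒮 k (fun a => a = n)] at h3
    rw [← Set.encard_ne_top_iff, h3]
    exact ENat.natCast_ne_top _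
  set E := hfin.toFinset with hE
  have hEmem : ∀ q : 𝒮.Tube, q ∈ E ↔ 2 ≤ tubeRank 𝒮 q := by
    intro q
    rw [hE, Set.Finite.mem_toFinset]
    rfl
  have hmul : (E.val.map (tubeRank 𝒮)) = (p : Multiset ℕ) := by
    ext n
    rw [Multiset.count_map, Multiset.coe_count]
    by_cases hn : 2 ≤ n
    · have h3 := hp' n hn
      unfold Serre.numTubes at h3
      rw [tube_set 𝒮 k (fun a => a = n)] at h3
      have h4 : {q : 𝒮.Tube | tubeRank 𝒮 q = n} = ↑(E.filter fun q => n = tubeRank 𝒮 q) := by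
        ext q
        simp only [Set.mem_ofPred_eq, Finset.coe_filter, hEmem]
        constructor
        · rintro rfl; exact ⟨hn, rfl⟩
        · rintro ⟨-, h⟩; exact h.symm
      rw [h4, Set.encard_coe_eq_coe_finsetCard] at h3
      have h5 : (E.filter fun q => n = tubeRank 𝒮 q).card = p.count n := by exact_mod_cast h3
      rw [← h5]
      rfl
    · rw [List.count_eq_zero_of_not_mem fun h => hn (hp n h), Multiset.card_eq_zero,
        Multiset.filter_eq_nil]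
      intro q hq h
      have := (hEmem q).1 hq
      omega
  -- simple objects
  have hch : ∀ q : 𝒮.Tube, ∃ X : H, Simple X ∧ chi K L X = 1 ∧ 𝒮.SameTube X (Quotient.out q).1 := by
    intro q
    obtain ⟨j, -, h1⟩ := exists_one hL (Quotient.out q).2
    exact ⟨_, 𝒮.simple_tauPow (Quotient.out q).2 j, h1, sameTube_tauPow _ _⟩
  choose s hs1 hs2 hs3 using hch
  have hper : ∀ q, 𝒮.period (s q) = tubeRank 𝒮 q := fun q =>
    𝒮.period_sameTube k (hs1 q) (Quotient.out q).2 (hs3 q)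
  have hout : ∀ q q' : 𝒮.Tube, 𝒮.SameTube (Quotient.out q).1 (Quotient.out q').1 → q = q' := by
    intro q q' h
    rw [← Quotient.out_eq q, ← Quotient.out_eq q']
    exact Quotient.sound (s := 𝒮.tubeSetoid) h
  have hstep : ∀ j : ℕ, k.κ (𝒮.tauPow (j + 1) L) - k.κ (𝒮.tauPow j L) =
      ((E.card : ℤ) - 2) • 𝒮.wcl k S - ∑ q ∈ E, k.κ (𝒮.tauPow j (s q)) := by
    intro j
    rw [𝒮.Twist_tauPow_succ, step k (lbd_tauPow (k := k) hL j) E (fun q => 𝒮.tauPow j (s q))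
      (fun q _ => 𝒮.simple_tauPow (hs1 q) j) (fun q _ => ?_) (fun q hq => ?_) (fun q _ q' _ h => ?_)
      (fun S' hS' h => ?_) hS]
    · abel
    · rw [chi_tauPow]; exact hs2 q
    · rw [𝒮.period_sameTube k (𝒮.simple_tauPow (hs1 q) j) (hs1 q) (sameTube_tauPow _ _), hper]
      exact (hEmem q).1 hq
    · apply hout
      exact sameTube_trans (sameTube_symm (hs3 q)) (sameTube_trans (sameTube_symm (sameTube_tauPow j _))
        (sameTube_trans h (sameTube_trans (sameTube_tauPow j _) (hs3 q'))))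
    · set q : 𝒮.Tube := Quotient.mk 𝒮.tubeSetoid ⟨S', hS'⟩ with hq
      have h1 : 𝒮.SameTube (Quotient.out q).1 S' :=
        Quotient.exact (s := 𝒮.tubeSetoid) (Quotient.out_eq q)
      refine ⟨q, (hEmem q).2 ?_, ?_⟩
      · rw [hq, tubeRank_mk 𝒮 k]; exact h
      · exact sameTube_trans (sameTube_tauPow j _) (sameTube_trans (hs3 q) h1)
  set N := B.factorial with hN
  have hdvd : ∀ S : H, Simple S → 𝒮.period S ∣ N := by
    intro S' hS'
    obtain ⟨h1, h2, -⟩ := 𝒮.period_spec k hS'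
    exact Nat.dvd_factorial h1 h2
  refine ⟨N, (N : ℤ) * ((E.card : ℤ) - 2) - ∑ q ∈ E, ((N / tubeRank 𝒮 q : ℕ) : ℤ),
    Nat.factorial_pos _, hdvd, ?_, ?_⟩
  · have h1 := Finset.sum_range_sub (fun j => k.κ (𝒮.tauPow j L)) N
    rw [Finset.sum_congr rfl fun j _ => hstep j, Finset.sum_sub_distrib, Finset.sum_const,
      Finset.card_range, Finset.sum_comm] at h1
    have h2 : ∀ q ∈ E, ∑ j ∈ Finset.range N, k.κ (𝒮.tauPow j (s q)) =
        ((N / tubeRank 𝒮 q : ℕ) : ℤ) • 𝒮.wcl k S := by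
      intro q _
      obtain ⟨m, hm⟩ := hdvd (s q) (hs1 q)
      obtain ⟨hpos, -, hiso⟩ := 𝒮.period_spec k (hs1 q)
      have h3 : N / tubeRank 𝒮 q = m := by
        rw [← hper, hm]
        exact Nat.mul_div_cancel_left m hpos
      rw [h3, hm, sum_period _ _ (fun j => ?_), hL.wcl_eq k hS (hs1 q)]
      · rfl
      · apply k.iso
        rw [𝒮.tauPow_add]
        exact 𝒮.tauPow_iso j hiso
    rw [Finset.sum_congr rfl h2, ← Finset.sum_smul] at h1
    have h3 : k.κ (𝒮.tauPow 0 L) = k.κ L := rfl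
    rw [h3] at h1
    rw [sub_smul, mul_smul, natCast_zsmul, h1]
    abel
  · have h1 : ((p.map fun n : ℕ => (1 : ℚ) - 1 / n).sum) = ∑ q ∈ E, ((1 : ℚ) - 1 / tubeRank 𝒮 q) := by
      have h2 : ((p.map fun n : ℕ => (1 : ℚ) - 1 / n).sum) =
          ((p : Multiset ℕ).map fun n : ℕ => (1 : ℚ) - 1 / n).sum := by
        rw [Multiset.map_coe, Multiset.sum_coe]
      rw [h2, ← hmul, Multiset.map_map]
      rfl
    have h4 : ∀ q ∈ E, ((N / tubeRank 𝒮 q : ℕ) : ℚ) = N * (1 / tubeRank 𝒮 q) := by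
      intro q _
      have h5 : tubeRank 𝒮 q ∣ N := by rw [← hper]; exact hdvd _ (hs1 q)
      have h6 : (tubeRank 𝒮 q : ℚ) ≠ 0 := by
        rw [← hper]
        exact_mod_cast (𝒮.period_spec k (hs1 q)).1.ne'
      rw [Nat.cast_div h5 h6]
      ring
    rw [h1]
    simp only [Int.cast_sub, Int.cast_mul, Int.cast_sum, Int.cast_natCast, Int.cast_ofNat]
    rw [Finset.sum_congr rfl h4, ← Finset.mul_sum, Finset.sum_sub_distrib, Finset.sum_const,
      nsmul_eq_mul, mul_one]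
    ring

end Pool.Agent.WQ
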