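import Pool.Agent.WQ.Tilt

/-!
# WQ: the order on the summands (module 6)

Relation `r i j`: `i ≠ j` and `Hom(T i, T j) ≠ 0`.  `r` has no cycles: for `TransGen r i j` show
`∃ k, (∃ f : T i ⟶ T k, Mono f) ∧ (∃ g : T k ⟶ T j, Epi g) ∧ (i ≠ k ∨ k ≠ j)`
(induction; Happel-Ringel for each nonzero map `T a → T b`, and for the nonzero composition of an epi
followed by a mono; monic / epic endomorphisms are isomorphisms, `CT.rad`).  For `j = i`: the composition
`T k → T i → T k` (epi followed by mono) is nonzero, contradiction to `CT.rad` if `k ≠ i`.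
Then `extend_partialOrder` and count predecessors.
-/

set_option autoImplicit false

open CategoryTheory CategoryTheory.Limits CategoryTheory.Abelian

namespace Pool.Agent.WQ

attribute [local instance] Abelian.hasFiniteBiproducts

universe t v u w x

variable {K : Type t} [Field K] {H : Type u} [Category.{v} H] [Abelian H] [Linear K H]
  [HasExt.{w} H] [Her K H] {I : Type x} [Fintype I]

/-- nonzero maps between different summands -/
def ordRel (T : I → H) (i j : I) : Prop := i ≠ j ∧ ¬ Z0 (T i) (T j)

omit [Fintype I] in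
theorem CT.id_ne {T : I → H} (hT : CT K T) (i : I) : 𝟙 (T i) ≠ 0 := by
  intro h
  have hz : Z0 (T i) (T i) := fun f => by
    rw [← Category.comp_id f, h, comp_zero]
  have h0 := (h0_eq_zero (K := K)).2 hz
  rw [hT.one i] at h0
  exact one_ne_zero h0

omit [Fintype I] in
theorem CT.epi_ne {T : I → H} (hT : CT K T) {i : I} {X : H} (f : X ⟶ T i) [Epi f] : f ≠ 0 := by
  intro h
  apply hT.id_ne i
  rw [← cancel_epi f, h, zero_comp, zero_comp]

omit [Fintype I] in
theorem CT.mono_ne {T : I → H} (hT : CT K T) {i : I} {X : H} (f : T i ⟶ X) [Mono f] : f ≠ 0 := by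
  intro h
  apply hT.id_ne i
  rw [← cancel_mono f, h, comp_zero, comp_zero]

omit [Fintype I] in
theorem CT.mono_or_epi {T : I → H} (hT : CT K T) {i j : I} (f : T i ⟶ T j) (hf : f ≠ 0) :
    Mono f ∨ Epi f :=
  hr K (indec_of_one K (hT.one i)) (indec_of_one K (hT.one j)) (hT.rigid j i) f hf

omit [Fintype I] in
theorem CT.trans_key {T : I → H} (hT : CT K T) {i j : I}
    (h : Relation.TransGen (ordRel T) i j) :
    ∃ k, (∃ f : T i ⟶ T k, Mono f) ∧ (∃ g : T k ⟶ T j, Epi g) ∧ (i ≠ k ∨ k ≠ j) := by
  induction h with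
  | single h =>
    rename_i l
    obtain ⟨hne, hz⟩ := h
    unfold Z0 at hz
    push Not at hz
    obtain ⟨f, hf⟩ := hz
    rcases hT.mono_or_epi f hf with hm | he
    · exact ⟨l, ⟨f, hm⟩, ⟨𝟙 _, inferInstance⟩, Or.inl hne⟩
    · exact ⟨i, ⟨𝟙 _, inferInstance⟩, ⟨f, he⟩, Or.inr hne⟩
  | tail _ h ih =>
    rename_i j l _
    obtain ⟨k, ⟨f, hf⟩, ⟨g, hg⟩, _⟩ := ih
    obtain ⟨hne, hz⟩ := h
    unfold Z0 at hz
    push Not at hz
    obtain ⟨u, hu⟩ := hz
    have hgu : g ≫ u ≠ 0 := by
      intro h0
      apply hu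
      rw [← cancel_epi g, h0, comp_zero]
    rcases hT.mono_or_epi (g ≫ u) hgu with hm | he
    · refine ⟨l, ⟨f ≫ g ≫ u, inferInstance⟩, ⟨𝟙 _, inferInstance⟩, Or.inl ?_⟩
      intro hil
      subst hil
      have h1 := hT.rad i j hne.symm (f ≫ g) u
      rw [Category.assoc] at h1
      exact hT.mono_ne (f ≫ g ≫ u) h1
    · refine ⟨k, ⟨f, hf⟩, ⟨g ≫ u, he⟩, Or.inr ?_⟩
      intro hkl
      subst hkl
      exact hgu (hT.rad k j hne.symm g u)

omit [Fintype I] in
theorem CT.acyclic {T : I → H} (hT : CT K T) (i : I) : ¬ Relation.TransGen (ordRel T) i i := by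
  intro h
  obtain ⟨k, ⟨f, hf⟩, ⟨g, hg⟩, hk⟩ := hT.trans_key h
  have hki : k ≠ i := by
    rcases hk with hk | hk
    · exact hk.symm
    · exact hk
  have h1 := hT.rad k i hki g f
  have h2 : g = 0 := by
    rw [← cancel_mono f, h1, zero_comp]
  exact hT.epi_ne g h2

/-- There is a total order on the index set such that maps `T i → T j`, `i ≠ j`, are zero unless
`i < j`. -/
theorem CT.order {T : I → H} (hT : CT K T) : ∃ ρ : I → ℕ, Function.Injective ρ ∧
    ∀ i j, i ≠ j → ¬ Z0 (T i) (T j) → ρ i < ρ j := by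
  classical
  have hpo : IsPartialOrder I (Relation.ReflTransGen (ordRel T)) :=
    { refl := fun i => Relation.ReflTransGen.refl
      trans := fun i j k h h' => h.trans h'
      antisymm := fun i j h h' => by
        rcases Relation.reflTransGen_iff_eq_or_transGen.1 h with e | h1
        · exact e.symm
        · rcases Relation.reflTransGen_iff_eq_or_transGen.1 h' with e | h2
          · exact e
          · exact absurd (h1.trans h2) (hT.acyclic i) }
  obtain ⟨s, hs, hle⟩ := extend_partialOrder (Relation.ReflTransGen (ordRel T))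
  have hanti : ∀ i j, s i j → s j i → i = j := fun i j => hs.antisymm i j
  have htrans : ∀ i j k, s i j → s j k → s i k := fun i j k => hs.trans i j k
  have htot : ∀ i j, s i j ∨ s j i := fun i j => hs.total i j
  have key : ∀ i j, i ≠ j → s i j →
      (Finset.univ.filter fun k => s k i ∧ k ≠ i).card <
        (Finset.univ.filter fun k => s k j ∧ k ≠ j).card := by
    intro i j hne hij
    apply Finset.card_lt_card
    rw [Finset.ssubset_iff_of_subset]
    · refine ⟨i, ?_, ?_⟩
      · simp only [Finset.mem_filter, Finset.mem_univ, true_and]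
        exact ⟨hij, hne⟩
      · simp
    · intro k hk
      simp only [Finset.mem_filter, Finset.mem_univ, true_and] at hk ⊢
      refine ⟨htrans k i j hk.1 hij, ?_⟩
      rintro rfl
      exact hne (hanti i k hij hk.1)
  refine ⟨fun i => (Finset.univ.filter fun k => s k i ∧ k ≠ i).card, ?_, ?_⟩
  · intro i j hij
    by_contra hne
    rcases htot i j with h | h
    · exact absurd hij (key i j hne h).ne
    · exact absurd hij (key j i (Ne.symm hne) h).ne'
  · intro i j hne hz
    exact key i j hne (hle i j (Relation.ReflTransGen.single ⟨hne, hz⟩))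

end Pool.Agent.WQ
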