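import Pool.Agent.WQ.Gram

/-!
# WQ: parity of the potential (module G3, for MP_629323_al)

`b`, `ρ`, `ρ'`, `U`, `U'`, `φ` as in `nul_conj` (`Gram.lean`).  `S = U + Uᵗ`, `S' = U' + U'ᵗ`, `ε i = (-1)^(φ i)`.
Entrywise (cases `ρ i < ρ j`, `ρ' i < ρ' j`, sign of `b i j`; `φ j - φ i = gam ρ b i j - gam ρ' b i j ∈ {-1, 0, 1}` if
`b i j ≠ 0`):
* (I0) `S' i j = ε i ε j S i j`;
* (I1) `U' j i = ε i ε j U j i - (φ i - φ j) S' i j`.
`r0, r1` with `S r0 = 0`, `S r1 = - c Uᵗ r0` and the same for `'`; the kernel of `S'` is spanned by `r0'`.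
`S' (ε r0) = 0`, so `a ε r0 = d r0'`, `a ≠ 0`, `d ≠ 0` (`r0 ≠ 0`).
`S' (a ε r1) = - c (ε Uᵗ ε)(d r0') = - c d U'ᵗ r0' + c d S' N r0'`, `N = diag φ`, so
`S' (a c' ε r1 - c d r1' - c c' d N r0') = 0` and this vector is proportional to `r0'` (times a nonzero integer).
At `i` with `r0 i > 0`: `a ε i r0 i = d r0' i`, so `r0' i > 0` and `sign (a ε i) = sign d`.  At `i` with `r0 i = 0`: `r0' i = 0`,
`a c' ε i r1 i = c d r1' i`, so `sign (a ε i) = sign d` (`c c' > 0`, `r1 i, r1' i < 0`).  So `ε` is constant, hence `φ i = φ j`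
if `b i j ≠ 0`, hence `gam ρ b i j = gam ρ' b i j`.
-/

set_option autoImplicit false

namespace Pool.Agent.WQ

variable {I : Type*} [Fintype I] [DecidableEq I]

namespace Par

/-- the sign of the potential -/
def sg (φ : I → ℤ) (i : I) : ℤ := if Even (φ i) then 1 else -1

omit [Fintype I] [DecidableEq I] in
theorem sg_sq (φ : I → ℤ) (i : I) : sg φ i * sg φ i = 1 := by
  unfold sg
  split_ifs <;> norm_num

omit [Fintype I] [DecidableEq I] in
theorem sg_eq {φ : I → ℤ} {i j : I} (h : φ j = φ i) : sg φ j = sg φ i := by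
  unfold sg
  rw [h]

omit [Fintype I] [DecidableEq I] in
theorem sg_neg {φ : I → ℤ} {i j : I} (h : φ j = φ i + 1) : sg φ j = - sg φ i := by
  unfold sg
  rw [h]
  by_cases h1 : Even (φ i)
  · rw [if_pos h1, if_neg]
    intro h2
    have := (Int.even_add.1 h2).1 h1
    exact absurd this (by decide)
  · rw [if_neg h1, if_pos]
    · norm_num
    · rw [Int.even_add]
      exact ⟨fun h => absurd h h1, fun h => absurd h (by decide)⟩

end Par

theorem parity {b : I → I → ℤ} {ρ ρ' : I → ℕ} (hρ : Function.Injective ρ)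
    (hρ' : Function.Injective ρ') (hb : ∀ i j, b j i = - b i j) {U U' : Matrix I I ℤ}
    (h1 : ∀ i, U i i = 1) (h2 : ∀ i j, ρ i < ρ j → U i j = - b i j)
    (h3 : ∀ i j, ρ j < ρ i → U i j = 0) (h1' : ∀ i, U' i i = 1)
    (h2' : ∀ i j, ρ' i < ρ' j → U' i j = - b i j) (h3' : ∀ i j, ρ' j < ρ' i → U' i j = 0)
    {φ : I → ℤ} (hφ : ∀ i j, b i j ≠ 0 → gam ρ b i j - gam ρ' b i j = φ j - φ i)
    {r0 r1 r0' r1' : I → ℤ} {c c' : ℤ} (hc : 0 < c * c')
    (s0 : (U + U.transpose).mulVec r0 = 0) (s0' : (U' + U'.transpose).mulVec r0' = 0)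
    (s1 : (U + U.transpose).mulVec r1 = - c • U.transpose.mulVec r0)
    (s1' : (U' + U'.transpose).mulVec r1' = - c' • U'.transpose.mulVec r0')
    (hker : ∀ x : I → ℤ, (U' + U'.transpose).mulVec x = 0 → ∃ a d : ℤ, a ≠ 0 ∧ a • x = d • r0')
    (p0 : ∀ i, 0 ≤ r0 i) (p0' : ∀ i, 0 ≤ r0' i) (p1 : ∀ i, r0 i = 0 → r1 i < 0)
    (p1' : ∀ i, r0' i = 0 → r1' i < 0) (hne : r0 ≠ 0) {i j : I} (hij : b i j ≠ 0) :
    ρ i < ρ j ↔ ρ' i < ρ' j := by
  -- the two orders on an edge
  have hgam : ∀ i j, b i j ≠ 0 → (φ j = φ i ∧ (ρ i < ρ j ↔ ρ' i < ρ' j)) ∨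
      (φ j = φ i + 1 ∧ ((ρ i < ρ j ∧ ρ' j < ρ' i ∧ 0 < b i j) ∨
        (ρ i < ρ j ∧ ρ' j < ρ' i ∧ b i j < 0))) ∨
      (φ i = φ j + 1 ∧ (ρ j < ρ i ∧ ρ' i < ρ' j)) := by
    intro i j hij
    have hne' : i ≠ j := by
      rintro rfl
      have := hb i i
      omega
    have ho : ρ i < ρ j ∨ ρ j < ρ i := lt_or_gt_of_ne fun h => hne' (hρ h)
    have ho' : ρ' i < ρ' j ∨ ρ' j < ρ' i := lt_or_gt_of_ne fun h => hne' (hρ' h)
    have h := hφ i j hij
    unfold gam at h
    rw [if_neg hij, if_neg hij] at h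
    rcases ho with ho | ho <;> rcases ho' with ho' | ho'
    · rw [if_pos ho, if_pos ho'] at h
      left
      exact ⟨by omega, ⟨fun _ => ho', fun _ => ho⟩⟩
    · rw [if_pos ho, if_neg ho'.not_gt] at h
      right; left
      split_ifs at h with hpos
      · exact ⟨by omega, Or.inl ⟨ho, ho', hpos⟩⟩
      · exact ⟨by omega, Or.inr ⟨ho, ho', by omega⟩⟩
    · rw [if_neg ho.not_gt, if_pos ho'] at h
      right; right
      split_ifs at h with hpos
      · exact ⟨by omega, ho, ho'⟩
      · exact ⟨by omega, ho, ho'⟩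
    · rw [if_neg ho.not_gt, if_neg ho'.not_gt] at h
      left
      exact ⟨by omega, ⟨fun h => absurd h ho.not_gt, fun h => absurd h ho'.not_gt⟩⟩
  set e : I → ℤ := Par.sg φ with he
  -- (I0) and (I1)
  have I0 : ∀ i j, U' i j + U' j i = e i * e j * (U i j + U j i) := by
    intro i j
    by_cases hij : i = j
    · subst hij
      rw [h1, h1', Par.sg_sq]
      ring
    have ho : ρ i < ρ j ∨ ρ j < ρ i := lt_or_gt_of_ne fun h => hij (hρ h)
    have ho' : ρ' i < ρ' j ∨ ρ' j < ρ' i := lt_or_gt_of_ne fun h => hij (hρ' h)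
    have hbb := hb i j
    by_cases hb0 : b i j = 0
    · have z : U i j = 0 ∧ U j i = 0 := by
        rcases ho with ho | ho
        · exact ⟨by rw [h2 i j ho, hb0, neg_zero], h3 j i ho⟩
        · exact ⟨h3 i j ho, by rw [h2 j i ho]; omega⟩
      have z' : U' i j = 0 ∧ U' j i = 0 := by
        rcases ho' with ho' | ho'
        · exact ⟨by rw [h2' i j ho', hb0, neg_zero], h3' j i ho'⟩
        · exact ⟨h3' i j ho', by rw [h2' j i ho']; omega⟩
      rw [z.1, z.2, z'.1, z'.2]
      ring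
    rcases hgam i j hb0 with ⟨g1, g2⟩ | ⟨g1, g2⟩ | ⟨g1, g2, g3⟩
    · have e1 : e i * e j = 1 := by rw [he, Par.sg_eq g1, Par.sg_sq]
      rw [e1, one_mul]
      rcases ho with ho | ho
      · rw [h2 i j ho, h3 j i ho, h2' i j (g2.1 ho), h3' j i (g2.1 ho)]
      · have ho2 : ρ' j < ρ' i := by
          rcases ho' with h | h
          · exact absurd (g2.2 h) ho.not_gt
          · exact h
        rw [h3 i j ho, h2 j i ho, h3' i j ho2, h2' j i ho2]
    · have e1 : e i * e j = -1 := by rw [he, Par.sg_neg g1, mul_neg, Par.sg_sq]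
      obtain ⟨g3, g4⟩ : ρ i < ρ j ∧ ρ' j < ρ' i := by
        rcases g2 with g2 | g2
        · exact ⟨g2.1, g2.2.1⟩
        · exact ⟨g2.1, g2.2.1⟩
      rw [e1, h2 i j g3, h3 j i g3, h3' i j g4, h2' j i g4, hbb]
      ring
    · have e1 : e i * e j = -1 := by rw [he, Par.sg_neg g1, neg_mul, Par.sg_sq]
      rw [e1, h3 i j g2, h2 j i g2, h2' i j g3, h3' j i g3, hbb]
      ring
  have I1 : ∀ i j, U' j i = e i * e j * U j i - (φ i - φ j) * (U' i j + U' j i) := by
    intro i j
    by_cases hij : i = j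
    · subst hij
      rw [h1, h1', Par.sg_sq]
      ring
    have ho : ρ i < ρ j ∨ ρ j < ρ i := lt_or_gt_of_ne fun h => hij (hρ h)
    have ho' : ρ' i < ρ' j ∨ ρ' j < ρ' i := lt_or_gt_of_ne fun h => hij (hρ' h)
    have hbb := hb i j
    by_cases hb0 : b i j = 0
    · have z : U i j = 0 ∧ U j i = 0 := by
        rcases ho with ho | ho
        · exact ⟨by rw [h2 i j ho, hb0, neg_zero], h3 j i ho⟩
        · exact ⟨h3 i j ho, by rw [h2 j i ho]; omega⟩
      have z' : U' i j = 0 ∧ U' j i = 0 := by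
        rcases ho' with ho' | ho'
        · exact ⟨by rw [h2' i j ho', hb0, neg_zero], h3' j i ho'⟩
        · exact ⟨h3' i j ho', by rw [h2' j i ho']; omega⟩
      rw [z.2, z'.1, z'.2]
      ring
    rcases hgam i j hb0 with ⟨g1, g2⟩ | ⟨g1, g2⟩ | ⟨g1, g2, g3⟩
    · have e1 : e i * e j = 1 := by rw [he, Par.sg_eq g1, Par.sg_sq]
      rw [e1, one_mul, g1]
      rcases ho with ho | ho
      · rw [h3 j i ho, h2' i j (g2.1 ho), h3' j i (g2.1 ho)]
        ring
      · have ho2 : ρ' j < ρ' i := by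
          rcases ho' with h | h
          · exact absurd (g2.2 h) ho.not_gt
          · exact h
        rw [h2 j i ho, h3' i j ho2, h2' j i ho2]
        ring
    · have e1 : e i * e j = -1 := by rw [he, Par.sg_neg g1, mul_neg, Par.sg_sq]
      obtain ⟨g3, g4⟩ : ρ i < ρ j ∧ ρ' j < ρ' i := by
        rcases g2 with g2 | g2
        · exact ⟨g2.1, g2.2.1⟩
        · exact ⟨g2.1, g2.2.1⟩
      rw [e1, h3 j i g3, h3' i j g4, h2' j i g4, hbb, g1]
      ring
    · have e1 : e i * e j = -1 := by rw [he, Par.sg_neg g1, neg_mul, Par.sg_sq]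
      rw [e1, h2 j i g2, h2' i j g3, h3' j i g3, hbb, g1]
      ring
  -- the hypotheses in coordinates
  have t0 : ∀ i, ∑ j, (U i j + U j i) * r0 j = 0 := fun i => congrFun s0 i
  have t0' : ∀ i, ∑ j, (U' i j + U' j i) * r0' j = 0 := fun i => congrFun s0' i
  have t1 : ∀ i, ∑ j, (U i j + U j i) * r1 j = - c * ∑ j, U j i * r0 j := fun i => congrFun s1 i
  have t1' : ∀ i, ∑ j, (U' i j + U' j i) * r1' j = - c' * ∑ j, U' j i * r0' j :=
    fun i => congrFun s1' i
  -- first step
  have k0 : (U' + U'.transpose).mulVec (fun j => e j * r0 j) = 0 := by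
    funext i
    change ∑ j, (U' i j + U' j i) * (e j * r0 j) = 0
    have : ∀ j, (U' i j + U' j i) * (e j * r0 j) = e i * ((U i j + U j i) * r0 j) := by
      intro j
      rw [I0 i j]
      have := Par.sg_sq φ j
      linear_combination (e i * (U i j + U j i) * r0 j) * this
    rw [Finset.sum_congr rfl fun j _ => this j, ← Finset.mul_sum, t0, mul_zero]
  obtain ⟨a, d, ha, had⟩ := hker _ k0
  have q0 : ∀ j, a * (e j * r0 j) = d * r0' j := fun j => congrFun had j
  -- second step
  have k1 : (U' + U'.transpose).mulVec (fun j => a * c' * (e j * r1 j) - c * d * r1' j -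
      c * c' * d * (φ j * r0' j)) = 0 := by
    funext i
    change ∑ j, (U' i j + U' j i) * (a * c' * (e j * r1 j) - c * d * r1' j -
      c * c' * d * (φ j * r0' j)) = 0
    have x1 : ∑ j, (U' i j + U' j i) * (e j * r1 j) = e i * (- c * ∑ j, U j i * r0 j) := by
      rw [← t1, Finset.mul_sum]
      refine Finset.sum_congr rfl fun j _ => ?_
      rw [I0 i j]
      have := Par.sg_sq φ j
      linear_combination (e i * (U i j + U j i) * r1 j) * this
    have x2 : a * (e i * ∑ j, U j i * r0 j) = d * ∑ j, U' j i * r0' j -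
        d * ∑ j, (U' i j + U' j i) * (φ j * r0' j) := by
      have x3 : d * ∑ j, U' j i * r0' j = d * ∑ j, U' j i * r0' j +
          d * φ i * ∑ j, (U' i j + U' j i) * r0' j := by rw [t0', mul_zero, add_zero]
      rw [x3]
      simp only [Finset.mul_sum]
      rw [← Finset.sum_add_distrib, ← Finset.sum_sub_distrib]
      refine Finset.sum_congr rfl fun j _ => ?_
      have y1 := q0 j
      have y2 := I1 i j
      have y3 := Par.sg_sq φ j
      -- `a e_i U_ji r0_j = e_i e_j U_ji (d r0'_j)`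
      have y4 : a * (e i * (U j i * r0 j)) = e i * e j * U j i * (d * r0' j) := by
        rw [← y1]
        linear_combination (-(a * e i * U j i * r0 j)) * y3
      rw [y4]
      linear_combination (-(d * r0' j)) * y2
    have x4 : ∑ j, (U' i j + U' j i) * (a * c' * (e j * r1 j) - c * d * r1' j -
        c * c' * d * (φ j * r0' j)) = a * c' * ∑ j, (U' i j + U' j i) * (e j * r1 j) -
        c * d * ∑ j, (U' i j + U' j i) * r1' j -
        c * c' * d * ∑ j, (U' i j + U' j i) * (φ j * r0' j) := by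
      simp only [Finset.mul_sum]
      rw [← Finset.sum_sub_distrib, ← Finset.sum_sub_distrib]
      refine Finset.sum_congr rfl fun j _ => ?_
      ring
    rw [x4, x1, t1']
    linear_combination (-(c * c')) * x2
  obtain ⟨a2, d2, ha2, had2⟩ := hker _ k1
  have q1 : ∀ j, a2 * (a * c' * (e j * r1 j) - c * d * r1' j - c * c' * d * (φ j * r0' j)) =
      d2 * r0' j := fun j => congrFun had2 j
  -- signs
  obtain ⟨i0, hi0⟩ : ∃ i, r0 i ≠ 0 := by
    by_contra hcon
    push Not at hcon
    exact hne (funext hcon)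
  have hesq : ∀ j, e j * e j = 1 := Par.sg_sq φ
  have hene : ∀ j, e j ≠ 0 := by
    intro j h
    have := hesq j
    rw [h] at this
    omega
  have hd : d ≠ 0 := by
    rintro rfl
    have h := q0 i0
    rw [zero_mul] at h
    exact (mul_ne_zero ha (mul_ne_zero (hene i0) hi0)) h
  have hc0 : c ≠ 0 := by
    rintro rfl
    simp at hc
  have main : ∀ j, 0 < a * d * e j := by
    intro j
    by_cases hr : r0 j = 0
    · have hr' : r0' j = 0 := by
        have h := q0 j
        rw [hr, mul_zero, mul_zero] at h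
        exact (mul_eq_zero.1 h.symm).resolve_left hd
      have h := q1 j
      rw [hr', mul_zero, mul_zero, mul_zero, sub_zero] at h
      have h' := (mul_eq_zero.1 h).resolve_left ha2
      have n1 := p1 j hr
      have n2 := p1' j hr'
      -- `a d (c c') e r1 = (c d)^2 r1' < 0`
      have h4 : (a * d * e j) * (c * c' * (- r1 j)) = (c * d) ^ 2 * (- r1' j) := by
        linear_combination (-(c * d)) * h'
      have h5 : 0 < (c * d) ^ 2 * (- r1' j) :=
        mul_pos (by positivity) (by omega)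
      rw [← h4] at h5
      by_contra hcon
      have h6 := mul_nonpos_of_nonpos_of_nonneg (not_lt.1 hcon)
        (mul_nonneg hc.le (show (0 : ℤ) ≤ - r1 j by omega))
      exact absurd h5 (not_lt.2 h6)
    · have hpos : 0 < r0 j := lt_of_le_of_ne (p0 j) (Ne.symm hr)
      have h := q0 j
      have hr' : r0' j ≠ 0 := by
        intro h0
        rw [h0, mul_zero] at h
        exact (mul_ne_zero ha (mul_ne_zero (hene j) hr)) h
      have hpos' : 0 < r0' j := lt_of_le_of_ne (p0' j) (Ne.symm hr')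
      have h4 : (a * d * e j) * r0 j = d ^ 2 * r0' j := by
        linear_combination d * h
      have h5 : 0 < d ^ 2 * r0' j := mul_pos (by positivity) hpos'
      rw [← h4] at h5
      by_contra hcon
      have h6 := mul_nonpos_of_nonpos_of_nonneg (not_lt.1 hcon) hpos.le
      exact absurd h5 (not_lt.2 h6)
  have heq : e i = e j := by
    have m1 := main i
    have m2 := main j
    have v1 : e i = 1 ∨ e i = -1 := by
      simp only [he, Par.sg]
      split_ifs <;> simp
    have v2 : e j = 1 ∨ e j = -1 := by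
      simp only [he, Par.sg]
      split_ifs <;> simp
    rcases v1 with v1 | v1 <;> rcases v2 with v2 | v2 <;> rw [v1, v2] <;> rw [v1] at m1 <;>
      rw [v2] at m2 <;> omega
  rcases hgam i j hij with ⟨-, g2⟩ | ⟨g1, -⟩ | ⟨g1, -⟩
  · exact g2
  · exfalso
    have := Par.sg_neg g1
    rw [← he, heq] at this
    have := hene j
    omega
  · exfalso
    have := Par.sg_neg g1
    rw [← he, heq] at this
    have := hene j
    omega

end Pool.Agent.WQ
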