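import Pool.Agent.WQ.Twist

/-!
# WQ: `τ` acts trivially modulo the classes of the simple objects (module 20b)

`V` = subgroup generated by the `κ S`, `S` simple.  `rk S X = χ(X, w_S)`; it is additive, vanishes on `FL`,
`rk S (τ X) = rk S X`, and `rk S X ≥ 0` for `X` without simple subobjects (`chi_noSimple`); for such `X ≠ 0` there is a
simple `S` with `rk S X > 0` (`exists_simple_quot`).
`exists_fin`: finitely many simple `S 1, .., S n` with: all `rk (S l) X = 0` implies `rk S X = 0` for all simple `S`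
(the functionals `rk S` live in the finite-dimensional dual of `ℚ^I`).  `r X = ∑ rk (S l) X`: `r X ≥ 0`, `r X = 0` iff
`X` has finite length, in particular `κ X ∈ V` (`torsion`).
`twist`: `X` without simple subobjects, `rk S X > 0`: there are `X'` without simple subobjects and
`0 → X → X' → F → 0`, `κ F = w_S`.  (If `Hom(X, τ^(j+1) S) ≠ 0` then `Ext¹(τ^j S, X) ≠ 0`; a nonsplit extension
`0 → X → X₁ → τ^j S → 0` has no simple subobject and `χ(X₁, τ^j S) = χ(X, τ^j S) + 1 > 0`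
(for period one: `+ 0`, `χ(X₁, S) = χ(X, S) > 0`); repeat with `j - 1`, .., `p` steps around the tube.)
`tau_sub`: induction on `r X`.  By `torsion` one may assume that `X` has no simple subobject, `X ≠ 0`.  If there is a
subobject `Y ≠ 0` with `r Y < r X` use `Y` and `X / Y`.  Otherwise take `S` with `rk S X > 0` and `N` twists `L'` of
`τ X` with `χ(X, L') = χ(X, τ X) + N rk S X > 0`; a nonzero `f : X → L'` is mono (`r (ker f) = r X` would give
`r (im f) = 0`, `im f = 0`), `r (coker f) = r (τ X) - r X = 0`; so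
`κ X + κ (coker f) = κ (τ X) + N w_S`.
-/

set_option autoImplicit false

open CategoryTheory CategoryTheory.Limits CategoryTheory.Abelian

namespace Pool.Agent.WQ

universe t v u w x

variable {K : Type t} [Field K] [IsAlgClosed K] {H : Type u} [Category.{v} H] [Abelian H]
  [Linear K H] [HasExt.{w} H] [Her K H] {I : Type x} [Fintype I] [DecidableEq I]
  (𝒮 : Serre K H) (k : K0Data K H I)

namespace Rank

open scoped ZeroObject

theorem kappa_zero {X : H} (hX : IsZero X) : k.κ X = 0 := by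
  have hS : (ShortComplex.mk (0 : X ⟶ X) (0 : X ⟶ X) (by simp)).ShortExact :=
    { exact := ShortComplex.exact_of_isZero_X₂ _ hX
      mono_f := hX.mono _
      epi_g := hX.epi _ }
  have h := k.add _ hS
  change k.κ X = k.κ X + k.κ X at h
  simpa using h

/-- subgroup of the classes of simple objects. -/
def V : AddSubgroup (I → ℤ) := AddSubgroup.closure {c | ∃ S : H, Simple S ∧ c = k.κ S}

theorem simple_mem {S : H} (hS : Simple S) : k.κ S ∈ V k :=
  AddSubgroup.subset_closure ⟨S, hS, rfl⟩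

theorem FL_mem {X : H} (h : FL X) : k.κ X ∈ V k := by
  induction h with
  | zero h =>
    rw [kappa_zero k h]
    exact zero_mem _
  | ext i p w₀ hS _ hsimple ih =>
    have h1 := k.add _ hS
    exact h1 ▸ add_mem ih (simple_mem k hsimple)

theorem FL_simple {S : H} (hS : Simple S) : FL S := by
  have hS' : (ShortComplex.mk (0 : (0 : H) ⟶ S) (𝟙 S) (by simp)).ShortExact :=
    { exact := by
        rw [ShortComplex.exact_iff_mono _ rfl]
        change Mono (𝟙 S)
        infer_instance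
      mono_f := (isZero_zero H).mono _
      epi_g := by
        change Epi (𝟙 S)
        infer_instance }
  exact FL.ext _ _ _ hS' (FL.zero (isZero_zero H)) hS

theorem tau_ses (C : ShortComplex H) (hC : C.ShortExact) :
    k.κ (𝒮.ta C.X₂) = k.κ (𝒮.ta C.X₁) + k.κ (𝒮.ta C.X₃) := by
  have := 𝒮.add
  have h := hC.map_of_exact 𝒮.τ.functor
  exact k.add _ h

theorem tau_FL_mem {X : H} (h : FL X) : k.κ (𝒮.ta X) ∈ V k := by
  have := 𝒮.add
  induction h with
  | zero h =>
    rw [kappa_zero k (𝒮.τ.functor.map_isZero h)]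
    exact zero_mem _
  | ext i p w₀ hS _ hsimple ih =>
    have h1 := tau_ses 𝒮 k _ hS
    exact h1 ▸ add_mem ih (simple_mem k (𝒮.simple_ta hsimple))

/-- the claim for one object. -/
def P (X : H) : Prop := k.κ (𝒮.ta X) - k.κ X ∈ V k

theorem P_of_FL {X : H} (h : FL X) : P 𝒮 k X := sub_mem (tau_FL_mem 𝒮 k h) (FL_mem k h)

theorem P_of_ses (C : ShortComplex H) (hC : C.ShortExact) (h1 : P 𝒮 k C.X₁) (h3 : P 𝒮 k C.X₃) :
    P 𝒮 k C.X₂ := by
  unfold P at *
  rw [tau_ses 𝒮 k C hC, k.add C hC]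
  have e : k.κ (𝒮.ta C.X₁) + k.κ (𝒮.ta C.X₃) - (k.κ C.X₁ + k.κ C.X₃) =
    (k.κ (𝒮.ta C.X₁) - k.κ C.X₁) + (k.κ (𝒮.ta C.X₃) - k.κ C.X₃) := by abel
  rw [e]
  exact add_mem h1 h3

/-- the vectors of the functionals `rk S`. -/
def vecs : Set (I → ℤ) := {v | ∃ S : H, Simple S ∧ v = k.G.mulVec (𝒮.wcl k S)}

theorem exists_fin : ∃ s : Finset (I → ℤ), ↑s ⊆ vecs 𝒮 k ∧
    Submodule.span ℤ (vecs 𝒮 k) = Submodule.span ℤ (s : Set (I → ℤ)) :=
  (Submodule.fg_span_iff_fg_span_finset_subset _).1 (IsNoetherian.noetherian _)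

/-- sum of the finitely many functionals. -/
noncomputable def r (s : Finset (I → ℤ)) (X : H) : ℤ := ∑ v ∈ s, dotProduct (k.κ X) v

theorem r_add (s : Finset (I → ℤ)) (C : ShortComplex H) (hC : C.ShortExact) :
    r k s C.X₂ = r k s C.X₁ + r k s C.X₃ := by
  unfold r
  rw [← Finset.sum_add_distrib]
  refine Finset.sum_congr rfl fun v _ => ?_
  rw [k.add C hC, add_dotProduct]

section

variable {s : Finset (I → ℤ)} (hs : ↑s ⊆ vecs 𝒮 k)
include hs

theorem r_tau (X : H) : r k s (𝒮.ta X) = r k s X := by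
  refine Finset.sum_congr rfl fun v hv => ?_
  obtain ⟨S, hS, rfl⟩ := hs hv
  rw [← 𝒮.rk_eq, ← 𝒮.rk_eq]
  exact 𝒮.rk_tau k hS X

theorem r_FL {X : H} (h : FL X) : r k s X = 0 := by
  refine Finset.sum_eq_zero fun v hv => ?_
  obtain ⟨S, hS, rfl⟩ := hs hv
  rw [← 𝒮.rk_eq]
  exact 𝒮.rk_FL k hS h

end

theorem dot_wcl {S : H} (hS : Simple S) {S' : H} (hS' : Simple S') :
    dotProduct (𝒮.wcl k S) (k.G.mulVec (𝒮.wcl k S')) = 0 := by
  rw [Serre.wcl, sum_dotProduct]
  refine Finset.sum_eq_zero fun j _ => ?_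
  rw [← 𝒮.rk_eq]
  exact 𝒮.rk_FL k hS' (FL_simple (𝒮.simple_tauPow hS j))

include k in
/-- `rk S X ≥ dim Hom(X, S)` for `X` without simple subobjects. -/
theorem rk_ge {X : H} (hX : ∀ S : H, Simple S → Z0 S X) {S : H} (hS : Simple S) :
    (h0 K X S : ℤ) ≤ 𝒮.rk S X := by
  have hp := (𝒮.period_spec k hS).1
  unfold Serre.rk
  have h1 : ∀ j ∈ Finset.range (𝒮.period S), 0 ≤ chi K X (𝒮.tauPow j S) := by
    intro j _
    rw [(𝒮.chi_noSimple hX (𝒮.simple_tauPow hS j)).1]
    exact Int.natCast_nonneg _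
  have h2 := Finset.single_le_sum h1 (Finset.mem_range.2 hp)
  refine le_trans (le_of_eq ?_) h2
  have h3 : 𝒮.tauPow 0 S = S := rfl
  rw [h3, (𝒮.chi_noSimple hX hS).1]

theorem dot_nonneg {X : H} (hX : ∀ S : H, Simple S → Z0 S X) {v : I → ℤ} (hv : v ∈ vecs 𝒮 k) :
    0 ≤ dotProduct (k.κ X) v := by
  obtain ⟨S, hS, rfl⟩ := hv
  rw [← 𝒮.rk_eq]
  exact (Int.natCast_nonneg _).trans (rk_ge 𝒮 k hX hS)

theorem r_nonneg {s : Finset (I → ℤ)} (hs : ↑s ⊆ vecs 𝒮 k) {X : H}
    (hX : ∀ S : H, Simple S → Z0 S X) : 0 ≤ r k s X :=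
  Finset.sum_nonneg fun _ hv => dot_nonneg 𝒮 k hX (hs hv)

theorem isZero_of_r {s : Finset (I → ℤ)} (hs : ↑s ⊆ vecs 𝒮 k)
    (hs' : Submodule.span ℤ (vecs 𝒮 k) = Submodule.span ℤ (s : Set (I → ℤ))) {X : H}
    (hX : ∀ S : H, Simple S → Z0 S X) (h : r k s X ≤ 0) : IsZero X := by
  have hr0 : r k s X = 0 := le_antisymm h (r_nonneg 𝒮 k hs hX)
  have h1 : ∀ v ∈ s, dotProduct (k.κ X) v = 0 :=
    (Finset.sum_eq_zero_iff_of_nonneg fun v hv => dot_nonneg 𝒮 k hX (hs hv)).1 hr0
  have h2 : ∀ v ∈ Submodule.span ℤ (s : Set (I → ℤ)), dotProduct (k.κ X) v = 0 := by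
    intro v hv
    induction hv using Submodule.span_induction with
    | mem v hv => exact h1 v hv
    | zero => exact dotProduct_zero _
    | add a b _ _ ha hb => rw [dotProduct_add, ha, hb, add_zero]
    | smul c a _ ha => rw [dotProduct_smul, ha, smul_zero]
  by_contra hc
  obtain ⟨S, p, hS, hp⟩ := exists_simple_quot K hc
  have h3 : 𝒮.rk S X = 0 := by
    rw [𝒮.rk_eq k]
    refine h2 _ ?_
    rw [← hs']
    exact Submodule.subset_span ⟨S, hS, rfl⟩
  have h4 := rk_ge 𝒮 k hX hS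
  rw [h3] at h4
  have h5 : h0 K X S = 0 := by omega
  have h6 : p = 0 := (h0_eq_zero K).1 h5 p
  have h7 : 𝟙 S = 0 := by
    have := hp
    apply (cancel_epi p).1
    rw [h6, zero_comp, zero_comp]
  exact Simple.not_isZero S ((IsZero.iff_id_eq_zero S).2 h7)

/-- `N` twists. -/
theorem twists {S : H} (hS : Simple S) {X : H} (hX : ∀ S : H, Simple S → Z0 S X)
    (h : 0 < 𝒮.rk S X) (N : ℕ) : ∃ X' : H, (∀ S : H, Simple S → Z0 S X') ∧
      k.κ X' = k.κ X + (N : ℤ) • 𝒮.wcl k S := by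
  induction N with
  | zero =>
    refine ⟨X, hX, ?_⟩
    simp
  | succ N ih =>
    obtain ⟨X', hX', he⟩ := ih
    have h1 : 𝒮.rk S X' = 𝒮.rk S X := by
      rw [𝒮.rk_eq k, 𝒮.rk_eq k, he, add_dotProduct, smul_dotProduct, dot_wcl 𝒮 k hS hS, smul_zero,
        add_zero]
    obtain ⟨X'', hX'', he'⟩ := 𝒮.twist k hS hX' (h1 ▸ h)
    refine ⟨X'', hX'', ?_⟩
    rw [he', he, add_assoc]
    congr 1
    push_cast
    rw [add_smul, one_smul]

/-- the case where the functional takes its least positive value. -/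
theorem P_of_min {s : Finset (I → ℤ)} (hs : ↑s ⊆ vecs 𝒮 k)
    (hs' : Submodule.span ℤ (vecs 𝒮 k) = Submodule.span ℤ (s : Set (I → ℤ))) {X : H}
    (hX : ∀ S : H, Simple S → Z0 S X) (hX0 : ¬ IsZero X)
    (hmin : ∀ (Y : H) (f : Y ⟶ X), Mono f → ¬ IsZero Y → r k s X ≤ r k s Y) : P 𝒮 k X := by
  obtain ⟨S, p, hS, hp⟩ := exists_simple_quot K hX0
  have hrk : 0 < 𝒮.rk S X := by
    have h4 := rk_ge 𝒮 k hX hS
    have h5 : h0 K X S ≠ 0 := by
      intro h5
      have h6 : p = 0 := (h0_eq_zero K).1 h5 p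
      have h7 : 𝟙 S = 0 := by
        have := hp
        apply (cancel_epi p).1
        rw [h6, zero_comp, zero_comp]
      exact Simple.not_isZero S ((IsZero.iff_id_eq_zero S).2 h7)
    omega
  have hrk' : 0 < 𝒮.rk S (𝒮.ta X) := by rwa [𝒮.rk_tau k hS]
  obtain ⟨L, hL, hLk⟩ := twists 𝒮 k hS (𝒮.noSimple_ta hX) hrk' ((chi K X (𝒮.ta X)).natAbs + 1)
  have hchi : 0 < chi K X L := by
    rw [k.chi_eq, hLk, Matrix.mulVec_add, Matrix.mulVec_smul, dotProduct_add, dotProduct_smul,
      ← k.chi_eq, ← 𝒮.rk_eq, smul_eq_mul]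
    push_cast
    have h1 : -((chi K X (𝒮.ta X)).natAbs : ℤ) ≤ chi K X (𝒮.ta X) := by omega
    have h2 : (((chi K X (𝒮.ta X)).natAbs : ℤ) + 1) * 1 ≤
        (((chi K X (𝒮.ta X)).natAbs : ℤ) + 1) * 𝒮.rk S X :=
      mul_le_mul_of_nonneg_left hrk (by omega)
    push_cast at h1 h2
    linarith
  have hne : ¬ Z0 X L := by
    intro h
    have h1 := (h0_eq_zero K).2 h
    unfold chi at hchi
    omega
  unfold Z0 at hne
  push Not at hne
  obtain ⟨f, hf⟩ := hne
  obtain ⟨N, J, Q, i, π, ι, q, w₁, w₂, S₁, S₂, hfac⟩ := factor f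
  have mi : Mono i := S₁.mono_f
  have mι : Mono ι := S₂.mono_f
  have hJ : ∀ S : H, Simple S → Z0 S J := noSimple_sub ι hL
  have hJ0 : ¬ IsZero J := by
    intro h
    apply hf
    rw [← hfac, h.eq_of_src ι 0, comp_zero]
  have hrJ : 0 < r k s J := by
    by_contra hc
    exact hJ0 (isZero_of_r 𝒮 k hs hs' hJ (not_lt.1 hc))
  have e1 := r_add k s _ S₁
  have e2 := r_add k s _ S₂
  change r k s X = r k s N + r k s J at e1
  change r k s L = r k s J + r k s Q at e2
  have hN0 : IsZero N := by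
    by_contra hc
    have := hmin N i mi hc
    omega
  have e3 : r k s N = 0 := by
    unfold r
    refine Finset.sum_eq_zero fun v _ => ?_
    rw [kappa_zero k hN0, zero_dotProduct]
  have e4 : r k s L = r k s (𝒮.ta X) := by
    refine Finset.sum_congr rfl fun v hv => ?_
    obtain ⟨S', hS', rfl⟩ := hs hv
    rw [hLk, add_dotProduct, smul_dotProduct, dot_wcl 𝒮 k hS hS', smul_zero, add_zero]
  have e5 := r_tau 𝒮 k hs X
  have e6 : r k s Q = 0 := by omega
  -- `Q` has finite length up to zero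
  obtain ⟨A, B, i', p', w₀, hAB, hA, hB⟩ := torsion K Q
  have e7 := r_add k s _ hAB
  change r k s Q = r k s A + r k s B at e7
  have e8 : IsZero B := by
    refine isZero_of_r 𝒮 k hs hs' hB ?_
    have := r_FL 𝒮 k hs hA
    omega
  have hQ : k.κ Q ∈ V k := by
    have h1 := k.add _ hAB
    change k.κ Q = k.κ A + k.κ B at h1
    rw [h1, kappa_zero k e8, add_zero]
    exact FL_mem k hA
  have k1 := k.add _ S₁
  have k2 := k.add _ S₂
  change k.κ X = k.κ N + k.κ J at k1
  change k.κ L = k.κ J + k.κ Q at k2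
  rw [kappa_zero k hN0, zero_add] at k1
  have hw : 𝒮.wcl k S ∈ V k := by
    rw [Serre.wcl]
    exact sum_mem fun j _ => simple_mem k (𝒮.simple_tauPow hS j)
  have hfin : k.κ (𝒮.ta X) - k.κ X = k.κ Q -
      (((chi K X (𝒮.ta X)).natAbs + 1 : ℕ) : ℤ) • 𝒮.wcl k S := by
    rw [k1]
    rw [k2] at hLk
    rw [eq_sub_iff_add_eq, sub_add_eq_add_sub, ← hLk]
    abel
  unfold P
  rw [hfin]
  exact sub_mem hQ (zsmul_mem hw _)

end Rank

namespace Serre

open Rank

theorem tau_sub (X : H) : k.κ (𝒮.ta X) - k.κ X ∈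
    AddSubgroup.closure {c | ∃ S : H, Simple S ∧ c = k.κ S} := by
  obtain ⟨s, hs, hs'⟩ := exists_fin 𝒮 k
  have main : ∀ (n : ℕ) (X : H), r k s X < n → P 𝒮 k X := by
    intro n
    induction n with
    | zero =>
      intro X hX
      exfalso
      obtain ⟨A, B, i', p', w₀, hAB, hA, hB⟩ := torsion K X
      have e7 := r_add k s _ hAB
      change r k s X = r k s A + r k s B at e7
      have e8 := r_FL 𝒮 k hs hA
      have e9 := r_nonneg 𝒮 k hs hB
      push_cast at hX
      omega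
    | succ n ih =>
      intro X hX
      obtain ⟨A, B, i', p', w₀, hAB, hA, hB⟩ := torsion K X
      have e7 := r_add k s _ hAB
      change r k s X = r k s A + r k s B at e7
      have e8 := r_FL 𝒮 k hs hA
      refine P_of_ses 𝒮 k _ hAB (P_of_FL 𝒮 k hA) ?_
      change P 𝒮 k B
      by_cases hB0 : IsZero B
      · exact P_of_FL 𝒮 k (FL.zero hB0)
      by_cases hsub : ∃ (Y : H) (f : Y ⟶ B), Mono f ∧ ¬ IsZero Y ∧ r k s Y < r k s B
      · obtain ⟨Y, f, hf, hY0, hY⟩ := hsub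
        have hS : (ShortComplex.mk f (cokernel.π f) (cokernel.condition f)).ShortExact :=
          { exact := ShortComplex.exact_cokernel f
            mono_f := hf
            epi_g := inferInstanceAs (Epi (cokernel.π f)) }
        have hYs : ∀ S : H, Simple S → Z0 S Y := noSimple_sub f hB
        have hrY : 0 < r k s Y := by
          by_contra hc
          exact hY0 (isZero_of_r 𝒮 k hs hs' hYs (not_lt.1 hc))
        have e9 := r_add k s _ hS
        change r k s B = r k s Y + r k s (cokernel f) at e9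
        push_cast at hX
        refine P_of_ses 𝒮 k _ hS (ih Y (by omega)) (ih (cokernel f) (by omega))
      · refine P_of_min 𝒮 k hs hs' hB hB0 fun Y f hf hY0 => ?_
        by_contra hc
        exact hsub ⟨Y, f, hf, hY0, not_le.1 hc⟩
  exact main ((r k s X).toNat + 1) X (by push_cast; omega)

end Serre

end Pool.Agent.WQ
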