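import Pool.Agent.WQ.Ses

/-!
# WQ: realisation of classes of degree one (module 3a)

With `HasDerivedCategory.standard`, `e.hom` is a morphism
`(singleFunctor C 0).obj Z ⟶ ((singleFunctor C 0).obj X)⟦1⟧`.  Complete it to a distinguished
triangle `single X → B' → single Z → (single X)⟦1⟧`
(`Pretriangulated.distinguished_cocone_triangle₂`).  `B'` is `IsGE 0` and `IsLE 0` (TStructure), so
`B' ≅ single Y` (`DerivedCategory.exists_iso_singleFunctor_obj_of_isGE_of_isLE`); the maps come from
maps `f, g` of `H` (fully faithful), the homology sequence gives `ShortExact`, and comparing with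
`hS.singleTriangle_distinguished` (`complete_distinguished_triangle_morphism` with identities on
the first two objects; the third map is the identity because `g` is epi) gives `extClass = e`.
-/

set_option autoImplicit false

open CategoryTheory CategoryTheory.Limits CategoryTheory.Abelian

namespace Pool.Agent.WQ

universe t v u w

namespace Yon

open DerivedCategory Pretriangulated

variable {C : Type u} [Category.{v} C] [Abelian C] [HasDerivedCategory.{w} C]

/-- The middle term of a distinguished triangle with outer terms in `C` is in `C`. -/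
theorem exists_middle {X Z : C} {B : DerivedCategory C}
    {f' : (singleFunctor C 0).obj X ⟶ B} {g' : B ⟶ (singleFunctor C 0).obj Z}
    {δ : (singleFunctor C 0).obj Z ⟶ ((singleFunctor C 0).obj X)⟦(1 : ℤ)⟧}
    (hT : Triangle.mk f' g' δ ∈ distTriang (DerivedCategory C)) :
    ∃ Y : C, Nonempty (B ≅ (singleFunctor C 0).obj Y) := by
  have hGE : B.IsGE 0 := by
    rw [isGE_iff]
    intro i hi
    exact (HomologySequence.exact₂ _ hT i).isZero_of_both_zeros
      ((isZero_of_isGE ((singleFunctor C 0).obj X) 0 i hi).eq_of_src _ _)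
      ((isZero_of_isGE ((singleFunctor C 0).obj Z) 0 i hi).eq_of_tgt _ _)
  have hLE : B.IsLE 0 := by
    rw [isLE_iff]
    intro i hi
    exact (HomologySequence.exact₂ _ hT i).isZero_of_both_zeros
      ((isZero_of_isLE ((singleFunctor C 0).obj X) 0 i hi).eq_of_src _ _)
      ((isZero_of_isLE ((singleFunctor C 0).obj Z) 0 i hi).eq_of_tgt _ _)
  exact exists_iso_singleFunctor_obj_of_isGE_of_isLE B 0

/-- A triangle on maps of `C` is distinguished only if the maps form a short exact sequence. -/
theorem shortExact_of_dist {X Y Z : C} {f : X ⟶ Y} {g : Y ⟶ Z}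
    {δ : (singleFunctor C 0).obj Z ⟶ ((singleFunctor C 0).obj X)⟦(1 : ℤ)⟧}
    (hT : Triangle.mk ((singleFunctor C 0).map f) ((singleFunctor C 0).map g) δ ∈
      distTriang (DerivedCategory C)) (w₀ : f ≫ g = 0) :
    (ShortComplex.mk f g w₀).ShortExact := by
  have h2 := HomologySequence.exact₂ _ hT 0
  have hm := (HomologySequence.mono_homologyMap_mor₁_iff _ hT (-1) 0 (by lia)).2
    ((isZero_of_isGE ((singleFunctor C 0).obj Z) 0 (-1) (by lia)).eq_of_src _ _)
  have he := (HomologySequence.epi_homologyMap_mor₂_iff _ hT 0 1 (by lia)).2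
    ((isZero_of_isLE ((singleFunctor C 0).obj X) 0 1 (by lia)).eq_of_tgt _ _)
  have hse : (ShortComplex.mk ((homologyFunctor C 0).map ((singleFunctor C 0).map f))
      ((homologyFunctor C 0).map ((singleFunctor C 0).map g))
      (by simp only [← Functor.map_comp, w₀, Functor.map_zero])).ShortExact :=
    { exact := h2, mono_f := hm, epi_g := he }
  let α := singleFunctorCompHomologyFunctorIso C 0
  refine ShortComplex.shortExact_of_iso
    (ShortComplex.isoMk (α.app X) (α.app Y) (α.app Z) ?_ ?_) hse
  · exact (α.hom.naturality f).symm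
  · exact (α.hom.naturality g).symm

/-- The connecting map of a distinguished triangle on a short exact sequence is `singleδ`. -/
theorem eq_singleδ {X Y Z : C} {f : X ⟶ Y} {g : Y ⟶ Z}
    {δ : (singleFunctor C 0).obj Z ⟶ ((singleFunctor C 0).obj X)⟦(1 : ℤ)⟧}
    (hT : Triangle.mk ((singleFunctor C 0).map f) ((singleFunctor C 0).map g) δ ∈
      distTriang (DerivedCategory C)) (w₀ : f ≫ g = 0)
    (hS : (ShortComplex.mk f g w₀).ShortExact) : δ = hS.singleδ := by
  obtain ⟨c, hc₂, hc₃⟩ := complete_distinguished_triangle_morphism _ _ hT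
    hS.singleTriangle_distinguished (𝟙 ((singleFunctor C 0).obj X)) (𝟙 ((singleFunctor C 0).obj Y))
    ((Category.comp_id _).trans (Category.id_comp _).symm)
  obtain ⟨c₀, rfl⟩ := (singleFunctor C 0).map_surjective c
  have : Epi g := hS.epi_g
  have h1 : (singleFunctor C 0).map (g ≫ c₀) = (singleFunctor C 0).map g := by
    rw [Functor.map_comp]
    exact hc₂.trans (Category.id_comp _)
  have h2 : g ≫ c₀ = g ≫ 𝟙 _ := by
    rw [Category.comp_id]
    exact (singleFunctor C 0).map_injective h1
  have h3 : c₀ = 𝟙 _ := (cancel_epi g).1 h2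
  subst h3
  have h4 : δ ≫ (𝟙 ((singleFunctor C 0).obj X))⟦(1 : ℤ)⟧' =
    (singleFunctor C 0).map (𝟙 Z) ≫ hS.singleδ := hc₃
  rw [CategoryTheory.Functor.map_id, CategoryTheory.Functor.map_id] at h4
  exact (Category.comp_id _).symm.trans (h4.trans (Category.id_comp _))

/-- Every map `single Z ⟶ (single X)⟦1⟧` is the connecting map of a short exact sequence. -/
theorem exists_of_map {X Z : C}
    (δ : (singleFunctor C 0).obj Z ⟶ ((singleFunctor C 0).obj X)⟦(1 : ℤ)⟧) :
    ∃ (Y : C) (f : X ⟶ Y) (g : Y ⟶ Z) (w₀ : f ≫ g = 0)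
      (hS : (ShortComplex.mk f g w₀).ShortExact), hS.singleδ = δ := by
  obtain ⟨B, f', g', hT⟩ := distinguished_cocone_triangle₂ δ
  obtain ⟨Y, ⟨φ⟩⟩ := exists_middle hT
  obtain ⟨f, hf⟩ := (singleFunctor C 0).map_surjective (f' ≫ φ.hom)
  obtain ⟨g, hg⟩ := (singleFunctor C 0).map_surjective (φ.inv ≫ g')
  have hT' : Triangle.mk ((singleFunctor C 0).map f) ((singleFunctor C 0).map g) δ ∈
      distTriang (DerivedCategory C) := by
    rw [hf, hg]
    refine isomorphic_distinguished _ hT _ ?_
    refine Triangle.isoMk _ _ (Iso.refl ((singleFunctor C 0).obj X)) φ.symm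
      (Iso.refl ((singleFunctor C 0).obj Z)) ?_ ?_ ?_
    · change (f' ≫ φ.hom) ≫ φ.inv = 𝟙 ((singleFunctor C 0).obj X) ≫ f'
      rw [Category.assoc, φ.hom_inv_id, Category.comp_id, Category.id_comp]
    · change (φ.inv ≫ g') ≫ 𝟙 ((singleFunctor C 0).obj Z) = φ.inv ≫ g'
      exact Category.comp_id _
    · change δ ≫ (𝟙 ((singleFunctor C 0).obj X))⟦(1 : ℤ)⟧' = 𝟙 ((singleFunctor C 0).obj Z) ≫ δ
      rw [CategoryTheory.Functor.map_id, Category.id_comp]
      exact Category.comp_id _
  have w₀ : f ≫ g = 0 := by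
    apply (singleFunctor C 0).map_injective
    rw [Functor.map_comp, Functor.map_zero]
    exact comp_distTriang_mor_zero₁₂ _ hT'
  have hS := shortExact_of_dist hT' w₀
  exact ⟨Y, f, g, w₀, hS, (eq_singleδ hT' w₀ hS).symm⟩

end Yon

/-- Every class of degree one is the class of a short exact sequence. -/
theorem exists_ses {H : Type u} [Category.{v} H] [Abelian H] [HasExt.{w} H] {X Z : H}
    (e : Ext Z X 1) : ∃ (Y : H) (f : X ⟶ Y) (g : Y ⟶ Z) (w₀ : f ≫ g = 0)
    (hS : (ShortComplex.mk f g w₀).ShortExact), hS.extClass = e := by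
  let := HasDerivedCategory.standard H
  obtain ⟨Y, f, g, w₀, hS, h⟩ := Yon.exists_of_map (C := H) (X := X) (Z := Z) e.hom
  refine ⟨Y, f, g, w₀, hS, ?_⟩
  ext
  rw [hS.extClass_hom]
  exact h

end Pool.Agent.WQ
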