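import Pool.Agent.WQ.Sum
import Pool.Agent.WQ.Yon

/-!
# WQ: universal extensions, approximations (module 3b)

Universal extensions: index set `Σ i, Fin (h1 K (T i) X)` through bases of `Ext¹(T i, X)`
(reindex to `Fin n` with `Fintype.equivFin`), the class in `Ext¹(⨁, X)` with the given restrictions by
`exists_ext_sum_left`, realised by `exists_ses`.  Approximations: bases of `Hom(T i, X)`.
-/

set_option autoImplicit false

open CategoryTheory CategoryTheory.Limits CategoryTheory.Abelian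

namespace Pool.Agent.WQ

attribute [local instance] Abelian.hasFiniteBiproducts

universe t v u w

variable (K : Type t) [Field K] {H : Type u} [Category.{v} H] [Abelian H] [Linear K H]
  [HasExt.{w} H] [Her K H] {I : Type*} [Finite I]

namespace Real

omit [Finite I] in
/-- enumeration of a finite disjoint union -/
theorem enum [Finite I] (d : I → ℕ) : ∃ (n : ℕ) (f : Fin n → I) (m : ∀ k, Fin (d (f k))),
    ∀ s : Σ i, Fin (d i), ∃ k, (⟨f k, m k⟩ : Σ i, Fin (d i)) = s := by
  obtain ⟨n, ⟨σ⟩⟩ := Finite.exists_equiv_fin (Σ i, Fin (d i))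
  exact ⟨n, fun k => (σ.symm k).1, fun k => (σ.symm k).2, fun s => ⟨σ s, σ.symm_apply_apply s⟩⟩

/-- the linear map `u ↦ u e` -/
noncomputable def conn {Y Z X : H} (e : Ext Z X 1) : (Y ⟶ Z) →ₗ[K] Ext Y X 1 where
  toFun u := (Ext.mk₀ u).comp e (zero_add 1)
  map_add' u v := by rw [Ext.mk₀_add, Ext.add_comp]
  map_smul' c u := by rw [Ext.mk₀_smul, Ext.smul_comp, RingHom.id_apply]

/-- the linear map `u ↦ e u` -/
noncomputable def conn' {X Z Y : H} (e : Ext X Z 1) : (Z ⟶ Y) →ₗ[K] Ext X Y 1 where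
  toFun u := e.comp (Ext.mk₀ u) (add_zero 1)
  map_add' u v := by rw [Ext.mk₀_add, Ext.comp_add]
  map_smul' c u := by rw [Ext.mk₀_smul, Ext.comp_smul, RingHom.id_apply]

/-- a linear map whose values contain a basis is surjective -/
theorem surj_of_basis {V W : Type*} [AddCommGroup V] [AddCommGroup W] [Module K V] [Module K W]
    {ι : Type*} (b : Module.Basis ι K W) (φ : V →ₗ[K] W) (h : ∀ i, ∃ v, φ v = b i) (w : W) :
    ∃ v, φ v = w := by
  have : (⊤ : Submodule K W) ≤ LinearMap.range φ := by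
    rw [← b.span_eq, Submodule.span_le]
    rintro _ ⟨i, rfl⟩
    exact h i
  exact this trivial

end Real

include K in
/-- Universal extension of `X` by the `T i`: `0 → X → B → ⨁ T (f k) → 0` such that all classes in
`Ext¹(T i, X)` are connecting classes. -/
theorem univ_ext (T : I → H) (X : H) : ∃ (n : ℕ) (f : Fin n → I) (B : H) (i : X ⟶ B)
    (p : B ⟶ ⨁ fun k => T (f k)) (w₀ : i ≫ p = 0) (hS : (ShortComplex.mk i p w₀).ShortExact),
    (∀ (j : I) (e : Ext (T j) X 1), ∃ u : T j ⟶ ⨁ fun k => T (f k),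
      (Ext.mk₀ u).comp hS.extClass (zero_add 1) = e) ∧ ∀ k, ¬ Z1 (T (f k)) X := by
  obtain ⟨n, f, m, hs⟩ := Real.enum (fun i => h1 K (T i) X)
  obtain ⟨e', he'⟩ := exists_ext_sum_left (X := fun k => T (f k))
    (fun k => Module.finBasis K (Ext (T (f k)) X 1) (m k))
  obtain ⟨B, i, p, w₀, hS, hE⟩ := exists_ses e'
  refine ⟨n, f, B, i, p, w₀, hS, ?_, ?_⟩
  · intro j
    refine Real.surj_of_basis K (Module.finBasis K (Ext (T j) X 1)) (Real.conn K hS.extClass) ?_
    have key : ∀ s : Σ i, Fin (h1 K (T i) X), ∃ v : T s.1 ⟶ ⨁ fun k => T (f k),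
        Real.conn K hS.extClass v = Module.finBasis K (Ext (T s.1) X 1) s.2 := by
      intro s
      obtain ⟨k, rfl⟩ := hs s
      refine ⟨biproduct.ι (fun k => T (f k)) k, ?_⟩
      show (Ext.mk₀ (biproduct.ι (fun k => T (f k)) k)).comp hS.extClass (zero_add 1) = _
      rw [hE]
      exact he' k
    exact fun l => key ⟨j, l⟩
  · intro k hk
    rw [← h1_eq_zero K] at hk
    have := (m k).2
    simp only [hk] at this
    exact absurd this (Nat.not_lt_zero _)

include K in
/-- Universal extension of `X` by the `T i` on the other side: `0 → ⨁ T (f k) → B → X → 0` such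
that all classes in `Ext¹(X, T i)` are connecting classes. -/
theorem univ_coext (T : I → H) (X : H) : ∃ (n : ℕ) (f : Fin n → I) (B : H)
    (i : (⨁ fun k => T (f k)) ⟶ B) (p : B ⟶ X) (w₀ : i ≫ p = 0)
    (hS : (ShortComplex.mk i p w₀).ShortExact),
    (∀ (j : I) (e : Ext X (T j) 1), ∃ u : (⨁ fun k => T (f k)) ⟶ T j,
      hS.extClass.comp (Ext.mk₀ u) (add_zero 1) = e) ∧ ∀ k, ¬ Z1 X (T (f k)) := by
  obtain ⟨n, f, m, hs⟩ := Real.enum (fun i => h1 K X (T i))
  obtain ⟨e', he'⟩ := exists_ext_sum_right (X := fun k => T (f k))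
    (fun k => Module.finBasis K (Ext X (T (f k)) 1) (m k))
  obtain ⟨B, i, p, w₀, hS, hE⟩ := exists_ses e'
  refine ⟨n, f, B, i, p, w₀, hS, ?_, ?_⟩
  · intro j
    refine Real.surj_of_basis K (Module.finBasis K (Ext X (T j) 1)) (Real.conn' K hS.extClass) ?_
    have key : ∀ s : Σ i, Fin (h1 K X (T i)), ∃ v : (⨁ fun k => T (f k)) ⟶ T s.1,
        Real.conn' K hS.extClass v = Module.finBasis K (Ext X (T s.1) 1) s.2 := by
      intro s
      obtain ⟨k, rfl⟩ := hs s
      refine ⟨biproduct.π (fun k => T (f k)) k, ?_⟩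
      show hS.extClass.comp (Ext.mk₀ (biproduct.π (fun k => T (f k)) k)) (add_zero 1) = _
      rw [hE]
      exact he' k
    exact fun l => key ⟨j, l⟩
  · intro k hk
    rw [← h1_eq_zero K] at hk
    have := (m k).2
    simp only [hk] at this
    exact absurd this (Nat.not_lt_zero _)

include K in
/-- Right approximation. -/
theorem right_approx (T : I → H) (X : H) : ∃ (n : ℕ) (f : Fin n → I)
    (p : (⨁ fun k => T (f k)) ⟶ X), (∀ (j : I) (u : T j ⟶ X),
      ∃ v : T j ⟶ ⨁ fun k => T (f k), v ≫ p = u) ∧ ∀ k, ¬ Z0 (T (f k)) X := by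
  obtain ⟨n, f, m, hs⟩ := Real.enum (fun i => h0 K (T i) X)
  refine ⟨n, f, biproduct.desc (fun k => Module.finBasis K (T (f k) ⟶ X) (m k)), ?_, ?_⟩
  · intro j
    refine Real.surj_of_basis K (Module.finBasis K (T j ⟶ X)) (Linear.rightComp K (T j) _) ?_
    have key : ∀ s : Σ i, Fin (h0 K (T i) X), ∃ v : T s.1 ⟶ ⨁ fun k => T (f k),
        Linear.rightComp K (T s.1) (biproduct.desc
          (fun k => Module.finBasis K (T (f k) ⟶ X) (m k))) v =
          Module.finBasis K (T s.1 ⟶ X) s.2 := by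
      intro s
      obtain ⟨k, rfl⟩ := hs s
      exact ⟨biproduct.ι (fun k => T (f k)) k, biproduct.ι_desc _ _⟩
    exact fun l => key ⟨j, l⟩
  · intro k hk
    rw [← h0_eq_zero K] at hk
    have := (m k).2
    simp only [hk] at this
    exact absurd this (Nat.not_lt_zero _)

include K in
/-- Left approximation. -/
theorem left_approx (T : I → H) (X : H) : ∃ (n : ℕ) (f : Fin n → I)
    (p : X ⟶ ⨁ fun k => T (f k)), (∀ (j : I) (u : X ⟶ T j),
      ∃ v : (⨁ fun k => T (f k)) ⟶ T j, p ≫ v = u) ∧ ∀ k, ¬ Z0 X (T (f k)) := by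
  obtain ⟨n, f, m, hs⟩ := Real.enum (fun i => h0 K X (T i))
  refine ⟨n, f, biproduct.lift (fun k => Module.finBasis K (X ⟶ T (f k)) (m k)), ?_, ?_⟩
  · intro j
    refine Real.surj_of_basis K (Module.finBasis K (X ⟶ T j)) (Linear.leftComp K (T j) _) ?_
    have key : ∀ s : Σ i, Fin (h0 K X (T i)), ∃ v : (⨁ fun k => T (f k)) ⟶ T s.1,
        Linear.leftComp K (T s.1) (biproduct.lift
          (fun k => Module.finBasis K (X ⟶ T (f k)) (m k))) v =
          Module.finBasis K (X ⟶ T s.1) s.2 := by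
      intro s
      obtain ⟨k, rfl⟩ := hs s
      exact ⟨biproduct.π (fun k => T (f k)) k, biproduct.lift_π _ _⟩
    exact fun l => key ⟨j, l⟩
  · intro k hk
    rw [← h0_eq_zero K] at hk
    have := (m k).2
    simp only [hk] at this
    exact absurd this (Nat.not_lt_zero _)

namespace Real

theorem h0_power {Y : H} (hY : h0 K Y Y = 1) (m : ℕ) : h0 K Y (⨁ fun _ : Fin m => Y) = m := by
  rw [h0_sum_right, Finset.sum_const, Finset.card_univ, Fintype.card_fin, hY, smul_eq_mul, mul_one]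

end Real

/-- Evaluation map for an object `Y` with `End(Y) = K`: `Hom(Y, Y^m) → Hom(Y, X)` bijective. -/
theorem eval_exists {Y : H} (hY : h0 K Y Y = 1) (X : H) : ∃ (m : ℕ)
    (p : (⨁ fun _ : Fin m => Y) ⟶ X), m = h0 K Y X ∧ (∀ u : Y ⟶ X, ∃ v, v ≫ p = u) ∧
      ∀ v : Y ⟶ ⨁ fun _ : Fin m => Y, v ≫ p = 0 → v = 0 := by
  let p : (⨁ fun _ : Fin (h0 K Y X) => Y) ⟶ X := biproduct.desc (Module.finBasis K (Y ⟶ X))
  have hsurj : ∀ u : Y ⟶ X, ∃ v, v ≫ p = u := by
    refine Real.surj_of_basis K (Module.finBasis K (Y ⟶ X)) (Linear.rightComp K Y p) ?_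
    exact fun k => ⟨biproduct.ι (fun _ => Y) k, biproduct.ι_desc _ _⟩
  refine ⟨h0 K Y X, p, rfl, hsurj, ?_⟩
  have hinj : Function.Injective (Linear.rightComp K Y p) := by
    rw [LinearMap.injective_iff_surjective_of_finrank_eq_finrank]
    · exact fun u => hsurj u
    · exact Real.h0_power K hY _
  intro v hv
  refine hinj ?_
  rw [map_zero]
  exact hv

/-- Universal extension for an object `Y` with `End(Y) = K`: `Hom(Y, Y^m) → Ext¹(Y, X)`
bijective. -/
theorem univ_ext_one {Y : H} (hY : h0 K Y Y = 1) (X : H) : ∃ (m : ℕ) (B : H) (i : X ⟶ B)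
    (p : B ⟶ ⨁ fun _ : Fin m => Y) (w₀ : i ≫ p = 0) (hS : (ShortComplex.mk i p w₀).ShortExact),
    m = h1 K Y X ∧ (∀ e : Ext Y X 1, ∃ u : Y ⟶ ⨁ fun _ : Fin m => Y,
      (Ext.mk₀ u).comp hS.extClass (zero_add 1) = e) ∧
    ∀ u : Y ⟶ ⨁ fun _ : Fin m => Y, (Ext.mk₀ u).comp hS.extClass (zero_add 1) = 0 → u = 0 := by
  obtain ⟨e', he'⟩ := exists_ext_sum_left (X := fun _ : Fin (h1 K Y X) => Y)
    (fun k => Module.finBasis K (Ext Y X 1) k)
  obtain ⟨B, i, p, w₀, hS, hE⟩ := exists_ses e'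
  have hsurj : ∀ e : Ext Y X 1, ∃ u : Y ⟶ ⨁ fun _ : Fin (h1 K Y X) => Y,
      Real.conn K hS.extClass u = e := by
    refine Real.surj_of_basis K (Module.finBasis K (Ext Y X 1)) (Real.conn K hS.extClass) ?_
    intro k
    refine ⟨biproduct.ι (fun _ => Y) k, ?_⟩
    show (Ext.mk₀ (biproduct.ι (fun _ => Y) k)).comp hS.extClass (zero_add 1) = _
    rw [hE]
    exact he' k
  refine ⟨h1 K Y X, B, i, p, w₀, hS, rfl, hsurj, ?_⟩
  have hinj : Function.Injective (Real.conn K hS.extClass (Y := Y)) := by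
    rw [LinearMap.injective_iff_surjective_of_finrank_eq_finrank]
    · exact fun u => hsurj u
    · exact Real.h0_power K hY _
  intro v hv
  refine hinj ?_
  rw [map_zero]
  exact hv

end Pool.Agent.WQ
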