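import Pool.Agent.WQ.Defs

/-!
# WQ: short exact sequences and Ext (module 1)

`Z0 X Y`, `Z1 X Y`: vanishing of `Hom(X, Y)`, `Ext¹(X, Y)`; `h0`, `h1`: dimensions; `chi`: Euler form.
Everything follows from `Ext.covariant_sequence_exact₁ .. ₃`, `Ext.contravariant_sequence_exact₁ .. ₃`
(`Mathlib/Algebra/Homology/DerivedCategory/Ext/ExactSequences.lean`) and `Ext² = 0`.
For `chi_cov`: rank-nullity along
`0 → Hom(W,X₁) → Hom(W,X₂) → Hom(W,X₃) → Ext¹(W,X₁) → Ext¹(W,X₂) → Ext¹(W,X₃) → 0`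
(use `Ext.linearEquiv₀`, `Ext.postcompOfLinear`, `Ext.precompOfLinear`).
-/

set_option autoImplicit false

open CategoryTheory CategoryTheory.Limits CategoryTheory.Abelian

namespace Pool.Agent.WQ

universe t v u w

section defs

variable {H : Type u} [Category.{v} H] [Abelian H] [HasExt.{w} H]

/-- `Hom(X, Y) = 0`. -/
def Z0 (X Y : H) : Prop := ∀ f : X ⟶ Y, f = 0

/-- `Ext¹(X, Y) = 0`. -/
def Z1 (X Y : H) : Prop := ∀ e : Ext X Y 1, e = 0

variable (K : Type t) [Field K] [Linear K H]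

/-- `dim Hom(X, Y)`. -/
noncomputable def h0 (X Y : H) : ℕ := Module.finrank K (X ⟶ Y)

/-- `dim Ext¹(X, Y)`. -/
noncomputable def h1 (X Y : H) : ℕ := Module.finrank K (Ext X Y 1)

/-- Euler form. -/
noncomputable def chi (X Y : H) : ℤ := (h0 K X Y : ℤ) - h1 K X Y

end defs

variable (K : Type t) [Field K] {H : Type u} [Category.{v} H] [Abelian H] [Linear K H]
  [HasExt.{w} H] [Her K H]

instance instFinHom (X Y : H) : Module.Finite K (X ⟶ Y) := Her.finHom X Y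

instance instFinExt (X Y : H) : Module.Finite K (Ext X Y 1) := Her.finExt X Y

/-! ### auxiliary lemmas -/

namespace Ses

/-- alternating sum of dimensions along a six term exact sequence -/
theorem six {K A₁ A₂ A₃ B₁ B₂ B₃ : Type*} [Field K] [AddCommGroup A₁] [AddCommGroup A₂]
    [AddCommGroup A₃] [AddCommGroup B₁] [AddCommGroup B₂] [AddCommGroup B₃] [Module K A₁]
    [Module K A₂] [Module K A₃] [Module K B₁] [Module K B₂] [Module K B₃] [Module.Finite K A₁]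
    [Module.Finite K A₂] [Module.Finite K A₃] [Module.Finite K B₁] [Module.Finite K B₂]
    [Module.Finite K B₃] (f₁ : A₁ →ₗ[K] A₂) (g₁ : A₂ →ₗ[K] A₃) (δ : A₃ →ₗ[K] B₁)
    (f₂ : B₁ →ₗ[K] B₂) (g₂ : B₂ →ₗ[K] B₃) (h1 : ∀ x, f₁ x = 0 → x = 0)
    (h2 : ∀ x, g₁ x = 0 ↔ ∃ y, f₁ y = x) (h3 : ∀ x, δ x = 0 ↔ ∃ y, g₁ y = x)
    (h4 : ∀ x, f₂ x = 0 ↔ ∃ y, δ y = x) (h5 : ∀ x, g₂ x = 0 ↔ ∃ y, f₂ y = x)
    (h6 : ∀ x, ∃ y, g₂ y = x) :
    ((Module.finrank K A₂ : ℤ) - Module.finrank K B₂) =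
      ((Module.finrank K A₁ : ℤ) - Module.finrank K B₁) +
        ((Module.finrank K A₃ : ℤ) - Module.finrank K B₃) := by
  have e1 : LinearMap.ker f₁ = ⊥ := by
    rw [LinearMap.ker_eq_bot']
    exact h1
  have e2 : LinearMap.ker g₁ = LinearMap.range f₁ := by
    ext x
    rw [LinearMap.mem_ker, LinearMap.mem_range]
    exact h2 x
  have e3 : LinearMap.ker δ = LinearMap.range g₁ := by
    ext x
    rw [LinearMap.mem_ker, LinearMap.mem_range]
    exact h3 x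
  have e4 : LinearMap.ker f₂ = LinearMap.range δ := by
    ext x
    rw [LinearMap.mem_ker, LinearMap.mem_range]
    exact h4 x
  have e5 : LinearMap.ker g₂ = LinearMap.range f₂ := by
    ext x
    rw [LinearMap.mem_ker, LinearMap.mem_range]
    exact h5 x
  have e6 : LinearMap.range g₂ = ⊤ := by
    rw [LinearMap.range_eq_top]
    exact h6
  have r1 := LinearMap.finrank_range_add_finrank_ker f₁
  have r2 := LinearMap.finrank_range_add_finrank_ker g₁
  have r3 := LinearMap.finrank_range_add_finrank_ker δ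
  have r4 := LinearMap.finrank_range_add_finrank_ker f₂
  have r5 := LinearMap.finrank_range_add_finrank_ker g₂
  rw [e1, finrank_bot] at r1
  rw [e2] at r2
  rw [e3] at r3
  rw [e4] at r4
  rw [e5, e6, finrank_top] at r5
  omega

variable (K : Type t) [Field K] {H : Type u} [Category.{v} H] [Abelian H] [Linear K H]
  [HasExt.{w} H]

theorem h0_eq (X Y : H) : Module.finrank K (Ext X Y 0) = h0 K X Y :=
  LinearEquiv.finrank_eq Ext.linearEquiv₀

theorem fin0 [Her K H] (X Y : H) : Module.Finite K (Ext X Y 0) :=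
  Module.Finite.equiv (Ext.linearEquiv₀ (R := K) (X := X) (Y := Y)).symm

end Ses

theorem h0_eq_zero {X Y : H} : h0 K X Y = 0 ↔ Z0 X Y := by
  rw [h0, Module.finrank_zero_iff, subsingleton_iff_forall_eq 0]
  rfl

theorem h1_eq_zero {X Y : H} : h1 K X Y = 0 ↔ Z1 X Y := by
  rw [h1, Module.finrank_zero_iff, subsingleton_iff_forall_eq 0]
  rfl

/-! ### invariance under isomorphisms -/

theorem Z0.of_iso {X Y X' Y' : H} (e : X ≅ X') (e' : Y ≅ Y') (h : Z0 X Y) : Z0 X' Y' := by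
  intro f
  have h1 := h (e.hom ≫ f ≫ e'.inv)
  have h2 : f = e.inv ≫ (e.hom ≫ f ≫ e'.inv) ≫ e'.hom := by simp
  rw [h2, h1]
  simp

theorem Z1.of_iso {X Y X' Y' : H} (e : X ≅ X') (e' : Y ≅ Y') (h : Z1 X Y) : Z1 X' Y' := by
  intro x
  have h1 := h ((Ext.mk₀ e.hom).comp (x.comp (Ext.mk₀ e'.inv) (add_zero 1)) (zero_add 1))
  have h2 : x = (Ext.mk₀ e.inv).comp (((Ext.mk₀ e.hom).comp
      (x.comp (Ext.mk₀ e'.inv) (add_zero 1)) (zero_add 1)).comp (Ext.mk₀ e'.hom) (add_zero 1))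
      (zero_add 1) := by
    simp only [Ext.comp_assoc_of_third_deg_zero, Ext.mk₀_comp_mk₀, Iso.inv_hom_id,
      Ext.comp_mk₀_id]
    rw [Ext.mk₀_comp_mk₀_assoc, Iso.inv_hom_id, Ext.mk₀_id_comp]
  rw [h2, h1, Ext.zero_comp, Ext.comp_zero]

theorem h0_iso {X Y X' Y' : H} (e : X ≅ X') (e' : Y ≅ Y') : h0 K X Y = h0 K X' Y' :=
  LinearEquiv.finrank_eq (Linear.homCongr K e e')

theorem h1_iso {X Y X' Y' : H} (e : X ≅ X') (e' : Y ≅ Y') : h1 K X Y = h1 K X' Y' := by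
  have key : ∀ {X Y X' Y' : H} (e : X ≅ X') (e' : Y ≅ Y'), h1 K X Y ≤ h1 K X' Y' := by
    intro X Y X' Y' e e'
    let φ : Ext X Y 1 →ₗ[K] Ext X' Y' 1 :=
      ((Ext.mk₀ e.inv).precompOfLinear K Y' (zero_add 1)).comp
        ((Ext.mk₀ e'.hom).postcompOfLinear K X (add_zero 1))
    refine LinearMap.finrank_le_finrank_of_injective (f := φ) ?_
    rw [← LinearMap.ker_eq_bot, LinearMap.ker_eq_bot']
    intro x hx
    have h1 : (Ext.mk₀ e.inv).comp (x.comp (Ext.mk₀ e'.hom) (add_zero 1)) (zero_add 1) = 0 := hx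
    have h2 : x = (Ext.mk₀ e.hom).comp (((Ext.mk₀ e.inv).comp
        (x.comp (Ext.mk₀ e'.hom) (add_zero 1)) (zero_add 1)).comp (Ext.mk₀ e'.inv) (add_zero 1))
        (zero_add 1) := by
      simp only [Ext.comp_assoc_of_third_deg_zero, Ext.mk₀_comp_mk₀, Iso.hom_inv_id,
        Ext.comp_mk₀_id]
      rw [Ext.mk₀_comp_mk₀_assoc, Iso.hom_inv_id, Ext.mk₀_id_comp]
    rw [h2, h1, Ext.zero_comp, Ext.comp_zero]
  exact le_antisymm (key e e') (key e.symm e'.symm)

theorem chi_iso {X Y X' Y' : H} (e : X ≅ X') (e' : Y ≅ Y') : chi K X Y = chi K X' Y' := by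
  rw [chi, chi, h0_iso K e e', h1_iso K e e']

/-! ### lifting and extending, elementwise -/

section

variable {S : ShortComplex H} (hS : S.ShortExact) {W : H}
include hS

/-- `u : W → X₃` lifts to `X₂` iff its connecting class vanishes. -/
theorem lift_iff (u : W ⟶ S.X₃) :
    (∃ v : W ⟶ S.X₂, v ≫ S.g = u) ↔ (Ext.mk₀ u).comp hS.extClass (zero_add 1) = 0 := by
  constructor
  · rintro ⟨v, rfl⟩
    rw [← Ext.mk₀_comp_mk₀, Ext.comp_assoc_of_second_deg_zero, hS.comp_extClass, Ext.comp_zero]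
  · intro h
    obtain ⟨x, hx⟩ := Ext.covariant_sequence_exact₃ W hS (Ext.mk₀ u) (zero_add 1) h
    obtain ⟨v, rfl⟩ := (Ext.mk₀_bijective W S.X₂).2 x
    refine ⟨v, (Ext.mk₀_bijective W S.X₃).1 ?_⟩
    rw [← hx, Ext.mk₀_comp_mk₀]

/-- `u : X₁ → W` extends to `X₂` iff its connecting class vanishes. -/
theorem extend_iff (u : S.X₁ ⟶ W) :
    (∃ v : S.X₂ ⟶ W, S.f ≫ v = u) ↔ hS.extClass.comp (Ext.mk₀ u) (add_zero 1) = 0 := by
  constructor
  · rintro ⟨v, rfl⟩
    rw [← Ext.mk₀_comp_mk₀, ← Ext.comp_assoc_of_third_deg_zero, hS.extClass_comp, Ext.zero_comp]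
  · intro h
    obtain ⟨x, hx⟩ := Ext.contravariant_sequence_exact₁ hS W (Ext.mk₀ u) (add_zero 1) h
    obtain ⟨v, rfl⟩ := (Ext.mk₀_bijective S.X₂ W).2 x
    refine ⟨v, (Ext.mk₀_bijective S.X₁ W).1 ?_⟩
    rw [← hx, Ext.mk₀_comp_mk₀]

/-- Classes killed by `f` are connecting classes. -/
theorem conn_of_comp_f (e : Ext W S.X₁ 1) (he : e.comp (Ext.mk₀ S.f) (add_zero 1) = 0) :
    ∃ u : W ⟶ S.X₃, (Ext.mk₀ u).comp hS.extClass (zero_add 1) = e := by
  obtain ⟨x, hx⟩ := Ext.covariant_sequence_exact₁ W hS e he (zero_add 1)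
  obtain ⟨u, rfl⟩ := (Ext.mk₀_bijective W S.X₃).2 x
  exact ⟨u, hx⟩

/-- Classes killed by `g` are connecting classes. -/
theorem conn_of_g_comp (e : Ext S.X₃ W 1) (he : (Ext.mk₀ S.g).comp e (zero_add 1) = 0) :
    ∃ u : S.X₁ ⟶ W, hS.extClass.comp (Ext.mk₀ u) (add_zero 1) = e := by
  obtain ⟨x, hx⟩ := Ext.contravariant_sequence_exact₃ hS W e he (add_zero 1)
  obtain ⟨u, rfl⟩ := (Ext.mk₀_bijective S.X₁ W).2 x
  exact ⟨u, hx⟩

include K in
/-- `Ext¹(W, X₂) → Ext¹(W, X₃)` is surjective. -/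
theorem ext_g_surj (e : Ext W S.X₃ 1) : ∃ e' : Ext W S.X₂ 1,
    e'.comp (Ext.mk₀ S.g) (add_zero 1) = e :=
  Ext.covariant_sequence_exact₃ W hS e (n₁ := 2) rfl (Her.hered K W S.X₁ _)

include K in
/-- `Ext¹(X₂, W) → Ext¹(X₁, W)` is surjective. -/
theorem ext_f_surj (e : Ext S.X₁ W 1) : ∃ e' : Ext S.X₂ W 1,
    (Ext.mk₀ S.f).comp e' (zero_add 1) = e :=
  Ext.contravariant_sequence_exact₁ hS W e (n₁ := 2) rfl (Her.hered K S.X₃ W _)

/-! ### vanishing along short exact sequences, covariant -/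

theorem cov_Z0_1 (h : Z0 W S.X₂) : Z0 W S.X₁ := by
  intro u
  have := hS.mono_f
  rw [← cancel_mono S.f, h (u ≫ S.f), zero_comp]

theorem cov_Z0_2 (h : Z0 W S.X₁) (h' : Z0 W S.X₃) : Z0 W S.X₂ := by
  intro u
  have := hS.mono_f
  rw [← hS.exact.lift_f u (h' _), h (hS.exact.lift u (h' _)), zero_comp]

theorem cov_Z0_3 (h : Z0 W S.X₂) (h' : Z1 W S.X₁) : Z0 W S.X₃ := by
  intro u
  obtain ⟨v, rfl⟩ := (lift_iff hS u).2 (h' _)
  rw [h v, zero_comp]

theorem cov_Z1_1 (h : Z0 W S.X₃) (h' : Z1 W S.X₂) : Z1 W S.X₁ := by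
  intro e
  obtain ⟨u, rfl⟩ := conn_of_comp_f hS e (h' _)
  rw [h u, Ext.mk₀_zero, Ext.zero_comp]

theorem cov_Z1_2 (h : Z1 W S.X₁) (h' : Z1 W S.X₃) : Z1 W S.X₂ := by
  intro e
  obtain ⟨x, rfl⟩ := Ext.covariant_sequence_exact₂ W hS e (h' _)
  rw [h x, Ext.zero_comp]

include K in
theorem cov_Z1_3 (h : Z1 W S.X₂) : Z1 W S.X₃ := by
  intro e
  obtain ⟨x, rfl⟩ := ext_g_surj K hS e
  rw [h x, Ext.zero_comp]

theorem chi_cov : chi K W S.X₂ = chi K W S.X₁ + chi K W S.X₃ := by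
  have := hS.mono_f
  have := Ses.fin0 K W S.X₁
  have := Ses.fin0 K W S.X₂
  have := Ses.fin0 K W S.X₃
  have h := Ses.six (K := K)
    ((Ext.mk₀ S.f).postcompOfLinear K W (add_zero 0) : Ext W S.X₁ 0 →ₗ[K] Ext W S.X₂ 0)
    ((Ext.mk₀ S.g).postcompOfLinear K W (add_zero 0) : Ext W S.X₂ 0 →ₗ[K] Ext W S.X₃ 0)
    (hS.extClass.postcompOfLinear K W (zero_add 1) : Ext W S.X₃ 0 →ₗ[K] Ext W S.X₁ 1)
    ((Ext.mk₀ S.f).postcompOfLinear K W (add_zero 1) : Ext W S.X₁ 1 →ₗ[K] Ext W S.X₂ 1)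
    ((Ext.mk₀ S.g).postcompOfLinear K W (add_zero 1) : Ext W S.X₂ 1 →ₗ[K] Ext W S.X₃ 1)
    (by
      intro x hx
      refine Ext.postcomp_mk₀_injective_of_mono W S.f ?_
      rw [map_zero]
      exact hx)
    (by
      intro x
      constructor
      · exact fun hx => Ext.covariant_sequence_exact₂ W hS x hx
      · rintro ⟨y, rfl⟩
        show (y.comp (Ext.mk₀ S.f) (add_zero 0)).comp (Ext.mk₀ S.g) (add_zero 0) = 0
        rw [Ext.comp_assoc_of_third_deg_zero, Ext.mk₀_comp_mk₀, S.zero, Ext.mk₀_zero,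
          Ext.comp_zero])
    (by
      intro x
      constructor
      · exact fun hx => Ext.covariant_sequence_exact₃ W hS x (zero_add 1) hx
      · rintro ⟨y, rfl⟩
        show (y.comp (Ext.mk₀ S.g) (add_zero 0)).comp hS.extClass (zero_add 1) = 0
        rw [Ext.comp_assoc_of_second_deg_zero, hS.comp_extClass, Ext.comp_zero])
    (by
      intro x
      constructor
      · exact fun hx => Ext.covariant_sequence_exact₁ W hS x hx (zero_add 1)
      · rintro ⟨y, rfl⟩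
        show (y.comp hS.extClass (zero_add 1)).comp (Ext.mk₀ S.f) (add_zero 1) = 0
        rw [Ext.comp_assoc_of_third_deg_zero, hS.extClass_comp, Ext.comp_zero])
    (by
      intro x
      constructor
      · exact fun hx => Ext.covariant_sequence_exact₂ W hS x hx
      · rintro ⟨y, rfl⟩
        show (y.comp (Ext.mk₀ S.f) (add_zero 1)).comp (Ext.mk₀ S.g) (add_zero 1) = 0
        rw [Ext.comp_assoc_of_third_deg_zero, Ext.mk₀_comp_mk₀, S.zero, Ext.mk₀_zero,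
          Ext.comp_zero])
    (fun x => ext_g_surj K hS x)
  rw [Ses.h0_eq, Ses.h0_eq, Ses.h0_eq] at h
  exact h

/-! ### contravariant -/

theorem con_Z0_3 (h : Z0 S.X₂ W) : Z0 S.X₃ W := by
  intro u
  have := hS.epi_g
  rw [← cancel_epi S.g, h (S.g ≫ u), comp_zero]

theorem con_Z0_2 (h : Z0 S.X₁ W) (h' : Z0 S.X₃ W) : Z0 S.X₂ W := by
  intro u
  have := hS.epi_g
  rw [← hS.exact.g_desc u (h _), h' (hS.exact.desc u (h _)), comp_zero]

theorem con_Z0_1 (h : Z0 S.X₂ W) (h' : Z1 S.X₃ W) : Z0 S.X₁ W := by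
  intro u
  obtain ⟨v, rfl⟩ := (extend_iff hS u).2 (h' _)
  rw [h v, comp_zero]

theorem con_Z1_3 (h : Z0 S.X₁ W) (h' : Z1 S.X₂ W) : Z1 S.X₃ W := by
  intro e
  obtain ⟨u, rfl⟩ := conn_of_g_comp hS e (h' _)
  rw [h u, Ext.mk₀_zero, Ext.comp_zero]

theorem con_Z1_2 (h : Z1 S.X₁ W) (h' : Z1 S.X₃ W) : Z1 S.X₂ W := by
  intro e
  obtain ⟨x, rfl⟩ := Ext.contravariant_sequence_exact₂ hS W e (h _)
  rw [h' x, Ext.comp_zero]

include K in
theorem con_Z1_1 (h : Z1 S.X₂ W) : Z1 S.X₁ W := by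
  intro e
  obtain ⟨x, rfl⟩ := ext_f_surj K hS e
  rw [h x, Ext.comp_zero]

theorem chi_con : chi K S.X₂ W = chi K S.X₁ W + chi K S.X₃ W := by
  have := hS.epi_g
  have := Ses.fin0 K S.X₁ W
  have := Ses.fin0 K S.X₂ W
  have := Ses.fin0 K S.X₃ W
  have h := Ses.six (K := K)
    ((Ext.mk₀ S.g).precompOfLinear K W (zero_add 0) : Ext S.X₃ W 0 →ₗ[K] Ext S.X₂ W 0)
    ((Ext.mk₀ S.f).precompOfLinear K W (zero_add 0) : Ext S.X₂ W 0 →ₗ[K] Ext S.X₁ W 0)
    (hS.extClass.precompOfLinear K W (add_zero 1) : Ext S.X₁ W 0 →ₗ[K] Ext S.X₃ W 1)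
    ((Ext.mk₀ S.g).precompOfLinear K W (zero_add 1) : Ext S.X₃ W 1 →ₗ[K] Ext S.X₂ W 1)
    ((Ext.mk₀ S.f).precompOfLinear K W (zero_add 1) : Ext S.X₂ W 1 →ₗ[K] Ext S.X₁ W 1)
    (by
      intro x hx
      refine Ext.precomp_mk₀_injective_of_epi W S.g ?_
      rw [map_zero]
      exact hx)
    (by
      intro x
      constructor
      · exact fun hx => Ext.contravariant_sequence_exact₂ hS W x hx
      · rintro ⟨y, rfl⟩
        show (Ext.mk₀ S.f).comp ((Ext.mk₀ S.g).comp y (zero_add 0)) (zero_add 0) = 0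
        rw [Ext.mk₀_comp_mk₀_assoc, S.zero, Ext.mk₀_zero, Ext.zero_comp])
    (by
      intro x
      constructor
      · exact fun hx => Ext.contravariant_sequence_exact₁ hS W x (add_zero 1) hx
      · rintro ⟨y, rfl⟩
        show hS.extClass.comp ((Ext.mk₀ S.f).comp y (zero_add 0)) (add_zero 1) = 0
        rw [← Ext.comp_assoc_of_second_deg_zero, hS.extClass_comp, Ext.zero_comp])
    (by
      intro x
      constructor
      · exact fun hx => Ext.contravariant_sequence_exact₃ hS W x hx (add_zero 1)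
      · rintro ⟨y, rfl⟩
        show (Ext.mk₀ S.g).comp (hS.extClass.comp y (add_zero 1)) (zero_add 1) = 0
        exact hS.comp_extClass_assoc y (add_zero 1))
    (by
      intro x
      constructor
      · exact fun hx => Ext.contravariant_sequence_exact₂ hS W x hx
      · rintro ⟨y, rfl⟩
        show (Ext.mk₀ S.f).comp ((Ext.mk₀ S.g).comp y (zero_add 1)) (zero_add 1) = 0
        rw [Ext.mk₀_comp_mk₀_assoc, S.zero, Ext.mk₀_zero, Ext.zero_comp])
    (fun x => ext_f_surj K hS x)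
  rw [Ses.h0_eq, Ses.h0_eq, Ses.h0_eq] at h
  rw [add_comm]
  exact h

end

/-- The short exact sequences of a morphism: kernel, image, cokernel. -/
theorem factor {X Y : H} (f : X ⟶ Y) : ∃ (N I Q : H) (i : N ⟶ X) (π : X ⟶ I) (ι : I ⟶ Y)
    (q : Y ⟶ Q) (w₁ : i ≫ π = 0) (w₂ : ι ≫ q = 0), (ShortComplex.mk i π w₁).ShortExact ∧
    (ShortComplex.mk ι q w₂).ShortExact ∧ π ≫ ι = f := by
  have w₁ : kernel.ι f ≫ Abelian.factorThruImage f = 0 := by
    rw [← cancel_mono (Abelian.image.ι f), Category.assoc, Abelian.image.fac, kernel.condition,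
      zero_comp]
  have w₂ : Abelian.image.ι f ≫ cokernel.π f = 0 := kernel.condition _
  refine ⟨kernel f, Abelian.image f, cokernel f, kernel.ι f, Abelian.factorThruImage f,
    Abelian.image.ι f, cokernel.π f, w₁, w₂, ?_, ?_, Abelian.image.fac f⟩
  · refine ShortComplex.ShortExact.mk' (ShortComplex.exact_of_f_is_kernel _ ?_) ?_ ?_
    · refine KernelFork.IsLimit.ofι _ _ (fun k hk => kernel.lift f k (by
        rw [← Abelian.image.fac f, ← Category.assoc, hk, zero_comp])) ?_ ?_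
      · intro A k hk
        exact kernel.lift_ι _ _ _
      · intro A k hk m hm
        rw [← cancel_mono (kernel.ι f), kernel.lift_ι]
        exact hm
    · exact inferInstanceAs (Mono (kernel.ι f))
    · exact inferInstanceAs (Epi (Abelian.factorThruImage f))
  · refine ShortComplex.ShortExact.mk' (ShortComplex.exact_of_f_is_kernel _ ?_) ?_ ?_
    · exact kernelIsKernel (cokernel.π f)
    · exact inferInstanceAs (Mono (kernel.ι (cokernel.π f)))
    · exact inferInstanceAs (Epi (cokernel.π f))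

end Pool.Agent.WQ
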