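import Pool.Agent.WQ.SerreB

/-!
# WQ: simple objects, finite length, torsion (module 18)

`exists_simple_quot`: a maximal proper subobject of `X` (`IsNoetherianObject`, well-founded `>` on
`Subobject X`); the cokernel is simple.
`torsion`: choose a maximal subobject of `X` among those whose underlying object is `FL`; the quotient has no simple
subobject.
-/

set_option autoImplicit false

open CategoryTheory CategoryTheory.Limits CategoryTheory.Abelian

namespace Pool.Agent.WQ

universe t v u w

/-- Finite length. -/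
inductive FL {H : Type u} [Category.{v} H] [Abelian H] : H → Prop
  | zero {X : H} : IsZero X → FL X
  | ext {A B S : H} (i : A ⟶ B) (p : B ⟶ S) (w₀ : i ≫ p = 0) :
      (ShortComplex.mk i p w₀).ShortExact → FL A → Simple S → FL B

variable (K : Type t) [Field K] {H : Type u} [Category.{v} H] [Abelian H] [Linear K H]
  [HasExt.{w} H] [Her K H]

omit [Linear K H] [HasExt.{w} H] [Her K H] in
/-- the sequence `0 → A → X → X / A → 0` of a subobject -/
theorem Simp.ses (X : H) (A : Subobject X) :
    (ShortComplex.mk A.arrow (cokernel.π A.arrow) (cokernel.condition _)).ShortExact :=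
  { exact := ShortComplex.exact_of_g_is_cokernel _ (cokernelIsCokernel A.arrow)
    mono_f := inferInstanceAs (Mono A.arrow)
    epi_g := inferInstanceAs (Epi (cokernel.π A.arrow)) }

omit [Linear K H] [HasExt.{w} H] [Her K H] in
/-- maximal elements of nonempty sets of subobjects -/
theorem Simp.exists_max (X : H) [IsNoetherianObject X] (P : Set (Subobject X))
    (hP : P.Nonempty) : ∃ A ∈ P, ∀ B ∈ P, A ≤ B → B ≤ A := by
  obtain ⟨A, hA, h⟩ := (wellFounded_gt (α := Subobject X)).has_min P hP
  refine ⟨A, hA, fun B hB hAB => ?_⟩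
  by_contra hc
  exact h B hB (lt_of_le_not_ge hAB hc)

include K in
theorem exists_simple_quot {X : H} (hX : ¬ IsZero X) :
    ∃ (S : H) (p : X ⟶ S), Simple S ∧ Epi p := by
  have hn := Her.noeth K X
  obtain ⟨A, hA, hmax⟩ := Simp.exists_max X {A : Subobject X | A ≠ ⊤} ⟨⊥, by
    intro h
    apply hX
    have h1 : IsIso ((⊥ : Subobject X).arrow) := by
      rw [Subobject.isIso_arrow_iff_eq_top]
      exact h
    rw [Subobject.bot_arrow] at h1
    have h2 := (isIsoZeroEquiv _ _ h1)
    exact (IsZero.iff_id_eq_zero X).2 h2.2⟩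
  refine ⟨cokernel A.arrow, cokernel.π A.arrow, ?_, inferInstance⟩
  apply simple_of_cosimple
  intro Z f hf
  constructor
  · intro hi h0
    have h1 : cokernel.π A.arrow = 0 := by
      rw [← cancel_mono f, h0, comp_zero, comp_zero]
    have h2 : Epi A.arrow := Preadditive.epi_of_cokernel_zero h1
    have h3 : IsIso A.arrow := isIso_of_mono_of_epi _
    exact hA ((Subobject.isIso_arrow_iff_eq_top A).1 h3)
  · intro h0
    set g := cokernel.π A.arrow ≫ f with hg
    have hle : A ≤ Subobject.mk (kernel.ι g) := by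
      refine Subobject.le_mk_of_comm (kernel.lift g A.arrow ?_) (kernel.lift_ι _ _ _)
      rw [hg, ← Category.assoc, cokernel.condition, zero_comp]
    have hne : Subobject.mk (kernel.ι g) ≠ ⊤ := by
      intro h
      have h1 : IsIso (kernel.ι g) := (Subobject.isIso_iff_mk_eq_top _).2 h
      have h2 : g = 0 := by
        rw [← cancel_epi (kernel.ι g), kernel.condition, comp_zero]
      apply h0
      rw [← cancel_epi (cokernel.π A.arrow), comp_zero]
      exact h2
    have hle' := hmax _ hne hle
    have hk : kernel.ι g ≫ cokernel.π A.arrow = 0 := by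
      rw [← Subobject.ofMkLE_arrow hle', Category.assoc, cokernel.condition, comp_zero]
    have hgepi : Epi g := epi_comp _ _
    have h1 : g ≫ Abelian.epiDesc g (cokernel.π A.arrow) hk = cokernel.π A.arrow :=
      Abelian.comp_epiDesc _ _ _
    have h2 : f ≫ Abelian.epiDesc g (cokernel.π A.arrow) hk = 𝟙 _ := by
      rw [← cancel_epi (cokernel.π A.arrow), Category.comp_id, ← Category.assoc]
      exact h1
    have h3 : Mono f := mono_of_mono_fac h2
    exact isIso_of_mono_of_epi f

include K in
theorem torsion (X : H) : ∃ (A B : H) (i : A ⟶ X) (p : X ⟶ B) (w₀ : i ≫ p = 0),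
    (ShortComplex.mk i p w₀).ShortExact ∧ FL A ∧ ∀ S : H, Simple S → Z0 S B := by
  have hn := Her.noeth K X
  obtain ⟨A, hA, hmax⟩ := Simp.exists_max X {A : Subobject X | FL (A : H)} ⟨⊥, by
    apply FL.zero
    refine IsZero.of_iso (isZero_zero H) ?_
    exact Subobject.botCoeIsoZero⟩
  refine ⟨A, cokernel A.arrow, A.arrow, cokernel.π A.arrow, cokernel.condition _, Simp.ses X A,
    hA, ?_⟩
  intro S hS f
  by_contra hf
  have hm : Mono f := mono_of_nonzero_from_simple hf
  -- the preimage of `S`
  have hlift : (0 : (A : H) ⟶ S) ≫ f = A.arrow ≫ cokernel.π A.arrow := by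
    rw [zero_comp, cokernel.condition]
  let a : (A : H) ⟶ pullback f (cokernel.π A.arrow) := pullback.lift 0 A.arrow hlift
  have ha1 : a ≫ pullback.fst f (cokernel.π A.arrow) = 0 := pullback.lift_fst _ _ _
  have ha2 : a ≫ pullback.snd f (cokernel.π A.arrow) = A.arrow := pullback.lift_snd _ _ _
  have hma : Mono a := by
    have : Mono (a ≫ pullback.snd f (cokernel.π A.arrow)) := by rw [ha2]; infer_instance
    exact mono_of_mono a (pullback.snd f (cokernel.π A.arrow))
  have hS' : (ShortComplex.mk a (pullback.fst f (cokernel.π A.arrow)) ha1).ShortExact := by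
    refine ShortComplex.ShortExact.mk' (ShortComplex.exact_of_f_is_kernel _ ?_) hma ?_
    · refine KernelFork.IsLimit.ofι _ _ (fun k hk => Abelian.monoLift A.arrow
        (k ≫ pullback.snd f (cokernel.π A.arrow)) (by
          rw [Category.assoc, ← pullback.condition, ← Category.assoc, hk, zero_comp])) ?_ ?_
      · intro W k hk
        apply pullback.hom_ext
        · rw [Category.assoc, ha1, comp_zero]
          exact hk.symm
        · rw [Category.assoc, ha2]
          exact Abelian.monoLift_comp _ _ _
      · intro W k hk m hm'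
        rw [← cancel_mono a, hm']
        apply pullback.hom_ext
        · rw [Category.assoc, ha1, comp_zero]
          exact hk
        · rw [Category.assoc, ha2]
          exact (Abelian.monoLift_comp _ _ _).symm
    · exact inferInstanceAs (Epi (pullback.fst f (cokernel.π A.arrow)))
  have hFL : FL (pullback f (cokernel.π A.arrow)) := FL.ext _ _ _ hS' hA hS
  have hFL' : FL ((Subobject.mk (pullback.snd f (cokernel.π A.arrow)) : Subobject X) : H) := by
    let e := Subobject.underlyingIso (pullback.snd f (cokernel.π A.arrow))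
    have hc : (a ≫ e.inv) ≫ (e.hom ≫ pullback.fst f (cokernel.π A.arrow)) = 0 := by
      rw [Category.assoc, Iso.inv_hom_id_assoc, ha1]
    refine FL.ext (a ≫ e.inv) (e.hom ≫ pullback.fst f (cokernel.π A.arrow)) hc ?_ hA hS
    refine ShortComplex.shortExact_of_iso ?_ hS'
    exact ShortComplex.isoMk (Iso.refl _) e.symm (Iso.refl _) (by simp) (by simp)
  have hle : A ≤ Subobject.mk (pullback.snd f (cokernel.π A.arrow)) :=
    Subobject.le_mk_of_comm a ha2
  have hle' := hmax _ hFL' hle
  have h0 : pullback.fst f (cokernel.π A.arrow) ≫ f = 0 := by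
    rw [pullback.condition, ← Subobject.ofMkLE_arrow hle', Category.assoc, cokernel.condition,
      comp_zero]
  apply hf
  rw [← cancel_epi (pullback.fst f (cokernel.π A.arrow)), h0, comp_zero]

theorem simple_Z0 {S S' : H} (hS : Simple S) (hS' : Simple S') (h : ¬ Nonempty (S ≅ S')) :
    Z0 S S' := by
  intro f
  by_contra hf
  have := isIso_of_hom_simple hf
  exact h ⟨asIso f⟩

theorem simple_one [IsAlgClosed K] {S : H} (hS : Simple S) : h0 K S S = 1 :=
  finrank_endomorphism_simple_eq_one K S

/-- Subobjects of objects without simple subobjects. -/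
theorem noSimple_sub {X Y : H} (f : X ⟶ Y) [Mono f] (h : ∀ S : H, Simple S → Z0 S Y) :
    ∀ S : H, Simple S → Z0 S X := by
  intro S hS g
  rw [← cancel_mono f, h S hS (g ≫ f), zero_comp]

variable {K}

namespace Serre

variable (𝒮 : Serre K H)

theorem simple_ta {S : H} (hS : Simple S) : Simple (𝒮.ta S) :=
  simple_obj 𝒮.τ.functor S

theorem simple_tauPow {S : H} (hS : Simple S) (n : ℕ) : Simple (𝒮.tauPow n S) := by
  induction n with
  | zero => exact hS
  | succ n ih =>
    unfold tauPow
    rw [Function.iterate_succ_apply']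
    exact 𝒮.simple_ta ih

theorem noSimple_ta {X : H} (h : ∀ S : H, Simple S → Z0 S X) :
    ∀ S : H, Simple S → Z0 S (𝒮.ta X) := by
  intro S hS f
  have h1 : Simple (𝒮.si S) := simple_obj 𝒮.τ.inverse S
  obtain ⟨e⟩ := 𝒮.si_ta X
  have h2 : 𝒮.τ.inverse.map f ≫ e.hom = 0 := h _ h1 _
  have h3 : 𝒮.τ.inverse.map f = 0 := by
    rw [← cancel_mono e.hom, h2, zero_comp]
  exact (𝒮.τ.inverse.map_eq_zero_iff).1 h3

open Classical in
/-- Euler form of two simple objects. -/
theorem chi_simple [IsAlgClosed K] {S S' : H} (hS : Simple S) (hS' : Simple S') :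
    chi K S S' = (if Nonempty (S ≅ S') then 1 else 0) - if Nonempty (𝒮.ta S ≅ S') then 1 else 0 := by
  have key : ∀ {A B : H}, Simple A → Simple B →
      (h0 K A B : ℤ) = if Nonempty (A ≅ B) then 1 else 0 := by
    intro A B hA hB
    split_ifs with h
    · obtain ⟨e⟩ := h
      rw [h0_iso K (Iso.refl A) e.symm, simple_one K hA]
      rfl
    · rw [(h0_eq_zero K).2 (simple_Z0 hA hB h)]
      rfl
  rw [chi, ← 𝒮.h0_tau S S', key hS hS', key hS' (𝒮.simple_ta hS)]
  congr 1
  have : Nonempty (S' ≅ 𝒮.ta S) ↔ Nonempty (𝒮.ta S ≅ S') :=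
    ⟨fun ⟨e⟩ => ⟨e.symm⟩, fun ⟨e⟩ => ⟨e.symm⟩⟩
  simp only [this]

include 𝒮 in
/-- For `X` without simple subobjects `χ(X, S) = dim Hom(X, S)`. -/
theorem chi_noSimple {X S : H} (h : ∀ S : H, Simple S → Z0 S X) (hS : Simple S) :
    chi K X S = h0 K X S ∧ Z1 X S := by
  have h1 : Z1 X S := (𝒮.Z0_tau X S).1 (𝒮.noSimple_ta h S hS)
  refine ⟨?_, h1⟩
  rw [chi, (h1_eq_zero K).2 h1]
  simp

end Serre

end Pool.Agent.WQ
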