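import Pool.Agent.WQ.Ses

/-!
# WQ: finite direct sums (module 2)

`Ext.biproductAddEquiv`, `Ext.addEquivBiproduct` (Mathlib, Ext/Basic.lean); `biproduct.ι`, `π`.
-/

set_option autoImplicit false

open CategoryTheory CategoryTheory.Limits CategoryTheory.Abelian

namespace Pool.Agent.WQ

attribute [local instance] Abelian.hasFiniteBiproducts

universe t v u w

section

variable {H : Type u} [Category.{v} H] [Abelian H] [HasExt.{w} H] {n : ℕ}

theorem Z0_sum_right (W : H) (X : Fin n → H) : Z0 W (⨁ X) ↔ ∀ k, Z0 W (X k) := by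
  constructor
  · intro h k f
    have h1 := h (f ≫ biproduct.ι X k)
    have h2 : f = (f ≫ biproduct.ι X k) ≫ biproduct.π X k := by
      rw [Category.assoc, biproduct.ι_π_self, Category.comp_id]
    rw [h2, h1, zero_comp]
  · intro h f
    apply biproduct.hom_ext
    intro k
    rw [zero_comp]
    exact h k _

theorem Z0_sum_left (W : H) (X : Fin n → H) : Z0 (⨁ X) W ↔ ∀ k, Z0 (X k) W := by
  constructor
  · intro h k f
    have h1 := h (biproduct.π X k ≫ f)
    have h2 : f = biproduct.ι X k ≫ biproduct.π X k ≫ f := by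
      rw [← Category.assoc, biproduct.ι_π_self, Category.id_comp]
    rw [h2, h1, comp_zero]
  · intro h f
    apply biproduct.hom_ext'
    intro k
    rw [comp_zero]
    exact h k _

/-- Ext of a direct sum, first variable. -/
noncomputable def extSumLeft (X : Fin n → H) (W : H) : Ext (⨁ X) W 1 ≃+ ∀ k, Ext (X k) W 1 :=
  Ext.biproductAddEquiv (biproduct.isBilimit X) W 1

/-- Ext of a direct sum, second variable. -/
noncomputable def extSumRight (W : H) (X : Fin n → H) : Ext W (⨁ X) 1 ≃+ ∀ k, Ext W (X k) 1 :=
  Ext.addEquivBiproduct W (biproduct.isBilimit X) 1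

theorem extSumLeft_apply (X : Fin n → H) (W : H) (e : Ext (⨁ X) W 1) (k : Fin n) :
    extSumLeft X W e k = (Ext.mk₀ (biproduct.ι X k)).comp e (zero_add 1) := rfl

theorem extSumRight_apply (W : H) (X : Fin n → H) (e : Ext W (⨁ X) 1) (k : Fin n) :
    extSumRight W X e k = e.comp (Ext.mk₀ (biproduct.π X k)) (add_zero 1) := rfl

theorem Z1_sum_right (W : H) (X : Fin n → H) : Z1 W (⨁ X) ↔ ∀ k, Z1 W (X k) := by
  constructor
  · intro h k e
    have h1 := h ((extSumRight W X).symm (Pi.single k e))
    have h2 := congrArg (extSumRight W X) h1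
    rw [AddEquiv.apply_symm_apply, map_zero] at h2
    have h3 := congrFun h2 k
    rwa [Pi.single_eq_same, Pi.zero_apply] at h3
  · intro h e
    apply (extSumRight W X).injective
    rw [map_zero]
    funext k
    exact h k _

theorem Z1_sum_left (W : H) (X : Fin n → H) : Z1 (⨁ X) W ↔ ∀ k, Z1 (X k) W := by
  constructor
  · intro h k e
    have h1 := h ((extSumLeft X W).symm (Pi.single k e))
    have h2 := congrArg (extSumLeft X W) h1
    rw [AddEquiv.apply_symm_apply, map_zero] at h2
    have h3 := congrFun h2 k
    rwa [Pi.single_eq_same, Pi.zero_apply] at h3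
  · intro h e
    apply (extSumLeft X W).injective
    rw [map_zero]
    funext k
    exact h k _

/-- A class is zero if its restrictions to the summands are. -/
theorem ext_sum_left {W : H} {X : Fin n → H} (e : Ext (⨁ X) W 1)
    (h : ∀ k, (Ext.mk₀ (biproduct.ι X k)).comp e (zero_add 1) = 0) : e = 0 := by
  apply (extSumLeft X W).injective
  rw [map_zero]
  funext k
  exact h k

/-- A class is zero if its projections to the summands are. -/
theorem ext_sum_right {W : H} {X : Fin n → H} (e : Ext W (⨁ X) 1)
    (h : ∀ k, e.comp (Ext.mk₀ (biproduct.π X k)) (add_zero 1) = 0) : e = 0 := by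
  apply (extSumRight W X).injective
  rw [map_zero]
  funext k
  exact h k

/-- Classes on a direct sum with prescribed restrictions. -/
theorem exists_ext_sum_left {W : H} {X : Fin n → H} (e : ∀ k, Ext (X k) W 1) :
    ∃ e' : Ext (⨁ X) W 1, ∀ k, (Ext.mk₀ (biproduct.ι X k)).comp e' (zero_add 1) = e k := by
  refine ⟨(extSumLeft X W).symm e, fun k => ?_⟩
  rw [← extSumLeft_apply, AddEquiv.apply_symm_apply]

/-- Classes with prescribed projections to the summands. -/
theorem exists_ext_sum_right {W : H} {X : Fin n → H} (e : ∀ k, Ext W (X k) 1) :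
    ∃ e' : Ext W (⨁ X) 1, ∀ k, e'.comp (Ext.mk₀ (biproduct.π X k)) (add_zero 1) = e k := by
  refine ⟨(extSumRight W X).symm e, fun k => ?_⟩
  rw [← extSumRight_apply, AddEquiv.apply_symm_apply]

end

section

variable (K : Type t) [Field K] {H : Type u} [Category.{v} H] [Abelian H] [Linear K H]
  [HasExt.{w} H] [Her K H] {n : ℕ}

theorem h0_sum_right (W : H) (X : Fin n → H) : h0 K W (⨁ X) = ∑ k, h0 K W (X k) := by
  have e : (W ⟶ ⨁ X) ≃ₗ[K] ∀ k, (W ⟶ X k) :=
    { toFun := fun f k => f ≫ biproduct.π X k
      map_add' := fun f g => by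
        funext k
        exact Preadditive.add_comp _ _ _ f g _
      map_smul' := fun c f => by
        funext k
        exact Linear.smul_comp _ _ _ c f _
      invFun := fun f => biproduct.lift f
      left_inv := fun f => by
        apply biproduct.hom_ext
        intro k
        rw [biproduct.lift_π]
      right_inv := fun f => by
        funext k
        exact biproduct.lift_π _ _ }
  simp only [h0]
  rw [e.finrank_eq, Module.finrank_pi_fintype]

theorem h0_sum_left (W : H) (X : Fin n → H) : h0 K (⨁ X) W = ∑ k, h0 K (X k) W := by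
  have e : ((⨁ X) ⟶ W) ≃ₗ[K] ∀ k, (X k ⟶ W) :=
    { toFun := fun f k => biproduct.ι X k ≫ f
      map_add' := fun f g => by
        funext k
        exact Preadditive.comp_add _ _ _ _ f g
      map_smul' := fun c f => by
        funext k
        exact Linear.comp_smul _ _ _ _ c f
      invFun := fun f => biproduct.desc f
      left_inv := fun f => by
        apply biproduct.hom_ext'
        intro k
        rw [biproduct.ι_desc]
      right_inv := fun f => by
        funext k
        exact biproduct.ι_desc _ _ }
  simp only [h0]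
  rw [e.finrank_eq, Module.finrank_pi_fintype]

theorem h1_sum_right (W : H) (X : Fin n → H) : h1 K W (⨁ X) = ∑ k, h1 K W (X k) := by
  have e : Ext W (⨁ X) 1 ≃ₗ[K] ∀ k, Ext W (X k) 1 :=
    (extSumRight W X).toLinearEquiv fun c x => by
      funext k
      rw [Pi.smul_apply, extSumRight_apply, extSumRight_apply, Ext.smul_comp]
  simp only [h1]
  rw [e.finrank_eq, Module.finrank_pi_fintype]

theorem h1_sum_left (W : H) (X : Fin n → H) : h1 K (⨁ X) W = ∑ k, h1 K (X k) W := by
  have e : Ext (⨁ X) W 1 ≃ₗ[K] ∀ k, Ext (X k) W 1 :=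
    (extSumLeft X W).toLinearEquiv fun c x => by
      funext k
      rw [Pi.smul_apply, extSumLeft_apply, extSumLeft_apply, Ext.comp_smul]
  simp only [h1]
  rw [e.finrank_eq, Module.finrank_pi_fintype]

theorem chi_sum_right (W : H) (X : Fin n → H) : chi K W (⨁ X) = ∑ k, chi K W (X k) := by
  simp only [chi, h0_sum_right, h1_sum_right]
  push_cast
  rw [Finset.sum_sub_distrib]

theorem chi_sum_left (W : H) (X : Fin n → H) : chi K (⨁ X) W = ∑ k, chi K (X k) W := by
  simp only [chi, h0_sum_left, h1_sum_left]
  push_cast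
  rw [Finset.sum_sub_distrib]

end

end Pool.Agent.WQ
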