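import Pool.Agent.WQ.HR
import Pool.Agent.WQ.Real

/-!
# WQ: cluster tilting families (module 5)

`CT K T`: the internal form of cluster tilting.  (The passage from the definition `IsClusterTilting` is
in `FromC.lean`.)

`orth_zero`: `Q` with `Hom(T,Q) = 0 = Ext¹(T,Q)`: `univ_coext`: `0 → ⨁T → E → Q → 0` with
`Ext¹(E,T) = 0` (all classes of `Ext¹(Q,T i)` are connecting, `Ext¹(⨁T,T) = 0`), `Ext¹(T,E) = 0`, so
`E ≅ ⨁T` by `max`, and `E → Q` epi is zero.

`gen`: `X` with `Ext¹(T,X) = 0`.  Right approximation `p : ⨁T → X`, image `J`, cokernel `Q` (`factor`).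
`Ext¹(T,J) = 0` (quotient of `⨁T`), all maps `T j → X` lie in `J`, so `Hom(T,Q) = 0`; `Ext¹(T,Q) = 0`.  So
`Q = 0` and `p` is epi.

`pres`: kernel `N` of `p`: `Ext¹(T,N) = 0` (approximation, `Ext¹(T,⨁T) = 0`), `Ext¹(N,T) = 0`
(subobject of `⨁T`, hereditary), so `N ≅ ⨁T` by `max`.

`k0`: `univ_ext`: `0 → X → B → ⨁T → 0` with `Ext¹(T,B) = 0`; `pres` for `B`; `chi_cov`, `chi_con`,
`chi_sum_left`, `chi_sum_right`.
-/

set_option autoImplicit false

open CategoryTheory CategoryTheory.Limits CategoryTheory.Abelian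

namespace Pool.Agent.WQ

attribute [local instance] Abelian.hasFiniteBiproducts

universe t v u w x

variable (K : Type t) [Field K] {H : Type u} [Category.{v} H] [Abelian H] [Linear K H]
  [HasExt.{w} H] [Her K H] {I : Type x} [Fintype I]

/-- Internal form of cluster tilting: `End(T i) = K`, compositions `T i → T j → T i` vanish for
`i ≠ j`, rigid, and every `X` with `Ext¹(T, X) = 0 = Ext¹(X, T)` is a direct sum of `T i`. -/
structure CT (T : I → H) : Prop where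
  one : ∀ i, h0 K (T i) (T i) = 1
  rad : ∀ i j, i ≠ j → ∀ (f : T i ⟶ T j) (g : T j ⟶ T i), f ≫ g = 0
  rigid : ∀ i j, Z1 (T i) (T j)
  max : ∀ X : H, (∀ i, Z1 (T i) X) → (∀ i, Z1 X (T i)) →
    ∃ (n : ℕ) (f : Fin n → I), Nonempty (X ≅ ⨁ fun k => T (f k))

namespace Tilt

theorem cnt_sum {n : ℕ} [DecidableEq I] (f : Fin n → I) (g : I → ℤ) :
    ∑ i, (∑ k, if f k = i then (1 : ℤ) else 0) * g i = ∑ k, g (f k) := by
  simp_rw [Finset.sum_mul]
  rw [Finset.sum_comm]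
  refine Finset.sum_congr rfl fun k _ => ?_
  simp

end Tilt

namespace CT

variable {K} {T : I → H} (hT : CT K T)
include hT

theorem tilt_sum_right {n : ℕ} (f : Fin n → I) (j : I) : Z1 (T j) (⨁ fun k => T (f k)) :=
  (Z1_sum_right _ _).2 fun k => hT.rigid _ _

theorem tilt_sum_left {n : ℕ} (f : Fin n → I) (j : I) : Z1 (⨁ fun k => T (f k)) (T j) :=
  (Z1_sum_left _ _).2 fun k => hT.rigid _ _

theorem orth_zero {Q : H} (h : ∀ i, Z0 (T i) Q) (h' : ∀ i, Z1 (T i) Q) : IsZero Q := by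
  obtain ⟨n, f, B, i, p, w₀, hS, hconn, -⟩ := univ_coext K T Q
  have hBT : ∀ j, Z1 B (T j) := by
    intro j e
    obtain ⟨x, hx⟩ := Ext.contravariant_sequence_exact₂ hS (T j) e (hT.tilt_sum_left f j _)
    obtain ⟨u, rfl⟩ := hconn j x
    rw [← hx]
    exact hS.comp_extClass_assoc _ (add_zero 1)
  have hTB : ∀ j, Z1 (T j) B := fun j => cov_Z1_2 hS (hT.tilt_sum_right f j) (h' j)
  obtain ⟨m, f', ⟨e⟩⟩ := hT.max B hTB hBT
  have hp : p = 0 := by
    have h1 : Z0 (⨁ fun k => T (f' k)) Q := (Z0_sum_left _ _).2 fun k => h _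
    exact h1.of_iso e.symm (Iso.refl _) p
  haveI : Epi p := hS.epi_g
  exact IsZero.of_epi_eq_zero p hp

theorem tilt_epi {X : H} (h : ∀ i, Z1 (T i) X) {n : ℕ} {f : Fin n → I}
    (p : (⨁ fun k => T (f k)) ⟶ X) (hp : ∀ (j : I) (u : T j ⟶ X),
      ∃ v : T j ⟶ ⨁ fun k => T (f k), v ≫ p = u) : Epi p := by
  obtain ⟨N, J, Q, i, π, ι, q, w₁, w₂, hS1, hS2, hf⟩ := factor p
  have hJ : ∀ j, Z1 (T j) J := fun j => cov_Z1_3 K hS1 (hT.tilt_sum_right f j)
  have hQ0 : ∀ j, Z0 (T j) Q := by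
    intro j u
    obtain ⟨v, hv⟩ := (lift_iff hS2 u).2 (hJ j _)
    obtain ⟨v', hv'⟩ := hp j v
    have hv2 : v ≫ q = u := hv
    rw [← hv2, ← hv', ← hf, Category.assoc, Category.assoc, w₂, comp_zero, comp_zero]
  have hQ1 : ∀ j, Z1 (T j) Q := fun j => cov_Z1_3 K hS2 (h j)
  have hQ := hT.orth_zero hQ0 hQ1
  have hq : q = 0 := hQ.eq_of_tgt _ _
  haveI : Epi ι := hS2.exact.epi_f hq
  haveI : Epi π := hS1.epi_g
  rw [← hf]
  exact epi_comp _ _

/-- Objects `X` with `Ext¹(T, X) = 0` are generated by `T`. -/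
theorem gen {X Y : H} (h : ∀ i, Z1 (T i) X) (g : X ⟶ Y)
    (hg : ∀ (i : I) (u : T i ⟶ X), u ≫ g = 0) : g = 0 := by
  obtain ⟨n, f, p, hp, -⟩ := right_approx K T X
  haveI := hT.tilt_epi h p hp
  rw [← cancel_epi p, comp_zero]
  apply biproduct.hom_ext'
  intro k
  rw [comp_zero, ← Category.assoc]
  exact hg _ _

/-- Presentation by direct sums of `T i`. -/
theorem pres {X : H} (h : ∀ i, Z1 (T i) X) : ∃ (m n : ℕ) (f' : Fin m → I) (f : Fin n → I)
    (i : (⨁ fun k => T (f' k)) ⟶ ⨁ fun k => T (f k)) (p : (⨁ fun k => T (f k)) ⟶ X)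
    (w₀ : i ≫ p = 0), (ShortComplex.mk i p w₀).ShortExact ∧ (∀ k, ¬ Z0 (T (f k)) X) := by
  obtain ⟨n, f, p, hp, hne⟩ := right_approx K T X
  haveI := hT.tilt_epi h p hp
  have hS : (ShortComplex.mk (kernel.ι p) p (kernel.condition p)).ShortExact :=
    { exact := ShortComplex.exact_of_f_is_kernel _ (kernelIsKernel p)
      mono_f := inferInstanceAs (Mono (kernel.ι p))
      epi_g := inferInstanceAs (Epi p) }
  have h1 : ∀ j, Z1 (T j) (kernel p) := by
    intro j e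
    obtain ⟨u, rfl⟩ := conn_of_comp_f hS e (hT.tilt_sum_right f j _)
    exact (lift_iff hS u).1 (hp j u)
  have h2 : ∀ j, Z1 (kernel p) (T j) := fun j => con_Z1_1 K hS (hT.tilt_sum_left f j)
  obtain ⟨m, f', ⟨e⟩⟩ := hT.max _ h1 h2
  refine ⟨m, n, f', f, e.inv ≫ kernel.ι p, p, by rw [Category.assoc, kernel.condition, comp_zero],
    ?_, hne⟩
  refine ShortComplex.shortExact_of_iso ?_ hS
  exact ShortComplex.isoMk e (Iso.refl _) (Iso.refl _) (by simp) (by simp)

/-- The classes of the `T i` generate the Grothendieck group. -/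
theorem k0 (X : H) : ∃ c : I → ℤ, (∀ W, chi K X W = ∑ i, c i * chi K (T i) W) ∧
    ∀ W, chi K W X = ∑ i, c i * chi K W (T i) := by
  classical
  obtain ⟨n, f, B, i, p, w₀, hS, hconn, -⟩ := univ_ext K T X
  have hB : ∀ j, Z1 (T j) B := by
    intro j e
    obtain ⟨x, hx⟩ := Ext.covariant_sequence_exact₂ (T j) hS e (hT.tilt_sum_right f j _)
    obtain ⟨u, rfl⟩ := hconn j x
    rw [← hx]
    change ((Ext.mk₀ u).comp hS.extClass (zero_add 1)).comp (Ext.mk₀ i) (add_zero 1) = 0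
    rw [Ext.comp_assoc_of_third_deg_zero]
    have h1 : hS.extClass.comp (Ext.mk₀ i) (add_zero 1) = 0 := hS.extClass_comp
    rw [h1, Ext.comp_zero]
  obtain ⟨m, n', f', f'', i', p', w', hS', -⟩ := hT.pres hB
  refine ⟨fun j => (∑ k, if f'' k = j then (1 : ℤ) else 0) -
    (∑ k, if f' k = j then (1 : ℤ) else 0) - ∑ k, if f k = j then (1 : ℤ) else 0, ?_, ?_⟩
  · intro W
    have e1 := chi_con (K := K) hS (W := W)
    have e2 := chi_con (K := K) hS' (W := W)
    simp only at e1 e2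
    rw [chi_sum_left] at e1
    rw [chi_sum_left, chi_sum_left] at e2
    simp_rw [sub_mul]
    rw [Finset.sum_sub_distrib, Finset.sum_sub_distrib, Tilt.cnt_sum, Tilt.cnt_sum, Tilt.cnt_sum]
    linarith
  · intro W
    have e1 := chi_cov (K := K) hS (W := W)
    have e2 := chi_cov (K := K) hS' (W := W)
    simp only at e1 e2
    rw [chi_sum_right] at e1
    rw [chi_sum_right, chi_sum_right] at e2
    simp_rw [sub_mul]
    rw [Finset.sum_sub_distrib, Finset.sum_sub_distrib, Tilt.cnt_sum, Tilt.cnt_sum, Tilt.cnt_sum]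
    linarith

end CT

end Pool.Agent.WQ
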