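import Pool.Agent.WQ.DualB

/-!
# WQ: degree zero arrows (module 10)

`R0 T i j`: radical maps `T i → T j` (all for `i ≠ j`, zero for `i = j`); `R0sq`: span of products.

`top_SA`: for `M` with `Ext¹(T, M) = 0` and `E` with `SA K T i E`: `Hom(M, E)` is dual to
`Hom(T i, M) / ∑ₖ R0(i,k) Hom(T k, M)` (`topsub`).  Fix `π : T i → E` nonzero.  `g : M → E` gives the functional
`u ↦ c`, `u g = c π`.  Injective by `CT.gen`.  Surjective: presentation `0 → N → P → M → 0`,
`P = ⨁ T (f k)`, `N` direct sum of `T k`.  Given a functional `λ` vanishing on `topsub` let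
`g' : P → E` have the component `λ (ι k p) π` for `f k = i` and `0` otherwise.  `g'` vanishes on `N`:
for `v : T l → N → P` with components `v k : T l → T (f k)`: `∑ v k (ι k p) = 0`; if `l ≠ i`,
`Hom(T l, E) = 0`; if `l = i` the `v k` with `f k = i` are scalars `c k` (`scalar_of_one`), the others are
radical, so `0 = λ(∑ ..) = ∑ c k λ(ι k p)`.
`top_SB`: for `SB K T i E` the same with `Ext¹(M, E)`: `e ↦ (u ↦ u e ∈ Ext¹(T i, E) = K)`.

`a0_eq` (`i ≠ j`): `M = R`, `IsRad T j ρ`: `Hom(T i, R) ≅ R0 T i j` and `topsub` corresponds to `R0sq T i j`.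
Then compare `Hom(R, E i)` resp. `Ext¹(R, E i)` with `Hom¹(S j, S i)` along the sequences of
`SA.rad`, `SB.rad` (four cases).
-/

set_option autoImplicit false

open CategoryTheory CategoryTheory.Limits CategoryTheory.Abelian

namespace Pool.Agent.WQ

attribute [local instance] Abelian.hasFiniteBiproducts

universe t v u w x

variable (K : Type t) [Field K] {H : Type u} [Category.{v} H] [Abelian H] [Linear K H]
  {I : Type x}

/-- Radical maps `T i → T j`. -/
def R0 (T : I → H) (i j : I) : Submodule K (T i ⟶ T j) where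
  carrier := {f | i = j → f = 0}
  add_mem' := by
    intro a b ha hb h
    rw [ha h, hb h, add_zero]
  zero_mem' := fun _ => rfl
  smul_mem' := by
    intro c a ha h
    rw [ha h, smul_zero]

/-- Products of two radical maps. -/
def R0sq (T : I → H) (i j : I) : Submodule K (T i ⟶ T j) :=
  Submodule.span K {h | ∃ (k : I) (f : T i ⟶ T k) (g : T k ⟶ T j),
    f ∈ R0 K T i k ∧ g ∈ R0 K T k j ∧ h = f ≫ g}

/-- Maps `T i → M` that start with a radical map. -/
def topsub (T : I → H) (i : I) (M : H) : Submodule K (T i ⟶ M) :=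
  Submodule.span K {h | ∃ (k : I) (f : T i ⟶ T k) (g : T k ⟶ M), f ∈ R0 K T i k ∧ h = f ≫ g}

variable [HasExt.{w} H] [Her K H] [Fintype I] {K} {T : I → H}

namespace Top

omit [Fintype I] in
/-- dimension count for a perfect pairing -/
theorem dim_aux {V W : Type*} [AddCommGroup V] [Module K V] [AddCommGroup W] [Module K W]
    [Module.Finite K V] [Module.Finite K W] (β : V →ₗ[K] Module.Dual K W) (L : Submodule K W)
    (hinj : ∀ v, β v = 0 → v = 0) (h1 : ∀ v, ∀ x ∈ L, β v x = 0)
    (h2 : ∀ l : Module.Dual K W, (∀ x ∈ L, l x = 0) → ∃ v, β v = l) :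
    (Module.finrank K V : ℤ) = Module.finrank K W - Module.finrank K L := by
  have hr : LinearMap.range β = L.dualAnnihilator := by
    apply le_antisymm
    · rintro _ ⟨v, rfl⟩
      rw [Submodule.mem_dualAnnihilator]
      exact h1 v
    · intro l hl
      rw [Submodule.mem_dualAnnihilator] at hl
      obtain ⟨v, hv⟩ := h2 l hl
      exact ⟨v, hv⟩
  have e1 : Module.finrank K V = Module.finrank K L.dualAnnihilator := by
    rw [← hr]
    exact (LinearMap.finrank_range_of_inj ((injective_iff_map_eq_zero β).2 hinj)).symm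
  have e2 := Subspace.finrank_add_finrank_dualAnnihilator_eq L
  rw [e1, ← e2]
  push_cast
  ring

omit [HasExt.{w} H] [Her K H] [Fintype I] in
theorem topsub_mem {i k : I} (hik : i ≠ k) {M : H} (v : T i ⟶ T k) (w : T k ⟶ M) :
    v ≫ w ∈ topsub K T i M :=
  Submodule.subset_span ⟨k, v, w, fun h => absurd h hik, rfl⟩

omit [Fintype I] in
/-- Hom version of the local extension. -/
theorem loc0 {i : I} (hone : h0 K (T i) (T i) = 1) {E M : H} (φ : (T i ⟶ E) ≃ₗ[K] K)
    (l : Module.Dual K (T i ⟶ M)) (hl : ∀ x ∈ topsub K T i M, l x = 0) (k : I)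
    (w : T k ⟶ M) :
    ∃ g : T k ⟶ E, ∀ v : T i ⟶ T k, φ (v ≫ g) = l (v ≫ w) := by
  by_cases hik : i = k
  · subst hik
    refine ⟨l w • φ.symm 1, fun v => ?_⟩
    obtain ⟨c, rfl⟩ := scalar_of_one K hone v
    simp only [Linear.smul_comp, Category.id_comp, map_smul, LinearEquiv.apply_symm_apply,
      smul_eq_mul, mul_one]
  · refine ⟨0, fun v => ?_⟩
    rw [comp_zero, map_zero, hl _ (topsub_mem hik v w)]

omit [Fintype I] in
/-- Ext version of the local extension. -/
theorem loc1 {i : I} (hone : h0 K (T i) (T i) = 1) {E M : H} (φ : Ext (T i) E 1 ≃ₗ[K] K)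
    (l : Module.Dual K (T i ⟶ M)) (hl : ∀ x ∈ topsub K T i M, l x = 0) (k : I)
    (w : T k ⟶ M) :
    ∃ g : Ext (T k) E 1, ∀ v : T i ⟶ T k, φ ((Ext.mk₀ v).comp g (zero_add 1)) = l (v ≫ w) := by
  by_cases hik : i = k
  · subst hik
    refine ⟨l w • φ.symm 1, fun v => ?_⟩
    obtain ⟨c, rfl⟩ := scalar_of_one K hone v
    simp only [Linear.smul_comp, Category.id_comp, map_smul, Ext.mk₀_smul, Ext.smul_comp,
      Ext.mk₀_id_comp, LinearEquiv.apply_symm_apply,
      smul_eq_mul, mul_one]
  · refine ⟨0, fun v => ?_⟩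
    rw [Ext.comp_zero, map_zero, hl _ (topsub_mem hik v w)]

omit [HasExt.{w} H] [Her K H] [Fintype I] [Linear K H] in
theorem sum_comp {n : ℕ} {f : Fin n → I} {X Y : H} (v : X ⟶ ⨁ fun k => T (f k))
    (g : (⨁ fun k => T (f k)) ⟶ Y) :
    v ≫ g = ∑ k, (v ≫ biproduct.π (fun k => T (f k)) k) ≫
      biproduct.ι (fun k => T (f k)) k ≫ g := by
  conv_lhs => rw [← Category.id_comp g, ← biproduct.total]
  simp only [Preadditive.comp_sum, Preadditive.sum_comp, Category.assoc]

end Top

theorem top_SA (hT : CT K T) {i : I} {E : H} (h : SA K T i E) {M : H} (hM : ∀ k, Z1 (T k) M) :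
    (h0 K M E : ℤ) = h0 K (T i) M - Module.finrank K (topsub K T i M) := by
  let φ : (T i ⟶ E) ≃ₗ[K] K :=
    LinearEquiv.ofFinrankEq _ _ (by rw [Module.finrank_self]; exact h.one)
  let β : (M ⟶ E) →ₗ[K] Module.Dual K (T i ⟶ M) := LinearMap.mk₂ K (fun g u => φ (u ≫ g))
    (by intro a b u; rw [Preadditive.comp_add, map_add])
    (by intro c a u; rw [Linear.comp_smul, map_smul])
    (by intro a u v; rw [Preadditive.add_comp, map_add])
    (by intro c a u; rw [Linear.smul_comp, map_smul])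
  refine Top.dim_aux β _ ?_ ?_ ?_
  · intro g hg
    refine hT.gen hM g fun k u => ?_
    by_cases hik : k = i
    · subst hik
      apply φ.injective
      rw [map_zero]
      exact LinearMap.congr_fun hg u
    · exact h.z0 k hik _
  · intro g x hx
    refine (Submodule.span_le (p := LinearMap.ker (β g))).2 ?_ hx
    rintro _ ⟨k, u, v, hu, rfl⟩
    change φ ((u ≫ v) ≫ g) = 0
    by_cases hik : i = k
    · rw [hu hik, zero_comp, zero_comp, map_zero]
    · rw [Category.assoc, h.z0 k (fun e => hik e.symm) (v ≫ g), comp_zero, map_zero]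
  · intro l hl
    obtain ⟨m, n, f', f, a, p, w₀, hS, -⟩ := hT.pres hM
    choose g hg using fun k : Fin n => Top.loc0 (hT.one i) φ l hl (f k)
      (biproduct.ι (fun k => T (f k)) k ≫ p)
    let g' : (⨁ fun k => T (f k)) ⟶ E := biproduct.desc g
    have key : ∀ v : T i ⟶ ⨁ fun k => T (f k), φ (v ≫ g') = l (v ≫ p) := by
      intro v
      rw [Top.sum_comp v g', Top.sum_comp v p, map_sum, map_sum]
      refine Finset.sum_congr rfl fun k _ => ?_
      rw [← hg k, biproduct.ι_desc]
    have ha : a ≫ g' = 0 := by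
      apply biproduct.hom_ext'
      intro k
      rw [comp_zero]
      by_cases hik : f' k = i
      · subst hik
        apply φ.injective
        rw [map_zero, ← Category.assoc, key, Category.assoc, w₀, comp_zero, map_zero]
      · exact h.z0 (f' k) hik _
    obtain ⟨g'', hg''⟩ : ∃ g'' : M ⟶ E, p ≫ g'' = g' := by
      have := hS.epi_g
      exact ⟨hS.exact.desc g' ha, hS.exact.g_desc g' ha⟩
    refine ⟨g'', ?_⟩
    ext u
    obtain ⟨v, hv⟩ := (lift_iff hS u).2 (hT.tilt_sum_right f' i _)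
    have hv' : v ≫ p = u := hv
    change φ (u ≫ g'') = l u
    rw [← hv', Category.assoc, hg'', key]

theorem top_SB (hT : CT K T) {i : I} {E : H} (h : SB K T i E) {M : H} (hM : ∀ k, Z1 (T k) M) :
    (h1 K M E : ℤ) = h0 K (T i) M - Module.finrank K (topsub K T i M) := by
  let φ : Ext (T i) E 1 ≃ₗ[K] K :=
    LinearEquiv.ofFinrankEq _ _ (by rw [Module.finrank_self]; exact h.one)
  let β : Ext M E 1 →ₗ[K] Module.Dual K (T i ⟶ M) :=
    LinearMap.mk₂ K (fun g u => φ ((Ext.mk₀ u).comp g (zero_add 1)))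
    (by intro a b u; rw [Ext.comp_add, map_add])
    (by intro c a u; rw [Ext.comp_smul, map_smul])
    (by intro a u v; rw [Ext.mk₀_add, Ext.add_comp, map_add])
    (by intro c a u; rw [Ext.mk₀_smul, Ext.smul_comp, map_smul])
  refine Top.dim_aux β _ ?_ ?_ ?_
  · intro g hg
    have hg' : ∀ (k : I) (u : T k ⟶ M), (Ext.mk₀ u).comp g (zero_add 1) = 0 := by
      intro k u
      by_cases hik : k = i
      · subst hik
        apply φ.injective
        rw [map_zero]
        exact LinearMap.congr_fun hg u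
      · exact h.z1 k hik _
    obtain ⟨m, n, f', f, a, p, w₀, hS, -⟩ := hT.pres hM
    have hp : (Ext.mk₀ p).comp g (zero_add 1) = 0 := by
      apply ext_sum_left
      intro k
      rw [Ext.mk₀_comp_mk₀_assoc]
      exact hg' _ _
    obtain ⟨u, hu⟩ := conn_of_g_comp hS g hp
    have hu0 : u = 0 := (Z0_sum_left E (fun k => T (f' k))).2 (fun k => h.z0 _) u
    rw [← hu, hu0, Ext.mk₀_zero, Ext.comp_zero]
  · intro g x hx
    refine (Submodule.span_le (p := LinearMap.ker (β g))).2 ?_ hx
    rintro _ ⟨k, u, v, hu, rfl⟩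
    change φ ((Ext.mk₀ (u ≫ v)).comp g (zero_add 1)) = 0
    by_cases hik : i = k
    · rw [hu hik, zero_comp, Ext.mk₀_zero, Ext.zero_comp, map_zero]
    · rw [← Ext.mk₀_comp_mk₀_assoc, h.z1 k (fun e => hik e.symm) ((Ext.mk₀ v).comp g (zero_add 1)),
        Ext.comp_zero, map_zero]
  · intro l hl
    obtain ⟨m, n, f', f, a, p, w₀, hS, -⟩ := hT.pres hM
    choose g hg using fun k : Fin n => Top.loc1 (hT.one i) φ l hl (f k)
      (biproduct.ι (fun k => T (f k)) k ≫ p)
    obtain ⟨g', hg'⟩ := exists_ext_sum_left g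
    have key : ∀ v : T i ⟶ ⨁ fun k => T (f k),
        φ ((Ext.mk₀ v).comp g' (zero_add 1)) = l (v ≫ p) := by
      intro v
      have e1 : (Ext.mk₀ v).comp g' (zero_add 1) = ∑ k, (Ext.mk₀ (v ≫ biproduct.π _ k)).comp
          (g k) (zero_add 1) := by
        conv_lhs => rw [← Category.comp_id v, ← biproduct.total]
        rw [Preadditive.comp_sum, Ext.mk₀_sum, Ext.sum_comp]
        refine Finset.sum_congr rfl fun k _ => ?_
        rw [← hg' k, Ext.mk₀_comp_mk₀_assoc, Category.assoc]
      rw [e1, Top.sum_comp v p, map_sum, map_sum]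
      refine Finset.sum_congr rfl fun k _ => ?_
      rw [← hg k]
    have ha : (Ext.mk₀ a).comp g' (zero_add 1) = 0 := by
      apply ext_sum_left
      intro k
      rw [Ext.mk₀_comp_mk₀_assoc]
      by_cases hik : f' k = i
      · subst hik
        apply φ.injective
        rw [map_zero, key, Category.assoc, w₀, comp_zero, map_zero]
      · exact h.z1 (f' k) hik _
    obtain ⟨g'', hg''⟩ := Ext.contravariant_sequence_exact₂ hS E g' ha
    have hg2 : (Ext.mk₀ p).comp g'' (zero_add 1) = g' := hg''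
    refine ⟨g'', ?_⟩
    ext u
    obtain ⟨v, hv⟩ := (lift_iff hS u).2 (hT.tilt_sum_right f' i _)
    have hv' : v ≫ p = u := hv
    change φ ((Ext.mk₀ u).comp g'' (zero_add 1)) = l u
    rw [← hv', ← Ext.mk₀_comp_mk₀_assoc, hg2, key]

omit [Her K H] [Fintype I] in
theorem R0sq_le (hT : CT K T) (i j : I) : R0sq K T i j ≤ R0 K T i j := by
  rw [R0sq, Submodule.span_le]
  rintro _ ⟨k, f, g, hf, hg, rfl⟩ hij
  subst hij
  by_cases hik : i = k
  · rw [hf hik, zero_comp]
  · exact hT.rad i k hik f g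

namespace Top

omit [Fintype I] in
theorem h0_con {S : ShortComplex H} (hS : S.ShortExact) {W : H} (h0' : Z0 S.X₃ W)
    (h1' : Z1 S.X₃ W) : h0 K S.X₂ W = h0 K S.X₁ W := by
  refine (LinearEquiv.ofBijective (Linear.leftComp K W S.f) ⟨?_, ?_⟩).finrank_eq
  · rw [injective_iff_map_eq_zero]
    intro u hu
    have hu' : S.f ≫ u = 0 := hu
    have := hS.epi_g
    rw [← hS.exact.g_desc u hu', h0' (hS.exact.desc u hu'), comp_zero]
  · intro u
    exact (extend_iff hS u).2 (h1' _)

omit [Fintype I] in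
theorem h1_con {S : ShortComplex H} (hS : S.ShortExact) {W : H} (h0' : Z0 S.X₃ W)
    (h1' : Z1 S.X₃ W) : h1 K S.X₂ W = h1 K S.X₁ W := by
  have e1 := chi_con (K := K) hS (W := W)
  have e2 := h0_con (K := K) hS h0' h1'
  have e3 : h0 K S.X₃ W = 0 := (h0_eq_zero K).2 h0'
  have e4 : h1 K S.X₃ W = 0 := (h1_eq_zero K).2 h1'
  simp only [chi, e2, e3, e4] at e1
  omega

omit [Her K H] [Fintype I] in
theorem comp_rad_mem {i j : I} {R : H} {ρ : R ⟶ T j} (hR : IsRad T j ρ) {x : T i ⟶ R}
    (hx : x ∈ topsub K T i R) : x ≫ ρ ∈ R0sq K T i j := by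
  refine (Submodule.span_le (p := (R0sq K T i j).comap (Linear.rightComp K (T i) ρ))).2 ?_ hx
  rintro _ ⟨k, f, g, hf, rfl⟩
  refine Submodule.subset_span ⟨k, f, g ≫ ρ, hf, ?_, by
    rw [Linear.rightComp_apply, Category.assoc]⟩
  intro hk
  subst hk
  rw [hR.z0 g, zero_comp]

omit [Her K H] [Fintype I] in
theorem dim_R0 {i j : I} (hij : i ≠ j) {R : H} {ρ : R ⟶ T j} (hR : IsRad T j ρ) :
    Module.finrank K (R0 K T i j) = h0 K (T i) R := by
  have e : R0 K T i j = ⊤ := by
    rw [eq_top_iff]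
    intro x _ h
    exact absurd h hij
  rw [e, finrank_top]
  refine ((LinearEquiv.ofBijective (Linear.rightComp K (T i) ρ) ⟨?_, ?_⟩).finrank_eq).symm
  · rw [injective_iff_map_eq_zero]
    intro u hu
    exact hR.inj i u hu
  · intro u
    exact hR.lift i hij u

omit [Her K H] [Fintype I] in
theorem dim_R0sq {i j : I} (hij : i ≠ j) {R : H} {ρ : R ⟶ T j} (hR : IsRad T j ρ) :
    Module.finrank K (R0sq K T i j) = Module.finrank K (topsub K T i R) := by
  have hinj : Function.Injective (Linear.rightComp K (T i) ρ) := by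
    rw [injective_iff_map_eq_zero]
    intro u hu
    exact hR.inj i u hu
  have e : R0sq K T i j = (topsub K T i R).map (Linear.rightComp K (T i) ρ) := by
    apply le_antisymm
    · rw [R0sq, Submodule.span_le]
      rintro _ ⟨k, f, g, hf, hg, rfl⟩
      by_cases hk : k = j
      · rw [hg hk, comp_zero]
        exact Submodule.zero_mem _
      · obtain ⟨v, rfl⟩ := hR.lift k hk g
        refine ⟨f ≫ v, Submodule.subset_span ⟨k, f, v, hf, rfl⟩, ?_⟩
        rw [Linear.rightComp_apply, Category.assoc]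
    · rintro _ ⟨x, hx, rfl⟩
      exact comp_rad_mem hR hx
  rw [e]
  exact (Submodule.equivMapOfInjective _ hinj _).finrank_eq.symm

end Top

/-- Degree zero arrows `i → j`. -/
theorem a0_eq (hT : CT K T) (D : Dual K T) {i j : I} (hij : i ≠ j) :
    (Module.finrank K (R0 K T i j) : ℤ) - Module.finrank K (R0sq K T i j) = D.h 1 j i := by
  have main : ∀ {R : H} {ρ : R ⟶ T j}, IsRad T j ρ →
      (D.a i = 0 → h0 K R (D.E i) = D.h 1 j i) → (D.a i = 1 → h1 K R (D.E i) = D.h 1 j i) →
      (Module.finrank K (R0 K T i j) : ℤ) - Module.finrank K (R0sq K T i j) = D.h 1 j i := by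
    intro R ρ hR h1 h2
    rw [Top.dim_R0 hij hR, Top.dim_R0sq hij hR]
    rcases D.spec i with ⟨ha, hA⟩ | ⟨ha, hB⟩
    · rw [← h1 ha, top_SA hT hA hR.z1]
    · rw [← h2 ha, top_SB hT hB hR.z1]
  rcases D.spec j with ⟨haj, hj⟩ | ⟨haj, hj⟩
  · obtain ⟨R, ρ, π, w₀, hS, hR⟩ := hj.rad hT
    refine main hR ?_ ?_
    · intro hai
      have hE : SA K T i (D.E i) := by
        rcases D.spec i with ⟨-, h⟩ | ⟨h, -⟩
        · exact h
        · omega
      have z0 : Z0 (T j) (D.E i) := hE.z0 j hij.symm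
      have z1 : Z1 (T j) (D.E i) := hE.z1 j
      have e : D.h 1 j i = h1 K (D.E j) (D.E i) := by
        simp [Dual.h, hai, haj]
      rw [e]
      have e1 := chi_con (K := K) hS (W := D.E i)
      have e2 : h0 K (T j) (D.E i) = 0 := (h0_eq_zero K).2 z0
      have e3 : h1 K (T j) (D.E i) = 0 := (h1_eq_zero K).2 z1
      have e4 : h1 K R (D.E i) = 0 := (h1_eq_zero K).2 (con_Z1_1 K hS z1)
      have e5 : h0 K (D.E j) (D.E i) = 0 := (h0_eq_zero K).2 (con_Z0_3 hS z0)
      simp only [chi, e2, e3, e4, e5] at e1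
      omega
    · intro hai
      have hE : SB K T i (D.E i) := by
        rcases D.spec i with ⟨h, -⟩ | ⟨-, h⟩
        · omega
        · exact h
      have e : D.h 1 j i = 0 := by
        simp [Dual.h, hai, haj]
      rw [e]
      exact (h1_eq_zero K).2 (con_Z1_1 K hS (hE.z1 j hij.symm))
  · obtain ⟨R, ι, ρ, w₀, hS, hR⟩ := hj.rad hT
    refine main hR ?_ ?_
    · intro hai
      have hE : SA K T i (D.E i) := by
        rcases D.spec i with ⟨-, h⟩ | ⟨h, -⟩
        · exact h
        · omega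
      have e : D.h 1 j i = h0 K (D.E j) (D.E i) := by
        simp [Dual.h, hai, haj]
      rw [e]
      exact Top.h0_con hS (hE.z0 j hij.symm) (hE.z1 j)
    · intro hai
      have hE : SB K T i (D.E i) := by
        rcases D.spec i with ⟨h, -⟩ | ⟨-, h⟩
        · omega
        · exact h
      have e : D.h 1 j i = h1 K (D.E j) (D.E i) := by
        simp [Dual.h, hai, haj]
      rw [e]
      exact Top.h1_con hS (hE.z0 j) (hE.z1 j hij.symm)

end Pool.Agent.WQ
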