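import Pool.Agent.WQ.Simp
import Pool.Agent.WQ.K0

/-!
# WQ: periods of simple objects (module 19)

If `S, τ S, .., τ^N S` are pairwise nonisomorphic the classes `κ (τ^i S)`, `i < N`, have the unitriangular Gram
matrix `χ(τ^i S, τ^j S) = δ_ij - δ_(i+1) j` (`chi_simple`), so they are linearly independent in `ℤ^I` and
`N ≤ card I`.
-/

set_option autoImplicit false

open CategoryTheory CategoryTheory.Limits CategoryTheory.Abelian

namespace Pool.Agent.WQ

universe t v u w x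

variable {K : Type t} [Field K] [IsAlgClosed K] {H : Type u} [Category.{v} H] [Abelian H]
  [Linear K H] [HasExt.{w} H] [Her K H] {I : Type x} [Fintype I] [DecidableEq I]
  (𝒮 : Serre K H) (k : K0Data K H I)

namespace Serre

theorem tauPow_cancel {m n : ℕ} {X Y : H} (h : Nonempty (𝒮.tauPow (m + n) X ≅ 𝒮.tauPow n Y)) :
    Nonempty (𝒮.tauPow m X ≅ Y) := by
  induction n with
  | zero => exact h
  | succ n ih =>
    obtain ⟨e⟩ := h
    apply ih
    have h1 : 𝒮.tauPow (m + (n + 1)) X = 𝒮.τ.functor.obj (𝒮.tauPow (m + n) X) :=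
      Function.iterate_succ_apply' _ _ _
    have h2 : 𝒮.tauPow (n + 1) Y = 𝒮.τ.functor.obj (𝒮.tauPow n Y) :=
      Function.iterate_succ_apply' _ _ _
    exact ⟨𝒮.τ.functor.preimageIso (eqToIso h1.symm ≪≫ e ≪≫ eqToIso h2)⟩

namespace Tube

/-- cancellation, symmetric form -/
theorem sub {m n : ℕ} {X : H} (hmn : n ≤ m) (h : Nonempty (𝒮.tauPow m X ≅ 𝒮.tauPow n X)) :
    Nonempty (𝒮.tauPow (m - n) X ≅ X) := by
  apply 𝒮.tauPow_cancel (n := n)
  rwa [Nat.sub_add_cancel hmn]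

include k in
/-- the orbit of a simple object is finite -/
theorem exists_le {S : H} (hS : Simple S) :
    ∃ n, 0 < n ∧ n ≤ Fintype.card I + 1 ∧ Nonempty (𝒮.tauPow n S ≅ S) := by
  classical
  by_contra hcon
  push Not at hcon
  set N := Fintype.card I + 1 with hN
  -- pairwise nonisomorphic
  have hne : ∀ a b : ℕ, a ≤ N → b ≤ N → Nonempty (𝒮.tauPow a S ≅ 𝒮.tauPow b S) → a = b := by
    have key : ∀ a b : ℕ, a ≤ N → b < a → ¬ Nonempty (𝒮.tauPow a S ≅ 𝒮.tauPow b S) := by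
      intro a b ha hba h
      have h1 := sub 𝒮 hba.le h
      have h2 := hcon (a - b) (by omega) (by omega)
      obtain ⟨e⟩ := h1
      exact h2.elim e
    intro a b ha hb h
    rcases lt_trichotomy a b with h1 | h1 | h1
    · obtain ⟨e⟩ := h
      exact absurd ⟨e.symm⟩ (key b a hb h1)
    · exact h1
    · exact absurd h (key a b ha h1)
  -- the Gram matrix
  have hchi : ∀ a b : ℕ, a < N → b < N → chi K (𝒮.tauPow a S) (𝒮.tauPow b S) =
      (if a = b then 1 else 0) - if a + 1 = b then 1 else 0 := by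
    intro a b ha hb
    rw [𝒮.chi_simple (𝒮.simple_tauPow hS a) (𝒮.simple_tauPow hS b)]
    have h1 : 𝒮.ta (𝒮.tauPow a S) = 𝒮.tauPow (a + 1) S :=
      (Function.iterate_succ_apply' _ _ _).symm
    rw [h1]
    have e1 : Nonempty (𝒮.tauPow a S ≅ 𝒮.tauPow b S) ↔ a = b :=
      ⟨hne a b ha.le hb.le, fun h => by rw [h]; exact ⟨Iso.refl _⟩⟩
    have e2 : Nonempty (𝒮.tauPow (a + 1) S ≅ 𝒮.tauPow b S) ↔ a + 1 = b :=
      ⟨hne (a + 1) b (by omega) hb.le, fun h => by rw [h]; exact ⟨Iso.refl _⟩⟩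
    simp only [e1, e2]
  -- linear independence
  have hli : LinearIndependent ℤ (fun i : Fin N => k.κ (𝒮.tauPow i S)) := by
    rw [Fintype.linearIndependent_iff]
    intro c hc
    have h1 : ∀ i : Fin N, ∑ j : Fin N, c j * chi K (𝒮.tauPow i S) (𝒮.tauPow j S) = 0 := by
      intro i
      have h2 : dotProduct (k.κ (𝒮.tauPow i S)) (k.G.mulVec (∑ j : Fin N,
          c j • k.κ (𝒮.tauPow j S))) = 0 := by
        rw [hc, Matrix.mulVec_zero, dotProduct_zero]
      rw [Matrix.mulVec_sum, dotProduct_sum] at h2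
      rw [← h2]
      refine Finset.sum_congr rfl fun j _ => ?_
      rw [Matrix.mulVec_smul, dotProduct_smul, k.chi_eq, smul_eq_mul]
    -- values
    have h3 : ∀ i : Fin N, c i = if h : (i : ℕ) + 1 < N then c ⟨i + 1, h⟩ else 0 := by
      intro i
      have h4 := h1 i
      have h5 : ∀ j : Fin N, c j * chi K (𝒮.tauPow i S) (𝒮.tauPow j S) =
          (if i = j then c j else 0) - if (i : ℕ) + 1 = j then c j else 0 := by
        intro j
        rw [hchi i j i.2 j.2, mul_sub]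
        congr 1
        · by_cases h6 : i = j
          · rw [if_pos h6, if_pos (by rw [h6]), mul_one]
          · rw [if_neg h6, if_neg (fun h7 => h6 (Fin.ext h7)), mul_zero]
        · split_ifs
          · rw [mul_one]
          · rw [mul_zero]
      rw [Finset.sum_congr rfl fun j _ => h5 j, Finset.sum_sub_distrib, Finset.sum_ite_eq,
        if_pos (Finset.mem_univ _)] at h4
      split_ifs with h6
      · have h7 : ∑ j : Fin N, (if (i : ℕ) + 1 = j then c j else 0) = c ⟨i + 1, h6⟩ := by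
          rw [Finset.sum_eq_single ⟨(i : ℕ) + 1, h6⟩]
          · simp
          · intro j _ hj
            rw [if_neg]
            intro h8
            exact hj (Fin.ext h8.symm)
          · intro h8
            exact absurd (Finset.mem_univ _) h8
        rw [h7] at h4
        omega
      · have h7 : ∑ j : Fin N, (if (i : ℕ) + 1 = j then c j else 0) = 0 := by
          refine Finset.sum_eq_zero fun j _ => ?_
          rw [if_neg]
          intro h8
          exact h6 (h8 ▸ j.2)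
        rw [h7] at h4
        omega
    -- descending induction
    have h8 : ∀ d : ℕ, ∀ i : Fin N, N ≤ (i : ℕ) + d + 1 → c i = 0 := by
      intro d
      induction d with
      | zero =>
        intro i hi
        rw [h3 i, dif_neg (by omega)]
      | succ d ih =>
        intro i hi
        rw [h3 i]
        split_ifs with h9
        · exact ih _ (by simp only; omega)
        · rfl
    exact fun i => h8 N i (by omega)
  have h9 := hli.fintype_card_le_finrank
  rw [Fintype.card_fin, Module.finrank_fintype_fun_eq_card] at h9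
  omega

end Tube

include k in
theorem period_spec {S : H} (hS : Simple S) : 0 < 𝒮.period S ∧
    𝒮.period S ≤ Fintype.card I + 1 ∧ Nonempty (𝒮.tauPow (𝒮.period S) S ≅ S) := by
  obtain ⟨n, h1, h2, h3⟩ := Tube.exists_le 𝒮 k hS
  have h4 : n ∈ {n : ℕ | 0 < n ∧ Nonempty (𝒮.tauPow n S ≅ S)} := ⟨h1, h3⟩
  have h5 := Nat.sInf_mem ⟨n, h4⟩
  exact ⟨h5.1, (Nat.sInf_le h4).trans h2, h5.2⟩

namespace Tube

omit [IsAlgClosed K] [Her K H] in
/-- multiples of the period -/
theorem mul {S : H} {p : ℕ} (h : Nonempty (𝒮.tauPow p S ≅ S)) (q : ℕ) :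
    Nonempty (𝒮.tauPow (q * p) S ≅ S) := by
  induction q with
  | zero =>
    rw [Nat.zero_mul]
    exact ⟨Iso.refl _⟩
  | succ q ih =>
    obtain ⟨e⟩ := ih
    obtain ⟨e'⟩ := 𝒮.tauPow_iso (q * p) h
    rw [Nat.succ_mul, 𝒮.tauPow_add]
    exact ⟨e' ≪≫ e⟩

omit [IsAlgClosed K] [Her K H] in
/-- reduction modulo the period -/
theorem mod {S : H} {p : ℕ} (h : Nonempty (𝒮.tauPow p S ≅ S)) (n : ℕ) :
    Nonempty (𝒮.tauPow n S ≅ 𝒮.tauPow (n % p) S) := by
  have h1 := 𝒮.tauPow_iso (n % p) (mul 𝒮 h (n / p))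
  rwa [← 𝒮.tauPow_add, mul_comm, Nat.mod_add_div] at h1

omit [IsAlgClosed K] [Her K H] in
theorem tr {X Y Z : H} (h : Nonempty (X ≅ Y)) (h' : Nonempty (Y ≅ Z)) : Nonempty (X ≅ Z) := by
  obtain ⟨e⟩ := h
  obtain ⟨e'⟩ := h'
  exact ⟨e ≪≫ e'⟩

omit [IsAlgClosed K] [Her K H] in
theorem sy {X Y : H} (h : Nonempty (X ≅ Y)) : Nonempty (Y ≅ X) := by
  obtain ⟨e⟩ := h
  exact ⟨e.symm⟩

end Tube

include k in
theorem tauPow_iso_iff {S : H} (hS : Simple S) (m n : ℕ) :
    Nonempty (𝒮.tauPow m S ≅ 𝒮.tauPow n S) ↔ m ≡ n [MOD 𝒮.period S] := by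
  obtain ⟨hp, -, hpi⟩ := 𝒮.period_spec k hS
  have key : ∀ a b : ℕ, a < 𝒮.period S → b ≤ a →
      Nonempty (𝒮.tauPow a S ≅ 𝒮.tauPow b S) → a = b := by
    intro a b ha hab h
    by_contra hne
    have h1 := Tube.sub 𝒮 hab h
    have h2 : 𝒮.period S ≤ a - b := Nat.sInf_le ⟨by omega, h1⟩
    omega
  constructor
  · intro h
    have h1 : Nonempty (𝒮.tauPow (m % 𝒮.period S) S ≅ 𝒮.tauPow (n % 𝒮.period S) S) :=
      Tube.tr (Tube.sy (Tube.mod 𝒮 hpi m)) (Tube.tr h (Tube.mod 𝒮 hpi n))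
    show m % 𝒮.period S = n % 𝒮.period S
    rcases le_total (n % 𝒮.period S) (m % 𝒮.period S) with h2 | h2
    · exact key _ _ (Nat.mod_lt _ hp) h2 h1
    · exact (key _ _ (Nat.mod_lt _ hp) h2 (Tube.sy h1)).symm
  · intro h
    have h1 : m % 𝒮.period S = n % 𝒮.period S := h
    have h2 := Tube.mod 𝒮 hpi m
    rw [h1] at h2
    exact Tube.tr h2 (Tube.sy (Tube.mod 𝒮 hpi n))

include k in
theorem sameTube_iff {S S' : H} (hS : Simple S) : 𝒮.SameTube S S' ↔
    ∃ n < 𝒮.period S, Nonempty (𝒮.tauPow n S ≅ S') := by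
  obtain ⟨hp, -, hpi⟩ := 𝒮.period_spec k hS
  constructor
  · rintro ⟨a, b, h⟩
    have h1 : Nonempty (𝒮.tauPow (a + b * 𝒮.period S) S ≅ 𝒮.tauPow a S) :=
      (𝒮.tauPow_iso_iff k hS _ _).2 (Nat.add_mul_modulus_modEq_iff.2 rfl)
    have h2 : b ≤ a + b * 𝒮.period S :=
      le_add_left (Nat.le_mul_of_pos_right b hp)
    have h3 : Nonempty (𝒮.tauPow (a + b * 𝒮.period S - b) S ≅ S') := by
      apply 𝒮.tauPow_cancel (n := b)
      rw [Nat.sub_add_cancel h2]
      exact Tube.tr h1 h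
    exact ⟨_, Nat.mod_lt _ hp, Tube.tr (Tube.sy (Tube.mod 𝒮 hpi _)) h3⟩
  · rintro ⟨n, -, h⟩
    exact ⟨n, 0, h⟩

include k in
theorem period_sameTube {S S' : H} (hS : Simple S) (hS' : Simple S') (h : 𝒮.SameTube S S') :
    𝒮.period S = 𝒮.period S' := by
  obtain ⟨n, -, hn⟩ := (𝒮.sameTube_iff k hS).1 h
  obtain ⟨hp, -, hpi⟩ := 𝒮.period_spec k hS
  obtain ⟨hp', -, hpi'⟩ := 𝒮.period_spec k hS'
  have key : ∀ m, Nonempty (𝒮.tauPow (m + n) S ≅ 𝒮.tauPow m S') := by
    intro m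
    rw [𝒮.tauPow_add]
    exact 𝒮.tauPow_iso m hn
  apply Nat.dvd_antisymm
  · have h1 : Nonempty (𝒮.tauPow (𝒮.period S' + n) S ≅ 𝒮.tauPow n S) :=
      Tube.tr (key _) (Tube.tr hpi' (Tube.sy hn))
    have h2 := (𝒮.tauPow_iso_iff k hS _ _).1 h1
    rw [← Nat.modEq_zero_iff_dvd]
    have h3 : 𝒮.period S' + n ≡ 0 + n [MOD 𝒮.period S] := by rwa [zero_add]
    exact Nat.ModEq.add_right_cancel' n h3
  · have h1 : Nonempty (𝒮.tauPow (𝒮.period S + n) S ≅ 𝒮.tauPow n S) :=
      (𝒮.tauPow_iso_iff k hS _ _).2 (by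
        show (𝒮.period S + n) % 𝒮.period S = n % 𝒮.period S
        rw [Nat.add_mod_left])
    have h2 : Nonempty (𝒮.tauPow (𝒮.period S) S' ≅ 𝒮.tauPow 0 S') :=
      Tube.tr (Tube.sy (key _)) (Tube.tr h1 hn)
    have h3 := (𝒮.tauPow_iso_iff k hS' _ _).1 h2
    exact (Nat.modEq_zero_iff_dvd).1 h3

/-- The class `∑ κ (τ^j S)` of a tube. -/
noncomputable def wcl (S : H) : I → ℤ :=
  ∑ j ∈ Finset.range (𝒮.period S), k.κ (𝒮.tauPow j S)

/-- `χ(X, w_S)`. -/
noncomputable def rk (S X : H) : ℤ :=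
  ∑ j ∈ Finset.range (𝒮.period S), chi K X (𝒮.tauPow j S)

end Serre

end Pool.Agent.WQ
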