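import Pool.Agent.WQ.Tube
import Pool.Agent.WQ.Yon

/-!
# WQ: rank functions and twists (module 20a)

`rk S X = χ(X, w_S)`: additive, vanishes on `FL` (`chi_simple`: both counts agree), `rk S (τ X) = rk S X`.
`twist`: `X` without simple subobjects, `rk S X > 0`: there are `X'` without simple subobjects and
`0 → X → X' → F → 0`, `κ F = w_S`.  Some `Hom(X, τ^(a+1) S) ≠ 0` (`chi_noSimple`; one may take `a ≥ period`), so
`Ext¹(τ^a S, X) ≠ 0`; a nonsplit extension `0 → X → X₁ → τ^a S → 0` (`exists_ses`) has no simple subobject and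
`χ(X₁, τ^a S) = χ(X, τ^a S) + 1 > 0` (for period `≥ 2`; for period one a single step suffices): repeat with
`a - 1`, .., `p` steps around the tube.
-/

set_option autoImplicit false

open CategoryTheory CategoryTheory.Limits CategoryTheory.Abelian

namespace Pool.Agent.WQ

universe t v u w x

variable {K : Type t} [Field K] [IsAlgClosed K] {H : Type u} [Category.{v} H] [Abelian H]
  [Linear K H] [HasExt.{w} H] [Her K H] {I : Type x} [Fintype I] [DecidableEq I]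
  (𝒮 : Serre K H) (k : K0Data K H I)

namespace Serre

theorem Twist_cyc {A : Type*} [AddCommGroup A] (f : ℕ → A) (p : ℕ) (h : f p = f 0) :
    ∑ j ∈ Finset.range p, f j = ∑ j ∈ Finset.range p, f (j + 1) := by
  have h1 := Finset.sum_range_succ f p
  have h2 := Finset.sum_range_succ' f p
  rw [h1, h] at h2
  exact add_right_cancel h2

theorem Twist_shift {A : Type*} [AddCommGroup A] (f : ℕ → A) (p : ℕ) (h : ∀ j, f (j + p) = f j)
    (m : ℕ) : ∑ j ∈ Finset.range p, f (m + j) = ∑ j ∈ Finset.range p, f j := by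
  induction m with
  | zero => simp
  | succ m ih =>
    rw [← ih, Twist_cyc (fun j => f (m + j)) p (by simpa using h m)]
    apply Finset.sum_congr rfl
    intro j _
    congr 1
    omega

theorem Twist_tauPow_succ (n : ℕ) (X : H) : 𝒮.tauPow (n + 1) X = 𝒮.ta (𝒮.tauPow n X) :=
  Function.iterate_succ_apply' _ n X

theorem Twist_Z1_zero {X W : H} (hX : IsZero X) : Z1 X W := by
  intro e
  have h1 : (Ext.mk₀ (𝟙 X)).comp e (zero_add 1) = e := Ext.mk₀_id_comp e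
  rw [hX.eq_of_src (𝟙 X) 0, Ext.mk₀_zero, Ext.zero_comp] at h1
  exact h1.symm

theorem Twist_chi_zero {X W : H} (hX : IsZero X) : chi K X W = 0 := by
  have h0 : h0 K X W = 0 := (h0_eq_zero K).mpr (fun f => hX.eq_of_src f 0)
  have h1 : h1 K X W = 0 := (h1_eq_zero K).mpr (Twist_Z1_zero hX)
  rw [chi, h0, h1]
  simp

theorem Twist_ta_iso {X Y : H} : Nonempty (𝒮.ta X ≅ 𝒮.ta Y) ↔ Nonempty (X ≅ Y) :=
  ⟨fun ⟨e⟩ => ⟨𝒮.τ.functor.preimageIso e⟩, fun ⟨e⟩ => ⟨𝒮.τ.functor.mapIso e⟩⟩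

theorem Twist_chi_ta (X Y : H) : chi K (𝒮.ta X) (𝒮.ta Y) = chi K X Y := by
  rw [𝒮.chi_tau, 𝒮.chi_tau, neg_neg]

theorem rk_eq (S X : H) : 𝒮.rk S X = dotProduct (k.κ X) (k.G.mulVec (𝒮.wcl k S)) := by
  rw [rk, wcl, Matrix.mulVec_sum, dotProduct_sum]
  apply Finset.sum_congr rfl
  intro j _
  exact k.chi_eq _ _

include k in
theorem rk_add {S : H} (C : ShortComplex H) (hC : C.ShortExact) :
    𝒮.rk S C.X₂ = 𝒮.rk S C.X₁ + 𝒮.rk S C.X₃ := by
  rw [𝒮.rk_eq k, 𝒮.rk_eq k, 𝒮.rk_eq k, k.add C hC, add_dotProduct]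

include k in
theorem rk_tau {S : H} (hS : Simple S) (X : H) : 𝒮.rk S (𝒮.ta X) = 𝒮.rk S X := by
  obtain ⟨-, -, ⟨e⟩⟩ := 𝒮.period_spec k hS
  unfold rk
  rw [Twist_cyc (fun j => chi K (𝒮.ta X) (𝒮.tauPow j S)) _ (chi_iso K (Iso.refl _) e)]
  apply Finset.sum_congr rfl
  intro j _
  rw [Twist_tauPow_succ, Twist_chi_ta]

include k in
theorem rk_FL {S X : H} (hS : Simple S) (hX : FL X) : 𝒮.rk S X = 0 := by
  classical
  induction hX with
  | zero hZ =>
    unfold rk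
    exact Finset.sum_eq_zero (fun j _ => Twist_chi_zero hZ)
  | @ext A B S' i p w₀ hC hA hS' ih =>
    have h1 := 𝒮.rk_add k (S := S) _ hC
    have h2 : 𝒮.rk S S' = 0 := by
      obtain ⟨-, -, ⟨e⟩⟩ := 𝒮.period_spec k hS
      unfold rk
      rw [Finset.sum_congr rfl (fun j _ => 𝒮.chi_simple hS' (𝒮.simple_tauPow hS j)),
        Finset.sum_sub_distrib]
      have h3 := Twist_cyc (fun j => if Nonempty (𝒮.ta S' ≅ 𝒮.tauPow j S) then (1 : ℤ) else 0)
        (𝒮.period S) (by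
          have : Nonempty (𝒮.ta S' ≅ 𝒮.tauPow (𝒮.period S) S) ↔
              Nonempty (𝒮.ta S' ≅ 𝒮.tauPow 0 S) :=
            ⟨fun ⟨g⟩ => ⟨g ≪≫ e⟩, fun ⟨g⟩ => ⟨g ≪≫ e.symm⟩⟩
          simp only [this])
      rw [h3]
      simp only [Twist_tauPow_succ, Twist_ta_iso, sub_self]
    rw [h1, h2]
    simp only
    rw [ih, add_zero]

include k in
theorem Twist_step {S X : H} (hS : Simple S) (hX : ∀ S : H, Simple S → Z0 S X)
    (h : 0 < h0 K X (𝒮.ta S)) :
    ∃ X' : H, (∀ S : H, Simple S → Z0 S X') ∧ k.κ X' = k.κ X + k.κ S ∧ 0 < h0 K X' S := by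
  classical
  have h1 : h1 K S X ≠ 0 := by
    rw [← 𝒮.h0_tau]
    exact h.ne'
  have h2 : ∃ e : Ext S X 1, e ≠ 0 := by
    by_contra hcon
    push Not at hcon
    exact h1 ((h1_eq_zero K).mpr hcon)
  obtain ⟨e, he⟩ := h2
  obtain ⟨Y, f, g, w₀, hC, hext⟩ := exists_ses e
  have hmono := hC.mono_f
  have hY : ∀ S' : H, Simple S' → Z0 S' Y := by
    intro S' hS' u
    by_contra hu
    have hu' : u ≫ g = 0 := by
      by_contra hug
      have hiso : IsIso (u ≫ g) := isIso_of_hom_simple hug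
      have h3 := (lift_iff hC (𝟙 S)).1 ⟨inv (u ≫ g) ≫ u, by simp⟩
      rw [Ext.mk₀_id_comp, hext] at h3
      exact he h3
    apply hu
    have h4 : hC.exact.lift u hu' ≫ f = u := hC.exact.lift_f u hu'
    rw [← h4, hX S' hS' (hC.exact.lift u hu'), zero_comp]
  refine ⟨Y, hY, k.add _ hC, ?_⟩
  have h5 : chi K Y S = chi K X S + chi K S S := chi_con K hC
  rw [𝒮.chi_simple hS hS, (𝒮.chi_noSimple hY hS).1, (𝒮.chi_noSimple hX hS).1,
    if_pos ⟨Iso.refl S⟩] at h5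
  by_cases h6 : Nonempty (𝒮.ta S ≅ S)
  · rw [if_pos h6] at h5
    obtain ⟨e6⟩ := h6
    have h7 : h0 K X (𝒮.ta S) = h0 K X S := h0_iso K (Iso.refl X) e6
    omega
  · rw [if_neg h6] at h5
    omega

include k in
theorem Twist_steps {S : H} (hS : Simple S) (b m : ℕ) : ∀ X : H, (∀ S : H, Simple S → Z0 S X) →
    0 < h0 K X (𝒮.tauPow (b + m) S) →
    ∃ X' : H, (∀ S : H, Simple S → Z0 S X') ∧
      k.κ X' = k.κ X + ∑ i ∈ Finset.range m, k.κ (𝒮.tauPow (b + i) S) := by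
  induction m with
  | zero =>
    intro X hX _
    exact ⟨X, hX, by simp⟩
  | succ m ih =>
    intro X hX h
    rw [← add_assoc, Twist_tauPow_succ] at h
    obtain ⟨X₁, hX₁, hκ, hpos⟩ := 𝒮.Twist_step k (𝒮.simple_tauPow hS (b + m)) hX h
    obtain ⟨X', hX', hκ'⟩ := ih X₁ hX₁ hpos
    refine ⟨X', hX', ?_⟩
    rw [hκ', hκ, Finset.sum_range_succ]
    abel

include k in
theorem twist {S X : H} (hS : Simple S) (hX : ∀ S : H, Simple S → Z0 S X) (h : 0 < 𝒮.rk S X) :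
    ∃ X' : H, (∀ S : H, Simple S → Z0 S X') ∧ k.κ X' = k.κ X + 𝒮.wcl k S := by
  obtain ⟨-, -, ⟨e⟩⟩ := 𝒮.period_spec k hS
  have hper : ∀ j, Nonempty (𝒮.tauPow (j + 𝒮.period S) S ≅ 𝒮.tauPow j S) := by
    intro j
    rw [tauPow_add]
    exact 𝒮.tauPow_iso j ⟨e⟩
  have h1 : ∃ j, 0 < h0 K X (𝒮.tauPow j S) := by
    by_contra hcon
    push Not at hcon
    have h2 : 𝒮.rk S X = 0 := by
      unfold rk
      apply Finset.sum_eq_zero
      intro j _
      rw [(𝒮.chi_noSimple hX (𝒮.simple_tauPow hS j)).1]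
      have := hcon j
      have h3 : h0 K X (𝒮.tauPow j S) = 0 := by omega
      rw [h3]
      rfl
    rw [h2] at h
    exact lt_irrefl _ h
  obtain ⟨j, hj⟩ := h1
  obtain ⟨e'⟩ := hper j
  have h2 : 0 < h0 K X (𝒮.tauPow (j + 𝒮.period S) S) := by
    rw [h0_iso K (Iso.refl X) e']
    exact hj
  obtain ⟨X', hX', hκ⟩ := 𝒮.Twist_steps k hS j (𝒮.period S) X hX h2
  refine ⟨X', hX', ?_⟩
  rw [hκ, wcl, Twist_shift (fun i => k.κ (𝒮.tauPow i S)) (𝒮.period S)
    (fun i => k.iso _ _ (hper i)) j]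

end Serre

end Pool.Agent.WQ
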